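import Pool.Agent.Lib.MP_17a322_ntLF.NDefs

/-!
# LEAF C1 (easy+): linear forms are irreducible

PROOF.  `coeff_lf`: `MvPolynomial.coeff` of `C a * X t` (`MvPolynomial.coeff_C_mul`, `MvPolynomial.coeff_X'`, only the summand `t`
remains).  `lf_ne`: some coordinate of `z` is not 0, so a coefficient of `lf z` is not 0.  `lf_smul`: `map_mul`, `Finset.mul_sum`.
`lf_irr`: `lf z ≠ 0` is homogeneous of degree 1 (`IsHomogeneous.sum`, `isHomogeneous_C_mul_X`), so its total degree is 1
(`IsHomogeneous.totalDegree`); if `lf z = a * b` then `a.totalDegree + b.totalDegree = 1` (`MvPolynomial.totalDegree_mul_of_isDomain`), so one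
of them has total degree 0: it is `C c` (`MvPolynomial.totalDegree_eq_zero_iff_eq_C`) with `c ≠ 0`, a unit.  `lf z` is not a unit: a unit has total degree 0
(`totalDegree_mul_of_isDomain` with the inverse).
`lf_assoc`: `lf z * u = lf w` with a unit `u`; by the same argument `u = C c`, `c ≠ 0`; compare the coefficients.
-/

namespace LVF

open Finset

variable {F : Type} [Field F] {q : ℕ}

theorem coeff_lf (z : Fin q → F) (t : Fin q) : MvPolynomial.coeff (Finsupp.single t 1) (lf z) = z t := by
  classical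
  unfold lf
  rw [MvPolynomial.coeff_sum, Finset.sum_eq_single t]
  · rw [MvPolynomial.coeff_C_mul, MvPolynomial.coeff_X, if_pos rfl, mul_one]
  · intro b _ hb
    rw [MvPolynomial.coeff_C_mul, MvPolynomial.coeff_X, if_neg, mul_zero]
    intro h
    exact hb (Finsupp.single_left_injective one_ne_zero h)
  · intro h
    exact absurd (Finset.mem_univ t) h

theorem lf_ne {z : Fin q → F} (hz : z ≠ 0) : lf z ≠ 0 := by
  obtain ⟨t, ht⟩ := Function.ne_iff.1 hz
  intro h
  have h1 := coeff_lf z t
  rw [h, MvPolynomial.coeff_zero] at h1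
  exact ht h1.symm

theorem lf_smul (c : F) (z : Fin q → F) : lf (c • z) = MvPolynomial.C c * lf z := by
  unfold lf
  rw [Finset.mul_sum]
  refine Finset.sum_congr rfl fun t _ => ?_
  rw [Pi.smul_apply, smul_eq_mul, MvPolynomial.C_mul, mul_assoc]

theorem lf_irr {z : Fin q → F} (hz : z ≠ 0) : Irreducible (lf z) := by
  have hne := lf_ne hz
  have hh : (lf z).IsHomogeneous 1 := by
    unfold lf
    exact MvPolynomial.IsHomogeneous.sum _ _ _ fun t _ => MvPolynomial.isHomogeneous_C_mul_X _ _
  have htd : (lf z).totalDegree = 1 := hh.totalDegree hne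
  have key : ∀ a : MvPolynomial (Fin q) F, a ≠ 0 → a.totalDegree = 0 → IsUnit a := by
    intro a ha h
    rw [MvPolynomial.totalDegree_eq_zero_iff_eq_C] at h
    rw [h] at ha ⊢
    have hc : MvPolynomial.coeff 0 a ≠ 0 := by
      intro h0
      rw [h0, MvPolynomial.C_0] at ha
      exact ha rfl
    exact (isUnit_iff_ne_zero.2 hc).map MvPolynomial.C
  refine ⟨?_, ?_⟩
  · intro hu
    obtain ⟨v, hv⟩ := hu.exists_right_inv
    have hv0 : v ≠ 0 := by
      intro h
      rw [h, mul_zero] at hv
      exact zero_ne_one hv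
    have h1 := MvPolynomial.totalDegree_mul_of_isDomain hne hv0
    rw [hv, MvPolynomial.totalDegree_one, htd] at h1
    omega
  · intro a b hab
    have ha : a ≠ 0 := by
      intro h
      rw [h, zero_mul] at hab
      exact hne hab
    have hb : b ≠ 0 := by
      intro h
      rw [h, mul_zero] at hab
      exact hne hab
    have h1 := MvPolynomial.totalDegree_mul_of_isDomain ha hb
    rw [← hab, htd] at h1
    rcases Nat.eq_zero_or_pos a.totalDegree with h2 | h2
    · exact Or.inl (key a ha h2)
    · exact Or.inr (key b hb (by omega))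

theorem lf_assoc {z w : Fin q → F} (h : Associated (lf z) (lf w)) : ∃ c : F, c ≠ 0 ∧ w = c • z := by
  by_cases hz : z = 0
  · refine ⟨1, one_ne_zero, ?_⟩
    by_contra hw
    rw [one_smul] at hw
    have hw0 : w ≠ 0 := fun h1 => hw (h1.trans hz.symm)
    have h1 : lf z = 0 := by
      rw [hz]
      unfold lf
      refine Finset.sum_eq_zero fun t _ => ?_
      rw [Pi.zero_apply, MvPolynomial.C_0, zero_mul]
    rw [h1] at h
    exact lf_ne hw0 (h.eq_zero_iff.1 rfl)
  · obtain ⟨u, hu⟩ := h
    obtain ⟨c, hc, h1⟩ := MvPolynomial.isUnit_iff_eq_C_of_isReduced.1 u.isUnit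
    rw [h1] at hu
    refine ⟨c, hc.ne_zero, ?_⟩
    funext t
    rw [← coeff_lf w t, ← hu, mul_comm, MvPolynomial.coeff_C_mul, coeff_lf, Pi.smul_apply, smul_eq_mul]

end LVF
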