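import Pool.Agent.Lib.MP_17a322_ntLF.NDefs

/-!
# LEAF C2 (easy): normalised vectors

PROOF.  `nm_ne`: a coordinate is 1.  `exists_nm`: let `w` be the least index with `z w ≠ 0` (`Finset.min'` of the nonempty filter, or `Fin.find`, or
`WellFounded.min`), `c = (z w)⁻¹`.  `nm_unique`: `z w1 = 1`, `z` is 0 before `w1`; `w w2 = 1`, `w` is 0 before `w2`; `w = c • z` has the value 1 at `w2`, so `c ≠ 0`, so `w` and `z`
have the same zeros and `w1 = w2` (trichotomy); then `1 = c * 1`.  `nm_fr`: `1 ^ p = 1`, `0 ^ p = 0`.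
-/

namespace LVF

variable {F : Type} [Field F] {q : ℕ}

theorem nm_ne {z : Fin q → F} (h : Nm z) : z ≠ 0 := by
  obtain ⟨w, hw, -⟩ := h
  intro h0
  rw [h0, Pi.zero_apply] at hw
  exact zero_ne_one hw

theorem exists_nm {z : Fin q → F} (hz : z ≠ 0) : ∃ c : F, c ≠ 0 ∧ Nm (c • z) := by
  obtain ⟨w, hw, hmin⟩ := WellFounded.has_min (r := fun a b : Fin q => a < b) wellFounded_lt {w | z w ≠ 0}
    (Function.ne_iff.1 hz)
  refine ⟨(z w)⁻¹, inv_ne_zero hw, w, ?_, fun w' hw' => ?_⟩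
  · rw [Pi.smul_apply, smul_eq_mul]
    exact inv_mul_cancel₀ hw
  · have h1 : z w' = 0 := by
      by_contra h2
      exact hmin w' h2 hw'
    rw [Pi.smul_apply, smul_eq_mul, h1, mul_zero]

theorem nm_unique {z w : Fin q → F} (hz : Nm z) (hw : Nm w) {c : F} (h : w = c • z) : c = 1 ∧ w = z := by
  obtain ⟨w1, hz1, hz2⟩ := hz
  obtain ⟨w2, hw1, hw2⟩ := hw
  have hc : ∀ t, w t = c * z t := by
    intro t
    rw [h, Pi.smul_apply, smul_eq_mul]
  have hc0 : c ≠ 0 := by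
    intro h0
    have h1 := hc w2
    rw [hw1, h0, zero_mul] at h1
    exact one_ne_zero h1
  have h12 : w1 = w2 := by
    rcases lt_trichotomy w1 w2 with h1 | h1 | h1
    · have h2 := hc w1
      rw [hw2 w1 h1, hz1, mul_one] at h2
      exact absurd h2.symm hc0
    · exact h1
    · have h2 := hc w2
      rw [hw1, hz2 w2 h1, mul_zero] at h2
      exact absurd h2 one_ne_zero
  have h1 : c = 1 := by
    have h2 := hc w2
    rw [hw1, ← h12, hz1, mul_one] at h2
    exact h2.symm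
  refine ⟨h1, ?_⟩
  rw [h, h1, one_smul]

theorem nm_fr {p : ℕ} (hp : p ≠ 0) {z : Fin q → F} (h : Nm z) : Nm (fr p z) := by
  obtain ⟨w, hw, hw'⟩ := h
  refine ⟨w, ?_, fun w' h1 => ?_⟩
  · rw [fr, hw, one_pow]
  · rw [fr, hw' w' h1, zero_pow hp]

end LVF
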