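import Pool.Agent.Lib.MP_17a322_ntLF.C1
import Pool.Agent.Lib.MP_17a322_ntLF.C2

/-!
# LEAF C3 (medium): a product of normalised linear forms determines the forms

PROOF.  `MvPolynomial (Fin q) F` is a unique factorisation domain.  The two products are associated (`C c`, `C c'` are units), all their factors are
irreducible (`lf_irr`, `nm_ne`).  By `UniqueFactorizationMonoid.factors_unique` (for multisets of irreducible elements with associated products)
`Multiset.Rel Associated (Z.map lf) (Z'.map lf)`; by `Multiset.rel_map` this is `Multiset.Rel (fun z w => Associated (lf z) (lf w)) Z Z'`, and with `lf_assoc` and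
`nm_unique` `Multiset.Rel (· = ·) Z Z'` (`Multiset.Rel.mono`), so `Z = Z'` (`Multiset.rel_eq`).  Then cancel the product (not 0: `Multiset.prod_ne_zero`-type lemma, `lf_ne`):
`C c = C c'`, `MvPolynomial.C_injective`.
-/

namespace LVF

variable {F : Type} [Field F] {q : ℕ}

theorem mul_unique {Z Z' : Multiset (Fin q → F)} (hZ : ∀ x ∈ Z, Nm x) (hZ' : ∀ x ∈ Z', Nm x) {c c' : F} (hc : c ≠ 0)
    (hc' : c' ≠ 0) (h : MvPolynomial.C c * (Z.map lf).prod = MvPolynomial.C c' * (Z'.map lf).prod) : Z = Z' ∧ c = c' := by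
  have h1 : IsUnit (MvPolynomial.C c : MvPolynomial (Fin q) F) :=
    (isUnit_iff_ne_zero.2 hc).map MvPolynomial.C
  have h2 : IsUnit (MvPolynomial.C c' : MvPolynomial (Fin q) F) :=
    (isUnit_iff_ne_zero.2 hc').map MvPolynomial.C
  have h3 : Associated (MvPolynomial.C c * (Z.map lf).prod) (MvPolynomial.C c' * (Z'.map lf).prod) := by
    rw [h]
  rw [associated_isUnit_mul_left_iff h1, associated_isUnit_mul_right_iff h2] at h3
  have h4 := UniqueFactorizationMonoid.factors_unique (f := Z.map lf) (g := Z'.map lf) (by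
    intro x hx
    obtain ⟨z, hz, rfl⟩ := Multiset.mem_map.1 hx
    exact lf_irr (nm_ne (hZ z hz))) (by
    intro x hx
    obtain ⟨z, hz, rfl⟩ := Multiset.mem_map.1 hx
    exact lf_irr (nm_ne (hZ' z hz))) h3
  rw [Multiset.rel_map] at h4
  have h5 : Multiset.Rel (· = ·) Z Z' := h4.mono fun a ha b hb hab => by
    obtain ⟨e, _, he⟩ := lf_assoc hab
    exact (nm_unique (hZ a ha) (hZ' b hb) he).2.symm
  rw [Multiset.rel_eq] at h5
  refine ⟨h5, ?_⟩
  have h6 : (Z.map lf).prod ≠ 0 := by
    refine Multiset.prod_ne_zero fun h0 => ?_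
    obtain ⟨z, hz, hz0⟩ := Multiset.mem_map.1 h0
    exact lf_ne (nm_ne (hZ z hz)) hz0
  rw [← h5] at h
  exact MvPolynomial.C_injective _ _ (mul_right_cancel₀ h6 h)

end LVF
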