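import Pool.Agent.Lib.MP_17a322_ntLF.NDefs

/-!
# LEAF C4 (easy+): the Frobenius automorphism of the coefficients

PROOF.  `map_frob_lf`: `MvPolynomial.map` of sums, products, `C`, `X` (`map_sum`, `map_mul`, `MvPolynomial.map_C`, `MvPolynomial.map_X`, `frobenius_def`).
`frob_prod`: apply `MvPolynomial.map (frobenius (Kb p) p)` to both sides of `hΦ`: the left side is `map ((frobenius _ _).comp (algebraMap _ _)) Φ`
(`MvPolynomial.map_map`), and `(algebraMap a) ^ p = algebraMap (a ^ p) = algebraMap a` (`ZMod.pow_card`); the right side is `∏ lf (fr p (z k))` by `map_frob_lf`.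
`fix_iff`: from right to left `ZMod.pow_card`.  From left to right: `X ^ p - X` over `Kb p` has at most `p` roots
(`Polynomial.card_roots'`, `Polynomial.natDegree_sub_eq_left_of_natDegree_lt`, or `FiniteField.X_pow_card_sub_X_natDegree_eq`), the `p` images of `ZMod p` are roots, so they are all the
roots (`Finset.eq_of_subset_of_card_le`).  (Perhaps Mathlib has it.)
-/

namespace LVF

open Finset

variable {p : ℕ} [Fact p.Prime] {q : ℕ}

theorem map_frob_lf (z : Fin q → Kb p) : MvPolynomial.map (frobenius (Kb p) p) (lf z) = lf (fr p z) := by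
  simp only [lf, fr, map_sum, map_mul, MvPolynomial.map_C, MvPolynomial.map_X, frobenius_def]

theorem frob_prod {m : ℕ} (z : Fin m → Fin q → Kb p)
    (hΦ : ∃ Φ : MvPolynomial (Fin q) (ZMod p), MvPolynomial.map (algebraMap (ZMod p) (Kb p)) Φ = ∏ k, lf (z k)) :
    ∏ k, lf (fr p (z k)) = ∏ k, lf (z k) := by
  obtain ⟨Φ, hΦ⟩ := hΦ
  have h1 : (frobenius (Kb p) p).comp (algebraMap (ZMod p) (Kb p)) = algebraMap (ZMod p) (Kb p) := by
    refine RingHom.ext fun a => ?_
    rw [RingHom.comp_apply, frobenius_def, ← map_pow, ZMod.pow_card]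
  have h2 : ∏ k, lf (fr p (z k)) = MvPolynomial.map (frobenius (Kb p) p) (∏ k, lf (z k)) := by
    rw [map_prod]
    exact Finset.prod_congr rfl fun k _ => (map_frob_lf (z k)).symm
  rw [h2, ← hΦ, MvPolynomial.map_map, h1]

theorem fix_iff {x : Kb p} : x ^ p = x ↔ ∃ a : ZMod p, algebraMap (ZMod p) (Kb p) a = x := by
  constructor
  · intro hx
    classical
    have hp : 1 < p := (Fact.out : p.Prime).one_lt
    let f : Polynomial (Kb p) := Polynomial.X ^ p - Polynomial.X
    have hf0 : f ≠ 0 := FiniteField.X_pow_card_sub_X_ne_zero (Kb p) hp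
    have hdeg : f.natDegree = p := FiniteField.X_pow_card_sub_X_natDegree_eq (Kb p) hp
    have hroot : ∀ y : Kb p, y ∈ f.roots.toFinset ↔ y ^ p = y := by
      intro y
      rw [Multiset.mem_toFinset, Polynomial.mem_roots hf0, Polynomial.IsRoot.def]
      simp only [f, Polynomial.eval_sub, Polynomial.eval_pow, Polynomial.eval_X]
      exact sub_eq_zero
    let S : Finset (Kb p) := Finset.univ.image (algebraMap (ZMod p) (Kb p))
    have hS : S.card = p := by
      rw [Finset.card_image_of_injective _ (algebraMap (ZMod p) (Kb p)).injective, Finset.card_univ, ZMod.card]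
    have hsub : S ⊆ f.roots.toFinset := by
      intro y hy
      obtain ⟨a, _, rfl⟩ := Finset.mem_image.1 hy
      rw [hroot, ← map_pow, ZMod.pow_card]
    have hcard : f.roots.toFinset.card ≤ S.card := by
      rw [hS]
      exact (Multiset.toFinset_card_le _).trans ((Polynomial.card_roots' f).trans hdeg.le)
    have heq := Finset.eq_of_subset_of_card_le hsub hcard
    have hx' : x ∈ S := by
      rw [heq]
      exact (hroot x).2 hx
    obtain ⟨a, _, ha⟩ := Finset.mem_image.1 hx'
    exact ⟨a, ha⟩
  · rintro ⟨a, rfl⟩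
    rw [← map_pow, ZMod.pow_card]

end LVF
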