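import Pool.Agent.Lib.MP_17a322_ntLF.NDefs

/-!
# LEAF C5 (easy+): Frobenius orbits

PROOF.  `fr_inj`: `x ^ p = y ^ p → x = y` in characteristic `p` (`frobenius_inj`), coordinatewise.  `fr_iter`: induction on `i` (`Function.iterate_succ_apply'`, `pow_succ`,
`pow_mul`).  `aeval_iter`: `aeval (fun t => x t ^ p ^ i) h = (aeval x h) ^ p ^ i`: the map `y ↦ y ^ p ^ i` is a ring homomorphism of `Kb p` (`iterateFrobenius (Kb p) p i`) which fixes the image of
`ZMod p` (`ZMod.pow_card`, iterated), so it is an algebra homomorphism over `ZMod p` (or: `MvPolynomial.induction_on h`).  `aeval_Fx`: `aeval_iter` and `(fr p)^[n] x = x` (`fr_iter`).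
`aeval_smul`: homogeneous polynomials (`MvPolynomial.aeval_def`, `MvPolynomial.eval₂_eq'`: every monomial `s` of `h` has degree `n`, `∏ (c * x t) ^ s t = c ^ n * ∏ x t ^ s t`; perhaps Mathlib has it).
`vp_add`: `Multiset.map_add`, `Multiset.prod_add`.  `vp_nsmul`: `Multiset.map_nsmul`, `Multiset.prod_nsmul`.  `vp_orb`: `Multiset.map_map`, the product over `Multiset.range f` is `∏ i ∈ range f`,
`aeval_iter`, `Finset.prod_pow_eq_pow_sum`.
-/

namespace LVF

open Finset

variable {p : ℕ} [Fact p.Prime] {q : ℕ}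

theorem fr_inj : Function.Injective (fr p : (Fin q → Kb p) → Fin q → Kb p) := by
  intro x y h
  funext t
  have h1 : x t ^ p = y t ^ p := congrFun h t
  have h2 : frobenius (Kb p) p (x t) = frobenius (Kb p) p (y t) := by
    rw [frobenius_def, frobenius_def]
    exact h1
  exact frobenius_inj (Kb p) p h2

theorem fr_iter (i : ℕ) (x : Fin q → Kb p) (t : Fin q) : (fr p)^[i] x t = x t ^ p ^ i := by
  induction i with
  | zero => simp
  | succ i ih =>
    rw [Function.iterate_succ_apply']
    unfold fr at ih ⊢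
    rw [ih, pow_succ, pow_mul]

theorem aeval_iter (i : ℕ) (x : Fin q → Kb p) (h : MvPolynomial (Fin q) (ZMod p)) :
    MvPolynomial.aeval ((fr p)^[i] x) h = MvPolynomial.aeval x h ^ p ^ i := by
  induction h using MvPolynomial.induction_on with
  | C a =>
    rw [MvPolynomial.aeval_C, MvPolynomial.aeval_C, ← map_pow, ZMod.pow_card_pow]
  | add P Q hP hQ =>
    rw [map_add, map_add, hP, hQ, add_pow_char_pow]
  | mul_X P t hP =>
    rw [map_mul, map_mul, hP, MvPolynomial.aeval_X, MvPolynomial.aeval_X, fr_iter, mul_pow]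

theorem aeval_Fx {n : ℕ} {x : Fin q → Kb p} (hx : Fx n x) (h : MvPolynomial (Fin q) (ZMod p)) :
    MvPolynomial.aeval x h ^ p ^ n = MvPolynomial.aeval x h := by
  have h1 : (fr p)^[n] x = x := by
    funext t
    rw [fr_iter]
    exact hx t
  rw [← aeval_iter, h1]

theorem aeval_smul {n : ℕ} {h : MvPolynomial (Fin q) (ZMod p)} (hh : h.IsHomogeneous n) (c : Kb p) (x : Fin q → Kb p) :
    MvPolynomial.aeval (c • x) h = c ^ n * MvPolynomial.aeval x h := by
  rw [MvPolynomial.aeval_def, MvPolynomial.aeval_def, MvPolynomial.eval₂_eq', MvPolynomial.eval₂_eq',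
    Finset.mul_sum]
  refine Finset.sum_congr rfl fun d hd => ?_
  have h1 : Finsupp.degree d = n := by
    have h2 := hh (MvPolynomial.mem_support_iff.1 hd)
    rw [Finsupp.degree_eq_weight_one]
    exact h2
  have h3 : ∑ t, d t = n := by
    rw [← h1, Finsupp.degree_eq_sum]
  have h4 : ∏ t, (c • x) t ^ d t = c ^ n * ∏ t, x t ^ d t := by
    rw [← h3, ← Finset.prod_pow_eq_pow_sum, ← Finset.prod_mul_distrib]
    exact Finset.prod_congr rfl fun t _ => by rw [Pi.smul_apply, smul_eq_mul, mul_pow]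
  rw [h4]
  ring

theorem vp_add (Z Z' : Multiset (Fin q → Kb p)) (h : MvPolynomial (Fin q) (ZMod p)) :
    vp (Z + Z') h = vp Z h * vp Z' h := by
  unfold vp
  rw [Multiset.map_add, Multiset.prod_add]

theorem vp_nsmul (m : ℕ) (Z : Multiset (Fin q → Kb p)) (h : MvPolynomial (Fin q) (ZMod p)) :
    vp (m • Z) h = vp Z h ^ m := by
  unfold vp
  rw [Multiset.map_nsmul, Multiset.prod_nsmul]

theorem vp_orb (f : ℕ) (x : Fin q → Kb p) (h : MvPolynomial (Fin q) (ZMod p)) :
    vp (orb f x) h = nf p f (MvPolynomial.aeval x h) := by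
  unfold vp orb nf
  rw [Multiset.map_map, ← Finset.prod_pow_eq_pow_sum, ← Finset.range_val]
  change (∏ i ∈ Finset.range f, MvPolynomial.aeval ((fr p)^[i] x) h) = _
  exact Finset.prod_congr rfl fun i _ => aeval_iter i x h

end LVF
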