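import Pool.Agent.Lib.MP_17a322_ntLF.C3
import Pool.Agent.Lib.MP_17a322_ntLF.C4
import Pool.Agent.Lib.MP_17a322_ntLF.C5

/-!
# LEAF C6 (medium, assembly): the normal form

PROOF.  `exists_nm` for every `z k`: `c k ≠ 0`, `n k := c k • z k` normalised, `t k := (c k)⁻¹`, `z k = t k • n k`.  `Z := (univ : Finset (Fin m)).val.map n` (card `m`: `Multiset.card_map`),
`T := ∏ t k ≠ 0`.  By `lf_smul` `∏ lf (z k) = C T * (Z.map lf).prod` (`Finset.prod_mul_distrib`, `map_prod`), and `fr p (z k) = (t k) ^ p • fr p (n k)`, so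
`∏ lf (fr p (z k)) = C (T ^ p) * ((Z.map (fr p)).map lf).prod`.  The two products are equal by `frob_prod`.  By `nm_fr` and `mul_unique`: `Z.map (fr p) = Z` and `T ^ p = T`, so
`T = algebraMap μ` by `fix_iff`, `μ ≠ 0`.  The last claim: `aeval (z k) h = t k ^ n * aeval (n k) h` (`aeval_smul`), `∏ t k ^ n = T ^ n` (`Finset.prod_pow`).
-/

namespace LVF

open Finset

theorem nform {p : ℕ} [Fact p.Prime] {q m : ℕ} (z : Fin m → Fin q → Kb p) (hz : ∀ k, z k ≠ 0)
    (hΦ : ∃ Φ : MvPolynomial (Fin q) (ZMod p), MvPolynomial.map (algebraMap (ZMod p) (Kb p)) Φ = ∏ k, lf (z k)) :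
    ∃ (Z : Multiset (Fin q → Kb p)) (μ : ZMod p), Multiset.card Z = m ∧ (∀ x ∈ Z, Nm x ∧ ∃ k, ∃ c : Kb p, x = c • z k) ∧
      Z.map (fr p) = Z ∧ μ ≠ 0 ∧ ∀ (n : ℕ) (h : MvPolynomial (Fin q) (ZMod p)), h.IsHomogeneous n →
        ∏ k, MvPolynomial.aeval (z k) h = algebraMap (ZMod p) (Kb p) μ ^ n * vp Z h := by
  have hp : p ≠ 0 := (Fact.out : p.Prime).ne_zero
  choose c hc hn using fun k => exists_nm (hz k)
  have hzk : ∀ k, z k = (c k)⁻¹ • (c k • z k) := fun k => by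
    rw [smul_smul, inv_mul_cancel₀ (hc k), one_smul]
  have hfr : ∀ k, fr p (z k) = ((c k)⁻¹) ^ p • fr p (c k • z k) := fun k => by
    conv_lhs => rw [hzk k]
    funext t
    simp only [fr, Pi.smul_apply, smul_eq_mul, mul_pow]
  let Z : Multiset (Fin q → Kb p) := (univ : Finset (Fin m)).val.map fun k => c k • z k
  let T : Kb p := ∏ k, (c k)⁻¹
  have hT : T ≠ 0 := Finset.prod_ne_zero_iff.2 fun k _ => inv_ne_zero (hc k)
  have hZm : ∀ x ∈ Z, ∃ k, x = c k • z k := by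
    intro x hx
    obtain ⟨k, -, rfl⟩ := Multiset.mem_map.1 hx
    exact ⟨k, rfl⟩
  have e1 : ∏ k, lf (z k) = MvPolynomial.C T * (Z.map lf).prod := by
    have h1 : (Z.map lf).prod = ∏ k, lf (c k • z k) := by
      rw [Multiset.map_map]
      rfl
    rw [h1, map_prod, ← Finset.prod_mul_distrib]
    refine Finset.prod_congr rfl fun k _ => ?_
    rw [← lf_smul, ← hzk k]
  have e2 : ∏ k, lf (fr p (z k)) = MvPolynomial.C (T ^ p) * ((Z.map (fr p)).map lf).prod := by
    have h1 : ((Z.map (fr p)).map lf).prod = ∏ k, lf (fr p (c k • z k)) := by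
      rw [Multiset.map_map, Multiset.map_map]
      rfl
    rw [h1, ← Finset.prod_pow, map_prod, ← Finset.prod_mul_distrib]
    refine Finset.prod_congr rfl fun k _ => ?_
    rw [← lf_smul, ← hfr k]
  have e3 : MvPolynomial.C (T ^ p) * ((Z.map (fr p)).map lf).prod = MvPolynomial.C T * (Z.map lf).prod := by
    rw [← e2, ← e1]
    exact frob_prod z hΦ
  have e4 := mul_unique (Z := Z.map (fr p)) (Z' := Z) (by
    intro x hx
    obtain ⟨y, hy, rfl⟩ := Multiset.mem_map.1 hx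
    obtain ⟨k, rfl⟩ := hZm y hy
    exact nm_fr hp (hn k)) (by
    intro x hx
    obtain ⟨k, rfl⟩ := hZm x hx
    exact hn k) (pow_ne_zero p hT) hT e3
  obtain ⟨μ, hμ⟩ := fix_iff.1 e4.2
  refine ⟨Z, μ, ?_, ?_, e4.1, ?_, ?_⟩
  · rw [Multiset.card_map]
    exact (Finset.card_univ (α := Fin m)).trans (Fintype.card_fin m)
  · intro x hx
    obtain ⟨k, rfl⟩ := hZm x hx
    exact ⟨hn k, k, c k, rfl⟩
  · rintro rfl
    rw [map_zero] at hμ
    exact hT hμ.symm
  · intro n h hh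
    have h1 : vp Z h = ∏ k, MvPolynomial.aeval (c k • z k) h := by
      unfold vp
      rw [Multiset.map_map]
      rfl
    rw [h1, hμ, ← Finset.prod_pow, ← Finset.prod_mul_distrib]
    refine Finset.prod_congr rfl fun k _ => ?_
    rw [← aeval_smul hh, ← hzk k]

end LVF
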