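import Pool.Agent.Lib.MP_17a322_ntLF.C5

/-!
# LEAF C7 (medium): splitting off one orbit

PROOF.  `Z.count (fr p y) = Z.count y` for all `y`: `Multiset.count_map_eq_count'` for the injective map `fr p` (`fr_inj`) and `hZ`.  So `y ∈ Z → fr p y ∈ Z`, and all `(fr p)^[i] x` are in the finite set
`Z.toFinset`; two of them are equal, and by injectivity `x` is a periodic point.  `f := Function.minimalPeriod (fr p) x ≥ 1` (`Function.minimalPeriod_pos_of_mem_periodicPts`),
`(fr p)^[f] x = x` (`Function.iterate_minimalPeriod`), that is `Fx f x` by `fr_iter`.  `orb f x` has no repetitions (`Function.iterate_injOn_Iio_minimalPeriod` or similar) and is stable under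
`fr p`: `(orb f x).map (fr p) = orb f x` (shift of the indices modulo `f`).  `m := Z.count x ≥ 1`; all elements of `orb f x` have multiplicity `m` in `Z`.  `Z' := Z.filter (· ∉ orb f x)`.
`Z = m • orb f x + Z'` by comparison of the multiplicities (`Multiset.ext`).  `Z'.map (fr p) = Z'`: `Multiset.ext` again, or cancel `m • orb f x` in
`Z.map (fr p) = Z` (`Multiset.map_add`, `Multiset.map_nsmul`, `add_left_cancel`).  `Z.toFinset` is the disjoint union of `(orb f x).toFinset` (`f` elements:
`Multiset.toFinset_card_of_nodup`) and `Z'.toFinset`.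
-/

namespace LVF

open Finset

private theorem c7_split {α : Type} [DecidableEq α] (g : α → α) (hg : Function.Injective g) (Z : Multiset α) (hZ : Z.map g = Z)
    {x : α} (hx : x ∈ Z) :
    ∃ (f m : ℕ) (Z' : Multiset α), 1 ≤ f ∧ 1 ≤ m ∧ g^[f] x = x ∧
      Z = m • ((Multiset.range f).map fun i => g^[i] x) + Z' ∧ Z'.map g = Z' ∧
      Z.toFinset.card = f + Z'.toFinset.card := by
  have hc : ∀ y, Z.count (g y) = Z.count y := by
    intro y
    have h1 := Multiset.count_map_eq_count' g Z hg y
    rw [hZ] at h1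
    exact h1
  have hci : ∀ i, Z.count (g^[i] x) = Z.count x := by
    intro i
    induction i with
    | zero => rfl
    | succ i ih => rw [Function.iterate_succ_apply', hc, ih]
  have hx1 : 1 ≤ Z.count x := Multiset.one_le_count_iff_mem.2 hx
  have hmem : ∀ i, g^[i] x ∈ Z := by
    intro i
    rw [← Multiset.one_le_count_iff_mem, hci]
    exact hx1
  have hper : x ∈ Function.periodicPts g := by
    have hfin : Finite {y // y ∈ Z} :=
      Finite.of_injective (fun y : {y // y ∈ Z} => (⟨y.1, Multiset.mem_toFinset.2 y.2⟩ : {y // y ∈ Z.toFinset}))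
        fun a b h => Subtype.ext (Subtype.mk.inj h)
    obtain ⟨i, j, hij, he⟩ := Finite.exists_ne_map_eq_of_infinite (fun i : ℕ => (⟨g^[i] x, hmem i⟩ : {y // y ∈ Z}))
    have he' : g^[i] x = g^[j] x := Subtype.mk.inj he
    have key : ∀ i j : ℕ, i < j → g^[i] x = g^[j] x → x ∈ Function.periodicPts g := by
      intro i j h h'
      refine Function.mk_mem_periodicPts (Nat.sub_pos_of_lt h) ?_
      have h1 : g^[i] (g^[j - i] x) = g^[i] x := by
        rw [← Function.iterate_add_apply, Nat.add_sub_cancel' h.le, h']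
      exact (hg.iterate i) h1
    rcases lt_or_gt_of_ne hij with h | h
    · exact key i j h he'
    · exact key j i h he'.symm
  have hf1 : 0 < Function.minimalPeriod g x := Function.minimalPeriod_pos_of_mem_periodicPts hper
  have hfx : g^[Function.minimalPeriod g x] x = x := Function.iterate_minimalPeriod
  obtain ⟨f, hf⟩ : ∃ f, f = Function.minimalPeriod g x := ⟨_, rfl⟩
  rw [← hf] at hf1 hfx
  obtain ⟨O, hO⟩ : ∃ O : Multiset α, O = (Multiset.range f).map fun i => g^[i] x := ⟨_, rfl⟩
  have hOmem : ∀ y, y ∈ O ↔ ∃ i, i < f ∧ g^[i] x = y := by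
    intro y
    rw [hO, Multiset.mem_map]
    constructor
    · rintro ⟨i, h1, h2⟩
      exact ⟨i, Multiset.mem_range.1 h1, h2⟩
    · rintro ⟨i, h1, h2⟩
      exact ⟨i, Multiset.mem_range.2 h1, h2⟩
  have hOnd : O.Nodup := by
    rw [hO]
    refine Multiset.Nodup.map_on ?_ (Multiset.nodup_range f)
    intro i hi j hj h
    have h1 : i ∈ Set.Iio (Function.minimalPeriod g x) := by
      rw [← hf]
      exact Multiset.mem_range.1 hi
    have h2 : j ∈ Set.Iio (Function.minimalPeriod g x) := by
      rw [← hf]
      exact Multiset.mem_range.1 hj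
    exact Function.iterate_injOn_Iio_minimalPeriod h1 h2 h
  have hOc : Multiset.card O = f := by
    rw [hO, Multiset.card_map, Multiset.card_range]
  have hOg : O.map g = O := by
    refine Multiset.eq_of_le_of_card_le ?_ ?_
    · refine (Multiset.le_iff_subset (Multiset.Nodup.map hg hOnd)).2 ?_
      intro y hy
      obtain ⟨z, hz, rfl⟩ := Multiset.mem_map.1 hy
      obtain ⟨i, hi, rfl⟩ := (hOmem z).1 hz
      rw [hOmem]
      rcases Nat.lt_or_ge (i + 1) f with h | h
      · exact ⟨i + 1, h, Function.iterate_succ_apply' g i x⟩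
      · have h1 : i + 1 = f := by omega
        refine ⟨0, hf1, ?_⟩
        have h2 : g (g^[i] x) = g^[i + 1] x := (Function.iterate_succ_apply' g i x).symm
        rw [h2, h1, hfx]
        rfl
    · rw [Multiset.card_map]
  have hOZ : ∀ y ∈ O, Z.count y = Z.count x := by
    intro y hy
    obtain ⟨i, _, rfl⟩ := (hOmem y).1 hy
    exact hci i
  have hsplit : Z = Z.count x • O + Z.filter (fun y => y ∉ O) := by
    ext y
    rw [Multiset.count_add, Multiset.count_nsmul, Multiset.count_filter]
    by_cases hy : y ∈ O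
    · rw [if_neg (not_not.2 hy), Multiset.count_eq_one_of_mem hOnd hy, mul_one, add_zero]
      exact hOZ y hy
    · rw [if_pos hy, Multiset.count_eq_zero_of_notMem hy, mul_zero, zero_add]
  refine ⟨f, Z.count x, Z.filter (fun y => y ∉ O), hf1, hx1, hfx, ?_, ?_, ?_⟩
  · rw [← hO]
    exact hsplit
  · have h1 : Z.map g = Z.count x • O + (Z.filter (fun y => y ∉ O)).map g := by
      have h2 : Z.map g = (Z.count x • O + Z.filter (fun y => y ∉ O)).map g := by rw [← hsplit]
      rw [h2, Multiset.map_add, Multiset.map_nsmul, hOg]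
    have h3 : Z.count x • O + (Z.filter (fun y => y ∉ O)).map g = Z.count x • O + Z.filter (fun y => y ∉ O) := by
      rw [← h1, hZ]
      exact hsplit
    exact add_left_cancel h3
  · have h1 : Z.toFinset = O.toFinset ∪ (Z.filter (fun y => y ∉ O)).toFinset := by
      ext y
      rw [Finset.mem_union, Multiset.mem_toFinset, Multiset.mem_toFinset, Multiset.mem_toFinset,
        Multiset.mem_filter]
      constructor
      · intro h
        by_cases hy : y ∈ O
        · exact Or.inl hy
        · exact Or.inr ⟨h, hy⟩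
      · rintro (h | h)
        · obtain ⟨i, _, rfl⟩ := (hOmem y).1 h
          exact hmem i
        · exact h.1
    have h2 : Disjoint O.toFinset (Z.filter (fun y => y ∉ O)).toFinset := by
      rw [Finset.disjoint_left]
      intro y hy hy'
      rw [Multiset.mem_toFinset] at hy hy'
      exact (Multiset.mem_filter.1 hy').2 hy
    rw [h1, Finset.card_union_of_disjoint h2, Multiset.toFinset_card_of_nodup hOnd, hOc]

open Classical in
theorem orbit_split {p : ℕ} [Fact p.Prime] {q : ℕ} (Z : Multiset (Fin q → Kb p)) (hZ : Z.map (fr p) = Z)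
    {x : Fin q → Kb p} (hx : x ∈ Z) :
    ∃ (f m : ℕ) (Z' : Multiset (Fin q → Kb p)), 1 ≤ f ∧ 1 ≤ m ∧ Fx f x ∧ Z = m • orb f x + Z' ∧ Z'.map (fr p) = Z' ∧
      Z.toFinset.card = f + Z'.toFinset.card := by
  obtain ⟨f, m, Z', h1, h2, h3, h4, h5, h6⟩ := c7_split (fr p) fr_inj Z hZ hx
  refine ⟨f, m, Z', h1, h2, ?_, h4, h5, h6⟩
  intro t
  rw [← fr_iter, h3]

end LVF
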