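import Pool.Agent.Lib.MP_17a322_ntLF.C7

/-!
# LEAF C8 (medium, assembly): the shape of a Frobenius stable multiset

PROOF.  Strong induction on `Multiset.card Z` (generalise `Z`).  `Z = 0`: `r = 0`.  Otherwise choose `x ∈ Z`, `orbit_split` gives `f`, `m`, `Z'` with
`Multiset.card Z = f * m + Multiset.card Z'` (`Multiset.card_nsmul`, `card (orb f x) = f`), smaller.  The induction hypothesis for `Z'` gives `r`, `f'`, `m'`, `z'`; take `r + 1`,
`Fin.cons f f'`, `Fin.cons m m'`, `Fin.cons x z'`.  All sums and products by `Fin.sum_univ_succ`, `Fin.prod_univ_succ`; `r + 1 ≤ card Z' + f * m`.  Elements of `Z'` are elements of `Z`.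
The last claim: `vp_add`, `vp_nsmul`, `vp_orb`.
-/

namespace LVF

open Finset

open Classical in
theorem shape {p : ℕ} [Fact p.Prime] {q : ℕ} (Z : Multiset (Fin q → Kb p)) (hZ : Z.map (fr p) = Z) :
    ∃ (r : ℕ) (f m : Fin r → ℕ) (z : Fin r → Fin q → Kb p), r ≤ Multiset.card Z ∧ (∀ a, 1 ≤ f a ∧ 1 ≤ m a) ∧
      ∑ a, f a * m a = Multiset.card Z ∧ (∑ a, f a = Z.toFinset.card) ∧ (∀ a, z a ∈ Z ∧ Fx (f a) (z a)) ∧
      Z = ∑ a, m a • ((Multiset.range (f a)).map fun i => (fr p)^[i] (z a)) ∧
      ∀ h : MvPolynomial (Fin q) (ZMod p), vp Z h = ∏ a, nf p (f a) (MvPolynomial.aeval (z a) h) ^ m a := by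
  induction hn : Multiset.card Z using Nat.strong_induction_on generalizing Z with
  | _ n ih =>
    subst hn
    by_cases h0 : Z = 0
    · subst h0
      refine ⟨0, Fin.elim0, Fin.elim0, Fin.elim0, Nat.zero_le _, fun a => a.elim0, ?_, ?_, fun a => a.elim0, ?_, ?_⟩
      · rw [Fin.sum_univ_zero, Multiset.card_zero]
      · rw [Fin.sum_univ_zero, Multiset.toFinset_zero, Finset.card_empty]
      · rw [Fin.sum_univ_zero]
      · intro h
        rw [Fin.prod_univ_zero]
        unfold vp
        rw [Multiset.map_zero, Multiset.prod_zero]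
    · obtain ⟨x, hx⟩ := Multiset.exists_mem_of_ne_zero h0
      obtain ⟨f, m, Z', hf, hm, hF, hZe, hZ', hc⟩ := orbit_split Z hZ hx
      have hcard : Multiset.card Z = f * m + Multiset.card Z' := by
        conv_lhs => rw [hZe]
        rw [Multiset.card_add, Multiset.card_nsmul, orb, Multiset.card_map, Multiset.card_range, mul_comm m f]
      have hfm : 1 ≤ f * m := Nat.mul_pos hf hm
      obtain ⟨r, f', m', z', h1, h2, h3, h4, h5, h6, h7⟩ := ih (Multiset.card Z') (by omega) Z' hZ' rfl
      refine ⟨r + 1, Fin.cons f f', Fin.cons m m', Fin.cons x z', by omega, ?_, ?_, ?_, ?_, ?_, ?_⟩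
      · refine Fin.cases ?_ fun a => ?_
        · rw [Fin.cons_zero, Fin.cons_zero]
          exact ⟨hf, hm⟩
        · rw [Fin.cons_succ, Fin.cons_succ]
          exact h2 a
      · rw [Fin.sum_univ_succ, hcard]
        simp only [Fin.cons_zero, Fin.cons_succ]
        rw [h3]
      · rw [Fin.sum_univ_succ, hc]
        simp only [Fin.cons_zero, Fin.cons_succ]
        rw [h4]
      · refine Fin.cases ?_ fun a => ?_
        · rw [Fin.cons_zero, Fin.cons_zero]
          exact ⟨hx, hF⟩
        · rw [Fin.cons_succ, Fin.cons_succ]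
          refine ⟨?_, (h5 a).2⟩
          rw [hZe]
          exact Multiset.mem_add.2 (Or.inr (h5 a).1)
      · rw [Fin.sum_univ_succ]
        simp only [Fin.cons_zero, Fin.cons_succ]
        rw [← h6]
        exact hZe
      · intro h
        rw [Fin.prod_univ_succ]
        simp only [Fin.cons_zero, Fin.cons_succ]
        rw [← h7 h]
        conv_lhs => rw [hZe]
        rw [vp_add, vp_nsmul, vp_orb]

end LVF
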