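import Pool.Agent.Lib.MP_17a322_ntLF.D14

/-!
# LEAF D15 (easy+): cycles at infinity

PROOF.  `A := k ^ j * (2 * C) ^ k`.  Choose for every `z` of the type a map `σ` with `aeval (z (σ l)) (g l) = 0`: an injection of the type into `(σ : Fin j → Fin k) × {z // type of cnt_sig}` (finite), so the number is at most
`∑ σ, N σ` (`Nat.card_le_card_of_injective`, `Nat.card_sigma`) and `N σ * p ^ (j + ∑ f a) ≤ (2 * C) ^ k * p ^ (..)` by `cnt_sig`; there are `k ^ j` maps `σ`.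
-/

namespace LVF

open Finset

theorem cnt0 (C j k : ℕ) (hk : 1 ≤ k) (f : Fin k → ℕ) (hf : ∀ a, 1 ≤ f a) : ∃ A : ℕ,
    ∀ (p : ℕ) [Fact p.Prime] {q : ℕ} (G : Finset (MvPolynomial (Fin q) (ZMod p))) (hG : ∀ g ∈ G, ∃ n, g.IsHomogeneous n)
      (e : Fin j → ℕ) (g : Fin j → MvPolynomial (Fin q) (ZMod p)) (_ : ∀ l, (g l).IsHomogeneous (e l)) (r : ℕ)
      (_ : SL G g r C),
      Nat.card {z : Fin k → Fin q → Kb p //
        (∀ a, Nm (z a) ∧ Fx (f a) (z a) ∧ ∀ h ∈ G, MvPolynomial.aeval (z a) h = 0) ∧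
          ∀ l, ∃ a, MvPolynomial.aeval (z a) (g l) = 0} *
        p ^ (j + ∑ a, f a) ≤ A * p ^ ((∑ a, f a) * (r + j)) := by
  classical
  refine ⟨k ^ j * (2 * C) ^ k, ?_⟩
  intro p _ q G hG e g hg r hS
  have hfin : ∀ σ : Fin j → Fin k, Finite {z : Fin k → Fin q → Kb p //
      (∀ a, Nm (z a) ∧ Fx (f a) (z a) ∧ ∀ h ∈ G, MvPolynomial.aeval (z a) h = 0) ∧
        ∀ l, MvPolynomial.aeval (z (σ l)) (g l) = 0} := fun σ => (cnt_sig hG hg hS f hf σ).1
  have hcard := fun σ : Fin j → Fin k => (cnt_sig hG hg hS f hf σ).2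
  let F : {z : Fin k → Fin q → Kb p //
        (∀ a, Nm (z a) ∧ Fx (f a) (z a) ∧ ∀ h ∈ G, MvPolynomial.aeval (z a) h = 0) ∧
          ∀ l, ∃ a, MvPolynomial.aeval (z a) (g l) = 0} →
      Σ σ : Fin j → Fin k, {z : Fin k → Fin q → Kb p //
        (∀ a, Nm (z a) ∧ Fx (f a) (z a) ∧ ∀ h ∈ G, MvPolynomial.aeval (z a) h = 0) ∧
          ∀ l, MvPolynomial.aeval (z (σ l)) (g l) = 0} :=
    fun z => ⟨fun l => (z.2.2 l).choose, ⟨z.1, z.2.1, fun l => (z.2.2 l).choose_spec⟩⟩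
  have hinj : Function.Injective F := by
    intro z z' h
    apply Subtype.ext
    exact congrArg (fun y => y.2.1) h
  have h1 := Nat.card_le_card_of_injective F hinj
  rw [Nat.card_sigma] at h1
  refine le_trans (Nat.mul_le_mul_right _ h1) ?_
  rw [Finset.sum_mul]
  refine le_trans (Finset.sum_le_sum fun σ _ => hcard σ) ?_
  rw [Finset.sum_const, Finset.card_univ, Fintype.card_fun, Fintype.card_fin, Fintype.card_fin, smul_eq_mul,
    mul_assoc]

end LVF
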