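import Pool.Agent.Lib.MP_17a322_ntLF.D11
import Pool.Agent.Lib.MP_17a322_ntLF.D15

/-! Block D (helper73): `cnt` (D11) and `cnt0` (D15). -/
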