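import Pool.Agent.Lib.MP_17a322_ntLF.NDefs

/-!
# LEAF D1 (medium): the fields with `p ^ n` elements

PROOF.  `Kb p` is the algebraic closure of `ZMod p`.  The polynomial `f = X ^ p ^ n - X` over `Kb p` has degree `p ^ n`, is separable (derivative `-1`:
`FiniteField`-lemmas or `galois_poly_separable`) and splits (`IsAlgClosed.splits`), so it has exactly `p ^ n` roots (`Polynomial.card_rootSet_eq_natDegree` or
`Polynomial.nodup_roots` with `Polynomial.splits_iff_card_roots`).  `fin_Fx`: a subset of the functions into a finite set (`Set.Finite.pi`, or an injection).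
-/

namespace LVF

open Finset

variable {p : ℕ} [Fact p.Prime] {q : ℕ}

private theorem D1_mem (n : ℕ) (hn : 1 ≤ n) (x : Kb p) :
    x ∈ (Polynomial.X ^ p ^ n - Polynomial.X : Polynomial (Kb p)).rootSet (Kb p) ↔ x ^ p ^ n = x := by
  have hp : 1 < p := (Fact.out : p.Prime).one_lt
  rw [Polynomial.mem_rootSet]
  have h0 : (Polynomial.X ^ p ^ n - Polynomial.X : Polynomial (Kb p)) ≠ 0 :=
    FiniteField.X_pow_card_pow_sub_X_ne_zero _ (by omega) hp
  constructor
  · rintro ⟨_, h⟩
    simp only [map_sub, map_pow, Polynomial.aeval_X] at h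
    exact sub_eq_zero.1 h
  · intro h
    refine ⟨h0, ?_⟩
    simp only [map_sub, map_pow, Polynomial.aeval_X]
    exact sub_eq_zero.2 h

private def D1_eq (n : ℕ) (hn : 1 ≤ n) : {x : Kb p // x ^ p ^ n = x} ≃
    (Polynomial.X ^ p ^ n - Polynomial.X : Polynomial (Kb p)).rootSet (Kb p) :=
  Equiv.subtypeEquivRight fun x => (D1_mem n hn x).symm

theorem fin_Fq {n : ℕ} (hn : 1 ≤ n) : Finite {x : Kb p // x ^ p ^ n = x} := by
  exact Finite.of_equiv _ (D1_eq n hn).symm

theorem card_Fq {n : ℕ} (hn : 1 ≤ n) : Nat.card {x : Kb p // x ^ p ^ n = x} = p ^ n := by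
  have hp : 1 < p := (Fact.out : p.Prime).one_lt
  rw [Nat.card_congr (D1_eq n hn), Nat.card_eq_fintype_card,
    Polynomial.card_rootSet_eq_natDegree (galois_poly_separable p _ (dvd_pow_self p (by omega)))
      (IsAlgClosed.splits _),
    FiniteField.X_pow_card_pow_sub_X_natDegree_eq _ (by omega) hp]

theorem card_Fu {n : ℕ} (hn : 1 ≤ n) : Nat.card {x : Kb p // x ^ p ^ n = x ∧ x ≠ 0} = p ^ n - 1 := by
  classical
  have hp : 1 < p := (Fact.out : p.Prime).one_lt
  have : Finite {x : Kb p // x ^ p ^ n = x} := fin_Fq hn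
  have h0 : (0 : Kb p) ^ p ^ n = 0 := zero_pow (pow_pos (by omega) n).ne'
  have h1 : Nat.card {x : Kb p // x ^ p ^ n = x ∧ x ≠ 0} =
      Nat.card {y : {x : Kb p // x ^ p ^ n = x} // y ≠ ⟨0, h0⟩} :=
    Nat.card_congr
      { toFun := fun x => ⟨⟨x.1, x.2.1⟩, fun h => x.2.2 (congrArg Subtype.val h)⟩
        invFun := fun y => ⟨y.1.1, y.1.2, fun h => y.2 (Subtype.ext h)⟩
        left_inv := fun x => rfl
        right_inv := fun y => rfl }
  have : Fintype {x : Kb p // x ^ p ^ n = x} := Fintype.ofFinite _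
  rw [h1, Nat.card_eq_fintype_card, Fintype.card_subtype_compl, Fintype.card_subtype_eq, ← Nat.card_eq_fintype_card,
    card_Fq hn]

theorem fin_Fx {n : ℕ} (hn : 1 ≤ n) : Finite {x : Fin q → Kb p // Fx n x} := by
  have : Finite {x : Kb p // x ^ p ^ n = x} := fin_Fq hn
  exact Finite.of_injective
    (fun (x : {x : Fin q → Kb p // Fx n x}) (t : Fin q) => (⟨x.1 t, x.2 t⟩ : {x : Kb p // x ^ p ^ n = x}))
    fun x y h => Subtype.ext (funext fun t => congrArg Subtype.val (congrFun h t))

end LVF
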