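import Pool.Agent.Lib.MP_17a322_ntLF.D8

/-!
# LEAF D9 (easy+): pairs of cone vectors and scalars

PROOF.  `card_fib` for the map `(x, ν) ↦ ν` into `ZMod p` (`Nat.card = p`: `Nat.card_zmod`).  The fibre over `ν` is empty for `ν = 0`; for `ν ≠ 0` it injects by `x` into the type of `cnt_x` with
`c l = u l / (algebraMap ν) ^ e l ≠ 0`.
-/

namespace LVF

open Finset

theorem cnt_xn {p : ℕ} [Fact p.Prime] {q j k C r : ℕ} {G : Finset (MvPolynomial (Fin q) (ZMod p))} (e : Fin j → ℕ)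
    {g : Fin j → MvPolynomial (Fin q) (ZMod p)} (hS : SL G g r C) (f m : Fin k → ℕ) (hf : ∀ a, 1 ≤ f a)
    (hm : ∀ a, 1 ≤ m a) (a0 : Fin k) {u : Fin j → Kb p} (hu : ∀ l, u l ≠ 0) :
    Finite {x : (Fin k → Fin q → Kb p) × ZMod p //
        (∀ a, Fx (f a) (x.1 a) ∧ ∀ h ∈ G, MvPolynomial.aeval (x.1 a) h = 0) ∧ x.2 ≠ 0 ∧
          ∀ l, algebraMap (ZMod p) (Kb p) x.2 ^ e l * ∏ a, nf p (f a) (MvPolynomial.aeval (x.1 a) (g l)) ^ m a = u l} ∧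
      Nat.card {x : (Fin k → Fin q → Kb p) × ZMod p //
        (∀ a, Fx (f a) (x.1 a) ∧ ∀ h ∈ G, MvPolynomial.aeval (x.1 a) h = 0) ∧ x.2 ≠ 0 ∧
          ∀ l, algebraMap (ZMod p) (Kb p) x.2 ^ e l * ∏ a, nf p (f a) (MvPolynomial.aeval (x.1 a) (g l)) ^ m a = u l} ≤
        p * ((2 * m a0 * p ^ (∑ a, f a - 1)) ^ j * (C ^ k * (p ^ ∑ a, f a) ^ r)) := by
  have hN : Nat.card (ZMod p) = p := Nat.card_zmod p
  have key := card_fib (fun x : {x : (Fin k → Fin q → Kb p) × ZMod p //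
        (∀ a, Fx (f a) (x.1 a) ∧ ∀ h ∈ G, MvPolynomial.aeval (x.1 a) h = 0) ∧ x.2 ≠ 0 ∧
          ∀ l, algebraMap (ZMod p) (Kb p) x.2 ^ e l *
            ∏ a, nf p (f a) (MvPolynomial.aeval (x.1 a) (g l)) ^ m a = u l} => x.1.2)
    ((2 * m a0 * p ^ (∑ a, f a - 1)) ^ j * (C ^ k * (p ^ ∑ a, f a) ^ r)) ?_
  · rw [hN] at key
    exact key
  intro ν
  by_cases hν : ν = 0
  · have hE : IsEmpty {x : {x : (Fin k → Fin q → Kb p) × ZMod p //
        (∀ a, Fx (f a) (x.1 a) ∧ ∀ h ∈ G, MvPolynomial.aeval (x.1 a) h = 0) ∧ x.2 ≠ 0 ∧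
          ∀ l, algebraMap (ZMod p) (Kb p) x.2 ^ e l *
            ∏ a, nf p (f a) (MvPolynomial.aeval (x.1 a) (g l)) ^ m a = u l} // x.1.2 = ν} :=
      ⟨fun x => x.1.2.2.1 (x.2.trans hν)⟩
    refine ⟨inferInstance, ?_⟩
    rw [Nat.card_of_isEmpty]
    exact Nat.zero_le _
  · have hν' : algebraMap (ZMod p) (Kb p) ν ≠ 0 := by
      intro h0
      exact hν ((map_eq_zero (algebraMap (ZMod p) (Kb p))).mp h0)
    obtain ⟨h1, h2⟩ := cnt_x hS f m hf hm a0 (c := fun l => u l / algebraMap (ZMod p) (Kb p) ν ^ e l)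
      (fun l => div_ne_zero (hu l) (pow_ne_zero _ hν'))
    have hx : ∀ x : {x : {x : (Fin k → Fin q → Kb p) × ZMod p //
        (∀ a, Fx (f a) (x.1 a) ∧ ∀ h ∈ G, MvPolynomial.aeval (x.1 a) h = 0) ∧ x.2 ≠ 0 ∧
          ∀ l, algebraMap (ZMod p) (Kb p) x.2 ^ e l *
            ∏ a, nf p (f a) (MvPolynomial.aeval (x.1 a) (g l)) ^ m a = u l} // x.1.2 = ν},
        (∀ a, Fx (f a) (x.1.1.1 a) ∧ ∀ h ∈ G, MvPolynomial.aeval (x.1.1.1 a) h = 0) ∧
        ∀ l, ∏ a, nf p (f a) (MvPolynomial.aeval (x.1.1.1 a) (g l)) ^ m a =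
          u l / algebraMap (ZMod p) (Kb p) ν ^ e l := by
      intro x
      refine ⟨x.1.2.1, fun l => ?_⟩
      have h3 := x.1.2.2.2 l
      rw [x.2] at h3
      rw [eq_div_iff (pow_ne_zero _ hν'), mul_comm]
      exact h3
    let ψ : {x : {x : (Fin k → Fin q → Kb p) × ZMod p //
        (∀ a, Fx (f a) (x.1 a) ∧ ∀ h ∈ G, MvPolynomial.aeval (x.1 a) h = 0) ∧ x.2 ≠ 0 ∧
          ∀ l, algebraMap (ZMod p) (Kb p) x.2 ^ e l *
            ∏ a, nf p (f a) (MvPolynomial.aeval (x.1 a) (g l)) ^ m a = u l} // x.1.2 = ν} →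
        {x : Fin k → Fin q → Kb p // (∀ a, Fx (f a) (x a) ∧ ∀ h ∈ G, MvPolynomial.aeval (x a) h = 0) ∧
          ∀ l, ∏ a, nf p (f a) (MvPolynomial.aeval (x a) (g l)) ^ m a =
            u l / algebraMap (ZMod p) (Kb p) ν ^ e l} := fun x => ⟨x.1.1.1, hx x⟩
    have hinj : Function.Injective ψ := by
      intro x y hxy
      have h4 : x.1.1.1 = y.1.1.1 := congrArg Subtype.val hxy
      apply Subtype.ext
      apply Subtype.ext
      exact Prod.ext h4 (x.2.trans y.2.symm)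
    have := h1
    exact ⟨Finite.of_injective ψ hinj, (Nat.card_le_card_of_injective ψ hinj).trans h2⟩

end LVF
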