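import Pool.Agent.Lib.MP_17a322_ntLF.C2
import Pool.Agent.Lib.MP_17a322_ntLF.D9

/-!
# LEAF D10 (medium): from normalised vectors to cone vectors

PROOF.  The map `((z, μ), t) ↦ (x, ν)`, `x a = t a • z a`, `ν = μ * (∏ a, n a ^ m a)⁻¹` with `n a ∈ ZMod p`, `algebraMap (n a) = nf p (f a) (t a)` (`nf_mem`; `n a ≠ 0` by `nf_ne`), from the pairs of an element of the first
type and an element `t` of `(a : Fin k) → {t : Kb p // t ^ p ^ f a = t ∧ t ≠ 0}` (`∏ (p ^ f a - 1)` elements: `card_Fu`, `Nat.card_pi`) to the second type (finite by `cnt_xn`), is injective: `t a • z a = t' a • z' a` gives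
`z' a = (t' a)⁻¹ * t a • z a`, so by `nm_unique` `z' a = z a` and `t a = t' a`; then the `n a` are equal (injectivity of `algebraMap`) and `μ = μ'`.  It is well defined: `Fx (f a) (t a • z a)` (`mul_pow`), the elements of `G` are homogeneous
(`aeval_smul`), `aeval (t a • z a) (g l) = t a ^ e l * aeval (z a) (g l)`, `nf_mul`, `nf_pow`: the powers of `∏ nf (t a) ^ m a` cancel.
`Nat.card_prod`, `Nat.card_le_card_of_injective`.
-/

namespace LVF

open Finset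

private theorem D10_smul {p : ℕ} [Fact p.Prime] {q n : ℕ} {h : MvPolynomial (Fin q) (ZMod p)} (hh : h.IsHomogeneous n)
    (c : Kb p) (x : Fin q → Kb p) :
    MvPolynomial.aeval (c • x) h = c ^ n * MvPolynomial.aeval x h := by
  rw [MvPolynomial.aeval_def, MvPolynomial.aeval_def, MvPolynomial.eval₂_eq', MvPolynomial.eval₂_eq', Finset.mul_sum]
  refine Finset.sum_congr rfl fun d hd => ?_
  have h1 : ∑ i, d i = n := by
    have := hh (MvPolynomial.mem_support_iff.1 hd)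
    rw [← this, Finsupp.weight_apply, Finsupp.sum_fintype _ _ (by simp)]
    simp
  have h2 : ∏ i, (c • x) i ^ d i = c ^ n * ∏ i, x i ^ d i := by
    rw [← h1, ← Finset.prod_pow_eq_pow_sum, ← Finset.prod_mul_distrib]
    refine Finset.prod_congr rfl fun i _ => ?_
    rw [Pi.smul_apply, smul_eq_mul, mul_pow]
  rw [h2]
  ring

private noncomputable def D10_n {p : ℕ} [Fact p.Prime] {n : ℕ} (t : {t : Kb p // t ^ p ^ n = t ∧ t ≠ 0}) : ZMod p :=
  (nf_mem t.2.1).choose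

private theorem D10_n_spec {p : ℕ} [Fact p.Prime] {n : ℕ} (t : {t : Kb p // t ^ p ^ n = t ∧ t ≠ 0}) :
    algebraMap (ZMod p) (Kb p) (D10_n t) = nf p n t.1 := (nf_mem t.2.1).choose_spec

private theorem D10_n_ne {p : ℕ} [Fact p.Prime] {n : ℕ} (t : {t : Kb p // t ^ p ^ n = t ∧ t ≠ 0}) : D10_n t ≠ 0 := by
  intro h
  have h1 := D10_n_spec t
  rw [h, map_zero] at h1
  exact nf_ne p n t.2.2 h1.symm

theorem cnt_sc {p : ℕ} [Fact p.Prime] {q j k C r : ℕ} {G : Finset (MvPolynomial (Fin q) (ZMod p))}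
    (hG : ∀ g ∈ G, ∃ n, g.IsHomogeneous n) {e : Fin j → ℕ}
    {g : Fin j → MvPolynomial (Fin q) (ZMod p)} (hg : ∀ l, (g l).IsHomogeneous (e l)) (hS : SL G g r C)
    (f m : Fin k → ℕ) (hf : ∀ a, 1 ≤ f a) (hm : ∀ a, 1 ≤ m a) (a0 : Fin k) {u : Fin j → Kb p} (hu : ∀ l, u l ≠ 0) :
    Nat.card {z : (Fin k → Fin q → Kb p) × ZMod p //
        (∀ a, Nm (z.1 a) ∧ Fx (f a) (z.1 a) ∧ ∀ h ∈ G, MvPolynomial.aeval (z.1 a) h = 0) ∧ z.2 ≠ 0 ∧
          ∀ l, algebraMap (ZMod p) (Kb p) z.2 ^ e l * ∏ a, nf p (f a) (MvPolynomial.aeval (z.1 a) (g l)) ^ m a = u l} *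
        ∏ a, (p ^ f a - 1) ≤
      Nat.card {x : (Fin k → Fin q → Kb p) × ZMod p //
        (∀ a, Fx (f a) (x.1 a) ∧ ∀ h ∈ G, MvPolynomial.aeval (x.1 a) h = 0) ∧ x.2 ≠ 0 ∧
          ∀ l, algebraMap (ZMod p) (Kb p) x.2 ^ e l * ∏ a, nf p (f a) (MvPolynomial.aeval (x.1 a) (g l)) ^ m a = u l} := by
  classical
  have := (cnt_xn e hS f m hf hm a0 hu).1
  have hT : ∏ a, (p ^ f a - 1) = Nat.card ((a : Fin k) → {t : Kb p // t ^ p ^ f a = t ∧ t ≠ 0}) := by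
    rw [Nat.card_pi]
    exact Finset.prod_congr rfl fun a _ => (card_Fu (hf a)).symm
  rw [hT, ← Nat.card_prod]
  refine Nat.card_le_card_of_injective (fun w => ⟨(fun a => (w.2 a).1 • w.1.1.1 a,
    w.1.1.2 * (∏ a, D10_n (w.2 a) ^ m a)⁻¹), ?_, ?_, ?_⟩) ?_
  · intro a
    obtain ⟨⟨⟨z, μ⟩, h1, h2, h3⟩, t⟩ := w
    simp only at h1 h2 h3 ⊢
    obtain ⟨hN, hF, hG'⟩ := h1 a
    refine ⟨fun i => ?_, fun h hh => ?_⟩
    · rw [Pi.smul_apply, smul_eq_mul, mul_pow, (t a).2.1, hF i]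
    · obtain ⟨n, hn⟩ := hG h hh
      rw [D10_smul hn, hG' h hh, mul_zero]
  · obtain ⟨⟨⟨z, μ⟩, h1, h2, h3⟩, t⟩ := w
    simp only at h1 h2 h3 ⊢
    refine mul_ne_zero h2 (inv_ne_zero (Finset.prod_ne_zero_iff.2 fun a _ => pow_ne_zero _ (D10_n_ne (t a))))
  · intro l
    obtain ⟨⟨⟨z, μ⟩, h1, h2, h3⟩, t⟩ := w
    simp only at h1 h2 h3 ⊢
    have hN : (∏ a, nf p (f a) (t a).1 ^ m a) ≠ 0 :=
      Finset.prod_ne_zero_iff.2 fun a _ => pow_ne_zero _ (nf_ne p _ (t a).2.2)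
    have h4 : algebraMap (ZMod p) (Kb p) (μ * (∏ a, D10_n (t a) ^ m a)⁻¹) =
        algebraMap (ZMod p) (Kb p) μ * (∏ a, nf p (f a) (t a).1 ^ m a)⁻¹ := by
      rw [map_mul, map_inv₀, map_prod]
      congr 2
      refine Finset.prod_congr rfl fun a _ => ?_
      rw [map_pow, D10_n_spec]
    have h5 : ∏ a, nf p (f a) (MvPolynomial.aeval ((t a).1 • z a) (g l)) ^ m a =
        (∏ a, nf p (f a) (t a).1 ^ m a) ^ e l * ∏ a, nf p (f a) (MvPolynomial.aeval (z a) (g l)) ^ m a := by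
      rw [← Finset.prod_pow, ← Finset.prod_mul_distrib]
      refine Finset.prod_congr rfl fun a _ => ?_
      rw [D10_smul (hg l), nf_mul, nf_pow, mul_pow, ← pow_mul, ← pow_mul, mul_comm (e l)]
    rw [h4, h5, ← h3 l, mul_pow, inv_pow]
    field_simp
  · rintro ⟨⟨⟨z, μ⟩, h1, h2, h3⟩, t⟩ ⟨⟨⟨z', μ'⟩, h1', h2', h3'⟩, t'⟩ he
    simp only [Subtype.mk.injEq, Prod.mk.injEq] at he
    simp only at h1 h2 h3 h1' h2' h3'
    obtain ⟨he1, he2⟩ := he
    have h5 : ∀ a, z' a = z a ∧ t a = t' a := by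
      intro a
      have h6 := congrFun he1 a
      have h7 : z' a = ((t' a).1⁻¹ * (t a).1) • z a := by
        rw [mul_smul, h6, inv_smul_smul₀ (t' a).2.2]
      obtain ⟨h8, h9⟩ := nm_unique (h1 a).1 (h1' a).1 h7
      refine ⟨h9, Subtype.ext ?_⟩
      rw [inv_mul_eq_one₀ (t' a).2.2] at h8
      exact h8.symm
    have hz : z' = z := funext fun a => (h5 a).1
    have ht : t = t' := funext fun a => (h5 a).2
    subst hz ht
    have hne : (∏ a, D10_n (t a) ^ m a)⁻¹ ≠ 0 :=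
      inv_ne_zero (Finset.prod_ne_zero_iff.2 fun a _ => pow_ne_zero _ (D10_n_ne (t a)))
    have hμ : μ = μ' := mul_right_cancel₀ hne he2
    subst hμ
    rfl

end LVF
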