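import Pool.Agent.Lib.MP_17a322_ntLF.D10

/-!
# LEAF D11 (easy+, arithmetic): the count

PROOF.  `a0 := ⟨0, hk⟩`, `A := 2 ^ k * (2 * m a0) ^ j * C ^ k`, `F := ∑ a, f a ≥ 1`, `N` the number in question.  `p ^ F ≤ 2 ^ k * ∏ a, (p ^ f a - 1)` (`p ^ f a ≤ 2 * (p ^ f a - 1)`, as `p ^ f a ≥ 2`).  By `cnt_sc`, `cnt_xn`
`N * ∏ a, (p ^ f a - 1) ≤ p * ((2 * m a0 * p ^ (F - 1)) ^ j * (C ^ k * (p ^ F) ^ r))`.  So
`N * p ^ (j + F) ≤ N * 2 ^ k * ∏ (p ^ f a - 1) * p ^ j ≤ 2 ^ k * p * (2 * m a0) ^ j * (p ^ (F - 1) * p) ^ j * C ^ k * p ^ (F * r) = A * p ^ (F * (r + j) + 1)`.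
-/

namespace LVF

open Finset

private theorem D11_num {N Pr p k j F r c0 B : ℕ} (hF : 1 ≤ F) (h1 : p ^ F ≤ 2 ^ k * Pr)
    (h2 : N * Pr ≤ p * ((c0 * p ^ (F - 1)) ^ j * (B * (p ^ F) ^ r))) :
    N * p ^ (j + F) ≤ 2 ^ k * c0 ^ j * B * p ^ (F * (r + j) + 1) := by
  obtain ⟨F', rfl⟩ : ∃ F', F = F' + 1 := ⟨F - 1, by omega⟩
  rw [Nat.add_sub_cancel] at h2
  calc N * p ^ (j + (F' + 1)) = N * p ^ (F' + 1) * p ^ j := by ring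
    _ ≤ N * (2 ^ k * Pr) * p ^ j := by gcongr
    _ = 2 ^ k * p ^ j * (N * Pr) := by ring
    _ ≤ 2 ^ k * p ^ j * (p * ((c0 * p ^ F') ^ j * (B * (p ^ (F' + 1)) ^ r))) := by gcongr
    _ = 2 ^ k * c0 ^ j * B * p ^ ((F' + 1) * (r + j) + 1) := by
      rw [mul_pow c0, ← pow_mul, ← pow_mul]
      have e : (F' + 1) * (r + j) + 1 = j + 1 + F' * j + (F' + 1) * r := by ring
      rw [e]
      ring

theorem cnt (C j k : ℕ) (hk : 1 ≤ k) (f m : Fin k → ℕ) (hf : ∀ a, 1 ≤ f a) (hm : ∀ a, 1 ≤ m a) : ∃ A : ℕ,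
    ∀ (p : ℕ) [Fact p.Prime] {q : ℕ} (G : Finset (MvPolynomial (Fin q) (ZMod p))) (hG : ∀ g ∈ G, ∃ n, g.IsHomogeneous n)
      (e : Fin j → ℕ) (g : Fin j → MvPolynomial (Fin q) (ZMod p)) (_ : ∀ l, (g l).IsHomogeneous (e l)) (r : ℕ)
      (_ : SL G g r C) (u : Fin j → Kb p), (∀ l, u l ≠ 0) →
      Nat.card {z : (Fin k → Fin q → Kb p) × ZMod p //
        (∀ a, Nm (z.1 a) ∧ Fx (f a) (z.1 a) ∧ ∀ h ∈ G, MvPolynomial.aeval (z.1 a) h = 0) ∧ z.2 ≠ 0 ∧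
          ∀ l, algebraMap (ZMod p) (Kb p) z.2 ^ e l * ∏ a, nf p (f a) (MvPolynomial.aeval (z.1 a) (g l)) ^ m a = u l} *
        p ^ (j + ∑ a, f a) ≤ A * p ^ ((∑ a, f a) * (r + j) + 1) := by
  refine ⟨2 ^ k * (2 * m ⟨0, hk⟩) ^ j * C ^ k, fun p _ q G hG e g hg r hS u hu => ?_⟩
  have hp : p.Prime := Fact.out
  have hF : 1 ≤ ∑ a, f a := (hf ⟨0, hk⟩).trans (single_le_sum (fun _ _ => Nat.zero_le _) (mem_univ _))
  have h1 : p ^ (∑ a, f a) ≤ 2 ^ k * ∏ a, (p ^ f a - 1) := by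
    have h2 : ∀ a, p ^ f a ≤ 2 * (p ^ f a - 1) := by
      intro a
      have h3 : p ≤ p ^ f a := by
        have := Nat.pow_le_pow_right hp.pos (hf a)
        rwa [pow_one] at this
      have h4 := hp.two_le
      omega
    calc p ^ (∑ a, f a) = ∏ a, p ^ f a := (prod_pow_eq_pow_sum _ _ _).symm
      _ ≤ ∏ a, (2 * (p ^ f a - 1)) := prod_le_prod' fun a _ => h2 a
      _ = 2 ^ k * ∏ a, (p ^ f a - 1) := by
        rw [prod_mul_distrib, prod_const, card_univ, Fintype.card_fin]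
  exact D11_num hF h1 ((cnt_sc hG hg hS f m hf hm ⟨0, hk⟩ hu).trans (cnt_xn e hS f m hf hm ⟨0, hk⟩ hu).2)

end LVF
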