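import Mathlib

/-!
# LEAF D4 (easy+, Mathlib only): counting

PROOF.  `card_fib`: `α ≃ (b : β) × {a // φ a = b}` (`Equiv.sigmaFiberEquiv`), `Nat.card_sigma` (`Finite` fibres), `Finset.sum_le_card_nsmul`.
`card_pi_sub`: `{x // ∀ a, P a (x a)} ≃ ((a : Fin k) → {x // P a x})` (`Equiv.subtypePiEquivPi`), `Nat.card_pi`.
-/

namespace LVF

open Finset

theorem card_fib {α β : Type} [Finite β] (φ : α → β) (c : ℕ)
    (h : ∀ b, Finite {a : α // φ a = b} ∧ Nat.card {a : α // φ a = b} ≤ c) : Finite α ∧ Nat.card α ≤ Nat.card β * c := by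
  classical
  have hf : ∀ b, Finite {a : α // φ a = b} := fun b => (h b).1
  have hfin : Finite ((b : β) × {a : α // φ a = b}) := inferInstance
  have e : ((b : β) × {a : α // φ a = b}) ≃ α := Equiv.sigmaFiberEquiv φ
  refine ⟨Finite.of_equiv _ e, ?_⟩
  have hβ : Fintype β := Fintype.ofFinite β
  rw [← Nat.card_congr e, Nat.card_sigma]
  refine (Finset.sum_le_card_nsmul _ _ c fun b _ => (h b).2).trans (le_of_eq ?_)
  rw [Finset.card_univ, Nat.card_eq_fintype_card, smul_eq_mul]

theorem card_pi_sub {k : ℕ} {α : Type} (P : Fin k → α → Prop) :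
    Nat.card {x : Fin k → α // ∀ a, P a (x a)} = ∏ a, Nat.card {x : α // P a x} := by
  rw [Nat.card_congr (Equiv.subtypePiEquivPi (p := P)), Nat.card_pi]

theorem fin_pi_sub {k : ℕ} {α : Type} (P : Fin k → α → Prop) (h : ∀ a, Finite {x : α // P a x}) :
    Finite {x : Fin k → α // ∀ a, P a (x a)} := by
  exact Finite.of_equiv _ (Equiv.subtypePiEquivPi (p := P)).symm

end LVF
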