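import Pool.Agent.Lib.MP_17a322_ntLF.C5
import Pool.Agent.Lib.MP_17a322_ntLF.D1
import Pool.Agent.Lib.MP_17a322_ntLF.D4

/-!
# LEAF D12 (medium): vectors at which some of the forms vanish

PROOF.  `P = p ^ n`.  `card_fib` for the map `x ↦ (aeval x (g l))_(l ∉ I)` into `(l : {l : Fin j // l ∉ I}) → {y : Kb p // y ^ p ^ n = y}` (`aeval_Fx`), a type with `P ^ (j - #I)` elements (`card_Fq`, `Nat.card_pi`,
`Fintype.card_subtype_compl` or `Finset.card_compl`); the fibre over `w` injects into the type of `SL` for `n` and `u l = w l` for `l ∉ I`, `u l = 0` for `l ∈ I` (finite: `fin_Fx`): at most `C * P ^ r`.  So the number is at most `P ^ (j - #I) * (C * P ^ r)`;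
multiply by `P ^ #I` (`#I ≤ j`).
-/

namespace LVF

open Finset

theorem cnt_part {p : ℕ} [Fact p.Prime] {q j C r : ℕ} {G : Finset (MvPolynomial (Fin q) (ZMod p))}
    {g : Fin j → MvPolynomial (Fin q) (ZMod p)} (hS : SL G g r C) {n : ℕ} (hn : 1 ≤ n) (I : Finset (Fin j)) :
    Finite {x : Fin q → Kb p // Fx n x ∧ (∀ h ∈ G, MvPolynomial.aeval x h = 0) ∧ ∀ l ∈ I, MvPolynomial.aeval x (g l) = 0} ∧
      Nat.card {x : Fin q → Kb p //
        Fx n x ∧ (∀ h ∈ G, MvPolynomial.aeval x h = 0) ∧ ∀ l ∈ I, MvPolynomial.aeval x (g l) = 0} * (p ^ n) ^ I.card ≤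
        C * (p ^ n) ^ (r + j) := by
  classical
  have hf1 : Finite {y : Kb p // y ^ p ^ n = y} := fin_Fq hn
  have hf2 : Finite {x : Fin q → Kb p // Fx n x} := fin_Fx hn
  have h1 := card_fib (β := {l : Fin j // l ∉ I} → {y : Kb p // y ^ p ^ n = y})
    (fun x : {x : Fin q → Kb p // Fx n x ∧ (∀ h ∈ G, MvPolynomial.aeval x h = 0) ∧
      ∀ l ∈ I, MvPolynomial.aeval x (g l) = 0} => fun l =>
        ⟨MvPolynomial.aeval x.1 (g l.1), aeval_Fx x.2.1 (g l.1)⟩) (C * (p ^ n) ^ r) ?_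
  · refine ⟨h1.1, ?_⟩
    have h2 : Nat.card ({l : Fin j // l ∉ I} → {y : Kb p // y ^ p ^ n = y}) =
        (p ^ n) ^ (j - I.card) := by
      rw [Nat.card_pi]
      simp only [card_Fq hn, Finset.prod_const, Finset.card_univ]
      rw [Fintype.card_subtype_compl, Fintype.card_fin, Fintype.card_coe]
    have h3 : I.card ≤ j := by
      have := Finset.card_le_univ I
      rwa [Fintype.card_fin] at this
    have h4 := Nat.mul_le_mul_right ((p ^ n) ^ I.card) h1.2
    rw [h2] at h4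
    refine h4.trans (le_of_eq ?_)
    calc (p ^ n) ^ (j - I.card) * (C * (p ^ n) ^ r) * (p ^ n) ^ I.card
        = C * ((p ^ n) ^ r * ((p ^ n) ^ (j - I.card) * (p ^ n) ^ I.card)) := by ring
      _ = C * (p ^ n) ^ (r + j) := by
          rw [← pow_add (p ^ n) (j - I.card), Nat.sub_add_cancel h3, ← pow_add (p ^ n) r]
  · intro b
    obtain ⟨u, hu1, hu2⟩ : ∃ u : Fin j → Kb p, (∀ l ∈ I, u l = 0) ∧
        ∀ l : {l : Fin j // l ∉ I}, u l.1 = (b l).1 := by
      refine ⟨fun l => if h : l ∈ I then 0 else (b ⟨l, h⟩).1, fun l hl => dif_pos hl, fun l => ?_⟩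
      exact dif_neg l.2
    have hmem : ∀ x : {a : {x : Fin q → Kb p // Fx n x ∧ (∀ h ∈ G, MvPolynomial.aeval x h = 0) ∧
        ∀ l ∈ I, MvPolynomial.aeval x (g l) = 0} // (fun l : {l : Fin j // l ∉ I} =>
          (⟨MvPolynomial.aeval a.1 (g l.1), aeval_Fx a.2.1 (g l.1)⟩ :
            {y : Kb p // y ^ p ^ n = y})) = b},
        (∀ t, x.1.1 t ^ p ^ n = x.1.1 t) ∧ (∀ h ∈ G, MvPolynomial.aeval x.1.1 h = 0) ∧
          ∀ l, MvPolynomial.aeval x.1.1 (g l) = u l := by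
      intro x
      refine ⟨x.1.2.1, x.1.2.2.1, fun l => ?_⟩
      by_cases hl : l ∈ I
      · rw [hu1 l hl]
        exact x.1.2.2.2 l hl
      · rw [hu2 ⟨l, hl⟩]
        exact congrArg Subtype.val (congrFun x.2 ⟨l, hl⟩)
    have hf3 : Finite {x : Fin q → Kb p // (∀ t, x t ^ p ^ n = x t) ∧
        (∀ h ∈ G, MvPolynomial.aeval x h = 0) ∧ ∀ l, MvPolynomial.aeval x (g l) = u l} :=
      Finite.of_injective (fun x => (⟨x.1, x.2.1⟩ : {x : Fin q → Kb p // Fx n x}))
        fun x y h => Subtype.ext (Subtype.mk.inj h)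
    have hinj : Function.Injective (fun x : {a : {x : Fin q → Kb p // Fx n x ∧
        (∀ h ∈ G, MvPolynomial.aeval x h = 0) ∧
        ∀ l ∈ I, MvPolynomial.aeval x (g l) = 0} // (fun l : {l : Fin j // l ∉ I} =>
          (⟨MvPolynomial.aeval a.1 (g l.1), aeval_Fx a.2.1 (g l.1)⟩ :
            {y : Kb p // y ^ p ^ n = y})) = b} =>
        (⟨x.1.1, hmem x⟩ : {x : Fin q → Kb p // (∀ t, x t ^ p ^ n = x t) ∧
          (∀ h ∈ G, MvPolynomial.aeval x h = 0) ∧ ∀ l, MvPolynomial.aeval x (g l) = u l})) :=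
      fun x y h => Subtype.ext (Subtype.ext (Subtype.mk.inj h))
    exact ⟨Finite.of_injective _ hinj, (Nat.card_le_card_of_injective _ hinj).trans (hS n hn u)⟩

end LVF
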