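import Pool.Agent.Lib.MP_17a322_ntLF.C2
import Pool.Agent.Lib.MP_17a322_ntLF.D12

/-!
# LEAF D13 (medium): normalised vectors at which some of the forms vanish

PROOF.  `P = p ^ n`, `N` the number in question, `N'` the number of `cnt_part`.  The map `(x, t) ↦ t • x` from the pairs of a vector of the first type and an element of `{t : Kb p // t ^ p ^ n = t ∧ t ≠ 0}` (`P - 1` elements: `card_Fu`)
to the type of `cnt_part` is well defined (`aeval_smul`, `hG`, `hg`) and injective (`nm_unique`): `N * (P - 1) ≤ N'`.  With `P ≤ 2 * (P - 1)`: `N * P * P ^ #I ≤ 2 * N' * P ^ #I ≤ 2 * C * P ^ (r + j)`.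
-/

namespace LVF

open Finset

theorem cnt_nm {p : ℕ} [Fact p.Prime] {q j C r : ℕ} {G : Finset (MvPolynomial (Fin q) (ZMod p))}
    (hG : ∀ g ∈ G, ∃ n, g.IsHomogeneous n) {e : Fin j → ℕ}
    {g : Fin j → MvPolynomial (Fin q) (ZMod p)} (hg : ∀ l, (g l).IsHomogeneous (e l)) (hS : SL G g r C)
    {n : ℕ} (hn : 1 ≤ n) (I : Finset (Fin j)) :
    Finite {x : Fin q → Kb p //
        Nm x ∧ Fx n x ∧ (∀ h ∈ G, MvPolynomial.aeval x h = 0) ∧ ∀ l ∈ I, MvPolynomial.aeval x (g l) = 0} ∧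
      Nat.card {x : Fin q → Kb p //
        Nm x ∧ Fx n x ∧ (∀ h ∈ G, MvPolynomial.aeval x h = 0) ∧ ∀ l ∈ I, MvPolynomial.aeval x (g l) = 0} *
        (p ^ n) ^ (I.card + 1) ≤ 2 * C * (p ^ n) ^ (r + j) := by
  obtain ⟨hfin, hcard⟩ := cnt_part (g := g) (r := r) (C := C) hS hn I
  set Y := {x : Fin q → Kb p //
        Fx n x ∧ (∀ h ∈ G, MvPolynomial.aeval x h = 0) ∧ ∀ l ∈ I, MvPolynomial.aeval x (g l) = 0} with hY
  set X := {x : Fin q → Kb p //
        Nm x ∧ Fx n x ∧ (∀ h ∈ G, MvPolynomial.aeval x h = 0) ∧ ∀ l ∈ I, MvPolynomial.aeval x (g l) = 0} with hX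
  set T := {t : Kb p // t ^ p ^ n = t ∧ t ≠ 0} with hT
  have hcT : Nat.card T = p ^ n - 1 := card_Fu hn
  have hfinX : Finite X := by
    refine Finite.of_injective (fun x : X => (⟨x.1, x.2.2⟩ : Y)) ?_
    intro x y hxy
    exact Subtype.ext (congrArg (fun z : Y => z.1) hxy)
  refine ⟨hfinX, ?_⟩
  have hmap : ∀ (x : X) (t : T), Fx n (t.1 • x.1) ∧ (∀ h ∈ G, MvPolynomial.aeval (t.1 • x.1) h = 0) ∧
      ∀ l ∈ I, MvPolynomial.aeval (t.1 • x.1) (g l) = 0 := by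
    intro x t
    refine ⟨fun i => ?_, fun h hh => ?_, fun l hl => ?_⟩
    · have h1 := x.2.2.1 i
      rw [Pi.smul_apply, smul_eq_mul, mul_pow, t.2.1, h1]
    · obtain ⟨m, hm⟩ := hG h hh
      rw [aeval_smul hm, x.2.2.2.1 h hh, mul_zero]
    · rw [aeval_smul (hg l), x.2.2.2.2 l hl, mul_zero]
  have hle : Nat.card (X × T) ≤ Nat.card Y := by
    refine Nat.card_le_card_of_injective (fun z : X × T => (⟨z.2.1 • z.1.1, hmap z.1 z.2⟩ : Y)) ?_
    rintro ⟨x, t⟩ ⟨x', t'⟩ hxt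
    have h1 : t.1 • x.1 = t'.1 • x'.1 := congrArg (fun z : Y => z.1) hxt
    have h2 : x'.1 = (t'.1⁻¹ * t.1) • x.1 := by
      rw [mul_smul, h1, smul_smul, inv_mul_cancel₀ t'.2.2, one_smul]
    obtain ⟨h3, h4⟩ := nm_unique x.2.1 x'.2.1 h2
    have h5 : t.1 = t'.1 := by
      have h6 := congrArg (fun z => t'.1 * z) h3
      simp only [mul_one] at h6
      rwa [mul_inv_cancel_left₀ t'.2.2] at h6
    exact Prod.ext (Subtype.ext h4.symm) (Subtype.ext h5)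
  rw [Nat.card_prod, hcT] at hle
  have hp2 : 2 ≤ p ^ n := by
    have h7 := (Fact.out : p.Prime).two_le
    calc 2 ≤ p := h7
      _ = p ^ 1 := (pow_one p).symm
      _ ≤ p ^ n := Nat.pow_le_pow_right (by omega) hn
  have h8 : p ^ n ≤ 2 * (p ^ n - 1) := by omega
  calc Nat.card X * (p ^ n) ^ (I.card + 1) = Nat.card X * p ^ n * (p ^ n) ^ I.card := by
        rw [pow_succ]
        ring
    _ ≤ Nat.card X * (2 * (p ^ n - 1)) * (p ^ n) ^ I.card :=
        Nat.mul_le_mul_right _ (Nat.mul_le_mul_left _ h8)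
    _ = 2 * (Nat.card X * (p ^ n - 1) * (p ^ n) ^ I.card) := by ring
    _ ≤ 2 * (Nat.card Y * (p ^ n) ^ I.card) :=
        Nat.mul_le_mul_left _ (Nat.mul_le_mul_right _ hle)
    _ ≤ 2 * (C * (p ^ n) ^ (r + j)) := Nat.mul_le_mul_left _ hcard
    _ = 2 * C * (p ^ n) ^ (r + j) := by ring

end LVF
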