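import Pool.Agent.Lib.MP_17a322_ntLF.D13

/-!
# LEAF D14 (medium): cycles at infinity of a given pattern

PROOF.  `I a := univ.filter fun l => σ l = a`; the condition is `∀ a, Nm (z a) ∧ Fx (f a) (z a) ∧ (∀ h ∈ G, ..) ∧ ∀ l ∈ I a, aeval (z a) (g l) = 0`, so by `card_pi_sub` (`fin_pi_sub`) the number is `∏ a, N a` with
`N a * (p ^ f a) ^ (#(I a) + 1) ≤ 2 * C * (p ^ f a) ^ (r + j)` (`cnt_nm`).  Multiply: `(∏ N a) * ∏ (p ^ f a) ^ (#(I a) + 1) ≤ (2 * C) ^ k * p ^ ((∑ f a) * (r + j))`, and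
`∏ a, (p ^ f a) ^ (#(I a) + 1) = p ^ (∑ a, f a * (#(I a) + 1)) ≥ p ^ (∑ a, #(I a) + ∑ a, f a) = p ^ (j + ∑ a, f a)` (`f a ≥ 1`; `∑ a, #(I a) = j`: `Finset.card_eq_sum_card_fiberwise`).
-/

namespace LVF

open Finset

theorem cnt_sig {p : ℕ} [Fact p.Prime] {q j k C r : ℕ} {G : Finset (MvPolynomial (Fin q) (ZMod p))}
    (hG : ∀ g ∈ G, ∃ n, g.IsHomogeneous n) {e : Fin j → ℕ}
    {g : Fin j → MvPolynomial (Fin q) (ZMod p)} (hg : ∀ l, (g l).IsHomogeneous (e l)) (hS : SL G g r C)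
    (f : Fin k → ℕ) (hf : ∀ a, 1 ≤ f a) (σ : Fin j → Fin k) :
    Finite {z : Fin k → Fin q → Kb p // (∀ a, Nm (z a) ∧ Fx (f a) (z a) ∧ ∀ h ∈ G, MvPolynomial.aeval (z a) h = 0) ∧
        ∀ l, MvPolynomial.aeval (z (σ l)) (g l) = 0} ∧
      Nat.card {z : Fin k → Fin q → Kb p //
        (∀ a, Nm (z a) ∧ Fx (f a) (z a) ∧ ∀ h ∈ G, MvPolynomial.aeval (z a) h = 0) ∧
          ∀ l, MvPolynomial.aeval (z (σ l)) (g l) = 0} * p ^ (j + ∑ a, f a) ≤
        (2 * C) ^ k * p ^ ((∑ a, f a) * (r + j)) := by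
  classical
  obtain ⟨I, hI⟩ : ∃ I : Fin k → Finset (Fin j), I = fun a => univ.filter fun l => σ l = a := ⟨_, rfl⟩
  have hmem : ∀ a l, l ∈ I a ↔ σ l = a := fun a l => by rw [hI]; simp
  obtain ⟨P, hP⟩ : ∃ P : Fin k → (Fin q → Kb p) → Prop, P = fun a x =>
      Nm x ∧ Fx (f a) x ∧ (∀ h ∈ G, MvPolynomial.aeval x h = 0) ∧
        ∀ l ∈ I a, MvPolynomial.aeval x (g l) = 0 := ⟨_, rfl⟩
  have hcond : (fun z : Fin k → Fin q → Kb p =>
      (∀ a, Nm (z a) ∧ Fx (f a) (z a) ∧ ∀ h ∈ G, MvPolynomial.aeval (z a) h = 0) ∧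
        ∀ l, MvPolynomial.aeval (z (σ l)) (g l) = 0) = fun z => ∀ a, P a (z a) := by
    funext z
    rw [hP]
    refine propext ⟨fun h a => ⟨(h.1 a).1, (h.1 a).2.1, (h.1 a).2.2, fun l hl => ?_⟩,
      fun h => ⟨fun a => ⟨(h a).1, (h a).2.1, (h a).2.2.1⟩, fun l => ?_⟩⟩
    · have h1 := h.2 l
      rw [(hmem a l).1 hl] at h1
      exact h1
    · exact (h (σ l)).2.2.2 l ((hmem _ l).2 rfl)
  have hN : ∀ a, Finite {x : Fin q → Kb p // P a x} ∧
      Nat.card {x : Fin q → Kb p // P a x} * (p ^ f a) ^ ((I a).card + 1) ≤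
        2 * C * (p ^ f a) ^ (r + j) := fun a => by
    rw [hP]
    exact cnt_nm hG hg hS (hf a) (I a)
  have hp1 : 1 ≤ p := (Fact.out : p.Prime).one_le
  have hIs : ∑ a, (I a).card = j := by
    have h1 := Finset.card_eq_sum_card_fiberwise (s := (univ : Finset (Fin j)))
      (t := (univ : Finset (Fin k))) (f := σ) (fun l _ => mem_coe.2 (mem_univ _))
    rw [card_univ, Fintype.card_fin] at h1
    rw [hI]
    exact h1.symm
  have hexp : j + ∑ a, f a ≤ ∑ a, f a * ((I a).card + 1) := by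
    have h1 : j + ∑ a, f a = ∑ a, ((I a).card + f a) := by rw [sum_add_distrib, hIs]
    rw [h1]
    refine sum_le_sum fun a _ => ?_
    have h2 := Nat.mul_le_mul_right (I a).card (hf a)
    rw [mul_add, mul_one]
    omega
  have hmain : Finite {z : Fin k → Fin q → Kb p // (fun z : Fin k → Fin q → Kb p =>
      (∀ a, Nm (z a) ∧ Fx (f a) (z a) ∧ ∀ h ∈ G, MvPolynomial.aeval (z a) h = 0) ∧
        ∀ l, MvPolynomial.aeval (z (σ l)) (g l) = 0) z} ∧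
      Nat.card {z : Fin k → Fin q → Kb p // (fun z : Fin k → Fin q → Kb p =>
      (∀ a, Nm (z a) ∧ Fx (f a) (z a) ∧ ∀ h ∈ G, MvPolynomial.aeval (z a) h = 0) ∧
        ∀ l, MvPolynomial.aeval (z (σ l)) (g l) = 0) z} * p ^ (j + ∑ a, f a) ≤
        (2 * C) ^ k * p ^ ((∑ a, f a) * (r + j)) := by
    rw [hcond]
    refine ⟨fin_pi_sub P fun a => (hN a).1, ?_⟩
    rw [card_pi_sub P]
    calc (∏ a, Nat.card {x : Fin q → Kb p // P a x}) * p ^ (j + ∑ a, f a)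
        ≤ (∏ a, Nat.card {x : Fin q → Kb p // P a x}) * p ^ (∑ a, f a * ((I a).card + 1)) :=
          Nat.mul_le_mul_left _ (Nat.pow_le_pow_right hp1 hexp)
      _ = ∏ a, (Nat.card {x : Fin q → Kb p // P a x} * (p ^ f a) ^ ((I a).card + 1)) := by
          rw [prod_mul_distrib, ← prod_pow_eq_pow_sum]
          refine congrArg₂ _ rfl (prod_congr rfl fun a _ => ?_)
          rw [pow_mul]
      _ ≤ ∏ a, (2 * C * (p ^ f a) ^ (r + j)) := prod_le_prod' fun a _ => (hN a).2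
      _ = (2 * C) ^ k * p ^ ((∑ a, f a) * (r + j)) := by
          rw [prod_mul_distrib, prod_const, card_univ, Fintype.card_fin, prod_pow, prod_pow_eq_pow_sum,
            ← pow_mul]
  exact hmain

end LVF
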