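import Pool.Agent.Lib.MP_17a322_ntLF.C4

/-!
# LEAF D2 (easy+): norms

PROOF.  `nf_mul`: `mul_pow`.  `nf_pow`: `pow_right_comm`.  `nf_ne`: `pow_ne_zero`.  `nf_mem`: with `e = ∑ i < n, p ^ i` one has `p * e = e + p ^ n - 1`, that is `p * e + 1 = e + p ^ n`
(`Finset.sum_range_succ`, `Finset.sum_range_succ'`); if `x = 0`: `nf p n 0` is `0` or `1` (`n = 0`); otherwise `(x ^ e) ^ p * x = x ^ e * x ^ p ^ n = x ^ e * x`, cancel `x`; then `fix_iff`.
`geo`: induction on `n`, or `(p - 1) * e = p ^ n - 1` and `p ≤ 2 * (p - 1)`: `e ≤ 2 * p ^ (n - 1)`.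
-/

namespace LVF

open Finset

theorem nf_mul {F : Type} [Field F] (p f : ℕ) (a b : F) : nf p f (a * b) = nf p f a * nf p f b := by
  unfold nf
  exact mul_pow a b _

theorem nf_pow {F : Type} [Field F] (p f : ℕ) (a : F) (n : ℕ) : nf p f (a ^ n) = nf p f a ^ n := by
  unfold nf
  exact pow_right_comm a n _

theorem nf_ne {F : Type} [Field F] (p f : ℕ) {a : F} (h : a ≠ 0) : nf p f a ≠ 0 := by
  unfold nf
  exact pow_ne_zero _ h

theorem nf_mem {p : ℕ} [Fact p.Prime] {n : ℕ} {x : Kb p} (hx : x ^ p ^ n = x) :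
    ∃ a : ZMod p, algebraMap (ZMod p) (Kb p) a = nf p n x := by
  rw [← fix_iff]
  unfold nf
  by_cases hx0 : x = 0
  · rw [hx0]
    by_cases h0 : ∑ i ∈ range n, p ^ i = 0
    · rw [h0, pow_zero, one_pow]
    · rw [zero_pow h0, zero_pow (Fact.out : p.Prime).ne_zero]
  · refine mul_right_cancel₀ hx0 ?_
    have e1 : p * ∑ i ∈ range n, p ^ i + 1 = (∑ i ∈ range n, p ^ i) + p ^ n := by
      rw [← Finset.sum_range_succ, Finset.sum_range_succ', pow_zero, Finset.mul_sum]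
      refine congrArg (· + 1) (Finset.sum_congr rfl fun i _ => ?_)
      rw [pow_succ, mul_comm]
    rw [← pow_mul, ← pow_succ, mul_comm _ p, e1, pow_add, hx]

theorem geo {p n : ℕ} (hp : 2 ≤ p) (hn : 1 ≤ n) : ∑ i ∈ range n, p ^ i ≤ 2 * p ^ (n - 1) := by
  obtain ⟨k, rfl⟩ : ∃ k, n = k + 1 := ⟨n - 1, by omega⟩
  rw [Nat.add_sub_cancel]
  clear hn
  induction k with
  | zero => simp
  | succ k ih =>
    rw [Finset.sum_range_succ]
    have h1 : 2 * p ^ k ≤ p ^ (k + 1) := by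
      rw [pow_succ, mul_comm (p ^ k) p]
      exact Nat.mul_le_mul_right _ hp
    omega

end LVF
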