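import Pool.Agent.Lib.MP_17a322_ntLF.D2

/-!
# LEAF D3 (easy+): elements with a given norm

PROOF.  `nf p n x ^ m = x ^ N` with `N = m * ∑ i < n, p ^ i ≥ 1`.  The polynomial `X ^ N - C c` is not 0 and has at most `N` roots (`Polynomial.card_roots'`, `Polynomial.natDegree_X_pow_sub_C`,
`Polynomial.X_pow_sub_C_ne_zero`; the set is contained in `roots.toFinset`), and `N ≤ m * (2 * p ^ (n - 1))` by `geo`.
-/

namespace LVF

open Finset

theorem card_nf {p : ℕ} [Fact p.Prime] {n m : ℕ} (hn : 1 ≤ n) (hm : 1 ≤ m) (c : Kb p) :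
    Finite {x : Kb p // nf p n x ^ m = c} ∧ Nat.card {x : Kb p // nf p n x ^ m = c} ≤ 2 * m * p ^ (n - 1) := by
  classical
  have hp : 2 ≤ p := (Fact.out : p.Prime).two_le
  have hs : 1 ≤ ∑ i ∈ range n, p ^ i := by
    have h0 : (0 : ℕ) ∈ range n := Finset.mem_range.2 (by omega)
    have h1 := Finset.single_le_sum (f := fun i => p ^ i) (fun i _ => Nat.zero_le _) h0
    simpa using h1
  have hN1 : 0 < (∑ i ∈ range n, p ^ i) * m := Nat.mul_pos hs hm
  have hx : ∀ x : Kb p, nf p n x ^ m = c ↔ x ^ ((∑ i ∈ range n, p ^ i) * m) = c := by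
    intro x
    rw [nf, ← pow_mul]
  have hP : (Polynomial.X ^ ((∑ i ∈ range n, p ^ i) * m) - Polynomial.C c : Polynomial (Kb p)) ≠ 0 :=
    Polynomial.X_pow_sub_C_ne_zero hN1 c
  have hsub : {x : Kb p | nf p n x ^ m = c} ⊆
      ((Polynomial.X ^ ((∑ i ∈ range n, p ^ i) * m) - Polynomial.C c : Polynomial (Kb p)).roots.toFinset :
        Set (Kb p)) := by
    intro x h
    have h1 : x ^ ((∑ i ∈ range n, p ^ i) * m) = c := (hx x).1 h
    rw [Finset.mem_coe, Multiset.mem_toFinset, Polynomial.mem_roots hP, Polynomial.IsRoot.def,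
      Polynomial.eval_sub, Polynomial.eval_pow, Polynomial.eval_X, Polynomial.eval_C, h1, sub_self]
  have hfin : {x : Kb p | nf p n x ^ m = c}.Finite := (Finset.finite_toSet _).subset hsub
  refine ⟨hfin.to_subtype, ?_⟩
  have h1 : Nat.card {x : Kb p // nf p n x ^ m = c} = {x : Kb p | nf p n x ^ m = c}.ncard := rfl
  rw [h1]
  refine (Set.ncard_le_ncard hsub (Finset.finite_toSet _)).trans ?_
  rw [Set.ncard_coe_finset]
  refine (Multiset.toFinset_card_le _).trans ?_
  refine (Polynomial.card_roots' _).trans ?_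
  rw [Polynomial.natDegree_X_pow_sub_C]
  calc (∑ i ∈ range n, p ^ i) * m ≤ 2 * p ^ (n - 1) * m := Nat.mul_le_mul_right _ (geo hp hn)
    _ = 2 * m * p ^ (n - 1) := by ring

end LVF
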