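import Pool.Agent.Lib.MP_17a322_ntLF.D1
import Pool.Agent.Lib.MP_17a322_ntLF.D3
import Pool.Agent.Lib.MP_17a322_ntLF.D4

/-!
# LEAF D5 (medium): vectors with a given product of norms

PROOF.  `card_fib` for the map `v ↦ (v a)_(a ≠ a0)` into `(a : {a // a ≠ a0}) → {x : Kb p // x ^ p ^ f a = x}`, a finite type (`fin_Fq`) with `∏ a ≠ a0, p ^ f a` elements (`card_Fq`, `Nat.card_pi`).
The fibre over `w`: `v` is determined by `v a0`, and `nf p (f a0) (v a0) ^ m a0 = c / ∏_(a ≠ a0) nf p (f a) (w a) ^ m a` (the product is not 0 as `c ≠ 0`): at most `2 * m a0 * p ^ (f a0 - 1)` elements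
by `card_nf`.  `(∏_(a ≠ a0) p ^ f a) * p ^ (f a0 - 1) = p ^ (∑ a, f a - 1)` (`Finset.prod_pow_eq_pow_sum`, `f a0 ≥ 1`).
-/

namespace LVF

open Finset

theorem cnt_norm {p : ℕ} [Fact p.Prime] {k : ℕ} (f m : Fin k → ℕ) (hf : ∀ a, 1 ≤ f a) (hm : ∀ a, 1 ≤ m a) (a0 : Fin k)
    {c : Kb p} (hc : c ≠ 0) :
    Finite {v : Fin k → Kb p // (∀ a, v a ^ p ^ f a = v a) ∧ ∏ a, nf p (f a) (v a) ^ m a = c} ∧
      Nat.card {v : Fin k → Kb p // (∀ a, v a ^ p ^ f a = v a) ∧ ∏ a, nf p (f a) (v a) ^ m a = c} ≤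
        2 * m a0 * p ^ (∑ a, f a - 1) := by
  classical
  have hfin : ∀ a : {a // a ≠ a0}, Finite {x : Kb p // x ^ p ^ f a.1 = x} := fun a => fin_Fq (hf a.1)
  have hfib := card_fib
    (α := {v : Fin k → Kb p // (∀ a, v a ^ p ^ f a = v a) ∧ ∏ a, nf p (f a) (v a) ^ m a = c})
    (β := (a : {a // a ≠ a0}) → {x : Kb p // x ^ p ^ f a.1 = x})
    (fun v a => ⟨v.1 a.1, v.2.1 a.1⟩) (2 * m a0 * p ^ (f a0 - 1)) (by
      intro w
      obtain ⟨hF, hC⟩ := card_nf (p := p) (hf a0) (hm a0)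
        (c / ∏ a : {a // a ≠ a0}, nf p (f a.1) (w a).1 ^ m a.1)
      have hmem : ∀ v : {v : {v : Fin k → Kb p // (∀ a, v a ^ p ^ f a = v a) ∧
          ∏ a, nf p (f a) (v a) ^ m a = c} //
          (fun a : {a // a ≠ a0} => (⟨v.1 a.1, v.2.1 a.1⟩ : {x : Kb p // x ^ p ^ f a.1 = x})) = w},
          nf p (f a0) (v.1.1 a0) ^ m a0 = c / ∏ a : {a // a ≠ a0}, nf p (f a.1) (w a).1 ^ m a.1 := by
        intro v
        have h1 := v.1.2.2
        rw [Fintype.prod_eq_mul_prod_subtype_ne _ a0] at h1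
        have h2 : ∏ a : {a // a ≠ a0}, nf p (f a.1) (v.1.1 a.1) ^ m a.1
            = ∏ a : {a // a ≠ a0}, nf p (f a.1) (w a).1 ^ m a.1 := by
          refine Finset.prod_congr rfl fun a _ => ?_
          have h3 : v.1.1 a.1 = (w a).1 := congrArg Subtype.val (congrFun v.2 a)
          rw [h3]
        rw [h2] at h1
        have h4 : ∏ a : {a // a ≠ a0}, nf p (f a.1) (w a).1 ^ m a.1 ≠ 0 := by
          intro h5
          rw [h5, mul_zero] at h1
          exact hc h1.symm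
        rw [eq_div_iff h4]
        exact h1
      have hinj : Function.Injective (fun v : {v : {v : Fin k → Kb p // (∀ a, v a ^ p ^ f a = v a) ∧
          ∏ a, nf p (f a) (v a) ^ m a = c} //
          (fun a : {a // a ≠ a0} => (⟨v.1 a.1, v.2.1 a.1⟩ : {x : Kb p // x ^ p ^ f a.1 = x})) = w} =>
          (⟨v.1.1 a0, hmem v⟩ : {x : Kb p // nf p (f a0) x ^ m a0 =
            c / ∏ a : {a // a ≠ a0}, nf p (f a.1) (w a).1 ^ m a.1})) := by
        intro v v' h
        have h1 : v.1.1 a0 = v'.1.1 a0 := congrArg Subtype.val h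
        apply Subtype.ext
        apply Subtype.ext
        funext a
        by_cases ha : a = a0
        · rw [ha]
          exact h1
        · have h2 : v.1.1 a = (w ⟨a, ha⟩).1 := congrArg Subtype.val (congrFun v.2 ⟨a, ha⟩)
          have h3 : v'.1.1 a = (w ⟨a, ha⟩).1 := congrArg Subtype.val (congrFun v'.2 ⟨a, ha⟩)
          rw [h2, h3]
      exact ⟨Finite.of_injective _ hinj, (Nat.card_le_card_of_injective _ hinj).trans hC⟩)
  refine ⟨hfib.1, hfib.2.trans (le_of_eq ?_)⟩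
  have h1 : Nat.card ((a : {a // a ≠ a0}) → {x : Kb p // x ^ p ^ f a.1 = x})
      = p ^ ∑ a : {a // a ≠ a0}, f a.1 := by
    rw [Nat.card_pi, ← Finset.prod_pow_eq_pow_sum]
    exact Finset.prod_congr rfl fun a _ => card_Fq (hf a.1)
  have h2 : ∑ a, f a = f a0 + ∑ a : {a // a ≠ a0}, f a.1 := Fintype.sum_eq_add_sum_subtype_ne _ a0
  have h3 : ∑ a, f a - 1 = ∑ a : {a // a ≠ a0}, f a.1 + (f a0 - 1) := by
    have := hf a0
    omega
  rw [h1, h3, pow_add]
  ring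

end LVF
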