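import Pool.Agent.Lib.MP_17a322_ntLF.D5

/-!
# LEAF D6 (easy+): matrices with given products of norms

PROOF.  Exchange the two arguments: the type is in bijection with `{w : Fin j → (Fin k → Kb p) // ∀ l, (∀ a, w l a ^ p ^ f a = w l a) ∧ ∏ a, nf p (f a) (w l a) ^ m a = c l}`; `fin_pi_sub`, `card_pi_sub`
and `cnt_norm` (`Finset.prod_le_pow_card` or `Finset.prod_le_prod'`).
-/

namespace LVF

open Finset

theorem cnt_mat {p : ℕ} [Fact p.Prime] {j k : ℕ} (f m : Fin k → ℕ) (hf : ∀ a, 1 ≤ f a) (hm : ∀ a, 1 ≤ m a) (a0 : Fin k)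
    {c : Fin j → Kb p} (hc : ∀ l, c l ≠ 0) :
    Finite {v : Fin k → Fin j → Kb p // (∀ a l, v a l ^ p ^ f a = v a l) ∧ ∀ l, ∏ a, nf p (f a) (v a l) ^ m a = c l} ∧
      Nat.card {v : Fin k → Fin j → Kb p //
        (∀ a l, v a l ^ p ^ f a = v a l) ∧ ∀ l, ∏ a, nf p (f a) (v a l) ^ m a = c l} ≤
        (2 * m a0 * p ^ (∑ a, f a - 1)) ^ j := by
  obtain ⟨P, hP⟩ : ∃ P : Fin j → (Fin k → Kb p) → Prop, P = fun l v =>
      (∀ a, v a ^ p ^ f a = v a) ∧ ∏ a, nf p (f a) (v a) ^ m a = c l := ⟨_, rfl⟩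
  have hfin : ∀ l, Finite {v : Fin k → Kb p // P l v} := fun l => by
    rw [hP]
    exact (cnt_norm f m hf hm a0 (hc l)).1
  have hcard : ∀ l, Nat.card {v : Fin k → Kb p // P l v} ≤ 2 * m a0 * p ^ (∑ a, f a - 1) := fun l => by
    rw [hP]
    exact (cnt_norm f m hf hm a0 (hc l)).2
  have e : {v : Fin k → Fin j → Kb p // (∀ a l, v a l ^ p ^ f a = v a l) ∧
      ∀ l, ∏ a, nf p (f a) (v a l) ^ m a = c l} ≃ {w : Fin j → Fin k → Kb p // ∀ l, P l (w l)} :=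
    (Equiv.piComm fun (_ : Fin k) (_ : Fin j) => Kb p).subtypeEquiv fun v => by
      rw [hP]
      exact ⟨fun h l => ⟨fun a => h.1 a l, h.2 l⟩, fun h => ⟨fun a l => (h l).1 a, fun l => (h l).2⟩⟩
  have : Finite {w : Fin j → Fin k → Kb p // ∀ l, P l (w l)} := fin_pi_sub P hfin
  refine ⟨Finite.of_equiv _ e.symm, ?_⟩
  rw [Nat.card_congr e, card_pi_sub P]
  refine (Finset.prod_le_pow_card _ _ _ fun l _ => hcard l).trans_eq ?_
  rw [Finset.card_univ, Fintype.card_fin]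

end LVF
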