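import Pool.Agent.Lib.MP_17a322_ntLF.D1
import Pool.Agent.Lib.MP_17a322_ntLF.D4

/-!
# LEAF D7 (easy+): vectors with given values of the forms

PROOF.  `fin_pi_sub` (each factor is a subset of the finite type of `fin_Fx`), `card_pi_sub`, and `SL` with `n = f a`, `u = v a`: each factor is at most `C * (p ^ f a) ^ r`
(`Fx (f a) x` is by definition `∀ t, x t ^ p ^ f a = x t`).  `∏ a, C * (p ^ f a) ^ r = C ^ k * (p ^ ∑ a, f a) ^ r`.
-/

namespace LVF

open Finset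

theorem cnt_sl {p : ℕ} [Fact p.Prime] {q j k C r : ℕ} {G : Finset (MvPolynomial (Fin q) (ZMod p))}
    {g : Fin j → MvPolynomial (Fin q) (ZMod p)} (hS : SL G g r C) (f : Fin k → ℕ) (hf : ∀ a, 1 ≤ f a)
    (v : Fin k → Fin j → Kb p) :
    Finite {x : Fin k → Fin q → Kb p //
        ∀ a, Fx (f a) (x a) ∧ (∀ h ∈ G, MvPolynomial.aeval (x a) h = 0) ∧ ∀ l, MvPolynomial.aeval (x a) (g l) = v a l} ∧
      Nat.card {x : Fin k → Fin q → Kb p //
        ∀ a, Fx (f a) (x a) ∧ (∀ h ∈ G, MvPolynomial.aeval (x a) h = 0) ∧ ∀ l, MvPolynomial.aeval (x a) (g l) = v a l} ≤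
        C ^ k * (p ^ ∑ a, f a) ^ r := by
  have hfin : ∀ a, Finite {y : Fin q → Kb p //
      Fx (f a) y ∧ (∀ h ∈ G, MvPolynomial.aeval y h = 0) ∧ ∀ l, MvPolynomial.aeval y (g l) = v a l} := by
    intro a
    have h1 := fin_Fx (p := p) (q := q) (hf a)
    exact Finite.of_injective
      (fun y : {y : Fin q → Kb p //
        Fx (f a) y ∧ (∀ h ∈ G, MvPolynomial.aeval y h = 0) ∧ ∀ l, MvPolynomial.aeval y (g l) = v a l} =>
        (⟨y.1, y.2.1⟩ : {y : Fin q → Kb p // Fx (f a) y}))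
      fun y z h => Subtype.ext (congrArg (fun w : {y : Fin q → Kb p // Fx (f a) y} => w.1) h)
  have h2 := card_pi_sub (fun a (y : Fin q → Kb p) =>
    Fx (f a) y ∧ (∀ h ∈ G, MvPolynomial.aeval y h = 0) ∧ ∀ l, MvPolynomial.aeval y (g l) = v a l)
  refine ⟨fin_pi_sub (fun a (y : Fin q → Kb p) =>
    Fx (f a) y ∧ (∀ h ∈ G, MvPolynomial.aeval y h = 0) ∧ ∀ l, MvPolynomial.aeval y (g l) = v a l) hfin, ?_⟩
  refine h2.le.trans ?_
  calc ∏ a, Nat.card {y : Fin q → Kb p //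
        Fx (f a) y ∧ (∀ h ∈ G, MvPolynomial.aeval y h = 0) ∧ ∀ l, MvPolynomial.aeval y (g l) = v a l}
      ≤ ∏ a, C * (p ^ f a) ^ r := Finset.prod_le_prod' fun a _ => hS (f a) (hf a) (v a)
    _ = C ^ k * (p ^ ∑ a, f a) ^ r := by
      rw [Finset.prod_mul_distrib, Finset.prod_const, Finset.card_univ, Fintype.card_fin, Finset.prod_pow,
        Finset.prod_pow_eq_pow_sum]

end LVF
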