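import Pool.Agent.Lib.MP_17a322_ntLF.C5
import Pool.Agent.Lib.MP_17a322_ntLF.D6
import Pool.Agent.Lib.MP_17a322_ntLF.D7

/-!
# LEAF D8 (medium): cone vectors with given products of norms

PROOF.  `card_fib` for the map `x ↦ (v a l = aeval (x a) (g l))` into the type of `cnt_mat` (finite; `v a l ^ p ^ f a = v a l` is `aeval_Fx`); the fibre over `v` injects into the type of `cnt_sl` (finite;
`Nat.card_le_card_of_injective`).
-/

namespace LVF

open Finset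

theorem cnt_x {p : ℕ} [Fact p.Prime] {q j k C r : ℕ} {G : Finset (MvPolynomial (Fin q) (ZMod p))}
    {g : Fin j → MvPolynomial (Fin q) (ZMod p)} (hS : SL G g r C) (f m : Fin k → ℕ) (hf : ∀ a, 1 ≤ f a)
    (hm : ∀ a, 1 ≤ m a) (a0 : Fin k) {c : Fin j → Kb p} (hc : ∀ l, c l ≠ 0) :
    Finite {x : Fin k → Fin q → Kb p // (∀ a, Fx (f a) (x a) ∧ ∀ h ∈ G, MvPolynomial.aeval (x a) h = 0) ∧
        ∀ l, ∏ a, nf p (f a) (MvPolynomial.aeval (x a) (g l)) ^ m a = c l} ∧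
      Nat.card {x : Fin k → Fin q → Kb p // (∀ a, Fx (f a) (x a) ∧ ∀ h ∈ G, MvPolynomial.aeval (x a) h = 0) ∧
        ∀ l, ∏ a, nf p (f a) (MvPolynomial.aeval (x a) (g l)) ^ m a = c l} ≤
        (2 * m a0 * p ^ (∑ a, f a - 1)) ^ j * (C ^ k * (p ^ ∑ a, f a) ^ r) := by
  obtain ⟨hfin, hcard⟩ := cnt_mat (j := j) f m hf hm a0 hc
  have := hfin
  obtain ⟨h1, h2⟩ := card_fib
    (α := {x : Fin k → Fin q → Kb p // (∀ a, Fx (f a) (x a) ∧ ∀ h ∈ G, MvPolynomial.aeval (x a) h = 0) ∧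
        ∀ l, ∏ a, nf p (f a) (MvPolynomial.aeval (x a) (g l)) ^ m a = c l})
    (β := {v : Fin k → Fin j → Kb p // (∀ a l, v a l ^ p ^ f a = v a l) ∧ ∀ l, ∏ a, nf p (f a) (v a l) ^ m a = c l})
    (fun x => ⟨fun a l => MvPolynomial.aeval (x.1 a) (g l), fun a l => aeval_Fx (x.2.1 a).1 (g l), x.2.2⟩)
    (C ^ k * (p ^ ∑ a, f a) ^ r) (fun v => by
      obtain ⟨h3, h4⟩ := cnt_sl hS f hf v.1
      have := h3
      let ψ : {x : {x : Fin k → Fin q → Kb p // (∀ a, Fx (f a) (x a) ∧ ∀ h ∈ G, MvPolynomial.aeval (x a) h = 0) ∧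
        ∀ l, ∏ a, nf p (f a) (MvPolynomial.aeval (x a) (g l)) ^ m a = c l} //
          (⟨fun a l => MvPolynomial.aeval (x.1 a) (g l), fun a l => aeval_Fx (x.2.1 a).1 (g l), x.2.2⟩ :
            {v : Fin k → Fin j → Kb p // (∀ a l, v a l ^ p ^ f a = v a l) ∧
              ∀ l, ∏ a, nf p (f a) (v a l) ^ m a = c l}) = v} →
          {x : Fin k → Fin q → Kb p //
            ∀ a, Fx (f a) (x a) ∧ (∀ h ∈ G, MvPolynomial.aeval (x a) h = 0) ∧
              ∀ l, MvPolynomial.aeval (x a) (g l) = v.1 a l} :=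
        fun x => ⟨x.1.1, fun a => ⟨(x.1.2.1 a).1, (x.1.2.1 a).2, fun l =>
          congrFun (congrFun (congrArg Subtype.val x.2) a) l⟩⟩
      have hψ : Function.Injective ψ := by
        intro x y h
        have h' : (ψ x).1 = (ψ y).1 := by rw [h]
        exact Subtype.ext (Subtype.ext h')
      exact ⟨Finite.of_injective ψ hψ, (Nat.card_le_card_of_injective ψ hψ).trans h4⟩)
  exact ⟨h1, h2.trans (Nat.mul_le_mul_right _ hcard)⟩

end LVF
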