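import Pool.Agent.Lib.MP_17a322_ntLH.PDefs
import Pool.Agent.Lib.MP_17a322_ntLY.Defs

/-! Integral points of bounded degree: interface definitions of the proof. -/

namespace LVF

open Finset NumberField
open LVH (Pl Rd)

/-- the algebraic closure of the prime field -/
abbrev Kb (p : ℕ) [Fact p.Prime] : Type := AlgebraicClosure (ZMod p)

/-- the Frobenius map on vectors -/
def fr {F : Type} [Field F] {q : ℕ} (p : ℕ) (z : Fin q → F) : Fin q → F := fun t => z t ^ p

/-- normalised vectors: the first coordinate different from `0` is `1` -/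
def Nm {F : Type} [Field F] {q : ℕ} (z : Fin q → F) : Prop := ∃ w, z w = 1 ∧ ∀ w' < w, z w' = 0

/-- the linear form `∑ z t X t` -/
noncomputable def lf {F : Type} [Field F] {q : ℕ} (z : Fin q → F) : MvPolynomial (Fin q) F :=
  ∑ t, MvPolynomial.C (z t) * MvPolynomial.X t

/-- the product of the values of the polynomial `h` over the prime field at the elements of `Z` -/
noncomputable def vp {p : ℕ} [Fact p.Prime] {q : ℕ} (Z : Multiset (Fin q → Kb p)) (h : MvPolynomial (Fin q) (ZMod p)) :
    Kb p := (Z.map fun x => MvPolynomial.aeval x h).prod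

/-- the value at a vector over the algebraic closure of the `i`-th form with coefficients `a` in the prime field -/
noncomputable def Fb {p : ℕ} [Fact p.Prime] {q s : ℕ} {d : Fin s → ℕ} (a : LVY.Mo (Fin q) d → ZMod p) (i : Fin s)
    (x : Fin q → Kb p) : Kb p := LVY.Fv (fun t => algebraMap (ZMod p) (Kb p) (a t)) i x

/-- the rational effective cycles of degree `m` on the zero set of `G`: the multisets of `m` normalised vectors which are
zeros of `G`, stable under Frobenius -/
def Cyc {p : ℕ} [Fact p.Prime] {q : ℕ} (G : Finset (MvPolynomial (Fin q) (ZMod p))) (m : ℕ) :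
    Set (Multiset (Fin q → Kb p)) :=
  {Z | Multiset.card Z = m ∧ (∀ x ∈ Z, Nm x ∧ ∀ g ∈ G, MvPolynomial.aeval x g = 0) ∧ Z.map (fr p) = Z}

/-- the values of the fixed forms on the cycle are `u` up to a scalar `μ` -/
def Cu {p : ℕ} [Fact p.Prime] {q j : ℕ} (e : Fin j → ℕ) (f : Fin j → MvPolynomial (Fin q) (ZMod p)) (u : Fin j → Kb p)
    (Z : Multiset (Fin q → Kb p)) (μ : ZMod p) : Prop :=
  μ ≠ 0 ∧ ∀ l, algebraMap (ZMod p) (Kb p) μ ^ e l * vp Z (f l) = u l

/-- the slices of the zero set of `G` by the hypersurfaces `f l = u l` have at most `C P ^ r` points over the field with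
`P = p ^ n` elements -/
def SL {p : ℕ} [Fact p.Prime] {q j : ℕ} (G : Finset (MvPolynomial (Fin q) (ZMod p)))
    (f : Fin j → MvPolynomial (Fin q) (ZMod p)) (r C : ℕ) : Prop :=
  ∀ n : ℕ, 1 ≤ n → ∀ u : Fin j → Kb p,
    Nat.card {x : Fin q → Kb p // (∀ t, x t ^ p ^ n = x t) ∧ (∀ g ∈ G, MvPolynomial.aeval x g = 0) ∧
      ∀ l, MvPolynomial.aeval x (f l) = u l} ≤ C * (p ^ n) ^ r

end LVF
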