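import Pool.Agent.Lib.MP_17a322_ntLF.Defs

/-!
# LEAF E1: the forms with a given product of values

PROOF.  The polynomial `∏ x ∈ Z, (∑ α, X α * C (LVH.mon x α)) - C b` in the variables `X α` (`α : Sym (Fin q) d`) over `Kb p` has total degree at most `m = card Z` and is not `0`: the linear forms are not `0` (for `x ≠ 0`, `x t ≠ 0`, the monomial `α = t^d` (`Sym.replicate d t`) has the value `x t ^ d ≠ 0`), so their product is a nonzero polynomial without constant term (`m ≥ 1`; compare the values at `0` and at a point where the product is not `0`: if the product were the constant `b`, then `b = 0` by evaluation at `0`, and the product would be `0`).  `MvPolynomial.schwartz_zippel_totalDegree` for the finite set `S` = the image of `ZMod p` in `Kb p`, of cardinality `p` (the algebra map is injective): at most `m * p ^ (N - 1)` of the `p ^ N` vectors with coordinates in `S` are zeros.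
-/

namespace LVF

open Finset
open LVH (fv)

/-- the value of the form with the coefficients `a` at `x` -/
private noncomputable def E1_L {p : ℕ} [Fact p.Prime] {q d : ℕ} (x : Fin q → Kb p) (a : Sym (Fin q) d → ZMod p) : Kb p :=
  fv (fun t => algebraMap (ZMod p) (Kb p) (a t)) x

private theorem E1_add {p : ℕ} [Fact p.Prime] {q d : ℕ} (x : Fin q → Kb p) (a a' : Sym (Fin q) d → ZMod p) (t : ZMod p) :
    E1_L x (a + t • a') = E1_L x a + algebraMap (ZMod p) (Kb p) t * E1_L x a' := by
  unfold E1_L fv
  rw [Finset.mul_sum, ← Finset.sum_add_distrib]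
  refine Finset.sum_congr rfl fun α _ => ?_
  simp only [Pi.add_apply, Pi.smul_apply, smul_eq_mul, map_add, map_mul]
  ring

private theorem E1_roots {p : ℕ} [Fact p.Prime] {ι : Type} (Z : Multiset ι) (u v : ι → Kb p) (hv : ∀ x ∈ Z, v x ≠ 0)
    (h1 : 1 ≤ Multiset.card Z) (b : Kb p) [DecidablePred fun t : ZMod p =>
      (Z.map fun x => u x + algebraMap (ZMod p) (Kb p) t * v x).prod = b] :
    (univ.filter fun t : ZMod p => (Z.map fun x => u x + algebraMap (ZMod p) (Kb p) t * v x).prod = b).card ≤
      Multiset.card Z := by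
  classical
  set c : Kb p := (Z.map v).prod with hc
  have hc0 : c ≠ 0 := by
    rw [hc]
    refine Multiset.prod_ne_zero fun h => ?_
    obtain ⟨x, hx, h2⟩ := Multiset.mem_map.1 h
    exact hv x hx h2
  set Q : Polynomial (Kb p) := ((Z.map fun x => -(u x / v x)).map fun r => Polynomial.X - Polynomial.C r).prod with hQ
  have hdeg : Q.natDegree = Multiset.card Z := by
    rw [hQ, Polynomial.natDegree_multiset_prod_X_sub_C_eq_card, Multiset.card_map]
  have hQ0 : Q - Polynomial.C (b / c) ≠ 0 := by
    intro h
    have h2 : Q = Polynomial.C (b / c) := sub_eq_zero.1 h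
    rw [h2, Polynomial.natDegree_C] at hdeg
    omega
  have hev : ∀ t : ZMod p, (Z.map fun x => u x + algebraMap (ZMod p) (Kb p) t * v x).prod = b →
      algebraMap (ZMod p) (Kb p) t ∈ (Q - Polynomial.C (b / c)).roots.toFinset := by
    intro t ht
    rw [Multiset.mem_toFinset, Polynomial.mem_roots hQ0, Polynomial.IsRoot, Polynomial.eval_sub, Polynomial.eval_C, hQ,
      Polynomial.eval_multiset_prod, Multiset.map_map, Multiset.map_map]
    have h2 : (Z.map fun x => u x + algebraMap (ZMod p) (Kb p) t * v x).prod =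
        c * (Z.map fun x => algebraMap (ZMod p) (Kb p) t - -(u x / v x)).prod := by
      rw [hc, ← Multiset.prod_map_mul]
      refine congrArg Multiset.prod (Multiset.map_congr rfl fun x hx => ?_)
      have := hv x hx
      field_simp
      ring
    have h3 : (Z.map ((Polynomial.eval (algebraMap (ZMod p) (Kb p) t) ∘ fun r => Polynomial.X - Polynomial.C r) ∘
        fun x => -(u x / v x))).prod = (Z.map fun x => algebraMap (ZMod p) (Kb p) t - -(u x / v x)).prod := by
      refine congrArg Multiset.prod (Multiset.map_congr rfl fun x _ => ?_)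
      simp only [Function.comp, Polynomial.eval_sub, Polynomial.eval_X, Polynomial.eval_C]
    rw [h3, ← ht, h2, mul_div_cancel_left₀ _ hc0, sub_self]
  calc (univ.filter fun t : ZMod p => (Z.map fun x => u x + algebraMap (ZMod p) (Kb p) t * v x).prod = b).card
      ≤ (Q - Polynomial.C (b / c)).roots.toFinset.card := by
        refine Finset.card_le_card_of_injOn (fun t => algebraMap (ZMod p) (Kb p) t) (fun t ht => ?_) (fun t _ t' _ h => ?_)
        · exact hev t (Finset.mem_filter.1 ht).2
        · exact (algebraMap (ZMod p) (Kb p)).injective h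
    _ ≤ Multiset.card (Q - Polynomial.C (b / c)).roots := Multiset.toFinset_card_le _
    _ ≤ Q.natDegree := Polynomial.card_roots_sub_C' (by
        rw [Polynomial.degree_eq_natDegree (fun h => by rw [h, Polynomial.natDegree_zero] at hdeg; omega), hdeg]
        exact_mod_cast h1)
    _ = Multiset.card Z := hdeg

private theorem E1_line {p : ℕ} [Fact p.Prime] {q d : ℕ} (Z : Multiset (Fin q → Kb p)) (h1 : 1 ≤ Multiset.card Z)
    (a₀ : Sym (Fin q) d → ZMod p) (h0 : ∀ x ∈ Z, E1_L x a₀ ≠ 0) (b : Kb p) :
    Nat.card {a : Sym (Fin q) d → ZMod p // (Z.map fun x => E1_L x a).prod = b} * p ≤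
      Multiset.card Z * p ^ Fintype.card (Sym (Fin q) d) := by
  classical
  have hA : Nat.card {a : Sym (Fin q) d → ZMod p // (Z.map fun x => E1_L x a).prod = b} =
      ∑ a : Sym (Fin q) d → ZMod p, if (Z.map fun x => E1_L x a).prod = b then 1 else 0 := by
    rw [Nat.card_eq_fintype_card, Fintype.card_subtype, Finset.card_filter]
  have hcard : Fintype.card (Sym (Fin q) d → ZMod p) = p ^ Fintype.card (Sym (Fin q) d) := by
    rw [Fintype.card_fun, ZMod.card]
  have hsh : ∀ t : ZMod p, (∑ a : Sym (Fin q) d → ZMod p, if (Z.map fun x => E1_L x (a + t • a₀)).prod = b then 1 else 0) =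
      ∑ a : Sym (Fin q) d → ZMod p, if (Z.map fun x => E1_L x a).prod = b then 1 else 0 := fun t =>
    Equiv.sum_comp (Equiv.addRight (t • a₀)) fun a : Sym (Fin q) d → ZMod p =>
      if (Z.map fun x => E1_L x a).prod = b then 1 else 0
  calc Nat.card {a : Sym (Fin q) d → ZMod p // (Z.map fun x => E1_L x a).prod = b} * p
      = ∑ t : ZMod p, ∑ a : Sym (Fin q) d → ZMod p, if (Z.map fun x => E1_L x (a + t • a₀)).prod = b then 1 else 0 := by
        rw [hA, Finset.sum_congr rfl fun t _ => hsh t, Finset.sum_const, Finset.card_univ, ZMod.card, smul_eq_mul, mul_comm]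
    _ = ∑ a : Sym (Fin q) d → ZMod p, ∑ t : ZMod p, if (Z.map fun x => E1_L x (a + t • a₀)).prod = b then 1 else 0 :=
        Finset.sum_comm
    _ ≤ ∑ _a : Sym (Fin q) d → ZMod p, Multiset.card Z := by
        refine Finset.sum_le_sum fun a _ => ?_
        rw [← Finset.card_filter]
        have h2 := E1_roots Z (fun x => E1_L x a) (fun x => E1_L x a₀) h0 h1 b
        simp only [E1_add]
        exact h2
    _ = Multiset.card Z * p ^ Fintype.card (Sym (Fin q) d) := by
        rw [Finset.sum_const, Finset.card_univ, hcard, smul_eq_mul, mul_comm]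

/-- a vector on which the linear form of `x` is not zero -/
private theorem E1_ne {p : ℕ} [Fact p.Prime] {q : ℕ} (d : ℕ) (x : Fin q → Kb p) (hx : x ≠ 0) :
    ∃ a : Sym (Fin q) d → ZMod p, E1_L x a ≠ 0 := by
  classical
  obtain ⟨t, ht⟩ := Function.ne_iff.1 hx
  refine ⟨fun α => if α = Sym.replicate d t then 1 else 0, ?_⟩
  have h1 : E1_L x (fun α : Sym (Fin q) d => if α = Sym.replicate d t then (1 : ZMod p) else 0) = x t ^ d := by
    unfold E1_L fv
    rw [Finset.sum_eq_single (Sym.replicate d t)]
    · simp only [if_true, map_one, one_mul]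
      unfold LVH.mon
      rw [Sym.coe_replicate, Multiset.map_replicate, Multiset.prod_replicate]
    · intro α _ hα
      simp only [if_neg hα, map_zero, zero_mul]
    · intro h
      exact absurd (Finset.mem_univ _) h
  rw [h1]
  exact pow_ne_zero _ ht

theorem sz1 {p : ℕ} [Fact p.Prime] {q : ℕ} (d : ℕ) (Z : Multiset (Fin q → Kb p)) (hZ : ∀ x ∈ Z, x ≠ 0)
    (h1 : 1 ≤ Multiset.card Z) (b : Kb p) :
    Nat.card {a : Sym (Fin q) d → ZMod p // (Z.map fun x => fv (fun t => algebraMap (ZMod p) (Kb p) (a t)) x).prod = b} *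
      p ≤ Multiset.card Z * p ^ Fintype.card (Sym (Fin q) d) := by
  classical
  have hcard : Fintype.card (Sym (Fin q) d → ZMod p) = p ^ Fintype.card (Sym (Fin q) d) := by
    rw [Fintype.card_fun, ZMod.card]
  have hp : 0 < p := (Fact.out : p.Prime).pos
  have hmain : (∃ a₀ : Sym (Fin q) d → ZMod p, ∀ x ∈ Z, E1_L x a₀ ≠ 0) ∨ p ≤ Multiset.card Z := by
    by_contra hcon
    push Not at hcon
    obtain ⟨h2, h3⟩ := hcon
    have hker : ∀ x ∈ Z.toFinset, (univ.filter fun a : Sym (Fin q) d → ZMod p => E1_L x a = 0).card * p ≤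
        p ^ Fintype.card (Sym (Fin q) d) := by
      intro x hx
      obtain ⟨a₁, ha₁⟩ := E1_ne d x (hZ x (Multiset.mem_toFinset.1 hx))
      have h4 := E1_line ({x} : Multiset (Fin q → Kb p)) (by rw [Multiset.card_singleton]) a₁ (by
        intro y hy
        rw [Multiset.mem_singleton.1 hy]
        exact ha₁) 0
      simp only [Multiset.map_singleton, Multiset.prod_singleton, Multiset.card_singleton, one_mul] at h4
      rw [Nat.card_eq_fintype_card, Fintype.card_subtype] at h4
      exact h4
    have hcov : (univ : Finset (Sym (Fin q) d → ZMod p)) ⊆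
        Z.toFinset.biUnion fun x => univ.filter fun a : Sym (Fin q) d → ZMod p => E1_L x a = 0 := by
      intro a _
      obtain ⟨x, hx, h4⟩ := h2 a
      exact Finset.mem_biUnion.2 ⟨x, Multiset.mem_toFinset.2 hx, Finset.mem_filter.2 ⟨Finset.mem_univ _, h4⟩⟩
    have h4 : p ^ Fintype.card (Sym (Fin q) d) * p ≤ Multiset.card Z * p ^ Fintype.card (Sym (Fin q) d) := by
      calc p ^ Fintype.card (Sym (Fin q) d) * p
          = (univ : Finset (Sym (Fin q) d → ZMod p)).card * p := by rw [Finset.card_univ, hcard]
        _ ≤ (∑ x ∈ Z.toFinset, (univ.filter fun a : Sym (Fin q) d → ZMod p => E1_L x a = 0).card) * p :=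
            Nat.mul_le_mul_right _ ((Finset.card_le_card hcov).trans Finset.card_biUnion_le)
        _ = ∑ x ∈ Z.toFinset, (univ.filter fun a : Sym (Fin q) d → ZMod p => E1_L x a = 0).card * p := by
            rw [Finset.sum_mul]
        _ ≤ ∑ _x ∈ Z.toFinset, p ^ Fintype.card (Sym (Fin q) d) := Finset.sum_le_sum hker
        _ = Z.toFinset.card * p ^ Fintype.card (Sym (Fin q) d) := by rw [Finset.sum_const, smul_eq_mul]
        _ ≤ Multiset.card Z * p ^ Fintype.card (Sym (Fin q) d) :=
            Nat.mul_le_mul_right _ (Multiset.toFinset_card_le _)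
    have h5 : 0 < p ^ Fintype.card (Sym (Fin q) d) := pow_pos hp _
    have h6 : p ≤ Multiset.card Z := by
      rw [mul_comm] at h4
      exact Nat.le_of_mul_le_mul_right h4 h5
    omega
  rcases hmain with ⟨a₀, h0⟩ | h2
  · exact E1_line Z h1 a₀ h0 b
  · have h3 : Nat.card {a : Sym (Fin q) d → ZMod p //
        (Z.map fun x => fv (fun t => algebraMap (ZMod p) (Kb p) (a t)) x).prod = b} ≤
        p ^ Fintype.card (Sym (Fin q) d) := by
      rw [← hcard, ← Nat.card_eq_fintype_card]
      exact Nat.card_le_card_of_injective _ Subtype.val_injective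
    calc _ ≤ p ^ Fintype.card (Sym (Fin q) d) * p := Nat.mul_le_mul_right _ h3
      _ ≤ _ := by rw [mul_comm]; exact Nat.mul_le_mul_right _ h2

end LVF
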