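import Pool.Agent.Lib.MP_17a322_ntLF.Fa

/-!
# LEAF Fa2: descent

PROOF.  `desc`: a relation `∑ i, c i • v i = 0` with `c ≠ 0` and the least number of nonzero `c i`, normalised so that some `c i0 = 1`.  For `y ∈ W` (`fr p` is injective on the finite set `W` with values in `W`, so surjective: `y = fr p x`): `∑ i, c i ^ p * v i y = ∑ i, (c i * v i x) ^ p = 0`; the difference `∑ i, (c i ^ p - c i) • v i = 0` has fewer nonzero coefficients, so `c i ^ p = c i` and `c i` is in the prime field (the roots of `X ^ p - X` in `Kb p` are the `p` elements of the prime field, `ZMod.pow_card`, `Polynomial.card_roots'`): a relation over `ZMod p`, a contradiction.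
`ew_le`: `EW W` is a `ZMod p`-subspace of `W → Kb p`; a linearly independent family in it is linearly independent over `Kb p`, so it has at most `#W` elements: `finrank ≤ #W`, `Nat.card = p ^ finrank`.
-/

namespace LVF

open Finset

private theorem Fa2_fix {p : ℕ} [Fact p.Prime] {x : Kb p} (hx : x ^ p = x) :
    ∃ a : ZMod p, algebraMap (ZMod p) (Kb p) a = x := by
  classical
  have hp : 1 < p := (Fact.out : p.Prime).one_lt
  let f : Polynomial (Kb p) := Polynomial.X ^ p - Polynomial.X
  have hf0 : f ≠ 0 := FiniteField.X_pow_card_sub_X_ne_zero (Kb p) hp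
  have hdeg : f.natDegree = p := FiniteField.X_pow_card_sub_X_natDegree_eq (Kb p) hp
  have hroot : ∀ y : Kb p, y ∈ f.roots.toFinset ↔ y ^ p = y := by
    intro y
    rw [Multiset.mem_toFinset, Polynomial.mem_roots hf0, Polynomial.IsRoot.def]
    simp only [f, Polynomial.eval_sub, Polynomial.eval_pow, Polynomial.eval_X]
    exact sub_eq_zero
  let S : Finset (Kb p) := Finset.univ.image (algebraMap (ZMod p) (Kb p))
  have hS : S.card = p := by
    rw [Finset.card_image_of_injective _ (algebraMap (ZMod p) (Kb p)).injective, Finset.card_univ, ZMod.card]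
  have hsub : S ⊆ f.roots.toFinset := by
    intro y hy
    obtain ⟨a, _, rfl⟩ := Finset.mem_image.1 hy
    rw [hroot, ← map_pow, ZMod.pow_card]
  have hcard : f.roots.toFinset.card ≤ S.card := by
    rw [hS]
    exact (Multiset.toFinset_card_le _).trans ((Polynomial.card_roots' f).trans hdeg.le)
  have heq := Finset.eq_of_subset_of_card_le hsub hcard
  have hx' : x ∈ S := by
    rw [heq]
    exact (hroot x).2 hx
  obtain ⟨a, _, ha⟩ := Finset.mem_image.1 hx'
  exact ⟨a, ha⟩

private theorem Fa2_surj {p : ℕ} [Fact p.Prime] {q : ℕ} (W : Finset (Fin q → Kb p)) (hW : Fs W) (y : W) :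
    ∃ x : W, (y : Fin q → Kb p) = fr p (x : Fin q → Kb p) := by
  let T : W → W := fun x => ⟨fr p (x : Fin q → Kb p), (hW x x.2).2⟩
  have hT : Function.Injective T := by
    intro x x' hxx
    have h1 : fr p (x : Fin q → Kb p) = fr p (x' : Fin q → Kb p) := congrArg Subtype.val hxx
    refine Subtype.ext (funext fun t => ?_)
    have h2 : (x : Fin q → Kb p) t ^ p = (x' : Fin q → Kb p) t ^ p := congrFun h1 t
    exact frobenius_inj (Kb p) p h2
  obtain ⟨x, hx⟩ := Finite.injective_iff_surjective.1 hT y
  exact ⟨x, (congrArg Subtype.val hx).symm⟩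

theorem desc {p : ℕ} [Fact p.Prime] {q : ℕ} (W : Finset (Fin q → Kb p)) (hW : Fs W) {n : ℕ} (v : Fin n → W → Kb p)
    (hv : ∀ i, v i ∈ EW W) (h : LinearIndependent (ZMod p) v) : LinearIndependent (Kb p) v := by
  classical
  have hp : p ≠ 0 := (Fact.out : p.Prime).ne_zero
  have key : ∀ (N : ℕ) (c : Fin n → Kb p), (univ.filter fun i => c i ≠ 0).card ≤ N → ∑ i, c i • v i = 0 → c = 0 := by
    intro N
    induction N with
    | zero =>
      intro c hc _
      have h1 := Finset.card_eq_zero.1 (Nat.le_zero.1 hc)
      funext i
      by_contra hi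
      have h2 : i ∈ (univ.filter fun i => c i ≠ 0) := Finset.mem_filter.2 ⟨Finset.mem_univ _, hi⟩
      rw [h1] at h2
      exact absurd h2 (Finset.notMem_empty i)
    | succ N ih =>
      intro c hc hsum
      by_contra hne
      obtain ⟨i0, hi0⟩ : ∃ i, c i ≠ 0 := by
        by_contra hall
        push Not at hall
        exact hne (funext hall)
      let c' : Fin n → Kb p := fun i => (c i0)⁻¹ * c i
      have hc'0 : c' i0 = 1 := inv_mul_cancel₀ hi0
      have hsum' : ∀ x : W, ∑ i, c' i * v i x = 0 := by
        intro x
        have h1 := congrFun hsum x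
        rw [Finset.sum_apply] at h1
        simp only [c', mul_assoc]
        rw [← Finset.mul_sum]
        have h2 : ∑ i, c i * v i x = 0 := h1
        rw [h2, mul_zero]
      let e : Fin n → Kb p := fun i => c' i ^ p - c' i
      have he : ∑ i, e i • v i = 0 := by
        funext y
        obtain ⟨x, hx⟩ := Fa2_surj W hW y
        rw [Finset.sum_apply]
        have h1 : ∑ i, (c' i * v i x) ^ p = 0 := by
          rw [← sum_pow_char, hsum' x, zero_pow hp]
        have h2 : ∀ i, (e i • v i) y = (c' i * v i x) ^ p - c' i * v i y := by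
          intro i
          rw [Pi.smul_apply, smul_eq_mul, mul_pow, ← hv i x y hx]
          simp only [e]
          ring
        rw [Finset.sum_congr rfl fun i _ => h2 i, Finset.sum_sub_distrib, h1, hsum' y, sub_zero]
        rfl
      have he0 : e = 0 := by
        refine ih e ?_ he
        have h1 : (univ.filter fun i => e i ≠ 0) ⊆ (univ.filter fun i => c i ≠ 0).erase i0 := by
          intro i hi
          have hi' := (Finset.mem_filter.1 hi).2
          refine Finset.mem_erase.2 ⟨?_, Finset.mem_filter.2 ⟨Finset.mem_univ _, ?_⟩⟩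
          · rintro rfl
            apply hi'
            simp only [e]
            rw [hc'0, one_pow, sub_self]
          · intro h0
            apply hi'
            simp only [e, c']
            rw [h0, mul_zero, zero_pow hp, sub_zero]
        have h2 := Finset.card_le_card h1
        have h3 : i0 ∈ (univ.filter fun i => c i ≠ 0) := Finset.mem_filter.2 ⟨Finset.mem_univ _, hi0⟩
        rw [Finset.card_erase_of_mem h3] at h2
        omega
      have hfix : ∀ i, ∃ a : ZMod p, algebraMap (ZMod p) (Kb p) a = c' i := by
        intro i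
        apply Fa2_fix
        have h1 : c' i ^ p - c' i = 0 := congrFun he0 i
        exact sub_eq_zero.1 h1
      choose a ha using hfix
      have hz : ∑ i, a i • v i = 0 := by
        funext x
        rw [Finset.sum_apply]
        refine Eq.trans (Finset.sum_congr rfl fun i _ => ?_) (hsum' x)
        rw [Pi.smul_apply, Algebra.smul_def, ha i]
      have h3 := Fintype.linearIndependent_iff.1 h a hz i0
      have h4 := ha i0
      rw [h3, map_zero, hc'0] at h4
      exact zero_ne_one h4
  refine Fintype.linearIndependent_iff.2 fun c hc => ?_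
  exact congrFun (key _ c le_rfl hc)

/-- the functions compatible with Frobenius form a vector space over the prime field -/
def EWs {p : ℕ} [Fact p.Prime] {q : ℕ} (W : Finset (Fin q → Kb p)) : Submodule (ZMod p) (W → Kb p) where
  carrier := EW W
  add_mem' := by
    intro v w hv hw x y h
    rw [Pi.add_apply, Pi.add_apply, hv x y h, hw x y h, add_pow_char]
  zero_mem' := by
    intro x y _
    rw [Pi.zero_apply, Pi.zero_apply, zero_pow (Fact.out : p.Prime).ne_zero]
  smul_mem' := by
    intro c v hv x y h
    rw [Pi.smul_apply, Pi.smul_apply, hv x y h, Algebra.smul_def, Algebra.smul_def, mul_pow, ← map_pow, ZMod.pow_card]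

theorem ew_le {p : ℕ} [Fact p.Prime] {q : ℕ} (W : Finset (Fin q → Kb p)) (hW : Fs W) :
    Module.Finite (ZMod p) (EWs W) ∧ Module.finrank (ZMod p) (EWs W) ≤ W.card := by
  have hr : Module.rank (ZMod p) (EWs W) ≤ W.card := by
    refine rank_le fun s hs => ?_
    let ε : Fin s.card ≃ s := s.equivFin.symm
    have h1 : LinearIndependent (ZMod p) (fun i : Fin s.card => ((ε i : EWs W) : W → Kb p)) := by
      have h2 := (hs.comp ε ε.injective).map' (EWs W).subtype (Submodule.ker_subtype _)
      exact h2
    have h3 := desc W hW (fun i : Fin s.card => ((ε i : EWs W) : W → Kb p)) (fun i => (ε i : EWs W).2) h1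
    have h4 := h3.fintype_card_le_finrank
    rwa [Fintype.card_fin, Module.finrank_fintype_fun_eq_card, Fintype.card_coe] at h4
  refine ⟨Module.rank_lt_aleph0_iff.1 (lt_of_le_of_lt hr (Cardinal.natCast_lt_aleph0)), ?_⟩
  exact Module.finrank_le_of_rank_le hr

end LVF
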