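import Pool.Agent.Lib.MP_17a322_ntLF.Fa1
import Pool.Agent.Lib.MP_17a322_ntLF.Fa2

/-!
# LEAF Fa3: the distribution of the values of one form

PROOF.  The map `ev : (Sym (Fin q) d → ZMod p) → (W → Kb p)`, `a ↦ (x ↦ fv a x)`, is linear over `ZMod p`, with values in `EWs W` (`fv a (fr p x) = (fv a x) ^ p` for coefficients in the prime field: `map_sum` for the Frobenius ring homomorphism, `LVH.mon` is multiplicative).  The range spans `W → Kb p` over `Kb p`: by `interp` every function is `x ↦ fv a x = ∑ α, a α * LVH.mon x α` with `a` over `Kb p`, a combination of the functions `x ↦ mon x α` (in the range).  So a basis over `ZMod p` of the range spans a space of dimension `#W` over `Kb p`: `finrank (range ev) ≥ #W`; by `ew_le` the range is `EWs W`, of `p ^ #W` elements, and each fibre over an element of `EW W` has `p ^ N / p ^ #W` elements (cosets of the kernel; `Submodule.card_eq_card_quotient_mul_card` or `LinearMap.quotKerEquivRange`).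
`ne` is the number of elements of `EW W` (take `d = #W`).
`fv_fr` is used by others: `Fb a i (fr p x) = Fb a i x ^ p`.
-/

namespace LVF

open Finset
open LVH (fv)

theorem fv_fr {p : ℕ} [Fact p.Prime] {q d : ℕ} (a : Sym (Fin q) d → ZMod p) (x : Fin q → Kb p) :
    fv (fun t => algebraMap (ZMod p) (Kb p) (a t)) (fr p x) = fv (fun t => algebraMap (ZMod p) (Kb p) (a t)) x ^ p := by
  unfold LVH.fv
  rw [sum_pow_char]
  refine Finset.sum_congr rfl fun α _ => ?_
  rw [mul_pow, ← map_pow, ZMod.pow_card]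
  congr 1
  unfold LVH.mon
  exact Multiset.prod_map_pow

/-- the evaluation as a linear map -/
private noncomputable def Fa3_L {p : ℕ} [Fact p.Prime] {q : ℕ} (d : ℕ) (W : Finset (Fin q → Kb p)) :
    (Sym (Fin q) d → ZMod p) →ₗ[ZMod p] (W → Kb p) where
  toFun a x := fv (fun t => algebraMap (ZMod p) (Kb p) (a t)) (x : Fin q → Kb p)
  map_add' a b := by
    funext x
    simp only [LVH.fv, Pi.add_apply, map_add, add_mul, Finset.sum_add_distrib]
  map_smul' c a := by
    funext x
    simp only [LVH.fv, Pi.smul_apply, smul_eq_mul, map_mul, RingHom.id_apply, Algebra.smul_def, Finset.mul_sum,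
      mul_assoc]

private theorem Fa3_mem {p : ℕ} [Fact p.Prime] {q : ℕ} (d : ℕ) (W : Finset (Fin q → Kb p)) :
    LinearMap.range (Fa3_L d W) ≤ EWs W := by
  rintro _ ⟨a, rfl⟩
  change Fa3_L d W a ∈ EW W
  intro x y h
  change fv _ (y : Fin q → Kb p) = fv _ (x : Fin q → Kb p) ^ p
  rw [h]
  exact fv_fr a x

private theorem Fa3_rank {p : ℕ} [Fact p.Prime] {q : ℕ} (d : ℕ) (W : Finset (Fin q → Kb p)) (hW : Fs W)
    (hd : W.card ≤ d + 1) : W.card ≤ Module.finrank (ZMod p) (LinearMap.range (Fa3_L d W)) := by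
  classical
  let b := Module.finBasis (ZMod p) (LinearMap.range (Fa3_L d W))
  let u : Fin (Module.finrank (ZMod p) (LinearMap.range (Fa3_L d W))) → (W → Kb p) := fun i => (b i : W → Kb p)
  have h1 : ∀ r ∈ LinearMap.range (Fa3_L d W), r ∈ Submodule.span (Kb p) (Set.range u) := by
    intro r hr
    have h2 : (⟨r, hr⟩ : LinearMap.range (Fa3_L d W)) =
        ∑ i, b.repr ⟨r, hr⟩ i • b i := (b.sum_repr _).symm
    have h3 : r = ∑ i, b.repr ⟨r, hr⟩ i • u i := by
      have h4 := congrArg (Submodule.subtype (LinearMap.range (Fa3_L d W))) h2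
      rw [map_sum] at h4
      refine h4.trans (Finset.sum_congr rfl fun i _ => ?_)
      rw [map_smul]
      rfl
    rw [h3]
    refine Submodule.sum_mem _ fun i _ => ?_
    rw [← algebraMap_smul (Kb p)]
    exact Submodule.smul_mem _ _ (Submodule.subset_span ⟨i, rfl⟩)
  have h5 : Submodule.span (Kb p) (Set.range u) = ⊤ := by
    rw [eq_top_iff]
    rintro v -
    obtain ⟨a, ha⟩ := interp d W (fun x hx => (hW x hx).1) hd v
    have h6 : v = ∑ α : Sym (Fin q) d, a α • Fa3_L d W (Pi.single α 1) := by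
      funext x
      rw [← ha x, Finset.sum_apply]
      unfold LVH.fv
      refine Finset.sum_congr rfl fun α _ => ?_
      rw [Pi.smul_apply, smul_eq_mul]
      congr 1
      change _ = ∑ β : Sym (Fin q) d, algebraMap (ZMod p) (Kb p) ((Pi.single α 1 : Sym (Fin q) d → ZMod p) β) *
        LVH.mon (x : Fin q → Kb p) β
      rw [Finset.sum_eq_single α]
      · rw [Pi.single_eq_same, map_one, one_mul]
      · intro β _ hβ
        rw [Pi.single_eq_of_ne hβ, map_zero, zero_mul]
      · intro h
        exact absurd (Finset.mem_univ _) h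
    rw [h6]
    exact Submodule.sum_mem _ fun α _ => Submodule.smul_mem _ _ (h1 _ ⟨_, rfl⟩)
  have h7 := finrank_range_le_card (R := Kb p) u
  unfold Set.finrank at h7
  rw [h5, finrank_top, Module.finrank_fintype_fun_eq_card, Fintype.card_coe, Fintype.card_fin] at h7
  exact h7

private theorem Fa3_eq {p : ℕ} [Fact p.Prime] {q : ℕ} (d : ℕ) (W : Finset (Fin q → Kb p)) (hW : Fs W)
    (hd : W.card ≤ d + 1) : LinearMap.range (Fa3_L d W) = EWs W ∧
      Module.finrank (ZMod p) (LinearMap.range (Fa3_L d W)) = W.card := by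
  obtain ⟨hfin, hle⟩ := ew_le W hW
  have h1 := Fa3_rank d W hW hd
  have h2 : Module.finrank (ZMod p) (LinearMap.range (Fa3_L d W)) ≤ Module.finrank (ZMod p) (EWs W) :=
    Submodule.finrank_mono (Fa3_mem d W)
  have h3 : Module.finrank (ZMod p) (LinearMap.range (Fa3_L d W)) = Module.finrank (ZMod p) (EWs W) := by omega
  exact ⟨Submodule.eq_of_le_of_finrank_eq (Fa3_mem d W) h3, by omega⟩

theorem ev1 {p : ℕ} [Fact p.Prime] {q : ℕ} (d : ℕ) (W : Finset (Fin q → Kb p)) (hW : Fs W) (hd : W.card ≤ d + 1)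
    (v : W → Kb p) (hv : v ∈ EW W) :
    Nat.card {a : Sym (Fin q) d → ZMod p // ∀ x : W, fv (fun t => algebraMap (ZMod p) (Kb p) (a t)) (x : Fin q → Kb p) =
      v x} * p ^ W.card = p ^ Fintype.card (Sym (Fin q) d) := by
  classical
  obtain ⟨hr, hn⟩ := Fa3_eq d W hW hd
  have hvr : v ∈ LinearMap.range (Fa3_L d W) := by
    rw [hr]
    exact hv
  obtain ⟨a0, ha0⟩ := hvr
  have hcard : Nat.card {a : Sym (Fin q) d → ZMod p // ∀ x : W,
      fv (fun t => algebraMap (ZMod p) (Kb p) (a t)) (x : Fin q → Kb p) = v x} =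
      Nat.card (LinearMap.ker (Fa3_L d W)) := by
    refine Nat.card_congr ⟨fun a => ⟨a.1 - a0, ?_⟩, fun k => ⟨k.1 + a0, ?_⟩, fun a => ?_, fun k => ?_⟩
    · have h1 : Fa3_L d W a.1 = v := funext a.2
      rw [LinearMap.mem_ker, map_sub, h1, ha0, sub_self]
    · intro x
      have h1 : Fa3_L d W (k.1 + a0) = v := by
        rw [map_add, LinearMap.mem_ker.1 k.2, ha0, zero_add]
      exact congrFun h1 x
    · exact Subtype.ext (sub_add_cancel _ _)
    · exact Subtype.ext (add_sub_cancel_right _ _)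
  have h2 := LinearMap.finrank_range_add_finrank_ker (Fa3_L d W)
  rw [hn, Module.finrank_fintype_fun_eq_card] at h2
  rw [hcard, Module.natCard_eq_pow_finrank (K := ZMod p), Nat.card_zmod, ← pow_add, ← h2, add_comm]

theorem ne {p : ℕ} [Fact p.Prime] {q : ℕ} (W : Finset (Fin q → Kb p)) (hW : Fs W) : Nat.card (EW W) = p ^ W.card := by
  obtain ⟨hr, hn⟩ := Fa3_eq W.card W hW (by omega)
  obtain ⟨hfin, hle⟩ := ew_le W hW
  rw [hr] at hn
  have h1 : Nat.card (EWs W) = Nat.card (ZMod p) ^ Module.finrank (ZMod p) (EWs W) :=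
    Module.natCard_eq_pow_finrank
  rw [hn, Nat.card_zmod] at h1
  exact h1

end LVF
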