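import Pool.Agent.Lib.MP_17a322_ntLF.RDefs
import Pool.Agent.Lib.MP_17a322_ntLF.Fa3
import Pool.Agent.Lib.MP_17a322_ntLF.E1

/-!
# LEAF E1b: the vectors of forms with given products of values

PROOF.  The condition is a product over `i` of conditions on the coefficients `α ↦ a ⟨i, α⟩` of the `i`-th form: `Nat.card` of the set is the product of the `Nat.card` of the conditions (`Nat.card_pi` after `Equiv.piCurry`, as in `one_vec` of `MP_17a322_ntLY/Q1.lean`).  For `i ∈ B`: `sz1` with `b = y i / μ ^ d i`: (number) `* p ≤ card Z * p ^ N_i`; for `i ∉ B`: `ev1` for `W = Z.toFinset` (`Fs W`: from `hZ` and `hN`) and `v = 0`: (number) `* p ^ W.card = p ^ N_i`.  Multiply.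
-/

namespace LVF

open Finset
open LVH (fv)

open Classical in
theorem sz {p : ℕ} [Fact p.Prime] {q s : ℕ} (d : Fin s → ℕ) (B : Finset (Fin s)) (Z : Multiset (Fin q → Kb p))
    (hZ : Z.map (fr p) = Z) (hN : ∀ x ∈ Z, Nm x) (h1 : 1 ≤ Multiset.card Z) (hd : ∀ i, i ∉ B → Z.toFinset.card ≤ d i + 1)
    (μ : Kb p) (hμ : μ ≠ 0) (y : Fin s → Kb p) :
    Nat.card {a : LVY.Mo (Fin q) d → ZMod p // Cy d B y (Fb a) Z μ} * p ^ (B.card + Z.toFinset.card * Bᶜ.card) ≤
      Multiset.card Z ^ B.card * p ^ Fintype.card (LVY.Mo (Fin q) d) := by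
  have hmem : ∀ x, x ∈ Z.toFinset ↔ x ∈ Z := fun x => Multiset.mem_toFinset
  generalize Z.toFinset = W at hd hmem ⊢
  have hW : Fs W := by
    intro x hx
    have hx' := (hmem x).1 hx
    refine ⟨hN x hx', (hmem _).2 ?_⟩
    have h2 := Multiset.mem_map_of_mem (fr p) hx'
    rwa [hZ] at h2
  have hne : ∀ x ∈ Z, x ≠ 0 := by
    intro x hx h0
    obtain ⟨w, hw, -⟩ := hN x hx
    rw [h0, Pi.zero_apply] at hw
    exact zero_ne_one hw
  -- the condition for one form
  obtain ⟨Q, hQ⟩ : ∃ Q : (i : Fin s) → (Sym (Fin q) (d i) → ZMod p) → Prop, Q = fun i b =>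
    (i ∈ B → μ ^ d i * (Z.map fun x => fv (fun t => algebraMap (ZMod p) (Kb p) (b t)) x).prod = y i) ∧
    (i ∉ B → ∀ x ∈ Z, fv (fun t => algebraMap (ZMod p) (Kb p) (b t)) x = 0) := ⟨_, rfl⟩
  have e : {a : LVY.Mo (Fin q) d → ZMod p // Cy d B y (Fb a) Z μ} ≃
      ((i : Fin s) → {b : Sym (Fin q) (d i) → ZMod p // Q i b}) :=
    ((Equiv.piCurry fun (i : Fin s) (_ : Sym (Fin q) (d i)) => ZMod p).subtypeEquiv
      (q := fun b => ∀ i, Q i (b i)) fun a => by
        rw [hQ]
        exact Iff.rfl).trans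
      (Equiv.subtypePiEquivPi (p := fun {i : Fin s} (b : Sym (Fin q) (d i) → ZMod p) => Q i b))
  have h2 : ∀ i, Nat.card {b : Sym (Fin q) (d i) → ZMod p // Q i b} * (if i ∈ B then p else p ^ W.card) ≤
      (if i ∈ B then Multiset.card Z else 1) * p ^ Fintype.card (Sym (Fin q) (d i)) := by
    intro i
    by_cases hi : i ∈ B
    · rw [if_pos hi, if_pos hi]
      have h3 := sz1 (d i) Z hne h1 (y i / μ ^ d i)
      have h4 : Nat.card {b : Sym (Fin q) (d i) → ZMod p // Q i b} =
          Nat.card {a : Sym (Fin q) (d i) → ZMod p //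
            (Z.map fun x => fv (fun t => algebraMap (ZMod p) (Kb p) (a t)) x).prod = y i / μ ^ d i} := by
        refine Nat.card_congr (Equiv.subtypeEquivRight fun b => ?_)
        rw [hQ, eq_div_iff (pow_ne_zero _ hμ), mul_comm]
        exact ⟨fun h5 => h5.1 hi, fun h5 => ⟨fun _ => h5, fun h6 => absurd hi h6⟩⟩
      rw [h4]
      exact h3
    · rw [if_neg hi, if_neg hi, one_mul]
      have h3 := ev1 (d i) W hW (hd i hi) 0 (fun x y _ => by
        rw [Pi.zero_apply, Pi.zero_apply, zero_pow (Fact.out : p.Prime).ne_zero])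
      have h4 : Nat.card {b : Sym (Fin q) (d i) → ZMod p // Q i b} =
          Nat.card {a : Sym (Fin q) (d i) → ZMod p // ∀ x : W,
            fv (fun t => algebraMap (ZMod p) (Kb p) (a t)) (x : Fin q → Kb p) = (0 : W → Kb p) x} := by
        refine Nat.card_congr (Equiv.subtypeEquivRight fun b => ?_)
        rw [hQ]
        constructor
        · intro h5 x
          exact h5.2 hi x.1 ((hmem _).1 x.2)
        · intro h5
          exact ⟨fun h6 => absurd h6 hi, fun _ x hx => h5 ⟨x, (hmem x).2 hx⟩⟩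
      rw [h4]
      exact h3.le
  have h5 : Nat.card {a : LVY.Mo (Fin q) d → ZMod p // Cy d B y (Fb a) Z μ} =
      ∏ i, Nat.card {b : Sym (Fin q) (d i) → ZMod p // Q i b} := by
    rw [Nat.card_congr e, Nat.card_pi]
  have h6 : ∀ a b : ℕ, ∏ i : Fin s, (if i ∈ B then a else b) = a ^ B.card * b ^ Bᶜ.card := by
    intro a b
    rw [Finset.prod_ite, Finset.prod_const, Finset.prod_const]
    congr 3
    · ext i
      simp
    · ext i
      simp
  have h7 := Finset.prod_le_prod' (s := (Finset.univ : Finset (Fin s))) fun i _ => h2 i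
  rw [Finset.prod_mul_distrib, Finset.prod_mul_distrib, h6, h6, ← h5, Finset.prod_pow_eq_pow_sum, one_pow,
    mul_one, ← pow_mul, ← pow_add, ← Fintype.card_sigma] at h7
  exact h7

end LVF
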