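import Pool.Agent.Lib.MP_17a322_ntLF.Nf

/-!
# LEAF E2: finiteness, the union bound, finitely many shapes

PROOF.  `fx_fin`: each coordinate is a root of `X ^ (p ^ f) - X ≠ 0` (`f ≥ 1`), a finite set; functions from `Fin q` to a finite set.
`ubl`: `Nat.card {a // ∃ t, P t ∧ E t a} ≤ ∑ t ∈ (the finite set of the t with P t), Nat.card {a // E t a}`, multiply by `D`.
`shp`: `Z = Zo f m z` with `f a, m a` in `[1, ρ]`, `k ≤ ρ`: put `f a`, `m a` in `Fin (ρ + 1)` (from `shape`; `f a ≤ ∑ f a * m a = card Z`).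
`zo_card`: the cardinality of a sum of multisets.
-/

namespace LVF

open Finset

/-- the multiset of shape `f`, `m` with the representatives `z` -/
noncomputable def Zo {p : ℕ} [Fact p.Prime] {q k : ℕ} (f m : Fin k → ℕ) (z : Fin k → Fin q → Kb p) :
    Multiset (Fin q → Kb p) := ∑ a, m a • ((Multiset.range (f a)).map fun i => (fr p)^[i] (z a))

theorem fx_fin {p : ℕ} [Fact p.Prime] {q f : ℕ} (hf : 1 ≤ f) : {x : Fin q → Kb p | Fx f x}.Finite := by
  classical
  have h1 : (Polynomial.X ^ p ^ f - Polynomial.X : Polynomial (Kb p)) ≠ 0 :=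
    FiniteField.X_pow_card_pow_sub_X_ne_zero (Kb p) (by omega) (Fact.out : p.Prime).one_lt
  have h2 : {b : Kb p | b ^ p ^ f = b}.Finite := by
    refine ((Polynomial.X ^ p ^ f - Polynomial.X : Polynomial (Kb p)).roots.toFinset.finite_toSet).subset ?_
    intro b hb
    have hb' : b ^ p ^ f = b := hb
    simp only [Finset.mem_coe, Multiset.mem_toFinset, Polynomial.mem_roots h1, Polynomial.IsRoot.def,
      Polynomial.eval_sub, Polynomial.eval_pow, Polynomial.eval_X]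
    rw [hb', sub_self]
  refine (Set.Finite.pi (fun _ : Fin q => h2)).subset ?_
  intro x hx t _
  exact hx t

theorem ubl {A T : Type} [Finite A] (P : T → Prop) (hP : {t | P t}.Finite) (E : T → A → Prop) (D M : ℕ)
    (h : ∀ t, P t → Nat.card {a // E t a} * D ≤ M) : Nat.card {a // ∃ t, P t ∧ E t a} * D ≤ Nat.card {t // P t} * M := by
  classical
  have : Fintype A := Fintype.ofFinite A
  have h1 : Nat.card {a // ∃ t, P t ∧ E t a} ≤ ∑ t ∈ hP.toFinset, Nat.card {a // E t a} := by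
    rw [Nat.card_eq_fintype_card, Fintype.card_subtype]
    have h2 : (Finset.univ.filter fun a => ∃ t, P t ∧ E t a) ⊆
        hP.toFinset.biUnion fun t => Finset.univ.filter fun a => E t a := by
      intro a ha
      obtain ⟨t, ht, hta⟩ := (Finset.mem_filter.1 ha).2
      exact Finset.mem_biUnion.2 ⟨t, hP.mem_toFinset.2 ht, Finset.mem_filter.2 ⟨Finset.mem_univ _, hta⟩⟩
    refine (Finset.card_le_card h2).trans (Finset.card_biUnion_le.trans ?_)
    refine Finset.sum_le_sum fun t _ => ?_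
    rw [Nat.card_eq_fintype_card, Fintype.card_subtype]
  have h3 : Nat.card {t // P t} = hP.toFinset.card := by
    rw [← Set.ncard_eq_toFinset_card {t | P t} hP]
    rfl
  rw [h3]
  refine (Nat.mul_le_mul_right D h1).trans ?_
  rw [Finset.sum_mul]
  refine (Finset.sum_le_card_nsmul _ _ M fun t ht => h t (hP.mem_toFinset.1 ht)).trans ?_
  rw [smul_eq_mul]

/-- the shapes of the cycles of degree at most `ρ` -/
abbrev Sh (ρ : ℕ) : Type := (k : Fin (ρ + 1)) × (Fin k → Fin (ρ + 1)) × (Fin k → Fin (ρ + 1))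

open Classical in
theorem shp {p : ℕ} [Fact p.Prime] {q ρ : ℕ} (Z : Multiset (Fin q → Kb p)) (hZ : Z.map (fr p) = Z)
    (h1 : 1 ≤ Multiset.card Z) (hρ : Multiset.card Z ≤ ρ) : ∃ (t : Sh ρ) (z : Fin t.1 → Fin q → Kb p),
      1 ≤ (t.1 : ℕ) ∧ (∀ a, 1 ≤ (t.2.1 a : ℕ) ∧ 1 ≤ (t.2.2 a : ℕ)) ∧
      Z = Zo (fun a => (t.2.1 a : ℕ)) (fun a => (t.2.2 a : ℕ)) z ∧ (∑ a, (t.2.1 a : ℕ) = Z.toFinset.card) ∧
      (∑ a, (t.2.1 a : ℕ) * (t.2.2 a : ℕ) = Multiset.card Z) ∧ (∀ a, z a ∈ Z ∧ Fx (t.2.1 a) (z a)) ∧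
      ∀ h : MvPolynomial (Fin q) (ZMod p), vp Z h = ∏ a, nf p (t.2.1 a) (MvPolynomial.aeval (z a) h) ^ (t.2.2 a : ℕ) := by
  obtain ⟨r, f, m, z, hr, hfm, hsum, hfs, hz, hZo, hvp⟩ := shape Z hZ
  have hle : ∀ a, f a * m a ≤ ρ := fun a =>
    (Finset.single_le_sum (f := fun a => f a * m a) (fun _ _ => Nat.zero_le _) (Finset.mem_univ a)).trans
      (hsum.le.trans hρ)
  have hf : ∀ a, f a < ρ + 1 := fun a =>
    Nat.lt_succ_of_le ((Nat.le_mul_of_pos_right (f a) (hfm a).2).trans (hle a))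
  have hm : ∀ a, m a < ρ + 1 := fun a =>
    Nat.lt_succ_of_le ((Nat.le_mul_of_pos_left (m a) (hfm a).1).trans (hle a))
  have hr1 : 1 ≤ r := by
    rcases Nat.eq_zero_or_pos r with h0 | h0
    · subst h0
      rw [Finset.univ_eq_empty, Finset.sum_empty] at hsum
      omega
    · exact h0
  exact ⟨⟨⟨r, Nat.lt_succ_of_le (hr.trans hρ)⟩, fun a => ⟨f a, hf a⟩, fun a => ⟨m a, hm a⟩⟩, z, hr1, hfm,
    hZo, hfs, hsum, hz, hvp⟩

theorem zo_card {p : ℕ} [Fact p.Prime] {q k : ℕ} (f m : Fin k → ℕ) (z : Fin k → Fin q → Kb p) :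
    Multiset.card (Zo f m z) = ∑ a, f a * m a := by
  unfold Zo
  rw [Multiset.card_sum]
  refine Finset.sum_congr rfl fun a _ => ?_
  rw [Multiset.card_nsmul, Multiset.card_map, Multiset.card_range, mul_comm]

end LVF
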