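import Pool.Agent.Lib.MP_17a322_ntLF.E1b
import Pool.Agent.Lib.MP_17a322_ntLF.E2
import Pool.Agent.Lib.MP_17a322_ntLF.Cnt

/-!
# LEAF E4: the union bound for the cycles at infinity

PROOF.  As E3 with `cnt0` in place of `cnt`: for each shape `t : Sh ρ` with `k ≥ 1`, positive entries, `∑ f a * m a ≤ ρ` and `F = ∑ f a` the `z` with `Nm`, `Fx`, zeros of `G` and `∀ l, ∃ a, aeval (z a) (g l) = 0` (and moreover `Zo f m z ∈ Cyc G m'`, `(Zo f m z).toFinset.card = F`) satisfy `# * p ^ (j + F) ≤ A p ^ (F (n + c + 1))`, i.e. `# * p ^ j ≤ A * p ^ (F * n + F * c)` with `c = Bᶜ.card` (if `vp Z (g l) = ∏ nf .. ^ m = 0` then a factor is `0`, and `nf p f b = 0` gives `b = 0`); for each `z` the condition `Cy d B 0 (Fb a) (Zo f m z) 1` has at most `ρ ^ b * p ^ N / p ^ (b + F * c)` solutions by `sz` (`b = B.card`).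
-/

namespace LVF

open Finset

private theorem E4_union {A T : Type} [Finite A] [Fintype T] (Q : T → A → Prop) (D M : ℕ) (Mt : T → ℕ)
    (h : ∀ t, Nat.card {a // Q t a} * D ≤ Mt t * M) : Nat.card {a // ∃ t, Q t a} * D ≤ (∑ t, Mt t) * M := by
  classical
  have : Fintype A := Fintype.ofFinite A
  have h1 : Nat.card {a // ∃ t, Q t a} ≤ ∑ t, Nat.card {a // Q t a} := by
    have e1 : Nat.card {a // ∃ t, Q t a} = (univ.filter fun a => ∃ t, Q t a).card := by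
      rw [Nat.card_eq_fintype_card, Fintype.card_subtype]
    have e2 : ∀ t, Nat.card {a // Q t a} = (univ.filter fun a => Q t a).card := fun t => by
      rw [Nat.card_eq_fintype_card, Fintype.card_subtype]
    rw [e1, Finset.sum_congr rfl fun t _ => e2 t]
    refine le_trans (Finset.card_le_card ?_)
      (Finset.card_biUnion_le (s := (univ : Finset T)) (t := fun t => univ.filter fun a => Q t a))
    intro a ha
    obtain ⟨t, ht⟩ := (mem_filter.1 ha).2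
    exact mem_biUnion.2 ⟨t, mem_univ _, mem_filter.2 ⟨mem_univ _, ht⟩⟩
  calc Nat.card {a // ∃ t, Q t a} * D ≤ (∑ t, Nat.card {a // Q t a}) * D := Nat.mul_le_mul_right _ h1
    _ = ∑ t, Nat.card {a // Q t a} * D := Finset.sum_mul _ _ _
    _ ≤ ∑ t, Mt t * M := Finset.sum_le_sum fun t _ => h t
    _ = (∑ t, Mt t) * M := (Finset.sum_mul _ _ _).symm

open Classical in
/-- the condition on the representatives -/
private def E4_P {p : ℕ} [Fact p.Prime] {q j k : ℕ} (ρ : ℕ) (G : Finset (MvPolynomial (Fin q) (ZMod p)))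
    (g : Fin j → MvPolynomial (Fin q) (ZMod p)) (f m : Fin k → ℕ) (z : Fin k → Fin q → Kb p) : Prop :=
  ((∀ a, Nm (z a) ∧ Fx (f a) (z a) ∧ ∀ h ∈ G, MvPolynomial.aeval (z a) h = 0) ∧
    ∀ l, ∃ a, MvPolynomial.aeval (z a) (g l) = 0) ∧ (Zo f m z).map (fr p) = Zo f m z ∧
    (∀ x ∈ Zo f m z, Nm x) ∧ (Zo f m z).toFinset.card = ∑ a, f a ∧ 1 ≤ Multiset.card (Zo f m z) ∧
    Multiset.card (Zo f m z) ≤ ρ

private theorem E4_fin {p : ℕ} [Fact p.Prime] {q k : ℕ} {f : Fin k → ℕ} (hf : ∀ a, 1 ≤ f a)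
    {P : (Fin k → Fin q → Kb p) → Prop} (h : ∀ z, P z → ∀ a, Fx (f a) (z a)) : {z | P z}.Finite := by
  refine Set.Finite.subset (Set.Finite.pi' fun a => fx_fin (p := p) (q := q) (hf a)) fun z hz a => ?_
  exact h z hz a

open Classical in
private theorem E4_shape (C j s ρ n r : ℕ) (B : Finset (Fin s)) (hn : r + j = n + Bᶜ.card + 1) {k : ℕ}
    (f m : Fin k → ℕ) (hk : 1 ≤ k) (hf : ∀ a, 1 ≤ f a) (hF : ∑ a, f a ≤ ρ) : ∃ A : ℕ, ∀ (p : ℕ) [Fact p.Prime]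
    {q : ℕ} (G : Finset (MvPolynomial (Fin q) (ZMod p))) (_ : ∀ g ∈ G, ∃ n, g.IsHomogeneous n)
    (e : Fin j → ℕ) (g : Fin j → MvPolynomial (Fin q) (ZMod p)) (_ : ∀ l, (g l).IsHomogeneous (e l))
    (_ : SL G g r C) (d : Fin s → ℕ) (_ : ∀ i, i ∉ B → ρ ≤ d i + 1),
    Nat.card {a : LVY.Mo (Fin q) d → ZMod p // ∃ z, E4_P ρ G g f m z ∧ Cy d B 0 (Fb a) (Zo f m z) 1} *
      p ^ (j + B.card) ≤ A * (p ^ (ρ * n) * p ^ Fintype.card (LVY.Mo (Fin q) d)) := by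
  obtain ⟨A, hA⟩ := cnt0 C j k hk f hf
  refine ⟨A * ρ ^ B.card, ?_⟩
  intro p hp q G hG e g hg hSL d hd
  have hp1 : 1 ≤ p := hp.out.one_lt.le
  obtain ⟨F, hFdef⟩ : ∃ F, F = ∑ a, f a := ⟨_, rfl⟩
  obtain ⟨N, hN⟩ : ∃ N, N = Fintype.card (LVY.Mo (Fin q) d) := ⟨_, rfl⟩
  have hfin : {z : Fin k → Fin q → Kb p | E4_P ρ G g f m z}.Finite := E4_fin hf fun z hz a => (hz.1.1 a).2.1
  have h1 := ubl (A := LVY.Mo (Fin q) d → ZMod p) (fun z => E4_P ρ G g f m z) hfin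
    (fun z a => Cy d B 0 (Fb a) (Zo f m z) 1) (p ^ (B.card + F * Bᶜ.card)) (ρ ^ B.card * p ^ N) (by
      rintro z ⟨-, z2, z3, z4, z5, z6⟩
      have h2 := sz d B (Zo f m z) z2 z3 z5 (fun i hi => by
        rw [z4]
        exact hF.trans (hd i hi)) 1 one_ne_zero 0
      rw [z4, ← hFdef, ← hN] at h2
      exact h2.trans (Nat.mul_le_mul_right _ (Nat.pow_le_pow_left z6 _)))
  have h3 : Nat.card {z : Fin k → Fin q → Kb p // E4_P ρ G g f m z} * p ^ (j + F) ≤ A * p ^ (F * (r + j)) := by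
    have h4 := hA p G hG e g hg r hSL
    rw [← hFdef] at h4
    refine le_trans (Nat.mul_le_mul_right _ ?_) h4
    exact Nat.card_mono (E4_fin hf fun z hz a => (hz.1 a).2.1) fun z hz => hz.1
  obtain ⟨c1, hc1⟩ : ∃ c, c = Nat.card {a : LVY.Mo (Fin q) d → ZMod p // ∃ z, E4_P ρ G g f m z ∧
    Cy d B 0 (Fb a) (Zo f m z) 1} := ⟨_, rfl⟩
  obtain ⟨c2, hc2⟩ : ∃ c, c = Nat.card {z : Fin k → Fin q → Kb p // E4_P ρ G g f m z} := ⟨_, rfl⟩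
  rw [← hc1, ← hc2] at h1
  rw [← hc2] at h3
  rw [← hc1, ← hN]
  have h5 : p ^ (F * (r + j)) = p ^ (F * n) * p ^ (F * Bᶜ.card + F) := by
    rw [hn, ← pow_add]
    ring_nf
  have h6 : (c1 * p ^ (j + B.card)) * p ^ (F * Bᶜ.card + F) ≤
      (A * ρ ^ B.card * (p ^ (F * n) * p ^ N)) * p ^ (F * Bᶜ.card + F) := by
    calc (c1 * p ^ (j + B.card)) * p ^ (F * Bᶜ.card + F) = (c1 * p ^ (B.card + F * Bᶜ.card)) * p ^ (j + F) := by
          rw [mul_assoc, mul_assoc, ← pow_add, ← pow_add]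
          congr 2
          ring
      _ ≤ (c2 * (ρ ^ B.card * p ^ N)) * p ^ (j + F) := Nat.mul_le_mul_right _ h1
      _ = (c2 * p ^ (j + F)) * (ρ ^ B.card * p ^ N) := by ring
      _ ≤ (A * p ^ (F * (r + j))) * (ρ ^ B.card * p ^ N) := Nat.mul_le_mul_right _ h3
      _ = (A * ρ ^ B.card * (p ^ (F * n) * p ^ N)) * p ^ (F * Bᶜ.card + F) := by
          rw [h5]
          ring
  have h7 : 0 < p ^ (F * Bᶜ.card + F) := Nat.pow_pos (by omega)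
  refine (Nat.le_of_mul_le_mul_right h6 h7).trans (Nat.mul_le_mul_left _ (Nat.mul_le_mul_right _ ?_))
  refine Nat.pow_le_pow_right hp1 (Nat.mul_le_mul_right _ ?_)
  rw [hFdef]
  exact hF

/-- good shapes -/
private def E4_good {ρ : ℕ} (t : Sh ρ) : Prop :=
  (1 ≤ (t.1 : ℕ) ∧ ∀ a, 1 ≤ (t.2.1 a : ℕ)) ∧ ∑ a, (t.2.1 a : ℕ) ≤ ρ

theorem ub0 (C j s ρ n r : ℕ) (B : Finset (Fin s)) (hn : r + j = n + Bᶜ.card + 1) : ∃ A : ℕ, ∀ (p : ℕ) [Fact p.Prime]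
    {q : ℕ} (G : Finset (MvPolynomial (Fin q) (ZMod p))) (_ : ∀ g ∈ G, ∃ n, g.IsHomogeneous n)
    (e : Fin j → ℕ) (g : Fin j → MvPolynomial (Fin q) (ZMod p)) (_ : ∀ l, (g l).IsHomogeneous (e l))
    (_ : SL G g r C) (d : Fin s → ℕ) (_ : ∀ i, i ∉ B → ρ ≤ d i + 1),
    Nat.card {a : LVY.Mo (Fin q) d → ZMod p // ∃ m, 1 ≤ m ∧ m ≤ ρ ∧ ∃ Z ∈ Cyc G m, (∀ l, vp Z (g l) = 0) ∧
      Cy d B 0 (Fb a) Z 1} * p ^ (j + B.card) ≤ A * p ^ (ρ * n) * p ^ Fintype.card (LVY.Mo (Fin q) d) := by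
  classical
  have key : ∀ t : Sh ρ, ∃ A : ℕ, ∀ (p : ℕ) [Fact p.Prime]
    {q : ℕ} (G : Finset (MvPolynomial (Fin q) (ZMod p))) (_ : ∀ g ∈ G, ∃ n, g.IsHomogeneous n)
    (e : Fin j → ℕ) (g : Fin j → MvPolynomial (Fin q) (ZMod p)) (_ : ∀ l, (g l).IsHomogeneous (e l))
    (_ : SL G g r C) (d : Fin s → ℕ) (_ : ∀ i, i ∉ B → ρ ≤ d i + 1),
    Nat.card {a : LVY.Mo (Fin q) d → ZMod p // E4_good t ∧ ∃ z, E4_P ρ G g (fun a => (t.2.1 a : ℕ))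
      (fun a => (t.2.2 a : ℕ)) z ∧ Cy d B 0 (Fb a) (Zo (fun a => (t.2.1 a : ℕ)) (fun a => (t.2.2 a : ℕ)) z) 1} *
      p ^ (j + B.card) ≤ A * (p ^ (ρ * n) * p ^ Fintype.card (LVY.Mo (Fin q) d)) := by
    intro t
    by_cases ht : E4_good t
    · obtain ⟨A, hA⟩ := E4_shape C j s ρ n r B hn (fun a => (t.2.1 a : ℕ)) (fun a => (t.2.2 a : ℕ)) ht.1.1 ht.1.2 ht.2
      refine ⟨A, fun p _ q G hG e g hg hSL d hd => ?_⟩
      refine le_trans (Nat.mul_le_mul_right _ ?_) (hA p G hG e g hg hSL d hd)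
      exact Nat.card_mono (Set.toFinite _) fun a ha => ha.2
    · refine ⟨0, fun p _ q G hG e g hg hSL d hd => ?_⟩
      have : IsEmpty {a : LVY.Mo (Fin q) d → ZMod p // E4_good t ∧ ∃ z, E4_P ρ G g (fun a => (t.2.1 a : ℕ))
        (fun a => (t.2.2 a : ℕ)) z ∧ Cy d B 0 (Fb a) (Zo (fun a => (t.2.1 a : ℕ)) (fun a => (t.2.2 a : ℕ)) z) 1} :=
        ⟨fun a => ht a.2.1⟩
      rw [Nat.card_of_isEmpty]
      simp
  choose A hA using key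
  refine ⟨∑ t, A t, ?_⟩
  intro p hp q G hG e g hg hSL d hd
  rw [mul_assoc]
  refine le_trans (Nat.mul_le_mul_right _ ?_) (E4_union
    (fun (t : Sh ρ) (a : LVY.Mo (Fin q) d → ZMod p) => E4_good t ∧ ∃ z, E4_P ρ G g (fun a => (t.2.1 a : ℕ))
      (fun a => (t.2.2 a : ℕ)) z ∧ Cy d B 0 (Fb a) (Zo (fun a => (t.2.1 a : ℕ)) (fun a => (t.2.2 a : ℕ)) z) 1)
    (p ^ (j + B.card)) (p ^ (ρ * n) * p ^ Fintype.card (LVY.Mo (Fin q) d)) A
    fun t => hA t p G hG e g hg hSL d hd)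
  refine Nat.card_mono (Set.toFinite _) ?_
  rintro a ⟨m, hm1, hm2, Z, ⟨hZ1, hZ2, hZ3⟩, hZ4, hZ5⟩
  obtain ⟨t, z, t1, t2, t3, t4, t5, t6, t7⟩ := shp Z hZ3 (by omega) (ρ := ρ) (by omega)
  have t8 : ∑ a, (t.2.1 a : ℕ) ≤ ρ := by
    rw [t4]
    exact (Multiset.toFinset_card_le Z).trans (by omega)
  refine ⟨t, ⟨⟨t1, fun a => (t2 a).1⟩, t8⟩, z, ⟨⟨fun a => ⟨(hZ2 _ (t6 a).1).1, (t6 a).2, (hZ2 _ (t6 a).1).2⟩,
    fun l => ?_⟩, ?_⟩, ?_⟩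
  · have h1 := hZ4 l
    rw [t7, Finset.prod_eq_zero_iff] at h1
    obtain ⟨a, -, ha⟩ := h1
    refine ⟨a, ?_⟩
    have h2 := eq_zero_of_pow_eq_zero ha
    unfold nf at h2
    exact eq_zero_of_pow_eq_zero h2
  · rw [← t3]
    exact ⟨hZ3, fun x hx => (hZ2 x hx).1, t4.symm, by omega, by omega⟩
  · rw [← t3]
    exact hZ5

end LVF
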