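import Pool.Agent.Lib.MP_17a322_ntLF.Defs
import Pool.Agent.Lib.MP_17a322_ntLZ.Defs
import Pool.Agent.Lib.MP_17a322_ntLY.A3
import Pool.Agent.Lib.MP_17a322_ntLY.A4

/-!
# LEAF S1: the slices over the finite extensions of the prime field

PROOF.  As `LVY.slice` (file `MP_17a322_ntLY/A5.lean`, docstring and proof there; `LVZ.Hm`, `LVZ.GP` and `LVY.Hm`, `LVY.GP` are the same by definition), over the finite set of the vectors with coordinates in the field with `P = p ^ n` elements (the roots of `X ^ P - X` in `Kb p`) in place of `ZMod p`: `G` is the set of the `g b` of `slice_eq`, `C = N ^ q`, `p1 = M + 1` (so `M` is not `0` in `Kb p`).  For `x` in the set of `SL` (with `G.image (map φ)`, `map φ (f l)`) let `t i = aeval x (map φ (ell i))`, again in the field with `P` elements (`t i ^ P = t i`: Frobenius `n` times); for each of the at most `P ^ r` vectors `t` (the roots of `X ^ P - X` are at most `P`) the `x` satisfy `x b ^ N = eval x (A b)` with `A b = C M⁻¹ * (∑ l, C (u l) *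 map (hh b l) + ∑ i, C (t i) * map (kk b i))` over `Kb p`, of total degree `< N`, so at most `N ^ q` of them by `bez` (with `F = Kb p`).
-/

namespace LVF

open NumberField

private theorem S1_sum {F ι : Type} [Field F] [Fintype ι] {q N : ℕ} (hN : 1 ≤ N)
    (g : ι → MvPolynomial (Fin q) F) (hg : ∀ i, (g i).totalDegree < N) : (∑ i, g i).totalDegree < N := by
  refine lt_of_le_of_lt (MvPolynomial.totalDegree_finsetSum _ _) ?_
  rw [Finset.sup_lt_iff (by rw [bot_eq_zero]; exact hN)]
  exact fun i _ => hg i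

private theorem S1_map {R F : Type} [CommRing R] [Field F] {q N : ℕ} (φ : R →+* F) (c : F)
    (g : MvPolynomial (Fin q) R) (hg : g.totalDegree < N) :
    (MvPolynomial.C c * MvPolynomial.map φ g).totalDegree < N := by
  refine lt_of_le_of_lt (MvPolynomial.totalDegree_mul _ _) ?_
  rw [MvPolynomial.totalDegree_C, zero_add]
  exact lt_of_le_of_lt (Finset.sup_mono (MvPolynomial.support_map_subset _ _)) hg

private theorem S1_pow {p : ℕ} [Fact p.Prime] {q : ℕ} (n : ℕ) (x : Fin q → Kb p)
    (hx : ∀ t, x t ^ p ^ n = x t) (g : MvPolynomial (Fin q) (ZMod p)) :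
    MvPolynomial.aeval x g ^ p ^ n = MvPolynomial.aeval x g := by
  have : CharP (Kb p) p := charP_of_injective_algebraMap (algebraMap (ZMod p) (Kb p)).injective p
  induction g using MvPolynomial.induction_on with
  | C a => rw [MvPolynomial.aeval_C, ← map_pow, ZMod.pow_card_pow]
  | add a b ha hb => rw [map_add, add_pow_char_pow, ha, hb]
  | mul_X a i ha => rw [map_mul, MvPolynomial.aeval_X, mul_pow, ha, hx]

private noncomputable def S1_Rt (p : ℕ) [Fact p.Prime] (n : ℕ) : Finset (Kb p) :=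
  by classical exact ((Polynomial.X ^ p ^ n - Polynomial.X : Polynomial (Kb p)).roots).toFinset

private theorem S1_nd (p : ℕ) [Fact p.Prime] {n : ℕ} (hn : 1 ≤ n) :
    (Polynomial.X ^ p ^ n - Polynomial.X : Polynomial (Kb p)).natDegree = p ^ n :=
  FiniteField.X_pow_card_sub_X_natDegree_eq (Kb p) (Nat.one_lt_pow (by omega) (Fact.out : p.Prime).one_lt)

open Classical in
private theorem S1_mem (p : ℕ) [Fact p.Prime] {n : ℕ} (hn : 1 ≤ n) (y : Kb p) :
    y ∈ S1_Rt p n ↔ y ^ p ^ n = y := by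
  have h0 : (Polynomial.X ^ p ^ n - Polynomial.X : Polynomial (Kb p)) ≠ 0 :=
    FiniteField.X_pow_card_sub_X_ne_zero (Kb p) (Nat.one_lt_pow (by omega) (Fact.out : p.Prime).one_lt)
  unfold S1_Rt
  rw [Multiset.mem_toFinset, Polynomial.mem_roots h0, Polynomial.IsRoot.def, Polynomial.eval_sub,
    Polynomial.eval_pow, Polynomial.eval_X, sub_eq_zero]

open Classical in
private theorem S1_card (p : ℕ) [Fact p.Prime] {n : ℕ} (hn : 1 ≤ n) : (S1_Rt p n).card ≤ p ^ n := by
  unfold S1_Rt
  refine (Multiset.toFinset_card_le _).trans ((Polynomial.card_roots' _).trans (le_of_eq ?_))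
  exact S1_nd p hn

open Classical in
theorem slF (K : Type) [Field K] [NumberField K] {q j r : ℕ} (P : Ideal (MvPolynomial (Fin q) K)) (hP : LVZ.Hm P)
    (e : Fin j → ℕ) (he : ∀ l, 1 ≤ e l) (f : Fin j → MvPolynomial (Fin q) (𝓞 K)) (hf : ∀ l, (f l).IsHomogeneous (e l))
    (h : LVZ.GP P f r) : ∃ G : Finset (MvPolynomial (Fin q) (𝓞 K)), (∀ g ∈ G, ∃ n, g.IsHomogeneous n) ∧
      (∀ g ∈ G, MvPolynomial.map (algebraMap (𝓞 K) K) g ∈ P) ∧ ∃ C p1 : ℕ, ∀ (p : ℕ) [Fact p.Prime], p1 ≤ p →
        ∀ φ : 𝓞 K →+* ZMod p, SL (G.image (MvPolynomial.map φ)) (fun l => MvPolynomial.map φ (f l)) r C := by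
  obtain ⟨N, M, ell, g, hh, kk, hN, hM, hg, hgP, hhd, hkd, heq⟩ := LVY.slice_eq K P hP e he f hf h
  refine ⟨Finset.univ.image g, ?_, ?_, N ^ q, M + 1, ?_⟩
  · intro g' hg'
    rw [Finset.mem_image] at hg'
    obtain ⟨b, _, rfl⟩ := hg'
    exact ⟨N, hg b⟩
  · intro g' hg'
    rw [Finset.mem_image] at hg'
    obtain ⟨b, _, rfl⟩ := hg'
    exact hgP b
  · intro p hpp hp φ n hn u
    have hMp : ((M : ℕ) : Kb p) ≠ 0 := by
      intro h0
      rw [← map_natCast (algebraMap (ZMod p) (Kb p)), map_eq_zero, ZMod.natCast_eq_zero_iff] at h0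
      exact absurd (Nat.le_of_dvd (Nat.pos_of_ne_zero hM) h0) (by omega)
    obtain ⟨ψ, hψ⟩ : ∃ ψ : 𝓞 K →+* Kb p, ψ = (algebraMap (ZMod p) (Kb p)).comp φ := ⟨_, rfl⟩
    have hae : ∀ (x : Fin q → Kb p) (a : MvPolynomial (Fin q) (𝓞 K)),
        MvPolynomial.aeval x (MvPolynomial.map φ a) = MvPolynomial.eval₂ ψ x a := by
      intro x a
      rw [MvPolynomial.aeval_def, MvPolynomial.eval₂_map, hψ]
    obtain ⟨S, hSm⟩ : ∃ S : Finset (Fin q → Kb p), ∀ x, x ∈ S ↔ (∀ t, x t ^ p ^ n = x t) ∧
        (∀ g' ∈ (Finset.univ.image g).image (MvPolynomial.map φ), MvPolynomial.aeval x g' = 0) ∧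
        ∀ l, MvPolynomial.aeval x (MvPolynomial.map φ (f l)) = u l := by
      have hfin : {x : Fin q → Kb p | (∀ t, x t ^ p ^ n = x t) ∧
          (∀ g' ∈ (Finset.univ.image g).image (MvPolynomial.map φ), MvPolynomial.aeval x g' = 0) ∧
          ∀ l, MvPolynomial.aeval x (MvPolynomial.map φ (f l)) = u l}.Finite := by
        refine (Finset.finite_toSet (Fintype.piFinset fun _ : Fin q => S1_Rt p n)).subset fun x hx => ?_
        rw [Finset.mem_coe, Fintype.mem_piFinset]
        exact fun t => (S1_mem p hn (x t)).2 (hx.1 t)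
      exact ⟨hfin.toFinset, fun x => hfin.mem_toFinset⟩
    have hcard : Nat.card {x : Fin q → Kb p // (∀ t, x t ^ p ^ n = x t) ∧
        (∀ g' ∈ (Finset.univ.image g).image (MvPolynomial.map φ), MvPolynomial.aeval x g' = 0) ∧
        ∀ l, MvPolynomial.aeval x (MvPolynomial.map φ (f l)) = u l} = S.card :=
      Nat.subtype_card S hSm
    refine hcard.le.trans ?_
    let tt : (Fin q → Kb p) → (Fin r → Kb p) := fun x i => MvPolynomial.eval₂ ψ x (ell i)
    have h1 : ∀ t ∈ S.image tt, (S.filter fun x => tt x = t).card ≤ N ^ q := by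
      intro t _
      refine LVY.bez (F := Kb p) (N := N) (fun b => MvPolynomial.C ((M : ℕ) : Kb p)⁻¹ *
        (∑ l, MvPolynomial.C (u l) * MvPolynomial.map ψ (hh b l) +
          ∑ i, MvPolynomial.C (t i) * MvPolynomial.map ψ (kk b i))) ?_ _ ?_
      · intro b
        refine lt_of_le_of_lt (MvPolynomial.totalDegree_mul _ _) ?_
        rw [MvPolynomial.totalDegree_C, zero_add]
        refine lt_of_le_of_lt (MvPolynomial.totalDegree_add _ _) ?_
        exact max_lt (S1_sum hN _ fun l => S1_map ψ _ _ (hhd b l)) (S1_sum hN _ fun i => S1_map ψ _ _ (hkd b i))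
      · intro x hx b
        rw [Finset.mem_filter, hSm] at hx
        obtain ⟨⟨-, hx1, hx2⟩, hx3⟩ := hx
        have hx0 : MvPolynomial.eval₂ ψ x (g b) = 0 := by
          rw [← hae]
          exact hx1 _ (Finset.mem_image_of_mem _ (Finset.mem_image_of_mem g (Finset.mem_univ b)))
        have h2 := congrArg (MvPolynomial.eval₂ ψ x) (heq b)
        rw [MvPolynomial.eval₂_mul, MvPolynomial.eval₂_C, MvPolynomial.eval₂_pow, MvPolynomial.eval₂_X,
          MvPolynomial.eval₂_add, MvPolynomial.eval₂_add, hx0,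
          zero_add, MvPolynomial.eval₂_sum, MvPolynomial.eval₂_sum, map_natCast] at h2
        have h3 : ∀ l, MvPolynomial.eval₂ ψ x (hh b l * f l) = u l * MvPolynomial.eval₂ ψ x (hh b l) := by
          intro l
          rw [MvPolynomial.eval₂_mul, ← hae x (f l), hx2 l, mul_comm]
        have h4 : ∀ i, MvPolynomial.eval₂ ψ x (kk b i * ell i) = t i * MvPolynomial.eval₂ ψ x (kk b i) := by
          intro i
          rw [MvPolynomial.eval₂_mul, ← hx3, mul_comm]
        rw [Finset.sum_congr rfl fun l _ => h3 l, Finset.sum_congr rfl fun i _ => h4 i] at h2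
        rw [map_mul, map_add, map_sum, map_sum, MvPolynomial.eval_C, eq_inv_mul_iff_mul_eq₀ hMp, h2]
        simp only [map_mul, MvPolynomial.eval_C, MvPolynomial.eval_map]
    refine (Finset.card_le_mul_card_image _ _ h1).trans ?_
    apply Nat.mul_le_mul_left
    have h5 : S.image tt ⊆ Fintype.piFinset fun _ : Fin r => S1_Rt p n := by
      intro t ht
      obtain ⟨x, hx, rfl⟩ := Finset.mem_image.1 ht
      rw [Fintype.mem_piFinset]
      intro i
      rw [S1_mem p hn]
      show MvPolynomial.eval₂ ψ x (ell i) ^ p ^ n = MvPolynomial.eval₂ ψ x (ell i)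
      rw [← hae]
      exact S1_pow n x ((hSm x).1 hx).1 _
    refine (Finset.card_le_card h5).trans ?_
    rw [Fintype.card_piFinset, Finset.prod_const, Finset.card_univ, Fintype.card_fin]
    exact Nat.pow_le_pow_left (S1_card p hn) r

end LVF
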