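import Pool.Agent.Lib.MP_17a322_ntLF.E3
import Pool.Agent.Lib.MP_17a322_ntLF.E4
import Pool.Agent.Lib.MP_17a322_ntLF.S1

/-!
# LEAF E5: the density in the noncritical case

PROOF.  `G`, `C`, `p1` from `slF` (`G` is a set of homogeneous polynomials, so `G.image (map φ)` also).  `A` from `ub` (with `F0 = ρ`), `A'` from `ub0`.  The set of `LDM` is contained in the union of the sets of `ub` (`Z.toFinset.card ≤ card Z = m ≤ ρ`) and `ub0`, so its cardinality times `p ^ (j + b)` is at most `(A * p ^ (ρ n + 1) + A' * p ^ (ρ n)) * p ^ N ≤ (A + A') * p ^ (ρ n + 1) * p ^ N`, and `p ^ (ρ n + 1) * p ≤ p ^ (j + b)`: the cardinality is at most `(A + A') / p * p ^ N ≤ (1 - 1/2) p ^ N` for `p ≥ p0 = max p1 (2 (A + A') + 1)`.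
-/

namespace LVF

open Finset NumberField

theorem nonc (K : Type) [Field K] [NumberField K] {q j r : ℕ} (P : Ideal (MvPolynomial (Fin q) K)) (hP : LVZ.Hm P)
    (e : Fin j → ℕ) (he : ∀ l, 1 ≤ e l) (f : Fin j → MvPolynomial (Fin q) (𝓞 K)) (hf : ∀ l, (f l).IsHomogeneous (e l))
    (h : LVZ.GP P f r) (ρ : ℕ) : ∃ G : Finset (MvPolynomial (Fin q) (𝓞 K)), (∀ g ∈ G, ∃ n, g.IsHomogeneous n) ∧
      (∀ g ∈ G, MvPolynomial.map (algebraMap (𝓞 K) K) g ∈ P) ∧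
        ∀ (s : ℕ) (d : Fin s → ℕ) (B : Finset (Fin s)) (n : ℕ), r + j = n + Bᶜ.card + 1 → ρ * n + 2 ≤ j + B.card →
          (∀ i, i ∉ B → ρ ≤ d i + 1) → LDM ρ G e f d B := by
  classical
  obtain ⟨G, hG1, hG2, C, p1, hSL⟩ := slF K P hP e he f hf h
  refine ⟨G, hG1, hG2, fun s d B n hn hρ hd => ?_⟩
  obtain ⟨A, hA⟩ := ub C j s ρ n r B hn
  obtain ⟨A', hA'⟩ := ub0 C j s ρ n r B hn
  refine ⟨1 / 2, by norm_num, by norm_num, max p1 (2 * (A + A') + 1), fun p _ hp φ u hu y hy => ?_⟩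
  have hp1 : p1 ≤ p := (le_max_left _ _).trans hp
  have hp2 : 2 * (A + A') ≤ p := (Nat.le_succ _).trans ((le_max_right _ _).trans hp)
  have hp0 : 0 < p := (Fact.out : p.Prime).pos
  have hG' : ∀ g ∈ G.image (MvPolynomial.map φ), ∃ n, g.IsHomogeneous n := by
    intro g hg
    obtain ⟨g0, hg0, rfl⟩ := mem_image.1 hg
    obtain ⟨n, hn⟩ := hG1 g0 hg0
    exact ⟨n, hn.map φ⟩
  have h1 := hA p (G.image (MvPolynomial.map φ)) hG' e (fun l => MvPolynomial.map φ (f l)) (fun l => (hf l).map φ)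
    (hSL p hp1 φ) u hu d hd y ρ le_rfl
  have h2 := hA' p (G.image (MvPolynomial.map φ)) hG' e (fun l => MvPolynomial.map φ (f l)) (fun l => (hf l).map φ)
    (hSL p hp1 φ) d hd
  obtain ⟨Q1, hQ1⟩ : ∃ Q1 : (LVY.Mo (Fin q) d → ZMod p) → Prop, Q1 = fun a => ∃ m, 1 ≤ m ∧ m ≤ ρ ∧
      ∃ Z ∈ Cyc (G.image (MvPolynomial.map φ)) m, Z.toFinset.card ≤ ρ ∧ ∃ μ,
        Cu e (fun l => MvPolynomial.map φ (f l)) u Z μ ∧ Cy d B y (Fb a) Z (algebraMap (ZMod p) (Kb p) μ) := ⟨_, rfl⟩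
  obtain ⟨Q2, hQ2⟩ : ∃ Q2 : (LVY.Mo (Fin q) d → ZMod p) → Prop, Q2 = fun a => ∃ m, 1 ≤ m ∧ m ≤ ρ ∧
      ∃ Z ∈ Cyc (G.image (MvPolynomial.map φ)) m, (∀ l, vp Z (MvPolynomial.map φ (f l)) = 0) ∧
        Cy d B 0 (Fb a) Z 1 := ⟨_, rfl⟩
  have h3 : Nat.card {a // Q1 a} * p ^ (j + B.card) ≤
      A * p ^ (ρ * n + 1) * p ^ Fintype.card (LVY.Mo (Fin q) d) := by
    rw [hQ1]
    exact h1
  have h4 : Nat.card {a // Q2 a} * p ^ (j + B.card) ≤
      A' * p ^ (ρ * n) * p ^ Fintype.card (LVY.Mo (Fin q) d) := by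
    rw [hQ2]
    exact h2
  obtain ⟨R, hR⟩ : ∃ R : (LVY.Mo (Fin q) d → ZMod p) → Prop, R = fun a => RC ρ (G.image (MvPolynomial.map φ)) e
        (fun l => MvPolynomial.map φ (f l)) d B u y (Fb a) := ⟨_, rfl⟩
  have hsub : ∀ a, R a → Q1 a ∨ Q2 a := by
    rw [hR, hQ1, hQ2]
    rintro a ⟨m, hm1, hm2, Z, hZ, hμ | h0⟩
    · exact Or.inl ⟨m, hm1, hm2, Z, hZ, (Multiset.toFinset_card_le Z).trans (hZ.1.le.trans hm2), hμ⟩
    · exact Or.inr ⟨m, hm1, hm2, Z, hZ, h0⟩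
  have h5 : Nat.card {a // R a} ≤ Nat.card {a // Q1 a} + Nat.card {a // Q2 a} := by
    have h6 : Nat.card {a // R a} ≤ Nat.card {a // Q1 a ∨ Q2 a} :=
      Nat.card_le_card_of_injective (fun a => ⟨a.1, hsub a.1 a.2⟩) fun a b hab =>
        Subtype.ext (congrArg (fun c : {a // Q1 a ∨ Q2 a} => c.1) hab)
    refine h6.trans ?_
    rw [Nat.card_eq_fintype_card, Nat.card_eq_fintype_card, Nat.card_eq_fintype_card]
    exact Fintype.card_subtype_or Q1 Q2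
  obtain ⟨N, hN⟩ : ∃ N, N = Fintype.card (LVY.Mo (Fin q) d) := ⟨_, rfl⟩
  rw [← hN] at h3 h4 ⊢
  have h6 : p * p ^ (ρ * n + 1) ≤ p ^ (j + B.card) := by
    rw [← pow_succ']
    exact Nat.pow_le_pow_right hp0 hρ
  have h7 : Nat.card {a // R a} * (p * p ^ (ρ * n + 1)) ≤ (A + A') * p ^ (ρ * n + 1) * p ^ N := by
    calc Nat.card {a // R a} * (p * p ^ (ρ * n + 1)) ≤ Nat.card {a // R a} * p ^ (j + B.card) :=
          Nat.mul_le_mul_left _ h6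
      _ ≤ (Nat.card {a // Q1 a} + Nat.card {a // Q2 a}) * p ^ (j + B.card) := Nat.mul_le_mul_right _ h5
      _ ≤ A * p ^ (ρ * n + 1) * p ^ N + A' * p ^ (ρ * n) * p ^ N := by
          rw [add_mul]
          exact add_le_add h3 h4
      _ ≤ A * p ^ (ρ * n + 1) * p ^ N + A' * p ^ (ρ * n + 1) * p ^ N :=
          Nat.add_le_add_left (Nat.mul_le_mul_right _ (Nat.mul_le_mul_left _
            (Nat.pow_le_pow_right hp0 (Nat.le_succ _)))) _
      _ = (A + A') * p ^ (ρ * n + 1) * p ^ N := by ring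
  have h8 : Nat.card {a // R a} * p ≤ (A + A') * p ^ N := by
    refine Nat.le_of_mul_le_mul_right ?_ (Nat.pow_pos hp0 : 0 < p ^ (ρ * n + 1))
    calc Nat.card {a // R a} * p * p ^ (ρ * n + 1) = Nat.card {a // R a} * (p * p ^ (ρ * n + 1)) := mul_assoc _ _ _
      _ ≤ (A + A') * p ^ (ρ * n + 1) * p ^ N := h7
      _ = (A + A') * p ^ N * p ^ (ρ * n + 1) := by ring
  have h9 : 2 * Nat.card {a // R a} ≤ p ^ N := by
    refine Nat.le_of_mul_le_mul_right ?_ hp0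
    calc 2 * Nat.card {a // R a} * p = 2 * (Nat.card {a // R a} * p) := mul_assoc _ _ _
      _ ≤ 2 * ((A + A') * p ^ N) := Nat.mul_le_mul_left _ h8
      _ = 2 * (A + A') * p ^ N := (mul_assoc _ _ _).symm
      _ ≤ p * p ^ N := Nat.mul_le_mul_right _ hp2
      _ = p ^ N * p := mul_comm _ _
  have h10 : (2 : ℝ) * (Nat.card {a // R a} : ℝ) ≤ (p : ℝ) ^ N := by exact_mod_cast h9
  have h11 : (Nat.card {a // R a} : ℝ) ≤ (1 - 1 / 2) * (p : ℝ) ^ N := by linarith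
  rw [hR] at h11
  exact h11

end LVF
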