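import Pool.Agent.Lib.MP_17a322_ntLF.Defs

/-! Block F: the values of forms over the prime field at vectors over the algebraic closure. -/

namespace LVF

open Finset
open LVH (fv)

/-- a finite set of normalised vectors, stable under Frobenius -/
def Fs {p : ℕ} [Fact p.Prime] {q : ℕ} (W : Finset (Fin q → Kb p)) : Prop := ∀ x ∈ W, Nm x ∧ fr p x ∈ W

/-- the functions on `W` compatible with Frobenius -/
def EW {p : ℕ} [Fact p.Prime] {q : ℕ} (W : Finset (Fin q → Kb p)) : Set (W → Kb p) :=
  {v | ∀ x y : W, (y : Fin q → Kb p) = fr p (x : Fin q → Kb p) → v y = v x ^ p}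

/-- the condition `X` depends only on the values at the elements of `W` -/
def Sp {p : ℕ} [Fact p.Prime] {q s : ℕ} {d : Fin s → ℕ} (W : Finset (Fin q → Kb p))
    (X : (LVY.Mo (Fin q) d → ZMod p) → Prop) : Prop :=
  ∀ a b, (∀ x ∈ W, ∀ i, Fb a i x = Fb b i x) → (X a ↔ X b)

end LVF
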