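import Pool.Agent.Lib.MP_17a322_ntLF.PrD

/-!
# LEAF P1: elementary properties of `Pr`

PROOF.  All are statements on the cardinalities of subsets of a finite set (`Nat.card_eq_fintype_card`, `Fintype.card_subtype`, `Finset.card_le_card`, `Finset.card_biUnion_le`), divided by `#Ω` (if `Ω` is empty then all `Pr` are `0` as `x / 0 = 0`; the last one needs `Nonempty Ω`).
-/

namespace LVF

open Finset

theorem pr_nonneg {Ω : Type} (X : Ω → Prop) : 0 ≤ Pr X := by
  unfold Pr
  positivity

private theorem P1_card_mono {Ω : Type} [Finite Ω] {X Y : Ω → Prop} (h : ∀ a, X a → Y a) :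
    Nat.card {a // X a} ≤ Nat.card {a // Y a} :=
  Nat.card_le_card_of_injective (fun a : {a // X a} => (⟨a.1, h a.1 a.2⟩ : {a // Y a}))
    (fun _ _ hab => Subtype.ext (congrArg (fun c : {a // Y a} => c.1) hab))

theorem pr_mono {Ω : Type} [Finite Ω] {X Y : Ω → Prop} (h : ∀ a, X a → Y a) : Pr X ≤ Pr Y := by
  unfold Pr
  have h1 := P1_card_mono h
  gcongr

theorem pr_le_one {Ω : Type} [Finite Ω] (X : Ω → Prop) : Pr X ≤ 1 := by
  unfold Pr
  have h1 : Nat.card {a // X a} ≤ Nat.card Ω :=
    Nat.card_le_card_of_injective (fun a : {a // X a} => a.1) Subtype.val_injective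
  apply div_le_one_of_le₀ _ (by positivity)
  exact_mod_cast h1

theorem pr_or {Ω : Type} [Finite Ω] (X Y : Ω → Prop) : Pr (fun a => X a ∨ Y a) ≤ Pr X + Pr Y := by
  classical
  have : Fintype Ω := Fintype.ofFinite Ω
  unfold Pr
  rw [← add_div]
  have h1 : Nat.card {a // X a ∨ Y a} ≤ Nat.card {a // X a} + Nat.card {a // Y a} := by
    rw [Nat.card_eq_fintype_card, Nat.card_eq_fintype_card, Nat.card_eq_fintype_card]
    exact Fintype.card_subtype_or X Y
  gcongr
  exact_mod_cast h1

theorem pr_ex {Ω τ : Type} [Finite Ω] (I : Finset τ) (E : τ → Ω → Prop) : Pr (fun a => ∃ i ∈ I, E i a) ≤ ∑ i ∈ I, Pr (E i) := by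
  classical
  induction I using Finset.induction_on with
  | empty =>
    simp [Pr]
  | insert i I hi ih =>
    rw [Finset.sum_insert hi]
    calc Pr (fun a => ∃ j ∈ insert i I, E j a) ≤ Pr (fun a => E i a ∨ ∃ j ∈ I, E j a) := by
          apply pr_mono
          rintro a ⟨j, hj, hja⟩
          rcases Finset.mem_insert.mp hj with rfl | hj
          · exact Or.inl hja
          · exact Or.inr ⟨j, hj, hja⟩
      _ ≤ Pr (E i) + Pr (fun a => ∃ j ∈ I, E j a) := pr_or _ _
      _ ≤ _ := by
          have := ih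
          linarith

theorem pr_true {Ω : Type} [Finite Ω] [Nonempty Ω] : Pr (fun _ : Ω => True) = 1 := by
  unfold Pr
  rw [Nat.card_congr (Equiv.subtypeUnivEquiv (fun _ : Ω => trivial))]
  apply div_self
  have := Nat.card_pos (α := Ω)
  exact_mod_cast this.ne'

end LVF
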