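import Pool.Agent.Lib.MP_17a322_ntLF.Fb1
import Pool.Agent.Lib.MP_17a322_ntLF.P1

/-!
# LEAF Fb2: independence of conditions on disjoint sets

PROOF.  `ind2`: `Y a` depends only on the values `v a` on `N`; let `Q v` be the condition that `v = v a` for some `a` with `Y a`, so `Y a ↔ Q (v a)`.  `split_eq` for `X` and `Q`, and for `W = ∅`, `X = True` and `Q`: `#{X ∧ Y} * p ^ (s * N.card) = #{v | Q v} * #{X}` and `#{Y} * p ^ (s * N.card) = #{v | Q v} * #Ω`.  So `#{X ∧ Y} * #Ω = #{X} * #{Y}`; divide by `#Ω ^ 2`.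
`indF`: induction on `U`: with `W` the union of the elements of `U` (`Fs W`, of cardinality `∑ T ∈ U, T.card`) the condition `∀ T ∈ U, E T a` is `Sp W`, and a new `T` is disjoint from `W`.
-/

namespace LVF

open Finset

theorem ind2 {p : ℕ} [Fact p.Prime] {q s : ℕ} (d : Fin s → ℕ) (W N : Finset (Fin q → Kb p)) (hW : Fs W) (hN : Fs N)
    (hWN : Disjoint W N) (hd : ∀ i, W.card + N.card ≤ d i + 1) (X Y : (LVY.Mo (Fin q) d → ZMod p) → Prop)
    (hX : Sp W X) (hY : Sp N Y) : Pr (fun a => X a ∧ Y a) = Pr X * Pr Y := by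
  let Q : (Fin s → N → Kb p) → Prop := fun v =>
    ∃ b : LVY.Mo (Fin q) d → ZMod p, Y b ∧ v = fun i (x : N) => Fb b i (x : Fin q → Kb p)
  have hQ : ∀ a : LVY.Mo (Fin q) d → ZMod p, Q (fun i (x : N) => Fb a i (x : Fin q → Kb p)) ↔ Y a := by
    intro a
    constructor
    · rintro ⟨b, hb, hab⟩
      refine (hY a b fun x hx i => ?_).2 hb
      exact congrFun (congrFun hab i) ⟨x, hx⟩
    · intro ha
      exact ⟨a, ha, rfl⟩
  have h1 := split_eq d W N hW hN hWN hd X hX Q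
  have h2 := split_eq d W N hW hN hWN hd (fun _ => True) (fun _ _ _ => Iff.rfl) Q
  simp only [hQ, true_and] at h1 h2
  have h3 : Nat.card {a : LVY.Mo (Fin q) d → ZMod p // True} = Nat.card (LVY.Mo (Fin q) d → ZMod p) :=
    Nat.card_congr (Equiv.subtypeUnivEquiv fun _ => trivial)
  rw [h3] at h2
  have hp : (p : ℝ) ^ (s * N.card) ≠ 0 := pow_ne_zero _ (by exact_mod_cast (Fact.out : p.Prime).ne_zero)
  have hO : (Nat.card (LVY.Mo (Fin q) d → ZMod p) : ℝ) ≠ 0 := by
    exact_mod_cast (Nat.card_pos (α := LVY.Mo (Fin q) d → ZMod p)).ne'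
  have h1' : (Nat.card {a : LVY.Mo (Fin q) d → ZMod p // X a ∧ Y a} : ℝ) * (p : ℝ) ^ (s * N.card) =
      (Nat.card {v : Fin s → N → Kb p // (∀ i, v i ∈ EW N) ∧ Q v} : ℝ) *
        (Nat.card {a : LVY.Mo (Fin q) d → ZMod p // X a} : ℝ) := by
    exact_mod_cast h1
  have h2' : (Nat.card {a : LVY.Mo (Fin q) d → ZMod p // Y a} : ℝ) * (p : ℝ) ^ (s * N.card) =
      (Nat.card {v : Fin s → N → Kb p // (∀ i, v i ∈ EW N) ∧ Q v} : ℝ) *
        (Nat.card (LVY.Mo (Fin q) d → ZMod p) : ℝ) := by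
    exact_mod_cast h2
  unfold Pr
  rw [div_mul_div_comm, div_eq_div_iff hO (mul_ne_zero hO hO)]
  have h4 : (Nat.card {a : LVY.Mo (Fin q) d → ZMod p // X a ∧ Y a} : ℝ) *
        (Nat.card (LVY.Mo (Fin q) d → ZMod p) : ℝ) =
      (Nat.card {a : LVY.Mo (Fin q) d → ZMod p // X a} : ℝ) *
        (Nat.card {a : LVY.Mo (Fin q) d → ZMod p // Y a} : ℝ) := by
    apply mul_right_cancel₀ hp
    calc (Nat.card {a : LVY.Mo (Fin q) d → ZMod p // X a ∧ Y a} : ℝ) *
          (Nat.card (LVY.Mo (Fin q) d → ZMod p) : ℝ) * (p : ℝ) ^ (s * N.card)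
        = ((Nat.card {a : LVY.Mo (Fin q) d → ZMod p // X a ∧ Y a} : ℝ) * (p : ℝ) ^ (s * N.card)) *
          (Nat.card (LVY.Mo (Fin q) d → ZMod p) : ℝ) := by ring
      _ = (Nat.card {a : LVY.Mo (Fin q) d → ZMod p // X a} : ℝ) *
          ((Nat.card {v : Fin s → N → Kb p // (∀ i, v i ∈ EW N) ∧ Q v} : ℝ) *
            (Nat.card (LVY.Mo (Fin q) d → ZMod p) : ℝ)) := by rw [h1']; ring
      _ = (Nat.card {a : LVY.Mo (Fin q) d → ZMod p // X a} : ℝ) *
          (Nat.card {a : LVY.Mo (Fin q) d → ZMod p // Y a} : ℝ) * (p : ℝ) ^ (s * N.card) := by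
        rw [← h2']; ring
  rw [← mul_assoc, h4]

theorem indF {p : ℕ} [Fact p.Prime] {q s : ℕ} (d : Fin s → ℕ) (U : Finset (Finset (Fin q → Kb p)))
    (hU : ∀ T ∈ U, Fs T) (hdis : ∀ T ∈ U, ∀ T' ∈ U, T' ≠ T → Disjoint T T') (hd : ∀ i, ∑ T ∈ U, T.card ≤ d i + 1)
    (E : Finset (Fin q → Kb p) → (LVY.Mo (Fin q) d → ZMod p) → Prop) (hE : ∀ T ∈ U, Sp T (E T)) :
    Pr (fun a => ∀ T ∈ U, E T a) = ∏ T ∈ U, Pr (E T) := by
  classical
  induction U using Finset.induction_on with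
  | empty =>
    rw [Finset.prod_empty, ← pr_true (Ω := LVY.Mo (Fin q) d → ZMod p)]
    congr 1
    funext a
    exact propext ⟨fun _ => trivial, fun _ T hT => absurd hT (Finset.notMem_empty T)⟩
  | insert T U hTU ih =>
    rw [Finset.prod_insert hTU, ← ih (fun T' hT' => hU T' (Finset.mem_insert_of_mem hT'))
      (fun T' hT' T'' hT'' => hdis T' (Finset.mem_insert_of_mem hT') T'' (Finset.mem_insert_of_mem hT''))
      (fun i => le_trans (Finset.sum_le_sum_of_subset (Finset.subset_insert T U)) (hd i))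
      (fun T' hT' => hE T' (Finset.mem_insert_of_mem hT'))]
    rw [← ind2 d T (U.biUnion id) (hU T (Finset.mem_insert_self T U)) ?_ ?_ ?_ (E T)
      (fun a => ∀ T' ∈ U, E T' a) (hE T (Finset.mem_insert_self T U)) ?_]
    · congr 1
      funext a
      exact propext (Finset.forall_mem_insert _ _ _)
    · intro x hx
      obtain ⟨T', hT', hx'⟩ := Finset.mem_biUnion.1 hx
      have h1 := hU T' (Finset.mem_insert_of_mem hT') x hx'
      exact ⟨h1.1, Finset.mem_biUnion.2 ⟨T', hT', h1.2⟩⟩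
    · rw [Finset.disjoint_biUnion_right]
      intro T' hT'
      refine hdis T (Finset.mem_insert_self T U) T' (Finset.mem_insert_of_mem hT') ?_
      rintro rfl
      exact hTU hT'
    · intro i
      have h1 := hd i
      rw [Finset.sum_insert hTU] at h1
      have h2 : (U.biUnion id).card ≤ ∑ T' ∈ U, T'.card := Finset.card_biUnion_le
      omega
    · intro a b hab
      refine forall₂_congr fun T' hT' => hE T' (Finset.mem_insert_of_mem hT') a b fun x hx i => ?_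
      exact hab x (Finset.mem_biUnion.2 ⟨T', hT', hx⟩) i

end LVF
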