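import Pool.Agent.Lib.MP_17a322_ntLF.Defs
import Pool.Agent.Lib.MP_17a322_ntLZ.Defs

/-! The local conditions: definitions. -/

namespace LVF

open Finset NumberField

/-- the functions `V i`, `i ∈ B`, have the products `y i` over `Z` up to the scalar `μ`, and the other `V i` vanish at all
elements of `Z` -/
def Cy {p : ℕ} [Fact p.Prime] {q s : ℕ} (d : Fin s → ℕ) (B : Finset (Fin s)) (y : Fin s → Kb p)
    (V : Fin s → (Fin q → Kb p) → Kb p) (Z : Multiset (Fin q → Kb p)) (μ : Kb p) : Prop :=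
  ∀ i, (i ∈ B → μ ^ d i * (Z.map (V i)).prod = y i) ∧ (i ∉ B → ∀ x ∈ Z, V i x = 0)

/-- the local condition on the functions `V i`: there is a cycle of degree at most `ρ` with the given values, or a cycle
at infinity -/
def RC {p : ℕ} [Fact p.Prime] {q j s : ℕ} (ρ : ℕ) (G : Finset (MvPolynomial (Fin q) (ZMod p))) (e : Fin j → ℕ)
    (f : Fin j → MvPolynomial (Fin q) (ZMod p)) (d : Fin s → ℕ) (B : Finset (Fin s)) (u : Fin j → Kb p)
    (y : Fin s → Kb p) (V : Fin s → (Fin q → Kb p) → Kb p) : Prop :=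
  ∃ m, 1 ≤ m ∧ m ≤ ρ ∧ ∃ Z ∈ Cyc G m,
    (∃ μ, Cu e f u Z μ ∧ Cy d B y V Z (algebraMap (ZMod p) (Kb p) μ)) ∨ ((∀ l, vp Z (f l) = 0) ∧ Cy d B 0 V Z 1)

/-- the local density statement for the coefficient vectors of the forms of degrees `d i` -/
def LDM {K : Type} [Field K] [NumberField K] {q j s : ℕ} (ρ : ℕ) (G : Finset (MvPolynomial (Fin q) (𝓞 K)))
    (e : Fin j → ℕ) (f : Fin j → MvPolynomial (Fin q) (𝓞 K)) (d : Fin s → ℕ) (B : Finset (Fin s)) : Prop :=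
  ∃ c : ℝ, 0 < c ∧ c < 1 ∧ ∃ p0 : ℕ, ∀ (p : ℕ) [Fact p.Prime], p0 ≤ p → ∀ (φ : 𝓞 K →+* ZMod p) (u : Fin j → Kb p),
    (∀ l, u l ≠ 0) → ∀ y : Fin s → Kb p, (∀ i, y i ≠ 0 ↔ i ∈ B) →
      (Nat.card {a : LVY.Mo (Fin q) d → ZMod p // RC ρ (G.image (MvPolynomial.map φ)) e
        (fun l => MvPolynomial.map φ (f l)) d B u y (Fb a)} : ℝ) ≤ (1 - c) * (p : ℝ) ^ Fintype.card (LVY.Mo (Fin q) d)

/-- the value at a vector over the algebraic closure of the `i`-th component of `∑ k, c k * g k` -/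
noncomputable def Gv {K : Type} [Field K] [NumberField K] {p : ℕ} [Fact p.Prime] {q s N : ℕ}
    (g : Fin N → Fin s → MvPolynomial (Fin q) (𝓞 K)) (φ : 𝓞 K →+* ZMod p) (c : Fin N → ZMod p) (i : Fin s)
    (x : Fin q → Kb p) : Kb p :=
  ∑ k, algebraMap (ZMod p) (Kb p) (c k) * MvPolynomial.aeval x (MvPolynomial.map φ (g k i))

/-- the local density statement for the vectors `∑ k, c k * g k` -/
def LDF {K : Type} [Field K] [NumberField K] {q j s N : ℕ} (ρ : ℕ) (G : Finset (MvPolynomial (Fin q) (𝓞 K)))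
    (e : Fin j → ℕ) (f : Fin j → MvPolynomial (Fin q) (𝓞 K)) (d : Fin s → ℕ) (B : Finset (Fin s))
    (g : Fin N → Fin s → MvPolynomial (Fin q) (𝓞 K)) : Prop :=
  ∃ c : ℝ, 0 < c ∧ c < 1 ∧ ∃ p0 : ℕ, ∀ (p : ℕ) [Fact p.Prime], p0 ≤ p → ∀ (φ : 𝓞 K →+* ZMod p) (u : Fin j → Kb p),
    (∀ l, u l ≠ 0) → ∀ y : Fin s → Kb p, (∀ i, y i ≠ 0 ↔ i ∈ B) →
      (Nat.card {c : Fin N → ZMod p // RC ρ (G.image (MvPolynomial.map φ)) e (fun l => MvPolynomial.map φ (f l)) d B u y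
        (Gv g φ c)} : ℝ) ≤ (1 - c) * (p : ℝ) ^ N

end LVF
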