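import Pool.Agent.Lib.MP_17a322_ntLF.Fb1
import Pool.Agent.Lib.MP_17a322_ntLF.E1
import Pool.Agent.Lib.MP_17a322_ntLF.RDefs

/-!
# LEAF Fb3: the number of compatible functions with a given product

PROOF.  `ncW`: apply `sz1` with `d = N.card` and `Z = N.val` (the elements of `N` are normalised, so not `0`): the number of the `a : Sym (Fin q) d → ZMod p` with `∏ x ∈ N, fv a x = b`, times `p`, is at most `N.card * p ^ card (Sym (Fin q) d)`.  By `ev1` each `v ∈ EW N` is the family of values of exactly `p ^ card (Sym) / p ^ N.card` vectors `a`, so this number is `#{v ∈ EW N // ∏ v = b} * p ^ card (Sym) / p ^ N.card`.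
`ncB`: a product over `i`: for `i ∈ B`, `w i ≠ 0`: `ncW` for `b = y i / w i`; for `i ∈ B`, `w i = 0`: no `v`, as `y i ≠ 0`; for `i ∉ B` only `v i = 0`.  So `# * p ^ B.card ≤ N.card ^ B.card * p ^ (N.card * B.card)`, and `p ^ (N.card * B.card) * p ^ (N.card * Bᶜ.card) = p ^ (s * N.card)`.
-/

namespace LVF

open Finset

theorem ncW {p : ℕ} [Fact p.Prime] {q : ℕ} (N : Finset (Fin q → Kb p)) (hN : Fs N) (h1 : 1 ≤ N.card) (b : Kb p) :
    Nat.card {v : N → Kb p // v ∈ EW N ∧ ∏ x, v x = b} * p ≤ N.card * p ^ N.card := by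
  classical
  have hp : 0 < p := (Fact.out : p.Prime).pos
  have hfin : Finite (EW N) := by
    refine Nat.finite_of_card_ne_zero ?_
    rw [ne N hN]
    exact pow_ne_zero _ hp.ne'
  set V := {v : N → Kb p // v ∈ EW N ∧ ∏ x, v x = b} with hV
  have hVf : Finite V := Finite.of_injective (fun v : V => (⟨v.1, v.2.1⟩ : EW N)) fun v w h =>
    Subtype.ext (congrArg (fun u : EW N => (u : N → Kb p)) h)
  have hVt : Fintype V := Fintype.ofFinite V
  have hev : ∀ v : V, Nat.card {a : Sym (Fin q) N.card → ZMod p // ∀ x : N,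
      LVH.fv (fun t => algebraMap (ZMod p) (Kb p) (a t)) (x : Fin q → Kb p) = v.1 x} * p ^ N.card =
        p ^ Fintype.card (Sym (Fin q) N.card) := fun v => ev1 N.card N hN (Nat.le_succ _) v.1 v.2.1
  have hsz := sz1 N.card N.val (fun x hx h0 => by
    obtain ⟨w, hw, -⟩ := (hN x hx).1
    rw [h0, Pi.zero_apply] at hw
    exact zero_ne_one hw) h1 b
  have hinj : Nat.card (Σ v : V, {a : Sym (Fin q) N.card → ZMod p // ∀ x : N,
      LVH.fv (fun t => algebraMap (ZMod p) (Kb p) (a t)) (x : Fin q → Kb p) = v.1 x}) ≤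
      Nat.card {a : Sym (Fin q) N.card → ZMod p //
        (N.val.map fun x => LVH.fv (fun t => algebraMap (ZMod p) (Kb p) (a t)) x).prod = b} := by
    refine Nat.card_le_card_of_injective (fun z => ⟨z.2.1, ?_⟩) ?_
    · refine Eq.trans ?_ z.1.2.2
      change ∏ x ∈ N, _ = _
      rw [← Finset.prod_coe_sort]
      exact Finset.prod_congr rfl fun x _ => z.2.2 x
    · rintro ⟨v, a⟩ ⟨v', a'⟩ h
      have h2 : a.1 = a'.1 := congrArg Subtype.val h
      have h3 : v = v' := by
        refine Subtype.ext (funext fun x => ?_)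
        rw [← a.2 x, ← a'.2 x, h2]
      subst h3
      have h4 : a = a' := Subtype.ext h2
      rw [h4]
  rw [Nat.card_sigma] at hinj
  have hP : 0 < p ^ Fintype.card (Sym (Fin q) N.card) := pow_pos hp _
  refine Nat.le_of_mul_le_mul_right ?_ hP
  have hsum : (∑ v : V, Nat.card {a : Sym (Fin q) N.card → ZMod p // ∀ x : N,
      LVH.fv (fun t => algebraMap (ZMod p) (Kb p) (a t)) (x : Fin q → Kb p) = v.1 x}) * p ^ N.card =
        Nat.card V * p ^ Fintype.card (Sym (Fin q) N.card) := by
    rw [Finset.sum_mul, Finset.sum_congr rfl fun v _ => hev v, Finset.sum_const, smul_eq_mul, Finset.card_univ,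
      Nat.card_eq_fintype_card]
  calc Nat.card V * p * p ^ Fintype.card (Sym (Fin q) N.card)
      = (Nat.card V * p ^ Fintype.card (Sym (Fin q) N.card)) * p := by ring
    _ = (∑ v : V, Nat.card {a : Sym (Fin q) N.card → ZMod p // ∀ x : N,
      LVH.fv (fun t => algebraMap (ZMod p) (Kb p) (a t)) (x : Fin q → Kb p) = v.1 x}) * p ^ N.card * p := by rw [hsum]
    _ ≤ Nat.card {a : Sym (Fin q) N.card → ZMod p //
        (N.val.map fun x => LVH.fv (fun t => algebraMap (ZMod p) (Kb p) (a t)) x).prod = b} * p ^ N.card * p := by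
      gcongr
    _ = (Nat.card {a : Sym (Fin q) N.card → ZMod p //
        (N.val.map fun x => LVH.fv (fun t => algebraMap (ZMod p) (Kb p) (a t)) x).prod = b} * p) * p ^ N.card := by ring
    _ ≤ (N.card * p ^ Fintype.card (Sym (Fin q) N.card)) * p ^ N.card := Nat.mul_le_mul_right _ hsz
    _ = N.card * p ^ N.card * p ^ Fintype.card (Sym (Fin q) N.card) := by ring

theorem ncB {p : ℕ} [Fact p.Prime] {q s : ℕ} (B : Finset (Fin s)) (N : Finset (Fin q → Kb p)) (hN : Fs N)
    (h1 : 1 ≤ N.card) (w y : Fin s → Kb p) (hy : ∀ i, i ∈ B → y i ≠ 0) :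
    Nat.card {v : Fin s → N → Kb p // (∀ i, v i ∈ EW N) ∧
      ∀ i, (i ∈ B → w i * ∏ x, v i x = y i) ∧ (i ∉ B → ∀ x, v i x = 0)} * p ^ (B.card + N.card * Bᶜ.card) ≤
        N.card ^ B.card * p ^ (s * N.card) := by
  classical
  have hp : 0 < p := (Fact.out : p.Prime).pos
  let T : Fin s → Type := fun i => {u : N → Kb p // u ∈ EW N ∧
    ((i ∈ B → w i * ∏ x, u x = y i) ∧ (i ∉ B → ∀ x, u x = 0))}
  let e : {v : Fin s → N → Kb p // (∀ i, v i ∈ EW N) ∧
      ∀ i, (i ∈ B → w i * ∏ x, v i x = y i) ∧ (i ∉ B → ∀ x, v i x = 0)} ≃ (∀ i, T i) :=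
    { toFun := fun v i => ⟨v.1 i, v.2.1 i, v.2.2 i⟩
      invFun := fun u => ⟨fun i => (u i).1, fun i => (u i).2.1, fun i => (u i).2.2⟩
      left_inv := fun v => rfl
      right_inv := fun u => rfl }
  rw [Nat.card_congr e, Nat.card_pi]
  have hT : ∀ i, Nat.card (T i) * (if i ∈ B then p else p ^ N.card) ≤
      (if i ∈ B then N.card else 1) * p ^ N.card := by
    intro i
    by_cases hi : i ∈ B
    · rw [if_pos hi, if_pos hi]
      by_cases hw : w i = 0
      · have : IsEmpty (T i) := ⟨fun u => hy i hi ((u.2.2.1 hi).symm.trans (mul_eq_zero_of_left hw _))⟩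
        rw [Nat.card_of_isEmpty, zero_mul]
        exact Nat.zero_le _
      · refine le_trans (Nat.mul_le_mul_right _ ?_) (ncW N hN h1 (y i / w i))
        have hfin : Finite {v : N → Kb p // v ∈ EW N ∧ ∏ x, v x = y i / w i} := by
          have hfin : Finite (EW N) := by
            refine Nat.finite_of_card_ne_zero ?_
            rw [ne N hN]
            exact pow_ne_zero _ hp.ne'
          exact Finite.of_injective (fun v : {v : N → Kb p // v ∈ EW N ∧ ∏ x, v x = y i / w i} =>
            (⟨v.1, v.2.1⟩ : EW N)) fun v w h => Subtype.ext (congrArg (fun u : EW N => (u : N → Kb p)) h)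
        refine Nat.card_le_card_of_injective (fun u : T i => (⟨u.1, u.2.1, ?_⟩ :
          {v : N → Kb p // v ∈ EW N ∧ ∏ x, v x = y i / w i})) ?_
        · rw [eq_div_iff hw, mul_comm]
          exact u.2.2.1 hi
        · intro u u' h
          exact Subtype.ext (Subtype.mk.inj h)
    · rw [if_neg hi, if_neg hi]
      refine Nat.mul_le_mul_right _ ?_
      have : Subsingleton (T i) := ⟨fun u u' => Subtype.ext (funext fun x => by rw [u.2.2.2 hi x, u'.2.2.2 hi x])⟩
      exact Finite.card_le_one_iff_subsingleton.2 this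
  have hL : (∏ i, Nat.card (T i)) * p ^ (B.card + N.card * Bᶜ.card) =
      ∏ i, (Nat.card (T i) * (if i ∈ B then p else p ^ N.card)) := by
    rw [Finset.prod_mul_distrib]
    congr 1
    rw [Finset.prod_ite, Finset.prod_const, Finset.prod_const, pow_add, ← pow_mul]
    have e1 : (Finset.univ.filter fun i : Fin s => i ∈ B) = B := by ext; simp
    have e2 : (Finset.univ.filter fun i : Fin s => ¬ i ∈ B) = Bᶜ := by ext; simp
    rw [e1, e2]
  have hR : N.card ^ B.card * p ^ (s * N.card) = ∏ i : Fin s, ((if i ∈ B then N.card else 1) * p ^ N.card) := by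
    rw [Finset.prod_mul_distrib, Finset.prod_const, Finset.card_univ, Fintype.card_fin, ← pow_mul, mul_comm N.card s]
    congr 1
    rw [Finset.prod_ite, Finset.prod_const, Finset.prod_const_one, mul_one]
    have e1 : (Finset.univ.filter fun i : Fin s => i ∈ B) = B := by ext; simp
    rw [e1]
  rw [hL, hR]
  exact Finset.prod_le_prod' fun i _ => hT i

end LVF
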