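import Mathlib

/-! Probabilities on finite sets. -/

namespace LVF

/-- the proportion of the elements of the finite set `Ω` with the property `X` -/
noncomputable def Pr {Ω : Type} (X : Ω → Prop) : ℝ := (Nat.card {a : Ω // X a} : ℝ) / Nat.card Ω

end LVF
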