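import Pool.Agent.Lib.MP_17a322_ntLF.RDefs
import Pool.Agent.Lib.MP_17a322_ntLF.Fa
import Pool.Agent.Lib.MP_17a322_ntLF.PrD

/-! The critical case: definitions. -/

namespace LVF

open Finset

/-- the reduced cycles of degree `ρ` with the given values of the fixed forms -/
def Ix {p : ℕ} [Fact p.Prime] {q j : ℕ} (ρ : ℕ) (G : Finset (MvPolynomial (Fin q) (ZMod p))) (e : Fin j → ℕ)
    (f : Fin j → MvPolynomial (Fin q) (ZMod p)) (u : Fin j → Kb p) : Set (Finset (Fin q → Kb p)) :=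
  {T | Fs T ∧ T.card = ρ ∧ (∀ x ∈ T, ∀ g ∈ G, MvPolynomial.aeval x g = 0) ∧ ∃ μ, Cu e f u T.val μ}

/-- the forms with coefficients `a` have the given values at the cycle `T` -/
def Ev {p : ℕ} [Fact p.Prime] {q j s : ℕ} (e : Fin j → ℕ) (f : Fin j → MvPolynomial (Fin q) (ZMod p)) (u : Fin j → Kb p)
    (d : Fin s → ℕ) (B : Finset (Fin s)) (y : Fin s → Kb p) (T : Finset (Fin q → Kb p))
    (a : LVY.Mo (Fin q) d → ZMod p) : Prop :=
  ∃ μ, Cu e f u T.val μ ∧ Cy d B y (Fb a) T.val (algebraMap (ZMod p) (Kb p) μ)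

end LVF
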