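import Pool.Agent.Lib.MP_17a322_ntLF.Fc
import Pool.Agent.Lib.MP_17a322_ntLF.E2
import Pool.Agent.Lib.MP_17a322_ntLF.Cnt

/-!
# LEAF Fc0: the number of the reduced cycles

PROOF.  `ev_sp`: `Cy d B y (Fb a) T.val μ` depends only on the values `Fb a i x`, `x ∈ T` (`Multiset.map_congr`).
`ix_fin`: the elements of a Frobenius stable set of `F` vectors satisfy `fr^[k] x = x` for some `1 ≤ k ≤ F` (pigeonhole), so their coordinates are roots of `X ^ (p ^ F!) - X`: all `T` are subsets of a finite set (`fx_fin` with `f = F!`); or from `shp` as below.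
`cntS`: for `N` in the set, `N.val ∈ Cyc G F` (`Multiset.card N.val = F`; `N.val.map (fr p) = N.val`: `fr p` is injective (Frobenius), maps `N` into `N`, so onto `N`).  By `shp` for `N.val` (`ρ = F`) there are a shape `t : Sh F` and `z` with `N.val = Zo .. z`, `∑ f a = N.card = F`, `Fx`, `Nm`, and `vp N.val h = ∏ nf ..`; so the pair `(N, μ)` is determined by `t`, `z`, `μ`, and `(z, μ)` is in the set of `cnt` for `t`: the number of pairs `(N, μ)` is at most the sum over the shapes `t` with `k ≥ 1`, positive entries, `∑ f a = F` of `A t * p ^ (F * (r + j) + 1) / p ^ (j + F)` (the sets in `cnt` are finite by `fx_fin`).  `A = ∑ t, A t` over the shapes.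
-/

namespace LVF

open Finset

private theorem Fc0_inj {p : ℕ} [Fact p.Prime] {q : ℕ} :
    Function.Injective (fr p : (Fin q → Kb p) → Fin q → Kb p) := by
  intro x y h
  have hc : CharP (Kb p) p := charP_of_injective_algebraMap (algebraMap (ZMod p) (Kb p)).injective p
  have he : ExpChar (Kb p) p := ExpChar.prime (Fact.out : p.Prime)
  funext t
  have h1 : x t ^ p = y t ^ p := congrFun h t
  exact frobenius_inj (Kb p) p h1

private theorem Fc0_map {p : ℕ} [Fact p.Prime] {q : ℕ} (N : Finset (Fin q → Kb p)) (hN : Fs N) :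
    N.val.map (fr p) = N.val := by
  classical
  have h1 : N.image (fr p) = N := by
    refine Finset.eq_of_subset_of_card_le ?_ ?_
    · intro x hx
      obtain ⟨y, hy, rfl⟩ := Finset.mem_image.1 hx
      exact (hN y hy).2
    · rw [Finset.card_image_of_injective _ Fc0_inj]
  rw [← Finset.image_val_of_injOn Fc0_inj.injOn, h1]

/-- the good shapes -/
private def Fc0_G (F : ℕ) (t : Sh F) : Prop :=
  1 ≤ (t.1 : ℕ) ∧ (∀ a, 1 ≤ (t.2.1 a : ℕ) ∧ 1 ≤ (t.2.2 a : ℕ)) ∧ ∑ a, (t.2.1 a : ℕ) = F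

private theorem Fc0_shp {p : ℕ} [Fact p.Prime] {q F : ℕ} (hF : 1 ≤ F) (N : Finset (Fin q → Kb p)) (hN : Fs N)
    (hc : N.card = F) : ∃ (t : Sh F) (z : Fin t.1 → Fin q → Kb p), Fc0_G F t ∧
      N.val = Zo (fun a => (t.2.1 a : ℕ)) (fun a => (t.2.2 a : ℕ)) z ∧ (∀ a, z a ∈ N ∧ Fx (t.2.1 a) (z a)) ∧
      ∀ h : MvPolynomial (Fin q) (ZMod p), vp N.val h =
        ∏ a, nf p (t.2.1 a) (MvPolynomial.aeval (z a) h) ^ (t.2.2 a : ℕ) := by
  classical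
  obtain ⟨t, z, h1, h2, h3, h4, -, h6, h7⟩ := shp N.val (Fc0_map N hN) (ρ := F) (le_of_le_of_eq hF hc.symm) (le_of_eq hc)
  refine ⟨t, z, ⟨h1, h2, ?_⟩, h3, fun a => ⟨(h6 a).1, (h6 a).2⟩, h7⟩
  rw [h4, ← hc]
  exact congrArg Finset.card (by ext x; rw [Multiset.mem_toFinset]; rfl)

private theorem Fc0_fin {p : ℕ} [Fact p.Prime] {q F : ℕ} (t : Sh F) (ht : Fc0_G F t) :
    {z : Fin t.1 → Fin q → Kb p | ∀ a, Fx (t.2.1 a) (z a)}.Finite :=
  Set.Finite.pi' fun a => fx_fin (ht.2.1 a).1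

theorem ev_sp {p : ℕ} [Fact p.Prime] {q j s : ℕ} (e : Fin j → ℕ) (f : Fin j → MvPolynomial (Fin q) (ZMod p))
    (u : Fin j → Kb p) (d : Fin s → ℕ) (B : Finset (Fin s)) (y : Fin s → Kb p) (T : Finset (Fin q → Kb p)) :
    Sp T (Ev e f u d B y T) := by
  have h1 : ∀ a b : LVY.Mo (Fin q) d → ZMod p, (∀ x ∈ T, ∀ i, Fb a i x = Fb b i x) →
      Ev e f u d B y T a → Ev e f u d B y T b := by
    rintro a b h ⟨μ, hc, hy⟩
    refine ⟨μ, hc, fun i => ⟨fun hi => ?_, fun hi x hx => ?_⟩⟩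
    · rw [← (hy i).1 hi]
      exact congrArg (fun P => algebraMap (ZMod p) (Kb p) μ ^ d i * Multiset.prod P)
        (Multiset.map_congr rfl fun x hx => (h x hx i).symm)
    · rw [← h x hx i]
      exact (hy i).2 hi x hx
  intro a b h
  exact ⟨h1 a b h, h1 b a fun x hx i => (h x hx i).symm⟩

theorem ix_fin {p : ℕ} [Fact p.Prime] {q F : ℕ} : {T : Finset (Fin q → Kb p) | Fs T ∧ T.card = F}.Finite := by
  classical
  rcases Nat.eq_zero_or_pos F with h0 | hF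
  · subst h0
    refine (Set.finite_singleton (∅ : Finset (Fin q → Kb p))).subset ?_
    rintro T ⟨-, hT⟩
    exact Finset.card_eq_zero.1 hT
  · have h1 : (⋃ t : {t : Sh F // Fc0_G F t}, Zo (fun a => (t.1.2.1 a : ℕ)) (fun a => (t.1.2.2 a : ℕ)) ''
        {z : Fin t.1.1 → Fin q → Kb p | ∀ a, Fx (t.1.2.1 a) (z a)}).Finite :=
      Set.finite_iUnion fun t => (Fc0_fin t.1 t.2).image _
    refine Set.Finite.subset (h1.preimage (f := Finset.val) (Finset.val_injective.injOn)) ?_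
    rintro T ⟨hT, hc⟩
    obtain ⟨t, z, g1, g2, g3, -⟩ := Fc0_shp hF T hT hc
    exact Set.mem_iUnion.2 ⟨⟨t, g1⟩, z, fun a => (g3 a).2, g2.symm⟩

theorem cntS (C j F : ℕ) (hF : 1 ≤ F) : ∃ A : ℕ, ∀ (p : ℕ) [Fact p.Prime] {q : ℕ}
    (G : Finset (MvPolynomial (Fin q) (ZMod p))) (_ : ∀ g ∈ G, ∃ n, g.IsHomogeneous n)
    (e : Fin j → ℕ) (g : Fin j → MvPolynomial (Fin q) (ZMod p)) (_ : ∀ l, (g l).IsHomogeneous (e l)) (r : ℕ)
    (_ : SL G g r C) (u : Fin j → Kb p) (_ : ∀ l, u l ≠ 0),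
    Nat.card {w : Finset (Fin q → Kb p) × ZMod p // Fs w.1 ∧ w.1.card = F ∧
      (∀ x ∈ w.1, ∀ h ∈ G, MvPolynomial.aeval x h = 0) ∧ Cu e g u w.1.val w.2} * p ^ (j + F) ≤
        A * p ^ (F * (r + j) + 1) := by
  classical
  have h0 : ∀ t : {t : Sh F // Fc0_G F t}, ∃ A : ℕ,
    ∀ (p : ℕ) [Fact p.Prime] {q : ℕ} (G : Finset (MvPolynomial (Fin q) (ZMod p))) (_ : ∀ g ∈ G, ∃ n, g.IsHomogeneous n)
      (e : Fin j → ℕ) (g : Fin j → MvPolynomial (Fin q) (ZMod p)) (_ : ∀ l, (g l).IsHomogeneous (e l)) (r : ℕ)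
      (_ : SL G g r C) (u : Fin j → Kb p), (∀ l, u l ≠ 0) →
      Nat.card {z : (Fin t.1.1 → Fin q → Kb p) × ZMod p //
        (∀ a, Nm (z.1 a) ∧ Fx (t.1.2.1 a : ℕ) (z.1 a) ∧ ∀ h ∈ G, MvPolynomial.aeval (z.1 a) h = 0) ∧ z.2 ≠ 0 ∧
          ∀ l, algebraMap (ZMod p) (Kb p) z.2 ^ e l *
            ∏ a, nf p (t.1.2.1 a : ℕ) (MvPolynomial.aeval (z.1 a) (g l)) ^ (t.1.2.2 a : ℕ) = u l} *
        p ^ (j + F) ≤ A * p ^ (F * (r + j) + 1) := by
    rintro ⟨t, ht⟩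
    obtain ⟨A, hA⟩ := cnt C j t.1 ht.1 (fun a => (t.2.1 a : ℕ)) (fun a => (t.2.2 a : ℕ)) (fun a => (ht.2.1 a).1)
      (fun a => (ht.2.1 a).2)
    refine ⟨A, ?_⟩
    intro p _ q G hG e g hg r hS u hu
    have h1 := hA p G hG e g hg r hS u hu
    rw [ht.2.2] at h1
    exact h1
  choose A hA using h0
  refine ⟨∑ t, A t, ?_⟩
  intro p _ q G hG e g hg r hS u hu
  have hfin : ∀ t : {t : Sh F // Fc0_G F t}, Finite {z : (Fin t.1.1 → Fin q → Kb p) × ZMod p //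
        (∀ a, Nm (z.1 a) ∧ Fx (t.1.2.1 a : ℕ) (z.1 a) ∧ ∀ h ∈ G, MvPolynomial.aeval (z.1 a) h = 0) ∧ z.2 ≠ 0 ∧
          ∀ l, algebraMap (ZMod p) (Kb p) z.2 ^ e l *
            ∏ a, nf p (t.1.2.1 a : ℕ) (MvPolynomial.aeval (z.1 a) (g l)) ^ (t.1.2.2 a : ℕ) = u l} := by
    intro t
    refine Set.Finite.subset ((Fc0_fin (q := q) t.1 t.2).prod (Set.finite_univ (α := ZMod p))) ?_
    rintro z ⟨h1, -, -⟩
    exact ⟨fun a => (h1 a).2.1, Set.mem_univ _⟩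
  have key : ∀ w : {w : Finset (Fin q → Kb p) × ZMod p // Fs w.1 ∧ w.1.card = F ∧
      (∀ x ∈ w.1, ∀ h ∈ G, MvPolynomial.aeval x h = 0) ∧ Cu e g u w.1.val w.2},
      ∃ s : (t : {t : Sh F // Fc0_G F t}) × {z : (Fin t.1.1 → Fin q → Kb p) × ZMod p //
        (∀ a, Nm (z.1 a) ∧ Fx (t.1.2.1 a : ℕ) (z.1 a) ∧ ∀ h ∈ G, MvPolynomial.aeval (z.1 a) h = 0) ∧ z.2 ≠ 0 ∧
          ∀ l, algebraMap (ZMod p) (Kb p) z.2 ^ e l *
            ∏ a, nf p (t.1.2.1 a : ℕ) (MvPolynomial.aeval (z.1 a) (g l)) ^ (t.1.2.2 a : ℕ) = u l},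
        w.1.1.val = Zo (fun a => (s.1.1.2.1 a : ℕ)) (fun a => (s.1.1.2.2 a : ℕ)) s.2.1.1 ∧ w.1.2 = s.2.1.2 := by
    rintro ⟨⟨N, μ⟩, h1, h2, h3, h4, h5⟩
    obtain ⟨t, z, g1, g2, g3, g4⟩ := Fc0_shp hF N h1 h2
    refine ⟨⟨⟨t, g1⟩, ⟨(z, μ), fun a => ⟨(h1 _ (g3 a).1).1, (g3 a).2, h3 _ (g3 a).1⟩, h4, fun l => ?_⟩⟩, g2, rfl⟩
    rw [← h5 l]
    exact congrArg (fun P => algebraMap (ZMod p) (Kb p) μ ^ e l * P) (g4 (g l)).symm
  choose Φ hΦ using key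
  have hinj : Function.Injective Φ := by
    intro w w' h
    obtain ⟨a1, a2⟩ := hΦ w
    obtain ⟨b1, b2⟩ := hΦ w'
    rw [← h] at b1 b2
    exact Subtype.ext (Prod.ext (Finset.val_injective (a1.trans b1.symm)) (a2.trans b2.symm))
  have hle := Nat.card_le_card_of_injective Φ hinj
  rw [Nat.card_sigma] at hle
  refine le_trans (Nat.mul_le_mul_right _ hle) ?_
  rw [Finset.sum_mul, Finset.sum_mul]
  exact Finset.sum_le_sum fun t _ => hA t p G hG e g hg r hS u hu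

end LVF
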