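import Pool.Agent.Lib.MP_17a322_ntLF.Fc0
import Pool.Agent.Lib.MP_17a322_ntLF.Fb1
import Pool.Agent.Lib.MP_17a322_ntLF.Fb3
import Pool.Agent.Lib.MP_17a322_ntLF.P1

/-!
# LEAF Fc1: the cycles with a given part in `W`

PROOF.  Let `W' ⊆ W`, `F = ρ - W'.card ≥ 1` (if no `T ∈ I` has `T ∩ W = W'`, the sum is `0`; otherwise `W' = T ∩ W` is `Fs` and `T.card = ρ`).  For `T ∈ I` with `T ∩ W = W'` put `N = T \ W` (`Fs N`, `N.card = F`, disjoint from `W`).  If `Cu e f u T.val μ` then `μ ≠ 0` and `μ ^ e l * vp N.val (f l) = u' l` with `u' l = u l / vp W'.val (f l)` (`vp T.val = vp W'.val * vp N.val`, all factors are not `0` as `u l ≠ 0`): the pair `(N, μ)` is in the set of `cntS` for `u'`, and `T = W' ∪ N`.  So `∑ T Pr (X ∧ Ev T) ≤ ∑ T ∑ μ (Cu T μ) Pr (X a ∧ Cy d B y (Fb a) T.val μ) ≤ ∑ (N, μ) Pr (X a ∧ Q a (Fb a on N))` with `Q a v` the condition `∀ i, (i ∈ B → (μ ^ d i * ∏ x ∈ W', Fb a i x) * ∏ x, v i x =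 y i) ∧ (i ∉ B → ∀ x, v i x = 0)`, which depends on `a` only through the values on `W`.  By `split_le` and `ncB`: `#{a // X a ∧ Q a ..} * p ^ (s * F) * p ^ (b + F * c) ≤ F ^ b * p ^ (s * F) * #{a // X a}` with `b = B.card`, `c = Bᶜ.card`, so `Pr (X ∧ Q) ≤ ρ ^ b / p ^ (b + F * c) * Pr X`.  The number of pairs `(N, μ)`: at most `A * p ^ (F * (r + j) + 1) / p ^ (j + F) = A * p ^ (F * (n + c) + 1) / p ^ j`.  The product is `A ρ ^ b * p ^ (F * n + 1) / p ^ (j + b) = A ρ ^ b * p ^ (F * n) / p ^ (ρ * n) ≤ A ρ ^ b`, and `≤ A ρ ^ b / p` if `F < ρ`, i.e. `W' ≠ ∅` (`n ≥ 1`).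
-/

namespace LVF

open Finset

private theorem Fc1_inj {p : ℕ} [Fact p.Prime] {q : ℕ} :
    Function.Injective (fr p : (Fin q → Kb p) → (Fin q → Kb p)) := by
  intro x y h
  funext t
  exact frobenius_inj (Kb p) p (congrFun h t)

open Classical in
private theorem Fc1_fs {p : ℕ} [Fact p.Prime] {q : ℕ} {W T : Finset (Fin q → Kb p)} (hW : Fs W) (hT : Fs T) :
    Fs (T \ W) := by
  intro x hx
  rw [Finset.mem_sdiff] at hx
  refine ⟨(hT x hx.1).1, Finset.mem_sdiff.2 ⟨(hT x hx.1).2, fun h => hx.2 ?_⟩⟩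
  have him : W.image (fr p) = W := by
    refine Finset.eq_of_subset_of_card_le ?_ ?_
    · intro z hz
      obtain ⟨w, hw, rfl⟩ := Finset.mem_image.1 hz
      exact (hW w hw).2
    · rw [Finset.card_image_of_injective _ Fc1_inj]
  rw [← him] at h
  obtain ⟨w, hw, hwx⟩ := Finset.mem_image.1 h
  rwa [← Fc1_inj hwx]

open Classical in
private theorem Fc1_term {p : ℕ} [Fact p.Prime] {q s : ℕ} (d : Fin s → ℕ) (B : Finset (Fin s)) (y : Fin s → Kb p)
    (hy : ∀ i, i ∈ B → y i ≠ 0) (T W : Finset (Fin q → Kb p)) (hT : Fs T) (hW : Fs W) (h1 : 1 ≤ (T \ W).card)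
    (hd : ∀ i, W.card + (T \ W).card ≤ d i + 1) (X : (LVY.Mo (Fin q) d → ZMod p) → Prop) (hX : Sp W X) (μ : Kb p) :
    Pr (fun a => X a ∧ Cy d B y (Fb a) T.val μ) * (p : ℝ) ^ (B.card + (T \ W).card * Bᶜ.card) ≤
      ((T \ W).card : ℝ) ^ B.card * Pr X := by
  have hp : 0 < p := (Fact.out : p.Prime).pos
  obtain ⟨N, hNd⟩ : ∃ N, N = T \ W := ⟨_, rfl⟩
  have hN : Fs N := hNd ▸ Fc1_fs hW hT
  have hWN : Disjoint W N := hNd ▸ Finset.disjoint_sdiff
  rw [← hNd] at h1 hd ⊢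
  let w : (LVY.Mo (Fin q) d → ZMod p) → Fin s → Kb p := fun a i => μ ^ d i * ∏ x ∈ T ∩ W, Fb a i x
  let Q : (LVY.Mo (Fin q) d → ZMod p) → (Fin s → N → Kb p) → Prop := fun a v =>
    ∀ i, (i ∈ B → w a i * ∏ x, v i x = y i) ∧ (i ∉ B → ∀ x, v i x = 0)
  have hQ : ∀ v, Sp W (fun a => Q a v) := by
    intro v a b hab
    have h2 : w a = w b := by
      funext i
      show μ ^ d i * ∏ x ∈ T ∩ W, Fb a i x = μ ^ d i * ∏ x ∈ T ∩ W, Fb b i x
      rw [Finset.prod_congr rfl fun x hx => hab x (Finset.mem_inter.1 hx).2 i]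
    show (∀ i, (i ∈ B → w a i * ∏ x, v i x = y i) ∧ (i ∉ B → ∀ x, v i x = 0)) ↔
      ∀ i, (i ∈ B → w b i * ∏ x, v i x = y i) ∧ (i ∉ B → ∀ x, v i x = 0)
    rw [h2]
  have hM : ∀ a, X a → Nat.card {v : Fin s → N → Kb p // (∀ i, v i ∈ EW N) ∧ Q a v} ≤
      N.card ^ B.card * p ^ (s * N.card) / p ^ (B.card + N.card * Bᶜ.card) := fun a _ =>
    (Nat.le_div_iff_mul_le (pow_pos hp _)).2 (ncB B N hN h1 (w a) y hy)
  have h2 := split_le d W N hW hN hWN hd X hX Q hQ _ hM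
  have h3 : Nat.card {a // X a ∧ Q a (fun i x => Fb a i (x : Fin q → Kb p))} * p ^ (B.card + N.card * Bᶜ.card) ≤
      N.card ^ B.card * Nat.card {a // X a} := by
    refine Nat.le_of_mul_le_mul_right ?_ (pow_pos hp (s * N.card))
    calc Nat.card {a // X a ∧ Q a (fun i x => Fb a i (x : Fin q → Kb p))} * p ^ (B.card + N.card * Bᶜ.card) *
          p ^ (s * N.card)
        = (Nat.card {a // X a ∧ Q a (fun i x => Fb a i (x : Fin q → Kb p))} * p ^ (s * N.card)) *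
          p ^ (B.card + N.card * Bᶜ.card) := by ring
      _ ≤ (N.card ^ B.card * p ^ (s * N.card) / p ^ (B.card + N.card * Bᶜ.card) * Nat.card {a // X a}) *
          p ^ (B.card + N.card * Bᶜ.card) := Nat.mul_le_mul_right _ h2
      _ = (N.card ^ B.card * p ^ (s * N.card) / p ^ (B.card + N.card * Bᶜ.card) *
          p ^ (B.card + N.card * Bᶜ.card)) * Nat.card {a // X a} := by ring
      _ ≤ (N.card ^ B.card * p ^ (s * N.card)) * Nat.card {a // X a} :=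
          Nat.mul_le_mul_right _ (Nat.div_mul_le_self _ _)
      _ = N.card ^ B.card * Nat.card {a // X a} * p ^ (s * N.card) := by ring
  have h4 : Pr (fun a => X a ∧ Cy d B y (Fb a) T.val μ) ≤
      Pr (fun a => X a ∧ Q a (fun i x => Fb a i (x : Fin q → Kb p))) := by
    refine pr_mono fun a ha => ⟨ha.1, fun i => ⟨fun hi => ?_, fun hi x => ?_⟩⟩
    · have h5 : μ ^ d i * ∏ x ∈ T, Fb a i x = y i := (ha.2 i).1 hi
      have h6 : ∏ x : N, Fb a i (x : Fin q → Kb p) = ∏ x ∈ T \ W, Fb a i x := by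
        rw [Finset.prod_coe_sort N (fun x => Fb a i x), hNd]
      show (μ ^ d i * ∏ x ∈ T ∩ W, Fb a i x) * ∏ x : N, Fb a i (x : Fin q → Kb p) = y i
      rw [h6, mul_assoc, Finset.prod_inter_mul_prod_sdiff]
      exact h5
    · have h5 : (x : Fin q → Kb p) ∈ T \ W := hNd ▸ x.2
      exact (ha.2 i).2 hi _ (Finset.mem_sdiff.1 h5).1
  have h5 : Pr (fun a => X a ∧ Q a (fun i x => Fb a i (x : Fin q → Kb p))) *
      (p : ℝ) ^ (B.card + N.card * Bᶜ.card) ≤ (N.card : ℝ) ^ B.card * Pr X := by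
    unfold Pr
    rw [div_mul_eq_mul_div, ← mul_div_assoc]
    refine div_le_div_of_nonneg_right ?_ (Nat.cast_nonneg _)
    exact_mod_cast h3
  exact (mul_le_mul_of_nonneg_right h4 (by positivity)).trans h5

open Classical in
theorem step {p : ℕ} [Fact p.Prime] {q j s : ℕ} (ρ n r A : ℕ) (hn1 : 1 ≤ n) (d : Fin s → ℕ) (B : Finset (Fin s))
    (hn : r + j = n + Bᶜ.card + 1) (hj : j + B.card = ρ * n + 1) (G : Finset (MvPolynomial (Fin q) (ZMod p)))
    (e : Fin j → ℕ) (f : Fin j → MvPolynomial (Fin q) (ZMod p))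
    (hA : ∀ u : Fin j → Kb p, (∀ l, u l ≠ 0) → ∀ F, 1 ≤ F → F ≤ ρ → Nat.card {w : Finset (Fin q → Kb p) × ZMod p //
      Fs w.1 ∧ w.1.card = F ∧ (∀ x ∈ w.1, ∀ h ∈ G, MvPolynomial.aeval x h = 0) ∧ Cu e f u w.1.val w.2} * p ^ (j + F) ≤
        A * p ^ (F * (r + j) + 1))
    (u : Fin j → Kb p) (hu : ∀ l, u l ≠ 0) (y : Fin s → Kb p) (hy : ∀ i, i ∈ B → y i ≠ 0)
    (I : Finset (Finset (Fin q → Kb p))) (hI : ∀ T ∈ I, T ∈ Ix ρ G e f u) (W : Finset (Fin q → Kb p)) (hW : Fs W)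
    (hd : ∀ i, W.card + ρ ≤ d i + 1) (X : (LVY.Mo (Fin q) d → ZMod p) → Prop) (hX : Sp W X)
    (W' : Finset (Fin q → Kb p)) (hW' : W'.card < ρ) :
    ∑ T ∈ I.filter (fun T => T ∩ W = W'), Pr (fun a => X a ∧ Ev e f u d B y T a) ≤
      (if W' = ∅ then 1 else (p : ℝ)⁻¹) * (A * ρ ^ B.card) * Pr X := by
  have hp : 0 < p := (Fact.out : p.Prime).pos
  have hpR : (0 : ℝ) < p := by exact_mod_cast hp
  have hp1 : (1 : ℝ) ≤ p := by exact_mod_cast hp
  have hX0 : 0 ≤ Pr X := pr_nonneg X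
  obtain ⟨F, hF⟩ : ∃ F, F = ρ - W'.card := ⟨_, rfl⟩
  have hF1 : 1 ≤ F := by omega
  have hFρ : F ≤ ρ := by omega
  obtain ⟨I', hI'⟩ : ∃ I', I' = I.filter (fun T => T ∩ W = W') := ⟨_, rfl⟩
  rw [← hI']
  have hIm : ∀ T ∈ I', T ∩ W = W' ∧ Fs T ∧ T.card = ρ ∧ (∀ x ∈ T, ∀ g ∈ G, MvPolynomial.aeval x g = 0) ∧
      (T \ W).card = F := by
    intro T hT
    rw [hI', Finset.mem_filter] at hT
    obtain ⟨h1, h2, h3, -⟩ := hI T hT.1
    refine ⟨hT.2, h1, h2, h3, ?_⟩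
    have h4 := Finset.card_inter_add_card_sdiff T W
    rw [hT.2, h2] at h4
    omega
  let S : Finset (Fin q → Kb p) → Finset (ZMod p) := fun T => Finset.univ.filter fun μ => Cu e f u T.val μ
  -- the bound by the number of pairs
  have hsum : (∑ T ∈ I', Pr (fun a => X a ∧ Ev e f u d B y T a)) * (p : ℝ) ^ (B.card + F * Bᶜ.card) ≤
      ((I'.sigma S).card : ℝ) * ((F : ℝ) ^ B.card * Pr X) := by
    rw [Finset.card_sigma, Nat.cast_sum, Finset.sum_mul, Finset.sum_mul]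
    refine Finset.sum_le_sum fun T hT => ?_
    obtain ⟨h1, h2, h3, h4, h5⟩ := hIm T hT
    have h6 : Pr (fun a => X a ∧ Ev e f u d B y T a) ≤
        ∑ μ ∈ S T, Pr (fun a => X a ∧ Cy d B y (Fb a) T.val (algebraMap (ZMod p) (Kb p) μ)) := by
      refine le_trans (pr_mono fun a ha => ?_) (pr_ex (S T) fun μ a =>
        X a ∧ Cy d B y (Fb a) T.val (algebraMap (ZMod p) (Kb p) μ))
      obtain ⟨h7, μ, h8, h9⟩ := ha
      exact ⟨μ, Finset.mem_filter.2 ⟨Finset.mem_univ _, h8⟩, h7, h9⟩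
    refine (mul_le_mul_of_nonneg_right h6 (by positivity)).trans ?_
    rw [Finset.sum_mul]
    refine (Finset.sum_le_card_nsmul _ _ ((F : ℝ) ^ B.card * Pr X) fun μ _ => ?_).trans_eq (nsmul_eq_mul _ _)
    have h7 := Fc1_term d B y hy T W h2 hW (by omega) (fun i => by have := hd i; omega) X hX
      (algebraMap (ZMod p) (Kb p) μ)
    rwa [h5] at h7
  -- the number of pairs
  have hcount : (I'.sigma S).card * p ^ j ≤ A * p ^ (F * n + F * Bᶜ.card + 1) := by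
    rcases (I'.sigma S).eq_empty_or_nonempty with h0 | ⟨⟨T₀, μ₀⟩, h0⟩
    · rw [h0, Finset.card_empty, zero_mul]
      exact Nat.zero_le _
    · rw [Finset.mem_sigma] at h0
      have hvp : ∀ T ∈ I', ∀ l, vp T.val (f l) = vp W'.val (f l) * vp (T \ W).val (f l) := by
        intro T hT l
        show ∏ x ∈ T, MvPolynomial.aeval x (f l) =
          (∏ x ∈ W', MvPolynomial.aeval x (f l)) * ∏ x ∈ T \ W, MvPolynomial.aeval x (f l)
        rw [← (hIm T hT).1, Finset.prod_inter_mul_prod_sdiff]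
      have hW0 : ∀ l, vp W'.val (f l) ≠ 0 := by
        intro l h1
        have h2 := (Finset.mem_filter.1 h0.2).2.2 l
        rw [hvp T₀ h0.1, h1, zero_mul, mul_zero] at h2
        exact hu l h2.symm
      obtain ⟨u', hu'⟩ : ∃ u' : Fin j → Kb p, u' = fun l => u l * (vp W'.val (f l))⁻¹ := ⟨_, rfl⟩
      have hu'0 : ∀ l, u' l ≠ 0 := fun l => by
        rw [hu']
        exact mul_ne_zero (hu l) (inv_ne_zero (hW0 l))
      have hfin : Finite {w : Finset (Fin q → Kb p) × ZMod p //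
          Fs w.1 ∧ w.1.card = F ∧ (∀ x ∈ w.1, ∀ h ∈ G, MvPolynomial.aeval x h = 0) ∧ Cu e f u' w.1.val w.2} := by
        have h1 : ({T : Finset (Fin q → Kb p) | Fs T ∧ T.card = F} ×ˢ (Set.univ : Set (ZMod p))).Finite :=
          ix_fin.prod Set.finite_univ
        exact (h1.subset fun w hw => ⟨⟨hw.1, hw.2.1⟩, Set.mem_univ _⟩).to_subtype
      have hle : (I'.sigma S).card ≤ Nat.card {w : Finset (Fin q → Kb p) × ZMod p //
          Fs w.1 ∧ w.1.card = F ∧ (∀ x ∈ w.1, ∀ h ∈ G, MvPolynomial.aeval x h = 0) ∧ Cu e f u' w.1.val w.2} := by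
        rw [← Nat.card_eq_finsetCard]
        refine Nat.card_le_card_of_injective (fun z : ↥(I'.sigma S) => ⟨(z.1.1 \ W, z.1.2), ?_⟩) ?_
        · obtain ⟨⟨T, μ⟩, hz⟩ := z
          rw [Finset.mem_sigma] at hz
          obtain ⟨h1, h2, h3, h4, h5⟩ := hIm T hz.1
          refine ⟨Fc1_fs hW h2, h5, fun x hx => h4 x (Finset.mem_sdiff.1 hx).1, ?_⟩
          have h6 := (Finset.mem_filter.1 hz.2).2
          refine ⟨h6.1, fun l => ?_⟩
          have h7 := h6.2 l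
          rw [hvp T hz.1] at h7
          rw [hu']
          show algebraMap (ZMod p) (Kb p) μ ^ e l * vp (T \ W).val (f l) = u l * (vp W'.val (f l))⁻¹
          rw [eq_mul_inv_iff_mul_eq₀ (hW0 l), ← h7]
          ring
        · rintro ⟨⟨T, μ⟩, hz⟩ ⟨⟨T', μ'⟩, hz'⟩ h
          rw [Finset.mem_sigma] at hz hz'
          have h1 : T \ W = T' \ W := congrArg (fun v => v.1.1) h
          have h2 : μ = μ' := congrArg (fun v => v.1.2) h
          have h3 : T = T' := by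
            have h4 := (hIm T hz.1).1
            have h5 := (hIm T' hz'.1).1
            rw [← Finset.sdiff_union_inter T W, ← Finset.sdiff_union_inter T' W, h1, h4, h5]
          subst h2 h3
          rfl
      have h1 := (Nat.mul_le_mul_right (p ^ (j + F)) hle).trans (hA u' hu'0 F hF1 hFρ)
      refine Nat.le_of_mul_le_mul_right (c := p ^ F) ?_ (pow_pos hp F)
      calc (I'.sigma S).card * p ^ j * p ^ F = (I'.sigma S).card * p ^ (j + F) := by rw [pow_add, mul_assoc]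
        _ ≤ A * p ^ (F * (r + j) + 1) := h1
        _ = A * p ^ (F * n + F * Bᶜ.card + 1) * p ^ F := by
          rw [hn, mul_assoc, ← pow_add]
          ring_nf
  have hcR : ((I'.sigma S).card : ℝ) * (p : ℝ) ^ j ≤ A * (p : ℝ) ^ (F * n + F * Bᶜ.card + 1) := by
    exact_mod_cast hcount
  -- together
  obtain ⟨Z, hZ⟩ : ∃ Z, Z = ∑ T ∈ I', Pr (fun a => X a ∧ Ev e f u d B y T a) := ⟨_, rfl⟩
  rw [← hZ] at hsum ⊢
  have hFb : (0 : ℝ) ≤ (F : ℝ) ^ B.card * Pr X := by positivity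
  have hmain : Z * (p : ℝ) ^ (ρ * n) ≤ A * ((F : ℝ) ^ B.card * Pr X) * (p : ℝ) ^ (F * n) := by
    have h1 : 0 < (p : ℝ) ^ (F * Bᶜ.card + 1) := pow_pos hpR _
    refine le_of_mul_le_mul_right ?_ h1
    calc Z * (p : ℝ) ^ (ρ * n) * (p : ℝ) ^ (F * Bᶜ.card + 1)
        = Z * (p : ℝ) ^ (B.card + F * Bᶜ.card) * (p : ℝ) ^ j := by
          rw [mul_assoc, mul_assoc, ← pow_add, ← pow_add,
            show ρ * n + (F * Bᶜ.card + 1) = B.card + F * Bᶜ.card + j by omega]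
      _ ≤ ((I'.sigma S).card : ℝ) * ((F : ℝ) ^ B.card * Pr X) * (p : ℝ) ^ j :=
          mul_le_mul_of_nonneg_right hsum (by positivity)
      _ = ((I'.sigma S).card : ℝ) * (p : ℝ) ^ j * ((F : ℝ) ^ B.card * Pr X) := by ring
      _ ≤ A * (p : ℝ) ^ (F * n + F * Bᶜ.card + 1) * ((F : ℝ) ^ B.card * Pr X) :=
          mul_le_mul_of_nonneg_right hcR hFb
      _ = A * ((F : ℝ) ^ B.card * Pr X) * (p : ℝ) ^ (F * n) * (p : ℝ) ^ (F * Bᶜ.card + 1) := by
          rw [show F * n + F * Bᶜ.card + 1 = F * n + (F * Bᶜ.card + 1) by omega, pow_add]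
          ring
  have hFR : (F : ℝ) ^ B.card * Pr X ≤ (ρ : ℝ) ^ B.card * Pr X :=
    mul_le_mul_of_nonneg_right (pow_le_pow_left₀ (Nat.cast_nonneg _) (by exact_mod_cast hFρ) _) hX0
  have hA0 : (0 : ℝ) ≤ A := Nat.cast_nonneg _
  have hAF : (A : ℝ) * ((F : ℝ) ^ B.card * Pr X) ≤ A * ((ρ : ℝ) ^ B.card * Pr X) :=
    mul_le_mul_of_nonneg_left hFR hA0
  by_cases hW'0 : W' = ∅
  · rw [if_pos hW'0, one_mul, mul_assoc]
    have h1 : F = ρ := by
      rw [hF, hW'0, Finset.card_empty, Nat.sub_zero]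
    rw [h1] at hmain hAF
    exact le_of_mul_le_mul_right hmain (pow_pos hpR _)
  · rw [if_neg hW'0]
    have h1 : 1 ≤ W'.card := Finset.card_pos.2 (Finset.nonempty_iff_ne_empty.2 hW'0)
    have h2 : F * n + 1 ≤ ρ * n := by
      have h3 : F + 1 ≤ ρ := by omega
      nlinarith
    have h3 : Z * (p : ℝ) * (p : ℝ) ^ (F * n) ≤ A * ((F : ℝ) ^ B.card * Pr X) * (p : ℝ) ^ (F * n) := by
      refine le_trans ?_ hmain
      have h4 : 0 ≤ Z := by
        rw [hZ]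
        exact Finset.sum_nonneg fun T _ => pr_nonneg _
      rw [mul_assoc, ← pow_succ']
      exact mul_le_mul_of_nonneg_left (pow_le_pow_right₀ hp1 h2) h4
    have h4 := (le_of_mul_le_mul_right h3 (pow_pos hpR _)).trans hAF
    calc Z = (p : ℝ)⁻¹ * (Z * p) := by field_simp
      _ ≤ (p : ℝ)⁻¹ * (A * ((ρ : ℝ) ^ B.card * Pr X)) := mul_le_mul_of_nonneg_left h4 (inv_nonneg.2 hpR.le)
      _ = (p : ℝ)⁻¹ * (A * (ρ : ℝ) ^ B.card) * Pr X := by ring

end LVF
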