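import Pool.Agent.Lib.MP_17a322_ntLF.Fc0
import Pool.Agent.Lib.MP_17a322_ntLF.E1b
import Pool.Agent.Lib.MP_17a322_ntLF.P1

/-!
# LEAF Fc3: the probability of one cycle

PROOF.  For a fixed `μ ≠ 0`, `sz` for `Z = T.val` (`card Z = T.toFinset.card = ρ ≥ 1`, `T.val.map (fr p) = T.val`: `fr p` is injective and maps `T` into `T`) gives `Pr (Cy d B y (Fb a) T.val μ) ≤ ρ ^ b / p ^ (b + ρ * c)` with `b = B.card`, `c = Bᶜ.card`, and `Pr (Ev T) ≤ ∑ μ` (the sum over the `μ` with `Cu e f u T.val μ`).  If `j ≥ 1`: `μ ^ e 0 = u 0 / vp T.val (f 0)`, so there are at most `e 0 ≤ D` such `μ` (`e 0 ≥ 1`; roots of `X ^ (e 0) - const` in the field `Kb p`, the algebra map is injective), and `b + ρ * c ≥ 1` since `b + c = s ≥ 1`: `Pr (Ev T) ≤ D ρ ^ b / p`.  If `j = 0`: at most `p` values `μ`, and `b = ρ * n + 1 ≥ 2`: `Pr (Ev T) ≤ ρ ^ b * p / p ^ 2`.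
-/

namespace LVF

open Finset

private theorem Fc3_fr {p : ℕ} [Fact p.Prime] {q : ℕ} {T : Finset (Fin q → Kb p)} (hT : Fs T) :
    T.val.map (fr p) = T.val := by
  classical
  have hinj : Function.Injective (fr p : (Fin q → Kb p) → Fin q → Kb p) := by
    intro z z' h
    funext t
    have h1 : frobenius (Kb p) p (z t) = frobenius (Kb p) p (z' t) := congrFun h t
    exact frobenius_inj (Kb p) p h1
  have h1 : T.image (fr p) = T := by
    refine Finset.eq_of_subset_of_card_le ?_ ?_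
    · intro x hx
      obtain ⟨y, hy, rfl⟩ := Finset.mem_image.1 hx
      exact (hT y hy).2
    · rw [Finset.card_image_of_injective _ hinj]
  have h2 := Finset.image_val_of_injOn (hinj.injOn (s := (T : Set (Fin q → Kb p))))
  rw [h1] at h2
  exact h2.symm

private theorem Fc3_pr {p : ℕ} [Fact p.Prime] {q s ρ : ℕ} (hρ : 1 ≤ ρ) (d : Fin s → ℕ)
    (B : Finset (Fin s)) {T : Finset (Fin q → Kb p)} (hT : Fs T) (hc : T.card = ρ)
    (hd : ∀ i, ρ ≤ d i + 1) {μ : Kb p} (hμ : μ ≠ 0) (y : Fin s → Kb p) :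
    Pr (fun a : LVY.Mo (Fin q) d → ZMod p => Cy d B y (Fb a) T.val μ) ≤
      (ρ : ℝ) ^ B.card / (p : ℝ) ^ (B.card + ρ * Bᶜ.card) := by
  classical
  have hp : (0 : ℝ) < p := by exact_mod_cast (Fact.out : p.Prime).pos
  have h1 : T.val.toFinset.card = ρ := by
    rw [Finset.val_toFinset, hc]
  have h2 : Multiset.card T.val = ρ := hc
  have h3 := sz d B T.val (Fc3_fr hT) (fun x hx => (hT x hx).1) (by rw [h2]; exact hρ)
    (fun i _ => by
      have h4 : T.val.toFinset.card = ρ := by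
        rw [Finset.val_toFinset, hc]
      have h5 := hd i
      rw [Finset.val_toFinset, hc]
      exact h5) μ hμ y
  rw [Finset.val_toFinset, hc, h2] at h3
  unfold Pr
  have h6 : (Nat.card (LVY.Mo (Fin q) d → ZMod p) : ℝ) =
      (p : ℝ) ^ Fintype.card (LVY.Mo (Fin q) d) := by
    rw [Nat.card_fun, Nat.card_zmod, Nat.card_eq_fintype_card, Nat.cast_pow]
  rw [h6, div_le_div_iff₀ (by positivity) (by positivity)]
  exact_mod_cast h3

private theorem Fc3_card {p : ℕ} [Fact p.Prime] {q j D : ℕ} (e : Fin j → ℕ)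
    (he : ∀ l, 1 ≤ e l ∧ e l ≤ D) (f : Fin j → MvPolynomial (Fin q) (ZMod p)) (u : Fin j → Kb p)
    (hu : ∀ l, u l ≠ 0) (Z : Multiset (Fin q → Kb p)) (hj : 1 ≤ j) (I : Finset (ZMod p))
    (hI : ∀ μ ∈ I, Cu e f u Z μ) : I.card ≤ D := by
  classical
  obtain ⟨l, -⟩ : ∃ l : Fin j, True := ⟨⟨0, hj⟩, trivial⟩
  have h1 : I.image (algebraMap (ZMod p) (Kb p)) ⊆
      (Polynomial.nthRoots (e l) (u l / vp Z (f l))).toFinset := by
    intro x hx
    obtain ⟨μ, hμ, rfl⟩ := Finset.mem_image.1 hx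
    have h2 := (hI μ hμ).2 l
    have h3 : vp Z (f l) ≠ 0 := by
      intro h
      rw [h, mul_zero] at h2
      exact hu l h2.symm
    rw [Multiset.mem_toFinset, Polynomial.mem_nthRoots (he l).1, eq_div_iff h3, h2]
  have h4 := Finset.card_le_card h1
  rw [Finset.card_image_of_injective _ (algebraMap (ZMod p) (Kb p)).injective] at h4
  exact h4.trans ((Multiset.toFinset_card_le _).trans
    ((Polynomial.card_nthRoots _ _).trans (he l).2))

theorem prE {p : ℕ} [Fact p.Prime] {q j s : ℕ} (ρ n D : ℕ) (hρ : 1 ≤ ρ) (hn1 : 1 ≤ n) (hs : 1 ≤ s) (hD : 1 ≤ D)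
    (d : Fin s → ℕ) (B : Finset (Fin s)) (hj : j + B.card = ρ * n + 1) (G : Finset (MvPolynomial (Fin q) (ZMod p)))
    (e : Fin j → ℕ) (he : ∀ l, 1 ≤ e l ∧ e l ≤ D) (f : Fin j → MvPolynomial (Fin q) (ZMod p))
    (u : Fin j → Kb p) (hu : ∀ l, u l ≠ 0) (y : Fin s → Kb p)
    (T : Finset (Fin q → Kb p)) (hT : T ∈ Ix ρ G e f u) (hd : ∀ i, ρ ≤ d i + 1) :
    Pr (Ev e f u d B y T) ≤ D * ρ ^ B.card * (p : ℝ)⁻¹ := by
  classical
  obtain ⟨hFs, hc, -, -⟩ := hT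
  have hp : (0 : ℝ) < p := by exact_mod_cast (Fact.out : p.Prime).pos
  have hp1 : (1 : ℝ) ≤ p := by exact_mod_cast (Fact.out : p.Prime).one_lt.le
  obtain ⟨I, hI⟩ : ∃ I : Finset (ZMod p), ∀ μ, μ ∈ I ↔ Cu e f u T.val μ :=
    ⟨Finset.univ.filter fun μ => Cu e f u T.val μ, fun μ => by simp⟩
  have h1 : Pr (Ev e f u d B y T) ≤ Pr (fun a => ∃ μ ∈ I,
      (fun a : LVY.Mo (Fin q) d → ZMod p => Cy d B y (Fb a) T.val
        (algebraMap (ZMod p) (Kb p) μ)) a) := by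
    refine pr_mono fun a ha => ?_
    obtain ⟨μ, h2, h3⟩ := ha
    exact ⟨μ, (hI μ).2 h2, h3⟩
  have h2 := pr_ex I (fun (μ : ZMod p) (a : LVY.Mo (Fin q) d → ZMod p) =>
    Cy d B y (Fb a) T.val (algebraMap (ZMod p) (Kb p) μ))
  have h3 : ∑ μ ∈ I, Pr (fun a : LVY.Mo (Fin q) d → ZMod p =>
      Cy d B y (Fb a) T.val (algebraMap (ZMod p) (Kb p) μ)) ≤
      I.card * ((ρ : ℝ) ^ B.card / (p : ℝ) ^ (B.card + ρ * Bᶜ.card)) := by
    have h4 := Finset.sum_le_card_nsmul I (fun μ => Pr (fun a : LVY.Mo (Fin q) d → ZMod p =>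
      Cy d B y (Fb a) T.val (algebraMap (ZMod p) (Kb p) μ))) _ fun μ hμ =>
        Fc3_pr hρ d B hFs hc hd (μ := algebraMap (ZMod p) (Kb p) μ)
          ((map_ne_zero _).2 ((hI μ).1 hμ).1) y
    rwa [nsmul_eq_mul] at h4
  refine (h1.trans h2).trans (h3.trans ?_)
  have hρ0 : (0 : ℝ) ≤ (ρ : ℝ) ^ B.card := by positivity
  rcases Nat.eq_zero_or_pos j with h0 | h0
  · have h5 : 2 ≤ B.card + ρ * Bᶜ.card := by
      have h6 : 1 ≤ ρ * n := Nat.mul_le_mul hρ hn1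
      omega
    have h6 : (I.card : ℝ) ≤ p := by
      have h7 := Finset.card_le_univ I
      rw [ZMod.card] at h7
      exact_mod_cast h7
    have h8 : (p : ℝ) ^ 2 ≤ (p : ℝ) ^ (B.card + ρ * Bᶜ.card) := pow_le_pow_right₀ hp1 h5
    calc (I.card : ℝ) * ((ρ : ℝ) ^ B.card / (p : ℝ) ^ (B.card + ρ * Bᶜ.card))
        ≤ p * ((ρ : ℝ) ^ B.card / (p : ℝ) ^ 2) := by gcongr
      _ = 1 * (ρ : ℝ) ^ B.card * (p : ℝ)⁻¹ := by
          field_simp
      _ ≤ D * (ρ : ℝ) ^ B.card * (p : ℝ)⁻¹ := by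
          have h9 : (1 : ℝ) ≤ D := by exact_mod_cast hD
          gcongr
  · have h5 : 1 ≤ B.card + ρ * Bᶜ.card := by
      have h6 : B.card + Bᶜ.card = s := by
        rw [Finset.card_add_card_compl, Fintype.card_fin]
      have h7 : Bᶜ.card ≤ ρ * Bᶜ.card := Nat.le_mul_of_pos_left _ hρ
      omega
    have h6 : (I.card : ℝ) ≤ D := by
      exact_mod_cast Fc3_card e he f u hu T.val h0 I fun μ hμ => (hI μ).1 hμ
    have h8 : (p : ℝ) ^ 1 ≤ (p : ℝ) ^ (B.card + ρ * Bᶜ.card) := pow_le_pow_right₀ hp1 h5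
    calc (I.card : ℝ) * ((ρ : ℝ) ^ B.card / (p : ℝ) ^ (B.card + ρ * Bᶜ.card))
        ≤ D * ((ρ : ℝ) ^ B.card / (p : ℝ) ^ 1) := by gcongr
      _ = D * (ρ : ℝ) ^ B.card * (p : ℝ)⁻¹ := by
          rw [pow_one, mul_div_assoc', div_eq_mul_inv]

end LVF
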