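import Pool.Agent.Lib.MP_17a322_ntLF.P3

/-!
# LEAF P4: families with an adjacent pair

PROOF.  Let `k ≥ 2` (for `k < 2` there are no such families `U`, the sum is `0`).  For every `U ∈ I.powersetCard k` with two distinct adjacent elements choose such a pair `(i, i')`, `U' = (U.erase i).erase i' ∈ I.powersetCard (k - 2)`; the map `U ↦ (i, i', U')` is injective, `U = {i, i'} ∪ U'`.  So the sum is at most `∑ i ∈ I, ∑ i' ∈ I with i' ≠ i and adj i i', ∑ U' ∈ I.powersetCard (k - 2), Pr (∀ i'' ∈ {i, i'} ∪ U', E i'' a)`, by `extU` (`U0 = {i, i'}`, `2 + (k - 2) ≤ M`) at most `∑ i ∑ i' B ^ (k - 2) Pr (E i a ∧ E i' a) ≤ B ^ (k - 2) ∑ i ε Pr (E i) ≤ B ^ (k - 2) * (ε * C)`.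
For `badE`: in the same way, with `∑ U' ∈ I.powersetCard t, ∏ i ∈ U', w i ≤ C ^ t` (induction on `t` as in `extU`, or `LVY.es_pow`).
-/

namespace LVF

open Finset

open Classical in
private theorem P4_main {τ : Type} [DecidableEq τ] (I : Finset τ) (adj : τ → τ → Prop) (k : ℕ)
    (G : Finset τ → ℝ) (H : τ → τ → Finset τ → ℝ) (hH : ∀ i ∈ I, ∀ i' ∈ I, ∀ U' ⊆ I, 0 ≤ H i i' U')
    (hGH : ∀ U ⊆ I, ∀ i ∈ U, ∀ i' ∈ U, i' ≠ i → G U ≤ H i i' ((U.erase i).erase i')) :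
    ∑ U ∈ (I.powersetCard k).filter (fun U => ∃ i ∈ U, ∃ i' ∈ U, i' ≠ i ∧ adj i i'), G U ≤
      ∑ i ∈ I, ∑ i' ∈ I.filter (fun i' => i' ≠ i ∧ adj i i'), ∑ U' ∈ I.powersetCard (k - 2), H i i' U' := by
  set F := (I.powersetCard k).filter (fun U => ∃ i ∈ U, ∃ i' ∈ U, i' ≠ i ∧ adj i i') with hF
  set P := (I ×ˢ I).filter (fun p : τ × τ => p.2 ≠ p.1 ∧ adj p.1 p.2) with hP
  have hFI : ∀ U ∈ F, U ⊆ I ∧ U.card = k := fun U hU => Finset.mem_powersetCard.1 (Finset.mem_filter.1 hU).1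
  have hPI : ∀ p ∈ P, p.1 ∈ I ∧ p.2 ∈ I ∧ p.2 ≠ p.1 := by
    intro p hp
    obtain ⟨h1, h2⟩ := Finset.mem_filter.1 hp
    exact ⟨(Finset.mem_product.1 h1).1, (Finset.mem_product.1 h1).2, h2.1⟩
  have hsub : ∀ (U : Finset τ) (a b : τ), (U.erase a).erase b ⊆ U := fun U a b =>
    (Finset.erase_subset _ _).trans (Finset.erase_subset _ _)
  have s1 : ∑ U ∈ F, G U ≤ ∑ U ∈ F, ∑ p ∈ P.filter (fun p => p.1 ∈ U ∧ p.2 ∈ U),
      H p.1 p.2 ((U.erase p.1).erase p.2) := by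
    refine Finset.sum_le_sum fun U hU => ?_
    obtain ⟨i, hi, i', hi', hne, hadj⟩ := (Finset.mem_filter.1 hU).2
    have hUI := (hFI U hU).1
    refine (hGH U hUI i hi i' hi' hne).trans ?_
    refine Finset.single_le_sum (f := fun p : τ × τ => H p.1 p.2 ((U.erase p.1).erase p.2))
      (fun p hp => ?_) (a := (i, i')) ?_
    · have h1 := hPI p (Finset.mem_filter.1 hp).1
      exact hH _ h1.1 _ h1.2.1 _ ((hsub _ _ _).trans hUI)
    · exact Finset.mem_filter.2 ⟨Finset.mem_filter.2 ⟨Finset.mem_product.2 ⟨hUI hi, hUI hi'⟩, hne, hadj⟩, hi, hi'⟩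
  have s2 : ∑ U ∈ F, ∑ p ∈ P.filter (fun p => p.1 ∈ U ∧ p.2 ∈ U), H p.1 p.2 ((U.erase p.1).erase p.2) =
      ∑ p ∈ P, ∑ U ∈ F.filter (fun U => p.1 ∈ U ∧ p.2 ∈ U), H p.1 p.2 ((U.erase p.1).erase p.2) := by
    refine Finset.sum_comm' fun U p => ?_
    constructor
    · rintro ⟨h1, h2⟩
      obtain ⟨h3, h4⟩ := Finset.mem_filter.1 h2
      exact ⟨Finset.mem_filter.2 ⟨h1, h4⟩, h3⟩
    · rintro ⟨h1, h2⟩
      obtain ⟨h3, h4⟩ := Finset.mem_filter.1 h1
      exact ⟨h3, Finset.mem_filter.2 ⟨h2, h4⟩⟩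
  have s3 : ∀ p ∈ P, ∑ U ∈ F.filter (fun U => p.1 ∈ U ∧ p.2 ∈ U), H p.1 p.2 ((U.erase p.1).erase p.2) ≤
      ∑ U' ∈ I.powersetCard (k - 2), H p.1 p.2 U' := by
    intro p hp
    obtain ⟨h1, h2, h3⟩ := hPI p hp
    have hinj : Set.InjOn (fun U : Finset τ => (U.erase p.1).erase p.2)
        (F.filter (fun U => p.1 ∈ U ∧ p.2 ∈ U) : Finset (Finset τ)) := by
      intro U hU V hV hUV
      have hU' := (Finset.mem_filter.1 (Finset.mem_coe.1 hU)).2
      have hV' := (Finset.mem_filter.1 (Finset.mem_coe.1 hV)).2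
      have e1 : ∀ W : Finset τ, p.1 ∈ W ∧ p.2 ∈ W → insert p.1 (insert p.2 ((W.erase p.1).erase p.2)) = W := by
        intro W hW
        rw [Finset.insert_erase (Finset.mem_erase.2 ⟨h3, hW.2⟩), Finset.insert_erase hW.1]
      rw [← e1 U hU', ← e1 V hV']
      exact congrArg (fun W => insert p.1 (insert p.2 W)) hUV
    have e2 := Finset.sum_image (f := fun V => H p.1 p.2 V) hinj
    rw [← e2]
    refine Finset.sum_le_sum_of_subset_of_nonneg ?_ ?_
    · intro V hV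
      obtain ⟨U, hU, rfl⟩ := Finset.mem_image.1 hV
      obtain ⟨hU1, hU2⟩ := Finset.mem_filter.1 hU
      have hU3 := hFI U hU1
      refine Finset.mem_powersetCard.2 ⟨(hsub _ _ _).trans hU3.1, ?_⟩
      rw [Finset.card_erase_of_mem (Finset.mem_erase.2 ⟨h3, hU2.2⟩), Finset.card_erase_of_mem hU2.1, hU3.2]
      rfl
    · intro V hV _
      exact hH _ h1 _ h2 _ (Finset.mem_powersetCard.1 hV).1
  have s4 : ∑ p ∈ P, ∑ U' ∈ I.powersetCard (k - 2), H p.1 p.2 U' =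
      ∑ i ∈ I, ∑ i' ∈ I.filter (fun i' => i' ≠ i ∧ adj i i'), ∑ U' ∈ I.powersetCard (k - 2), H i i' U' := by
    rw [hP, Finset.sum_filter, Finset.sum_product]
    exact Finset.sum_congr rfl fun i _ => (Finset.sum_filter _ _).symm
  exact s1.trans (s2.le.trans ((Finset.sum_le_sum s3).trans s4.le))

private theorem P4_step {τ : Type} [DecidableEq τ] {T : Finset τ} {a : τ} (ha : a ∉ T) (f : τ → ℝ) (k : ℕ) :
    ∑ U ∈ (insert a T).powersetCard (k + 1), ∏ i ∈ U, f i =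
      (∑ U ∈ T.powersetCard (k + 1), ∏ i ∈ U, f i) + f a * ∑ U ∈ T.powersetCard k, ∏ i ∈ U, f i := by
  rw [Finset.powersetCard_succ_insert ha, Finset.sum_union, Finset.sum_image, Finset.mul_sum]
  · refine congrArg _ (Finset.sum_congr rfl fun U hU => ?_)
    have h1 : a ∉ U := fun h => ha ((Finset.mem_powersetCard.1 hU).1 h)
    rw [Finset.prod_insert h1]
  · intro U hU U' hU' h
    have h1 : a ∉ U := fun h => ha ((Finset.mem_powersetCard.1 hU).1 h)
    have h2 : a ∉ U' := fun h => ha ((Finset.mem_powersetCard.1 hU').1 h)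
    rw [← Finset.erase_insert h1, ← Finset.erase_insert h2]
    exact congrArg (fun V => V.erase a) h
  · rw [Finset.disjoint_left]
    intro U hU hU'
    obtain ⟨V, _, rfl⟩ := Finset.mem_image.1 hU'
    exact ha ((Finset.mem_powersetCard.1 hU).1 (Finset.mem_insert_self a V))

private theorem P4_pow {τ : Type} [DecidableEq τ] (T : Finset τ) (w : τ → ℝ) (h0 : ∀ t ∈ T, 0 ≤ w t) (k : ℕ) :
    ∑ U ∈ T.powersetCard k, ∏ i ∈ U, w i ≤ (∑ t ∈ T, w t) ^ k := by
  induction T using Finset.induction_on generalizing k with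
  | empty =>
    rcases k with _ | k
    · simp
    · rw [Finset.powersetCard_eq_empty.2 (by simp), Finset.sum_empty, Finset.sum_empty]
      simp
  | insert a T ha ih =>
    have h0' : ∀ t ∈ T, 0 ≤ w t := fun t ht => h0 t (Finset.mem_insert_of_mem ht)
    have ha0 : 0 ≤ w a := h0 a (Finset.mem_insert_self a T)
    have he : 0 ≤ ∑ t ∈ T, w t := Finset.sum_nonneg h0'
    rcases k with _ | k
    · simp
    · rw [P4_step ha, Finset.sum_insert ha, add_comm (w a)]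
      have h1 := ih h0' (k + 1)
      have h2 := mul_le_mul_of_nonneg_left (ih h0' k) ha0
      have h3 : (∑ t ∈ T, w t) ^ k ≤ (∑ t ∈ T, w t + w a) ^ k :=
        pow_le_pow_left₀ he (by linarith) k
      calc (∑ U ∈ T.powersetCard (k + 1), ∏ i ∈ U, w i) + w a * ∑ U ∈ T.powersetCard k, ∏ i ∈ U, w i
          ≤ (∑ t ∈ T, w t) ^ (k + 1) + w a * (∑ t ∈ T, w t) ^ k := add_le_add h1 h2
        _ = (∑ t ∈ T, w t) ^ k * (∑ t ∈ T, w t + w a) := by ring
        _ ≤ (∑ t ∈ T, w t + w a) ^ k * (∑ t ∈ T, w t + w a) :=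
            mul_le_mul_of_nonneg_right h3 (by linarith)
        _ = (∑ t ∈ T, w t + w a) ^ (k + 1) := by ring

open Classical in
theorem badS {Ω τ : Type} [Finite Ω] [DecidableEq τ] (I : Finset τ) (E : τ → Ω → Prop) (adj : τ → τ → Prop) (M : ℕ)
    (C B ε : ℝ) (hC : 0 ≤ C) (hB : 0 ≤ B) (hε : 0 ≤ ε) (h2 : ∑ i ∈ I, Pr (E i) ≤ C)
    (h3 : ∀ U ⊆ I, U.card < M → ∑ i ∈ I, Pr (fun a => (∀ i' ∈ U, E i' a) ∧ E i a) ≤ B * Pr (fun a => ∀ i' ∈ U, E i' a))
    (h4 : ∀ i ∈ I, ∑ i' ∈ I.filter (fun i' => i' ≠ i ∧ adj i i'), Pr (fun a => E i a ∧ E i' a) ≤ ε * Pr (E i))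
    (k : ℕ) (hk : k ≤ M) :
    ∑ U ∈ (I.powersetCard k).filter (fun U => ∃ i ∈ U, ∃ i' ∈ U, i' ≠ i ∧ adj i i'), Pr (fun a => ∀ i ∈ U, E i a) ≤
      B ^ (k - 2) * (ε * C) := by
  by_cases hk2 : k < 2
  · have hemp : (I.powersetCard k).filter (fun U => ∃ i ∈ U, ∃ i' ∈ U, i' ≠ i ∧ adj i i') = ∅ := by
      refine Finset.filter_eq_empty_iff.2 fun U hU hex => ?_
      obtain ⟨i, hi, i', hi', hne, -⟩ := hex
      have h5 : 1 < U.card := Finset.one_lt_card.2 ⟨i', hi', i, hi, hne⟩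
      have h6 := (Finset.mem_powersetCard.1 hU).2
      omega
    rw [hemp, Finset.sum_empty]
    positivity
  · have hk2' : 2 ≤ k := by omega
    refine (P4_main I adj k (fun U => Pr (fun a => ∀ i ∈ U, E i a))
      (fun i i' U' => Pr (fun a => ∀ j ∈ ({i, i'} : Finset τ) ∪ U', E j a)) ?_ ?_).trans ?_
    · intro i _ i' _ U' _
      exact pr_nonneg _
    · intro U _ i hi i' hi' hne
      refine pr_mono fun a ha j hj => ?_
      rcases Finset.mem_union.1 hj with h | h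
      · rcases Finset.mem_insert.1 h with h | h
        · rw [h]
          exact ha i hi
        · rw [Finset.mem_singleton.1 h]
          exact ha i' hi'
      · exact ha j (Finset.mem_of_mem_erase (Finset.mem_of_mem_erase h))
    · have hstep : ∀ i ∈ I, ∑ i' ∈ I.filter (fun i' => i' ≠ i ∧ adj i i'), ∑ U' ∈ I.powersetCard (k - 2),
          Pr (fun a => ∀ j ∈ ({i, i'} : Finset τ) ∪ U', E j a) ≤ B ^ (k - 2) * (ε * Pr (E i)) := by
        intro i hi
        have h5 : ∀ i' ∈ I.filter (fun i' => i' ≠ i ∧ adj i i'), ∑ U' ∈ I.powersetCard (k - 2),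
            Pr (fun a => ∀ j ∈ ({i, i'} : Finset τ) ∪ U', E j a) ≤
              B ^ (k - 2) * Pr (fun a => E i a ∧ E i' a) := by
          intro i' hi'
          obtain ⟨hi1, hi2⟩ := Finset.mem_filter.1 hi'
          have h6 : ({i, i'} : Finset τ) ⊆ I := by
            intro j hj
            rcases Finset.mem_insert.1 hj with h | h
            · rw [h]
              exact hi
            · rw [Finset.mem_singleton.1 h]
              exact hi1
          have h7 : ({i, i'} : Finset τ).card = 2 := Finset.card_pair hi2.1.symm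
          refine (extU I E M B hB h3 {i, i'} h6 (k - 2) (by rw [h7]; omega)).trans ?_
          refine mul_le_mul_of_nonneg_left ?_ (pow_nonneg hB _)
          exact pr_mono fun a ha => ⟨ha i (Finset.mem_insert_self _ _),
            ha i' (Finset.mem_insert_of_mem (Finset.mem_singleton_self _))⟩
        refine (Finset.sum_le_sum h5).trans ?_
        rw [← Finset.mul_sum]
        exact mul_le_mul_of_nonneg_left (h4 i hi) (pow_nonneg hB _)
      refine (Finset.sum_le_sum hstep).trans ?_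
      rw [← Finset.mul_sum, ← Finset.mul_sum]
      exact mul_le_mul_of_nonneg_left (mul_le_mul_of_nonneg_left h2 hε) (pow_nonneg hB _)

open Classical in
theorem badE {τ : Type} [DecidableEq τ] (I : Finset τ) (w : τ → ℝ) (hw : ∀ i ∈ I, 0 ≤ w i) (adj : τ → τ → Prop)
    (C ε : ℝ) (hC : 0 ≤ C) (hε : 0 ≤ ε) (h2 : ∑ i ∈ I, w i ≤ C)
    (h4 : ∀ i ∈ I, ∑ i' ∈ I.filter (fun i' => i' ≠ i ∧ adj i i'), w i' ≤ ε) (k : ℕ) :
    ∑ U ∈ (I.powersetCard k).filter (fun U => ∃ i ∈ U, ∃ i' ∈ U, i' ≠ i ∧ adj i i'), ∏ i ∈ U, w i ≤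
      C ^ (k - 2) * (ε * C) := by
  refine (P4_main I adj k (fun U => ∏ i ∈ U, w i) (fun i i' U' => w i * (w i' * ∏ j ∈ U', w j)) ?_ ?_).trans ?_
  · intro i hi i' hi' U' hU'
    exact mul_nonneg (hw i hi) (mul_nonneg (hw i' hi') (Finset.prod_nonneg fun j hj => hw j (hU' hj)))
  · intro U _ i hi i' hi' hne
    show ∏ j ∈ U, w j ≤ w i * (w i' * ∏ j ∈ (U.erase i).erase i', w j)
    rw [Finset.mul_prod_erase _ w (Finset.mem_erase.2 ⟨hne, hi'⟩), Finset.mul_prod_erase _ w hi]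
  · have h0 : 0 ≤ ∑ U' ∈ I.powersetCard (k - 2), ∏ j ∈ U', w j :=
      Finset.sum_nonneg fun U' hU' => Finset.prod_nonneg fun j hj => hw j ((Finset.mem_powersetCard.1 hU').1 hj)
    have h1 : ∑ U' ∈ I.powersetCard (k - 2), ∏ j ∈ U', w j ≤ C ^ (k - 2) :=
      (P4_pow I w hw (k - 2)).trans (pow_le_pow_left₀ (Finset.sum_nonneg hw) h2 _)
    have hstep : ∀ i ∈ I, ∑ i' ∈ I.filter (fun i' => i' ≠ i ∧ adj i i'), ∑ U' ∈ I.powersetCard (k - 2),
        w i * (w i' * ∏ j ∈ U', w j) ≤ w i * (ε * C ^ (k - 2)) := by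
      intro i hi
      have h5 : ∑ i' ∈ I.filter (fun i' => i' ≠ i ∧ adj i i'), ∑ U' ∈ I.powersetCard (k - 2),
          w i * (w i' * ∏ j ∈ U', w j) = w i * ((∑ i' ∈ I.filter (fun i' => i' ≠ i ∧ adj i i'), w i') *
            ∑ U' ∈ I.powersetCard (k - 2), ∏ j ∈ U', w j) := by
        rw [Finset.sum_mul, Finset.mul_sum]
        refine Finset.sum_congr rfl fun i' _ => ?_
        rw [Finset.mul_sum, Finset.mul_sum]
      rw [h5]
      refine mul_le_mul_of_nonneg_left ?_ (hw i hi)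
      exact mul_le_mul (h4 i hi) h1 h0 hε
    refine (Finset.sum_le_sum hstep).trans ?_
    rw [← Finset.sum_mul]
    have h6 : 0 ≤ ε * C ^ (k - 2) := mul_nonneg hε (pow_nonneg hC _)
    refine (mul_le_mul_of_nonneg_right h2 h6).trans (le_of_eq ?_)
    ring

end LVF
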