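import Pool.Agent.Lib.MP_17a322_ntLF.P2
import Pool.Agent.Lib.MP_17a322_ntLF.P4
import Pool.Agent.Lib.MP_17a322_ntLY.P2

/-!
# LEAF P5: the Bonferroni inequality with weak dependence

PROOF.  Let `w i = Pr (E i)`, `S k = ∑ U ∈ I.powersetCard k, Pr (∀ i ∈ U, E i a)`, `e k = LVY.Es I w k = ∑ U ∈ I.powersetCard k, ∏ i ∈ U, w i`.  For `k < 2 m` the terms of a `U` without adjacent pair are equal by `h1`, so `|S k - e k| ≤ badS + badE ≤ B ^ (k - 2) * (ε * C) + C ^ (k - 2) * (ε * C) ≤ 2 ε ((1 + B) (1 + C)) ^ (2 m)`.  Hence `∑ k < 2 m, (-1) ^ k * S k ≥ ∑ k < 2 m, (-1) ^ k * e k - 2 m * 2 ε ((1 + B) (1 + C)) ^ (2 m)`.  By `LVY.es_even`, `∑ k < 2 m + 1, (-1) ^ k * e k ≥ ∏ (1 - w i)`, so `∑ k < 2 m, (-1) ^ k * e k ≥ ∏ (1 - w i) - e (2 m)`; `1 - x ≥ exp (- 2 x)` for `0 ≤ x ≤ 1 / 2` (e.g. `exp (- 2 x) ≤ 1 / (1 + 2 x) ≤ 1 - x`), so the product is `≥ exp (- 2 ∑ w) ≥ exp (- 2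 C)`, and `e (2 m) ≤ (∑ w) ^ (2 m) / (2 m)! ≤ C ^ (2 m) / (2 m)!` by `LVY.es_pow`.  Conclude with `bonI`.
-/

namespace LVF

open Finset

private theorem P5_exp (x : ℝ) (h0 : 0 ≤ x) (h1 : x ≤ 1 / 2) : Real.exp (-2 * x) ≤ 1 - x := by
  have h2 : 2 * x + 1 ≤ Real.exp (2 * x) := Real.add_one_le_exp (2 * x)
  have h3 : Real.exp (-2 * x) * Real.exp (2 * x) = 1 := by
    rw [← Real.exp_add, show -2 * x + 2 * x = 0 by ring, Real.exp_zero]
  have h4 : Real.exp (-2 * x) * (2 * x + 1) ≤ 1 :=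
    (mul_le_mul_of_nonneg_left h2 (Real.exp_pos _).le).trans h3.le
  have h5 : 1 ≤ (1 - x) * (2 * x + 1) := by nlinarith
  exact le_of_mul_le_mul_right (h4.trans h5) (by linarith)

private theorem P5_K {C B : ℝ} (hC : 0 ≤ C) (hB : 0 ≤ B) (m k : ℕ) (hm : 1 ≤ m) (hk : k < 2 * m) :
    B ^ (k - 2) * C ≤ ((1 + B) * (1 + C)) ^ (2 * m) ∧ C ^ (k - 2) * C ≤ ((1 + B) * (1 + C)) ^ (2 * m) := by
  have h1 : B ^ (k - 2) ≤ (1 + B) ^ (2 * m) :=
    (pow_le_pow_left₀ hB (by linarith) _).trans (pow_le_pow_right₀ (by linarith) (by omega))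
  have h2 : C ≤ (1 + C) ^ (2 * m) := by
    refine (by linarith : C ≤ 1 + C).trans ?_
    exact le_self_pow₀ (by linarith) (by omega)
  have h3 : C ^ (k - 2) * C ≤ (1 + C) ^ (2 * m) := by
    rw [← pow_succ]
    exact (pow_le_pow_left₀ hC (by linarith) _).trans (pow_le_pow_right₀ (by linarith) (by omega))
  have h4 : (1 : ℝ) ≤ (1 + B) ^ (2 * m) := one_le_pow₀ (by linarith)
  have h5 : (0 : ℝ) ≤ (1 + B) ^ (2 * m) := by linarith
  have h6 : (0 : ℝ) ≤ (1 + C) ^ (2 * m) := pow_nonneg (by linarith) _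
  rw [mul_pow]
  refine ⟨mul_le_mul h1 h2 hC h5, h3.trans ?_⟩
  exact le_mul_of_one_le_left h6 h4

open Classical in
theorem abl {Ω τ : Type} [Finite Ω] [Nonempty Ω] [DecidableEq τ] (I : Finset τ) (E : τ → Ω → Prop) (adj : τ → τ → Prop)
    (m : ℕ) (hm : 1 ≤ m) (C B ε : ℝ) (hC : 0 ≤ C) (hB : 0 ≤ B) (hε : 0 ≤ ε)
    (h1 : ∀ U ⊆ I, U.card < 2 * m → (∀ i ∈ U, ∀ i' ∈ U, i' ≠ i → ¬ adj i i') →
      Pr (fun a => ∀ i ∈ U, E i a) = ∏ i ∈ U, Pr (E i))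
    (h2 : ∑ i ∈ I, Pr (E i) ≤ C)
    (h3 : ∀ U ⊆ I, U.card < 2 * m →
      ∑ i ∈ I, Pr (fun a => (∀ i' ∈ U, E i' a) ∧ E i a) ≤ B * Pr (fun a => ∀ i' ∈ U, E i' a))
    (h4 : ∀ i ∈ I, ∑ i' ∈ I.filter (fun i' => i' ≠ i ∧ adj i i'), Pr (fun a => E i a ∧ E i' a) ≤ ε * Pr (E i))
    (h5 : ∀ i ∈ I, ∑ i' ∈ I.filter (fun i' => i' ≠ i ∧ adj i i'), Pr (E i') ≤ ε)
    (h6 : ∀ i ∈ I, Pr (E i) ≤ 1 / 2) :
    Pr (fun a => ∃ i ∈ I, E i a) ≤ 1 - (Real.exp (-2 * C) - C ^ (2 * m) / (2 * m).factorial) +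
      ε * (4 * m * ((1 + B) * (1 + C)) ^ (2 * m)) := by
  have hK := fun k (hk : k < 2 * m) => P5_K hC hB m k hm hk
  set K : ℝ := ((1 + B) * (1 + C)) ^ (2 * m) with hKd
  have hw0 : ∀ i ∈ I, 0 ≤ Pr (E i) := fun i _ => pr_nonneg _
  have hw1 : ∀ i ∈ I, Pr (E i) ≤ 1 := fun i _ => pr_le_one _
  -- the terms of order `k`
  have hk : ∀ k ∈ range (2 * m), |∑ U ∈ I.powersetCard k, Pr (fun a => ∀ i ∈ U, E i a) -
      LVY.Es I (fun i => Pr (E i)) k| ≤ 2 * ε * K := by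
    intro k hk
    have hk' : k < 2 * m := Finset.mem_range.1 hk
    have e1 : ∑ U ∈ I.powersetCard k, Pr (fun a => ∀ i ∈ U, E i a) - LVY.Es I (fun i => Pr (E i)) k =
        ∑ U ∈ (I.powersetCard k).filter (fun U => ∃ i ∈ U, ∃ i' ∈ U, i' ≠ i ∧ adj i i'), Pr (fun a => ∀ i ∈ U, E i a) -
        ∑ U ∈ (I.powersetCard k).filter (fun U => ∃ i ∈ U, ∃ i' ∈ U, i' ≠ i ∧ adj i i'), ∏ i ∈ U, Pr (E i) := by
      unfold LVY.Es
      rw [← Finset.sum_sub_distrib, ← Finset.sum_sub_distrib]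
      refine (Finset.sum_subset (Finset.filter_subset _ _) fun U hU hU' => ?_).symm
      rw [Finset.mem_filter] at hU'
      have h7 : ∀ i ∈ U, ∀ i' ∈ U, i' ≠ i → ¬ adj i i' := fun i hi i' hi' hne ha =>
        hU' ⟨hU, i, hi, i', hi', hne, ha⟩
      have h8 := Finset.mem_powersetCard.1 hU
      rw [h1 U h8.1 (by omega) h7, sub_self]
    have e2 := badS I E adj (2 * m) C B ε hC hB hε h2 h3 h4 k hk'.le
    have e3 := badE I (fun i => Pr (E i)) hw0 adj C ε hC hε h2 h5 k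
    have e4 : 0 ≤ ∑ U ∈ (I.powersetCard k).filter (fun U => ∃ i ∈ U, ∃ i' ∈ U, i' ≠ i ∧ adj i i'),
        Pr (fun a => ∀ i ∈ U, E i a) := Finset.sum_nonneg fun _ _ => pr_nonneg _
    have e5 : 0 ≤ ∑ U ∈ (I.powersetCard k).filter (fun U => ∃ i ∈ U, ∃ i' ∈ U, i' ≠ i ∧ adj i i'),
        ∏ i ∈ U, Pr (E i) := Finset.sum_nonneg fun _ _ => Finset.prod_nonneg fun _ _ => pr_nonneg _
    have e6 := mul_le_mul_of_nonneg_left (hK k hk').1 hε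
    have e7 := mul_le_mul_of_nonneg_left (hK k hk').2 hε
    rw [e1, abs_le]
    constructor
    · nlinarith
    · nlinarith
  -- the sum
  have hs : ∑ k ∈ range (2 * m), (-1 : ℝ) ^ k * LVY.Es I (fun i => Pr (E i)) k - ε * (4 * m * K) ≤
      ∑ k ∈ range (2 * m), (-1 : ℝ) ^ k * ∑ U ∈ I.powersetCard k, Pr (fun a => ∀ i ∈ U, E i a) := by
    have h7 : ∑ k ∈ range (2 * m), (-1 : ℝ) ^ k * LVY.Es I (fun i => Pr (E i)) k -
        ∑ k ∈ range (2 * m), (-1 : ℝ) ^ k * ∑ U ∈ I.powersetCard k, Pr (fun a => ∀ i ∈ U, E i a) ≤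
        ∑ k ∈ range (2 * m), 2 * ε * K := by
      rw [← Finset.sum_sub_distrib]
      refine Finset.sum_le_sum fun k hk7 => ?_
      rw [← mul_sub]
      refine (le_abs_self _).trans ?_
      rw [abs_mul, abs_neg_one_pow, one_mul, abs_sub_comm]
      exact hk k hk7
    rw [Finset.sum_const, Finset.card_range, nsmul_eq_mul] at h7
    push_cast at h7
    have h8 : (2 * (m : ℝ)) * (2 * ε * K) = ε * (4 * m * K) := by ring
    rw [h8] at h7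
    linarith
  -- the product
  have hp : Real.exp (-2 * C) ≤ ∏ i ∈ I, (1 - Pr (E i)) := by
    calc Real.exp (-2 * C) ≤ Real.exp (∑ i ∈ I, -2 * Pr (E i)) := by
          refine Real.exp_le_exp.2 ?_
          rw [← Finset.mul_sum]
          linarith
      _ = ∏ i ∈ I, Real.exp (-2 * Pr (E i)) := Real.exp_sum _ _
      _ ≤ _ := Finset.prod_le_prod (fun i _ => (Real.exp_pos _).le) fun i hi => P5_exp _ (hw0 i hi) (h6 i hi)
  have he := LVY.es_even I (fun i => Pr (E i)) hw0 hw1 m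
  rw [Finset.sum_range_succ, pow_mul, neg_one_sq, one_pow, one_mul] at he
  have hq : LVY.Es I (fun i => Pr (E i)) (2 * m) ≤ C ^ (2 * m) / (2 * m).factorial := by
    rw [le_div_iff₀ (by positivity), mul_comm]
    exact (LVY.es_pow I (fun i => Pr (E i)) hw0 (2 * m)).trans
      (pow_le_pow_left₀ (Finset.sum_nonneg fun i _ => pr_nonneg _) h2 _)
  have hb := bonI I E m hm
  linarith

end LVF
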