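import Pool.Agent.Lib.MP_17a322_ntLF.Fe1
import Pool.Agent.Lib.MP_17a322_ntLF.E3
import Pool.Agent.Lib.MP_17a322_ntLF.E4
import Pool.Agent.Lib.MP_17a322_ntLF.S1
import Pool.Agent.Lib.MP_17a322_ntLY.P5

/-!
# LEAF Fe2: the density in the critical case

PROOF.  `G`, `C`, `p1` from `slF`.  For each `s ≤ S0 = ρ (r + j) + 1 + r + j` (`s = B.card + Bᶜ.card ≤ ρ n + 1 + (r + j)`, `n ≤ r + j`), each `B`, `n` a value `d0(s, B, n)`, then `d0` the maximum (a maximum over a finite set of triples).  For fixed `s`, `B`, `n`: `A` = the maximum (or sum) of the `A` of `cntS` for `1 ≤ F ≤ ρ`, `Cc = A * ρ ^ b`, `m` from `LVY.exists_m Cc` (`Cc ^ (2 m) / (2 m)! ≤ exp (-2 Cc) / 2`), `d0(s, B, n) = 2 * m * ρ`, `D = 1 + ∑ l, e l`.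
For `p ≥ p1` and `φ`, `u`, `y`: `RC` for `V = Fb a` implies one of: (1) the condition of `ub` with `F0 = ρ - 1`; (2) the condition of `ub0`; (3) `∃ T ∈ I, Ev e f u d B y T a` for the finite set `I` (`ix_fin`) of the elements of `Ix ρ G e f u`: indeed let `Z ∈ Cyc G m'`, `m' ≤ ρ`; if `Z.toFinset.card ≥ ρ` then `m' = ρ = Z.toFinset.card`, so `Z` has no multiple elements, `Z = T.val` with `T = Z.toFinset` (`Multiset.dedup_eq_self`), `Fs T` and `T ∈ Ix` as `Cu e f u Z μ`.  So the proportion of the `a` with `RC` is at most `A' p ^ ((ρ - 1) n + 1) / p ^ (j + b) + A'' p ^ (ρ n) / p ^ (j + b) + Pr (3)`; `j + b = ρ n + 1` and `n ≥ 1`: the first two terms are at most `A' / p` and `A'' / p`.  By `crit` the third is at most `1 - exp (-2 Cc) / 2 + K / p`.  For `p ≥ p0` the sum is at most `1 - exp (-2 Cc) / 4`: `LDM` with `c = exp (-2 Cc) / 4`.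
-/

namespace LVF

open Finset NumberField

private theorem Fe2_pr (p A N b c x : ℕ) (hp : 1 ≤ p) (hbc : c + 1 ≤ b) (h : x * p ^ b ≤ A * p ^ c * p ^ N) :
    (x : ℝ) / (p : ℝ) ^ N ≤ A * (p : ℝ)⁻¹ := by
  have h1 : x * p ^ (c + 1) ≤ A * p ^ c * p ^ N :=
    (Nat.mul_le_mul_left x (Nat.pow_le_pow_right hp hbc)).trans h
  have hc : 0 < p ^ c := Nat.pow_pos hp
  have h2 : p ^ c * (x * p) ≤ p ^ c * (A * p ^ N) := by
    calc p ^ c * (x * p) = x * p ^ (c + 1) := by ring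
      _ ≤ A * p ^ c * p ^ N := h1
      _ = p ^ c * (A * p ^ N) := by ring
  have h3 : x * p ≤ A * p ^ N := Nat.le_of_mul_le_mul_left h2 hc
  have h4 : (x : ℝ) * p ≤ A * (p : ℝ) ^ N := by exact_mod_cast h3
  have hp0 : (0 : ℝ) < p := by exact_mod_cast hp
  have hN : (0 : ℝ) < (p : ℝ) ^ N := pow_pos hp0 N
  rw [div_le_iff₀ hN, mul_comm (A : ℝ), mul_assoc, inv_mul_eq_div, le_div_iff₀ hp0]
  exact h4

open Classical in
private theorem Fe2_case {p : ℕ} [Fact p.Prime] {q j s : ℕ} (ρ : ℕ) (G : Finset (MvPolynomial (Fin q) (ZMod p)))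
    (e : Fin j → ℕ) (g : Fin j → MvPolynomial (Fin q) (ZMod p)) (d : Fin s → ℕ) (B : Finset (Fin s)) (u : Fin j → Kb p)
    (y : Fin s → Kb p) (a : LVY.Mo (Fin q) d → ZMod p) (I : Finset (Finset (Fin q → Kb p)))
    (hI : ∀ T, T ∈ Ix ρ G e g u → T ∈ I) (h : RC ρ G e g d B u y (Fb a)) :
    (∃ m, 1 ≤ m ∧ m ≤ ρ ∧ ∃ Z ∈ Cyc G m, Z.toFinset.card ≤ ρ - 1 ∧ ∃ μ,
      Cu e g u Z μ ∧ Cy d B y (Fb a) Z (algebraMap (ZMod p) (Kb p) μ)) ∨
    (∃ m, 1 ≤ m ∧ m ≤ ρ ∧ ∃ Z ∈ Cyc G m, (∀ l, vp Z (g l) = 0) ∧ Cy d B 0 (Fb a) Z 1) ∨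
    ∃ T ∈ I, Ev e g u d B y T a := by
  obtain ⟨m, hm1, hmρ, Z, hZ, h⟩ := h
  rcases h with ⟨μ, hCu, hCy⟩ | h
  · by_cases hc : Z.toFinset.card ≤ ρ - 1
    · exact Or.inl ⟨m, hm1, hmρ, Z, hZ, hc, μ, hCu, hCy⟩
    · refine Or.inr (Or.inr ?_)
      obtain ⟨hZc, hZn, hZf⟩ := hZ
      have h1 : Z.toFinset.card ≤ Multiset.card Z := Multiset.toFinset_card_le Z
      have h2 : Z.toFinset.card = Multiset.card Z := by omega
      have h3 : Z.toFinset.card = ρ := by omega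
      have h4 : Z.Nodup := Multiset.toFinset_card_eq_card_iff_nodup.mp h2
      have h5 : Z.toFinset.val = Z := by
        rw [Multiset.toFinset_val]
        exact Multiset.dedup_eq_self.mpr h4
      refine ⟨Z.toFinset, hI _ ⟨?_, h3, ?_, μ, ?_⟩, μ, ?_, ?_⟩
      · intro x hx
        rw [Multiset.mem_toFinset] at hx
        refine ⟨(hZn x hx).1, ?_⟩
        rw [Multiset.mem_toFinset]
        have h6 := Multiset.mem_map_of_mem (fr p) hx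
        rw [hZf] at h6
        exact h6
      · intro x hx
        rw [Multiset.mem_toFinset] at hx
        exact (hZn x hx).2
      · rw [h5]
        exact hCu
      · rw [h5]
        exact hCu
      · rw [h5]
        exact hCy
  · exact Or.inr (Or.inl ⟨m, hm1, hmρ, Z, hZ, h⟩)

private theorem Fe2_A (C0 j ρ : ℕ) : ∃ A : ℕ, ∀ (p : ℕ) [Fact p.Prime] {q : ℕ}
    (G : Finset (MvPolynomial (Fin q) (ZMod p))) (_ : ∀ g ∈ G, ∃ n, g.IsHomogeneous n)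
    (e : Fin j → ℕ) (g : Fin j → MvPolynomial (Fin q) (ZMod p)) (_ : ∀ l, (g l).IsHomogeneous (e l)) (r : ℕ)
    (_ : SL G g r C0) (u : Fin j → Kb p) (_ : ∀ l, u l ≠ 0), ∀ F, 1 ≤ F → F ≤ ρ →
    Nat.card {w : Finset (Fin q → Kb p) × ZMod p // Fs w.1 ∧ w.1.card = F ∧
      (∀ x ∈ w.1, ∀ h ∈ G, MvPolynomial.aeval x h = 0) ∧ Cu e g u w.1.val w.2} * p ^ (j + F) ≤
        A * p ^ (F * (r + j) + 1) := by
  choose Af hAf using fun F : ℕ => cntS C0 j (F + 1) (Nat.le_add_left 1 F)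
  refine ⟨∑ F ∈ range ρ, Af F, ?_⟩
  intro p _ q G hG e g hg r hS u hu F hF1 hF2
  obtain ⟨F', rfl⟩ : ∃ F', F = F' + 1 := ⟨F - 1, by omega⟩
  refine (hAf F' p G hG e g hg r hS u hu).trans (Nat.mul_le_mul_right _ ?_)
  exact Finset.single_le_sum (f := Af) (fun _ _ => Nat.zero_le _) (Finset.mem_range.mpr (by omega))

private theorem Fe2_one (K : Type) [Field K] [NumberField K] {q j r : ℕ} (e : Fin j → ℕ) (he : ∀ l, 1 ≤ e l)
    (f : Fin j → MvPolynomial (Fin q) (𝓞 K)) (hf : ∀ l, (f l).IsHomogeneous (e l)) (ρ : ℕ) (hρ : 1 ≤ ρ)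
    (G : Finset (MvPolynomial (Fin q) (𝓞 K))) (hG : ∀ g ∈ G, ∃ n, g.IsHomogeneous n) (C0 p1 : ℕ)
    (hSL : ∀ (p : ℕ) [Fact p.Prime], p1 ≤ p → ∀ φ : 𝓞 K →+* ZMod p,
      SL (G.image (MvPolynomial.map φ)) (fun l => MvPolynomial.map φ (f l)) r C0) (s : ℕ) (B : Finset (Fin s)) (n : ℕ)
    (hs : 1 ≤ s) (hn1 : 1 ≤ n) (hn : r + j = n + Bᶜ.card + 1) (hj : j + B.card = ρ * n + 1) :
    ∃ d1 : ℕ, ∀ d : Fin s → ℕ, (∀ i, d1 ≤ d i) → LDM ρ G e f d B := by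
  obtain ⟨A1, hA1⟩ := ub C0 j s ρ n r B hn
  obtain ⟨A2, hA2⟩ := ub0 C0 j s ρ n r B hn
  obtain ⟨A, hA⟩ := Fe2_A C0 j ρ
  obtain ⟨Cc, hCc⟩ : ∃ Cc : ℝ, Cc = A * ρ ^ B.card := ⟨_, rfl⟩
  obtain ⟨m, hm1, hm2⟩ := LVY.exists_m Cc
  refine ⟨2 * m * ρ, ?_⟩
  intro d hd
  have hCc0 : 0 ≤ Cc := by
    rw [hCc]
    positivity
  have hE0 : 0 < Real.exp (-2 * Cc) := Real.exp_pos _
  have hE1 : Real.exp (-2 * Cc) ≤ 1 := Real.exp_le_one_iff.mpr (by linarith)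
  obtain ⟨E, hE⟩ : ∃ E : ℝ, E = Real.exp (-2 * Cc) := ⟨_, rfl⟩
  rw [← hE] at hE0 hE1 hm2
  obtain ⟨K', hK'⟩ : ∃ K' : ℝ, K' = 2 ^ ρ * Cc * (4 * m * ((1 + 2 ^ (2 * m * ρ) * (Cc + 1)) * (1 + Cc)) ^ (2 * m)) :=
    ⟨_, rfl⟩
  obtain ⟨D, hD⟩ : ∃ D : ℕ, D = 1 + ∑ l, e l := ⟨_, rfl⟩
  have heD : ∀ l, 1 ≤ e l ∧ e l ≤ D := by
    intro l
    refine ⟨he l, ?_⟩
    rw [hD]
    exact (Finset.single_le_sum (f := e) (fun _ _ => Nat.zero_le _) (Finset.mem_univ l)).trans (Nat.le_add_left _ _)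
  refine ⟨E / 4, by linarith, by linarith,
    max (max p1 (2 * (D * ρ ^ B.card))) (⌈(A1 + A2 + K') / (E / 4)⌉₊), ?_⟩
  intro p _ hp φ u hu y hy
  have hpp : 1 ≤ p := (Fact.out : p.Prime).one_lt.le
  have hp1 : p1 ≤ p := (le_max_left _ _).trans ((le_max_left _ _).trans hp)
  have hp2 : 2 * (D * ρ ^ B.card) ≤ p := (le_max_right _ _).trans ((le_max_left _ _).trans hp)
  have hp3 : (A1 + A2 + K') / (E / 4) ≤ (p : ℝ) :=
    (Nat.le_ceil _).trans (by exact_mod_cast (le_max_right _ _).trans hp)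
  have hp0 : (0 : ℝ) < p := by exact_mod_cast hpp
  have hp4 : (A1 + A2 + K') * (p : ℝ)⁻¹ ≤ E / 4 := by
    rw [div_le_iff₀ (by linarith)] at hp3
    rw [mul_inv_le_iff₀ hp0, mul_comm]
    exact hp3
  have hSL' := hSL p hp1 φ
  have hG' : ∀ g ∈ G.image (MvPolynomial.map φ), ∃ n, g.IsHomogeneous n := by
    intro g hg
    rw [Finset.mem_image] at hg
    obtain ⟨g0, hg0, rfl⟩ := hg
    obtain ⟨k, hk⟩ := hG g0 hg0
    exact ⟨k, hk.map φ⟩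
  have hg' : ∀ l, (MvPolynomial.map φ (f l)).IsHomogeneous (e l) := fun l => (hf l).map φ
  have hdρ : ∀ i, ρ ≤ d i + 1 := by
    intro i
    have h1 := hd i
    have h2 : ρ ≤ 2 * m * ρ := Nat.le_mul_of_pos_left ρ (by omega)
    omega
  have hfin : (Ix ρ (G.image (MvPolynomial.map φ)) e (fun l => MvPolynomial.map φ (f l)) u).Finite :=
    (ix_fin (p := p) (q := q) (F := ρ)).subset fun T hT => ⟨hT.1, hT.2.1⟩
  have hr := crit ρ n r A D m hρ hn1 hs (by rw [hD]; omega) hm1 d B hn hj (G.image (MvPolynomial.map φ)) e heD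
    (fun l => MvPolynomial.map φ (f l))
    (fun u hu F hF1 hF2 => hA p (G.image (MvPolynomial.map φ)) hG' e (fun l => MvPolynomial.map φ (f l)) hg' r hSL' u hu
      F hF1 hF2)
    u hu y (fun i hi => (hy i).mpr hi) hfin.toFinset (fun T hT => hfin.mem_toFinset.mp hT)
    (fun i => (hd i).trans (Nat.le_succ _)) hp2 Cc hCc
  have h1 := hA1 p (G.image (MvPolynomial.map φ)) hG' e (fun l => MvPolynomial.map φ (f l)) hg' hSL' u hu d
    (fun i _ => hdρ i) y (ρ - 1) (Nat.sub_le _ _)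
  have h2 := hA2 p (G.image (MvPolynomial.map φ)) hG' e (fun l => MvPolynomial.map φ (f l)) hg' hSL' d
    (fun i _ => hdρ i)
  have hΩ : ((Nat.card (LVY.Mo (Fin q) d → ZMod p) : ℕ) : ℝ) = (p : ℝ) ^ Fintype.card (LVY.Mo (Fin q) d) := by
    rw [Nat.card_fun, Nat.card_zmod, Nat.card_eq_fintype_card]
    push_cast
    rfl
  have hρn : (ρ - 1) * n + n = ρ * n := by
    obtain ⟨k, rfl⟩ : ∃ k, ρ = k + 1 := ⟨ρ - 1, by omega⟩
    rw [Nat.add_sub_cancel, add_mul, one_mul]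
  have h1' := Fe2_pr p A1 _ _ _ _ hpp (by rw [hj]; omega) h1
  have h2' := Fe2_pr p A2 _ _ _ _ hpp (by rw [hj]) h2
  rw [← hΩ] at h1' h2'
  have hPr : Pr (fun a : LVY.Mo (Fin q) d → ZMod p => RC ρ (G.image (MvPolynomial.map φ)) e
      (fun l => MvPolynomial.map φ (f l)) d B u y (Fb a)) ≤
      A1 * (p : ℝ)⁻¹ + (A2 * (p : ℝ)⁻¹ + (1 - (E - Cc ^ (2 * m) / (2 * m).factorial) +
        2 ^ ρ * Cc * (p : ℝ)⁻¹ * (4 * m * ((1 + 2 ^ (2 * m * ρ) * (Cc + 1)) * (1 + Cc)) ^ (2 * m)))) := by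
    refine (pr_mono fun a ha => Fe2_case ρ _ e _ d B u y a hfin.toFinset
      (fun T hT => hfin.mem_toFinset.mpr hT) ha).trans ?_
    refine (pr_or _ _).trans (add_le_add h1' ?_)
    refine (pr_or _ _).trans (add_le_add h2' ?_)
    rw [hE]
    exact hr
  have hK : 2 ^ ρ * Cc * (p : ℝ)⁻¹ * (4 * m * ((1 + 2 ^ (2 * m * ρ) * (Cc + 1)) * (1 + Cc)) ^ (2 * m)) = K' * (p : ℝ)⁻¹ := by
    rw [hK']
    ring
  rw [hK] at hPr
  have hfinal : Pr (fun a : LVY.Mo (Fin q) d → ZMod p => RC ρ (G.image (MvPolynomial.map φ)) e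
      (fun l => MvPolynomial.map φ (f l)) d B u y (Fb a)) ≤ 1 - E / 4 := by
    have h5 : (A1 + A2 + K') * (p : ℝ)⁻¹ = A1 * (p : ℝ)⁻¹ + A2 * (p : ℝ)⁻¹ + K' * (p : ℝ)⁻¹ := by ring
    linarith
  unfold Pr at hfinal
  rw [hΩ, div_le_iff₀ (pow_pos hp0 _)] at hfinal
  exact hfinal

theorem critd (K : Type) [Field K] [NumberField K] {q j r : ℕ} (P : Ideal (MvPolynomial (Fin q) K)) (hP : LVZ.Hm P)
    (e : Fin j → ℕ) (he : ∀ l, 1 ≤ e l) (f : Fin j → MvPolynomial (Fin q) (𝓞 K)) (hf : ∀ l, (f l).IsHomogeneous (e l))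
    (h : LVZ.GP P f r) (ρ : ℕ) (hρ : 1 ≤ ρ) : ∃ G : Finset (MvPolynomial (Fin q) (𝓞 K)),
      (∀ g ∈ G, ∃ n, g.IsHomogeneous n) ∧ (∀ g ∈ G, MvPolynomial.map (algebraMap (𝓞 K) K) g ∈ P) ∧
        ∃ d0 : ℕ, ∀ (s : ℕ) (d : Fin s → ℕ) (B : Finset (Fin s)) (n : ℕ), 1 ≤ s → 1 ≤ n →
          r + j = n + Bᶜ.card + 1 → j + B.card = ρ * n + 1 → (∀ i, d0 ≤ d i) → LDM ρ G e f d B := by
  obtain ⟨G, hG1, hG2, C0, p1, hSL⟩ := slF K P hP e he f hf h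
  refine ⟨G, hG1, hG2, ?_⟩
  have key : ∀ (s : ℕ) (B : Finset (Fin s)) (n : ℕ), ∃ d1 : ℕ, 1 ≤ s → 1 ≤ n → r + j = n + Bᶜ.card + 1 →
      j + B.card = ρ * n + 1 → ∀ d : Fin s → ℕ, (∀ i, d1 ≤ d i) → LDM ρ G e f d B := by
    intro s B n
    by_cases hc : 1 ≤ s ∧ 1 ≤ n ∧ r + j = n + Bᶜ.card + 1 ∧ j + B.card = ρ * n + 1
    · obtain ⟨d1, hd1⟩ := Fe2_one K e he f hf ρ hρ G hG1 C0 p1 hSL s B n hc.1 hc.2.1 hc.2.2.1 hc.2.2.2
      exact ⟨d1, fun _ _ _ _ => hd1⟩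
    · exact ⟨0, fun h1 h2 h3 h4 => absurd ⟨h1, h2, h3, h4⟩ hc⟩
  choose D hD using key
  refine ⟨∑ s ∈ range (ρ * (r + j) + 1 + (r + j) + 1), ∑ B : Finset (Fin s), ∑ n ∈ range (r + j + 1), D s B n, ?_⟩
  intro s d B n hs hn1 hn hj hd
  refine hD s B n hs hn1 hn hj d fun i => ?_
  refine le_trans ?_ (hd i)
  have hcard : B.card + Bᶜ.card = s := by
    rw [Finset.card_add_card_compl, Fintype.card_fin]
  have hn2 : n ≤ r + j := by omega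
  have hρn : ρ * n ≤ ρ * (r + j) := Nat.mul_le_mul_left ρ hn2
  have hs2 : s < ρ * (r + j) + 1 + (r + j) + 1 := by omega
  calc D s B n ≤ ∑ n ∈ range (r + j + 1), D s B n :=
        Finset.single_le_sum (f := fun n => D s B n) (fun _ _ => Nat.zero_le _) (Finset.mem_range.mpr (by omega))
    _ ≤ ∑ B : Finset (Fin s), ∑ n ∈ range (r + j + 1), D s B n :=
        Finset.single_le_sum (f := fun B => ∑ n ∈ range (r + j + 1), D s B n) (fun _ _ => Nat.zero_le _)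
          (Finset.mem_univ B)
    _ ≤ _ := Finset.single_le_sum
          (f := fun s => ∑ B : Finset (Fin s), ∑ n ∈ range (r + j + 1), D s B n) (fun _ _ => Nat.zero_le _)
          (Finset.mem_range.mpr hs2)

end LVF
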