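import Pool.Agent.Lib.MP_17a322_ntLF.C6
import Pool.Agent.Lib.MP_17a322_ntLF.C8

/-! Block C (helper73): `nform` (C6) and `shape` (C8). -/
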