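import Pool.Agent.Lib.MP_17a322_ntLF.Red
import Pool.Agent.Lib.MP_17a322_ntLF.Nf
import Pool.Agent.Lib.MP_17a322_ntLF.RDefs
import Pool.Agent.Lib.MP_17a322_ntLX.PDefs
import Pool.Agent.Lib.MP_17a322_ntLH.T4R
import Pool.Agent.Lib.MP_17a322_ntLH.T9A

/-!
# LEAF GB: the local condition of a point of degree at most `ρ`

PROOF.  Apply `red` with `W = Fin j ⊕ {i // i ∈ B}`, the polynomials `h (inl l) = map (f l)`, `h (inr i) = ∑ k, C (c k) * map (g k i)` over `K` and their reductions `h'` (`LVX.ro π` in place of `algebraMap (𝓞 K) K`; `Rd π (a : K) (ro π a)` for `a` in `𝓞 K` by `LVX.int_mem`, so `hr` holds coefficient by coefficient), `d` the degrees, `y`, `y' = res π (y w)` (`LVH.rd_res`, `LVH.res_ne`), and `V = G ⊕ {i // i ∉ B}` with the polynomials of `G` and the `∑ k, C (c k) * map (g k i)`, `i ∉ B` (they vanish at `x` by `hGx`, `hC`).  This gives `z` (`m = Module.finrank K L`), and `nform` gives `Z`, `μ'` with `card Z = m`.  Every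 `x' ∈ Z` is `t • z k`, so homogeneous polynomials which vanish at all `z k` vanish at `x'`; so `Z ∈ Cyc (G.image (map (ro π))) m`, and the `i`-th function vanishes on `Z` for `i ∉ B` (`Gv g (ro π) c i x' = aeval x' (∑ k, C (c k) * map (ro π) (g k i))`).  `∏ k, aeval (z k) (h' w) = μ' ^ n w * vp Z (h' w)`.  In the first case of `red` this is `algebraMap (y' w)`: the first alternative of `RC` with `μ = μ'`.  In the second case it is `0`, and `μ' ≠ 0`: `vp Z (h' w) = 0`: the second alternative.  `1 ≤ m` (`Module.finrank_pos`).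
-/

namespace LVF

open Finset NumberField
open LVH (Pl res)
open LVX (ro)

/-- the `i`-th form -/
private noncomputable def GB_F {K : Type} [Field K] [NumberField K] {q s N : ℕ}
    (g : Fin N → Fin s → MvPolynomial (Fin q) (𝓞 K)) (c : Fin N → ℤ) (i : Fin s) : MvPolynomial (Fin q) (𝓞 K) :=
  ∑ k, MvPolynomial.C ((c k : ℤ) : 𝓞 K) * g k i

private theorem GB_hom {K : Type} [Field K] [NumberField K] {q s N : ℕ}
    {g : Fin N → Fin s → MvPolynomial (Fin q) (𝓞 K)} {d : Fin s → ℕ} (hg : ∀ k i, (g k i).IsHomogeneous (d i))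
    (c : Fin N → ℤ) (i : Fin s) : (GB_F g c i).IsHomogeneous (d i) := by
  unfold GB_F
  refine MvPolynomial.IsHomogeneous.sum _ _ _ fun k _ => ?_
  have h1 := (MvPolynomial.isHomogeneous_C (Fin q) ((c k : ℤ) : 𝓞 K)).mul (hg k i)
  rwa [zero_add] at h1

private theorem GB_ev {K L : Type} [Field K] [NumberField K] [Field L] [NumberField L] [Algebra K L] {q s N : ℕ}
    (g : Fin N → Fin s → MvPolynomial (Fin q) (𝓞 K)) (c : Fin N → ℤ) (i : Fin s) (x : Fin q → L) :
    MvPolynomial.aeval x (GB_F g c i) = LVZ.Fv g c i x := by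
  unfold GB_F LVZ.Fv
  rw [map_sum]
  refine Finset.sum_congr rfl fun k _ => ?_
  rw [map_mul, MvPolynomial.aeval_C, map_intCast]

private theorem GB_ev' {K : Type} [Field K] [NumberField K] {p : ℕ} [Fact p.Prime] (φ : 𝓞 K →+* ZMod p) {q s N : ℕ}
    (g : Fin N → Fin s → MvPolynomial (Fin q) (𝓞 K)) (c : Fin N → ℤ) (i : Fin s) (x : Fin q → Kb p) :
    MvPolynomial.aeval x (MvPolynomial.map φ (GB_F g c i)) = Gv g φ (fun k => ((c k : ℤ) : ZMod p)) i x := by
  unfold GB_F Gv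
  rw [map_sum, map_sum]
  refine Finset.sum_congr rfl fun k _ => ?_
  rw [map_mul, map_mul, MvPolynomial.map_C, MvPolynomial.aeval_C, map_intCast]

private theorem GB_zero {p : ℕ} [Fact p.Prime] {q : ℕ} {h : MvPolynomial (Fin q) (ZMod p)} (hh : ∃ n, h.IsHomogeneous n)
    {z : Fin q → Kb p} (hz : MvPolynomial.aeval z h = 0) (t : Kb p) : MvPolynomial.aeval (t • z) h = 0 := by
  obtain ⟨n, hn⟩ := hh
  rw [scal_aeval t z h hn, hz, mul_zero]

open Classical in
theorem locF {K L : Type} [Field K] [NumberField K] [Field L] [NumberField L] [Algebra K L] {p : ℕ} [Fact p.Prime]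
    (π : Pl K p) {q j s N : ℕ} (ρ : ℕ) (hρ : Module.finrank K L ≤ ρ) (G : Finset (MvPolynomial (Fin q) (𝓞 K)))
    (hG : ∀ h ∈ G, ∃ n, h.IsHomogeneous n) (e : Fin j → ℕ) (he : ∀ l, 1 ≤ e l)
    (f : Fin j → MvPolynomial (Fin q) (𝓞 K)) (hf : ∀ l, (f l).IsHomogeneous (e l)) (d : Fin s → ℕ) (hd : ∀ i, 1 ≤ d i)
    (B : Finset (Fin s)) (g : Fin N → Fin s → MvPolynomial (Fin q) (𝓞 K)) (hg : ∀ k i, (g k i).IsHomogeneous (d i))
    (c : Fin N → ℤ) (x : Fin q → L) (hx : x ≠ 0) (hGx : ∀ h ∈ G, MvPolynomial.aeval x h = 0)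
    (hC : ∀ i, i ∉ B → LVZ.Fv g c i x = 0) (α : K) (hα : α ≠ 0) (y : Fin j ⊕ {i // i ∈ B} → K) (hy0 : ∀ w, y w ≠ 0)
    (hy : ∀ w, y w ∈ π.V ∧ (y w)⁻¹ ∈ π.V)
    (hN : ∀ w, Algebra.norm K (Sum.elim (fun l => MvPolynomial.aeval x (f l)) (fun i => LVZ.Fv g c i.1 x) w) =
        α ^ (Sum.elim e (fun i => d i.1) w) * y w) :
    RC ρ (G.image (MvPolynomial.map (ro π))) e (fun l => MvPolynomial.map (ro π) (f l)) d B
      (fun l => algebraMap (ZMod p) (Kb p) (res π (y (Sum.inl l))))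
      (fun i => if h : i ∈ B then algebraMap (ZMod p) (Kb p) (res π (y (Sum.inr ⟨i, h⟩))) else 0)
      (Gv g (ro π) fun k => ((c k : ℤ) : ZMod p)) := by
  obtain ⟨P, hP⟩ : ∃ P : Fin j ⊕ {i // i ∈ B} → MvPolynomial (Fin q) (𝓞 K),
      P = Sum.elim f (fun i => GB_F g c i.1) := ⟨_, rfl⟩
  obtain ⟨n, hn⟩ : ∃ n : Fin j ⊕ {i // i ∈ B} → ℕ, n = Sum.elim e (fun i => d i.1) := ⟨_, rfl⟩
  obtain ⟨Q, hQ⟩ : ∃ Q : {h // h ∈ G} ⊕ {i // i ∉ B} → MvPolynomial (Fin q) (𝓞 K),
      Q = Sum.elim (fun h => h.1) (fun i => GB_F g c i.1) := ⟨_, rfl⟩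
  have hn1 : ∀ w, 1 ≤ n w := by
    intro w
    rw [hn]
    rcases w with l | i
    · exact he l
    · exact hd i.1
  have hPh : ∀ w, (P w).IsHomogeneous (n w) := by
    intro w
    rw [hP, hn]
    rcases w with l | i
    · exact hf l
    · exact GB_hom hg c i.1
  have hQh : ∀ v, ∃ m, (Q v).IsHomogeneous m := by
    intro v
    rw [hQ]
    rcases v with h | i
    · exact hG h.1 h.2
    · exact ⟨d i.1, GB_hom hg c i.1⟩
  have hQ0 : ∀ v, MvPolynomial.aeval x (Q v) = 0 := by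
    intro v
    rw [hQ]
    rcases v with h | i
    · exact hGx h.1 h.2
    · show MvPolynomial.aeval x (GB_F g c i.1) = 0
      rw [GB_ev]
      exact hC i.1 i.2
  have hrd : ∀ (h : MvPolynomial (Fin q) (𝓞 K)) (t : Fin q →₀ ℕ),
      LVH.Rd π ((MvPolynomial.map (algebraMap (𝓞 K) K) h).coeff t) ((MvPolynomial.map (ro π) h).coeff t) := by
    intro h t
    rw [MvPolynomial.coeff_map, MvPolynomial.coeff_map]
    exact ⟨LVX.int_mem π _, rfl⟩
  have hN' : ∀ w, Algebra.norm K (MvPolynomial.aeval x (MvPolynomial.map (algebraMap (𝓞 K) K) (P w))) =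
      α ^ n w * y w := by
    intro w
    rw [MvPolynomial.aeval_map_algebraMap, hn, ← hN w, hP]
    rcases w with l | i
    · rfl
    · show Algebra.norm K (MvPolynomial.aeval x (GB_F g c i.1)) = _
      rw [GB_ev]
      rfl
  obtain ⟨z, σ, hz, hσ, hzQ, hcase⟩ := redS π x hx n hn1
    (fun w => MvPolynomial.map (algebraMap (𝓞 K) K) (P w)) (fun w => MvPolynomial.map (ro π) (P w))
    (fun w => (hPh w).map _) (fun w => hrd (P w)) y (fun w => res π (y w)) (fun w => LVH.rd_res (hy w).1)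
    (fun w => LVH.res_ne (hy0 w) (hy w).1 (hy w).2) α hα hN'
    (fun v => MvPolynomial.map (algebraMap (𝓞 K) K) (Q v)) (fun v => MvPolynomial.map (ro π) (Q v))
    (fun v => by
      obtain ⟨m, hm⟩ := hQh v
      exact ⟨m, hm.map _⟩) (fun v => hrd (Q v)) (fun v => by
      rw [MvPolynomial.aeval_map_algebraMap]
      exact hQ0 v)
  obtain ⟨Z, μ', hZc, hZz, hZf, hμ', hZp⟩ := nform z hz (chow z σ hσ)
  have hQZ : ∀ v, ∀ x' ∈ Z, MvPolynomial.aeval x' (MvPolynomial.map (ro π) (Q v)) = 0 := by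
    intro v x' hx'
    obtain ⟨-, k, t, rfl⟩ := hZz x' hx'
    obtain ⟨m, hm⟩ := hQh v
    exact GB_zero ⟨m, hm.map _⟩ (hzQ k v) t
  have hvp : ∀ w, ∏ k, MvPolynomial.aeval (z k) (MvPolynomial.map (ro π) (P w)) =
      algebraMap (ZMod p) (Kb p) μ' ^ n w * vp Z (MvPolynomial.map (ro π) (P w)) :=
    fun w => hZp (n w) _ ((hPh w).map _)
  have hGv : ∀ i, (Z.map (Gv g (ro π) (fun k => ((c k : ℤ) : ZMod p)) i)).prod =
      vp Z (MvPolynomial.map (ro π) (GB_F g c i)) := by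
    intro i
    unfold vp
    congr 1
    refine Multiset.map_congr rfl fun x' _ => ?_
    rw [GB_ev']
  have hμA : algebraMap (ZMod p) (Kb p) μ' ≠ 0 := (map_ne_zero _).2 hμ'
  refine ⟨Module.finrank K L, Module.finrank_pos, hρ, Z, ⟨hZc, fun x' hx' => ⟨(hZz x' hx').1, fun h hh => ?_⟩, hZf⟩, ?_⟩
  · rw [mem_image] at hh
    obtain ⟨h0, hh0, rfl⟩ := hh
    have h1 := hQZ (Sum.inl ⟨h0, hh0⟩) x' hx'
    rw [hQ] at h1
    exact h1
  · have hV0 : ∀ i, i ∉ B → ∀ x' ∈ Z, Gv g (ro π) (fun k => ((c k : ℤ) : ZMod p)) i x' = 0 := by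
      intro i hi x' hx'
      have h1 := hQZ (Sum.inr ⟨i, hi⟩) x' hx'
      rw [hQ] at h1
      rw [← GB_ev']
      exact h1
    rcases hcase with ⟨μ, hμ, hw⟩ | hw
    · left
      have hμA' : algebraMap (ZMod p) (Kb p) μ ≠ 0 := (map_ne_zero _).2 hμ
      have hkey : ∀ w, algebraMap (ZMod p) (Kb p) (μ' / μ) ^ n w * vp Z (MvPolynomial.map (ro π) (P w)) =
          algebraMap (ZMod p) (Kb p) (res π (y w)) := by
        intro w
        have h1 := hw w
        rw [hvp w, map_mul, map_pow] at h1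
        rw [map_div₀, div_pow, div_mul_eq_mul_div, h1, mul_div_cancel_left₀ _ (pow_ne_zero _ hμA')]
      refine ⟨μ' / μ, ⟨div_ne_zero hμ' hμ, fun l => ?_⟩, fun i => ⟨fun hi => ?_, fun hi => hV0 i hi⟩⟩
      · have h1 := hkey (Sum.inl l)
        rw [hP, hn] at h1
        exact h1
      · have h1 := hkey (Sum.inr ⟨i, hi⟩)
        rw [hP, hn] at h1
        rw [hGv]
        show _ = dite _ _ _
        rw [dif_pos hi]
        exact h1
    · right
      have hkey : ∀ w, vp Z (MvPolynomial.map (ro π) (P w)) = 0 := by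
        intro w
        have h1 := hw w
        rw [hvp w] at h1
        exact (mul_eq_zero.1 h1).resolve_left (pow_ne_zero _ hμA)
      refine ⟨fun l => ?_, fun i => ⟨fun hi => ?_, fun hi => hV0 i hi⟩⟩
      · have h1 := hkey (Sum.inl l)
        rw [hP] at h1
        exact h1
      · have h1 := hkey (Sum.inr ⟨i, hi⟩)
        rw [hP] at h1
        rw [hGv, one_pow, one_mul]
        exact h1

end LVF
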