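import Pool.Agent.Lib.MP_17a322_ntLF.RDefs

/-!
# LEAF TR: from all forms to a complete system of vectors of forms

PROOF.  `cpF`: for `α : Sym (Fin q) (d i)` the exponent is `toFinsupp α` (`Multiset.toFinsupp`), of degree `d i`.  `T c ⟨i, α⟩ = ∑ k, c k * φ (coeff (toFinsupp α) (g k i))`; it is additive, and `∑ k, c k * aeval x (map φ (g k i)) = Fb (T c) i x` since a homogeneous polynomial of degree `d i` is the sum over the `α` of its coefficients times the monomials (as in `cp_mod`, `MP_17a322_ntLZ/H3.lean`, with `aeval` over `Kb p` in place of `vl`).  Surjectivity: for every `(i, α)` `Cp` for the monomial `X ^ α` gives `a : Fin N → K`; choose a nonzero integer `M` (common for all `(i, α)`) such that all `M * a k` are integral, say the images of `b k : 𝓞 K`; then `∑ k, C (b k) * g k i'` is `M * X ^ α` for `i' = i` and `0` otherwise (injectivity of `MvPolynomial.map (algebraMap (𝓞 K) K)`); compare coefficients and apply `φ`: `T (k ↦ φ (b k))` is `M` times the basis vector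 of `⟨i, α⟩`, and `M` is invertible modulo `p` for `p ≥ p1 = M + 1`.  So `T` is onto (`T` is linear: `T (a • c) = a • T c` is clear from the formula, or `a • c` is a sum of copies of `c`).
`tr`: `p0 = max` of the two bounds.  By `cpF`, `Gv g φ c = Fb (T c)`, so the set of `LDF` is the preimage under `T` of the set of `LDM`; all fibres of the surjective additive map `T` have the same number of elements, `p ^ N / p ^ (card Mo)`: `#(preimage of A) * p ^ (card Mo) = #A * p ^ N` (as in the leaf `S8` of `LVZ`).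
-/

namespace LVF

open Finset NumberField

private theorem TR_one {K : Type} [Field K] [NumberField K] (a : K) :
    ∃ N : ℕ, N ≠ 0 ∧ ∀ M : ℕ, N ∣ M → ∃ b : 𝓞 K, algebraMap (𝓞 K) K b = (M : K) * a := by
  have halg : IsAlgebraic ℤ a :=
    (IsFractionRing.isAlgebraic_iff ℤ ℚ K).2 (Algebra.IsAlgebraic.isAlgebraic a)
  obtain ⟨y, hy0, hy⟩ := halg.exists_integral_multiple
  refine ⟨y.natAbs, Int.natAbs_ne_zero.2 hy0, ?_⟩
  rintro M ⟨c, rfl⟩
  have h1 : ((y.natAbs : ℕ) : K) = (y : K) ∨ ((y.natAbs : ℕ) : K) = -(y : K) := by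
    rcases Int.natAbs_eq y with h | h
    · left
      conv_rhs => rw [h]
      rw [Int.cast_natCast]
    · right
      conv_rhs => rw [h]
      rw [Int.cast_neg, Int.cast_natCast, neg_neg]
  have h2 : IsIntegral ℤ (((y.natAbs * c : ℕ) : K) * a) := by
    have h3 : IsIntegral ℤ ((c : K) * (y • a)) := by
      refine IsIntegral.mul ?_ hy
      have h4 : IsIntegral ℤ (algebraMap ℤ K (c : ℤ)) := isIntegral_algebraMap
      rw [eq_intCast, Int.cast_natCast] at h4
      exact h4
    rcases h1 with h | h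
    · have h5 : ((y.natAbs * c : ℕ) : K) * a = (c : K) * (y • a) := by
        rw [Nat.cast_mul, h, zsmul_eq_mul]
        ring
      rw [h5]
      exact h3
    · have h5 : ((y.natAbs * c : ℕ) : K) * a = -((c : K) * (y • a)) := by
        rw [Nat.cast_mul, h, zsmul_eq_mul]
        ring
      rw [h5]
      exact h3.neg
  exact (IsIntegralClosure.isIntegral_iff (A := 𝓞 K)).1 h2

private theorem TR_fin {K : Type} [Field K] [NumberField K] (S : Finset K) :
    ∃ N : ℕ, N ≠ 0 ∧ ∀ M : ℕ, N ∣ M → ∀ a ∈ S, ∃ b : 𝓞 K, algebraMap (𝓞 K) K b = (M : K) * a := by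
  classical
  induction S using Finset.induction_on with
  | empty => exact ⟨1, one_ne_zero, fun M _ a ha => absurd ha (Finset.notMem_empty a)⟩
  | insert x T _ ih =>
    obtain ⟨N, hN, h⟩ := ih
    obtain ⟨N', hN', h'⟩ := TR_one x
    refine ⟨N' * N, mul_ne_zero hN' hN, fun M hM a ha => ?_⟩
    rcases Finset.mem_insert.1 ha with rfl | ha
    · exact h' M ((Dvd.intro _ rfl).trans hM)
    · exact h M ((Dvd.intro_left _ rfl).trans hM) a ha

private noncomputable def TR_ex {q m : ℕ} (α : Sym (Fin q) m) : Fin q →₀ ℕ := Multiset.toFinsupp (α : Multiset (Fin q))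

private theorem TR_ex_inj {q m : ℕ} {α β : Sym (Fin q) m} (h : TR_ex α = TR_ex β) : α = β := by
  unfold TR_ex at h
  exact Sym.coe_injective (Multiset.toFinsupp.injective h)

private theorem TR_ex_degree {q m : ℕ} (α : Sym (Fin q) m) : (TR_ex α).degree = m := by
  unfold TR_ex
  rw [Finsupp.degree_eq_sum]
  simp only [Multiset.toFinsupp_apply]
  rw [Multiset.sum_count_eq_card (fun a _ => Finset.mem_univ a)]
  exact α.2

private theorem TR_ex_surj {q m : ℕ} (n : Fin q →₀ ℕ) (hn : n.degree = m) : ∃ α : Sym (Fin q) m, TR_ex α = n := by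
  refine ⟨⟨Finsupp.toMultiset n, ?_⟩, ?_⟩
  · rw [Finsupp.card_toMultiset, ← hn, Finsupp.degree_apply]
    rfl
  · unfold TR_ex
    exact Finsupp.toMultiset_toFinsupp n

private theorem TR_expand {R : Type} [CommRing R] {q m : ℕ} {h : MvPolynomial (Fin q) R} (hh : h.IsHomogeneous m) :
    h = ∑ α : Sym (Fin q) m, MvPolynomial.monomial (TR_ex α) (MvPolynomial.coeff (TR_ex α) h) := by
  classical
  ext n
  rw [MvPolynomial.coeff_sum]
  simp only [MvPolynomial.coeff_monomial]
  by_cases hn : n.degree = m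
  · obtain ⟨β, rfl⟩ := TR_ex_surj n hn
    rw [Finset.sum_eq_single β]
    · rw [if_pos rfl]
    · intro α _ hα
      rw [if_neg fun h1 => hα (TR_ex_inj h1)]
    · intro h1
      exact absurd (Finset.mem_univ β) h1
  · rw [hh.coeff_eq_zero hn]
    symm
    refine Finset.sum_eq_zero fun α _ => ?_
    rw [if_neg]
    rintro rfl
    exact hn (TR_ex_degree α)

private theorem TR_mon {S : Type} [CommRing S] {q m : ℕ} (x : Fin q → S) (α : Sym (Fin q) m) :
    ((TR_ex α).prod fun n e => x n ^ e) = LVH.mon x α := by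
  classical
  unfold LVH.mon TR_ex
  rw [Finset.prod_multiset_map_count, Finsupp.prod, Multiset.toFinsupp_support]
  exact Finset.prod_congr rfl fun i _ => by rw [Multiset.toFinsupp_apply]

private theorem TR_eval {R S : Type} [CommRing R] [CommRing S] (φ : R →+* S) {q m : ℕ} {h : MvPolynomial (Fin q) R}
    (hh : h.IsHomogeneous m) (x : Fin q → S) :
    MvPolynomial.eval₂ φ x h = ∑ α : Sym (Fin q) m, φ (MvPolynomial.coeff (TR_ex α) h) * LVH.mon x α := by
  conv_lhs => rw [TR_expand hh]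
  rw [MvPolynomial.eval₂_sum]
  refine Finset.sum_congr rfl fun α _ => ?_
  rw [MvPolynomial.eval₂_monomial, TR_mon]

private theorem TR_fiber {G H : Type} [AddCommGroup G] [AddCommGroup H] [Finite G] [Finite H] (f : G →+ H)
    (hf : Function.Surjective f) (y : H) : Nat.card {a // f a = y} * Nat.card H = Nat.card G := by
  obtain ⟨a0, ha0⟩ := hf y
  have h1 : Nat.card {a // f a = y} = Nat.card f.ker := by
    refine Nat.card_congr
      { toFun := fun a => ⟨a.1 - a0, by rw [AddMonoidHom.mem_ker, map_sub, a.2, ha0, sub_self]⟩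
        invFun := fun b => ⟨b.1 + a0, by rw [map_add, AddMonoidHom.mem_ker.1 b.2, zero_add, ha0]⟩
        left_inv := fun a => Subtype.ext (sub_add_cancel _ _)
        right_inv := fun b => Subtype.ext (add_sub_cancel_right _ _) }
  have h2 : Nat.card H = f.ker.index := by
    rw [AddSubgroup.index_ker, AddMonoidHom.range_eq_top.2 hf]
    exact (Nat.card_congr (AddSubgroup.topEquiv (G := H)).toEquiv).symm
  rw [h1, h2]
  exact f.ker.card_mul_index

private theorem TR_pre {G H : Type} [AddCommGroup G] [AddCommGroup H] [Finite G] [Finite H] (f : G →+ H)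
    (hf : Function.Surjective f) (S : Set H) : Nat.card {a // f a ∈ S} * Nat.card H = Nat.card S * Nat.card G := by
  have e : {a // f a ∈ S} ≃ (Σ h : S, {a // f a = h.1}) :=
    { toFun := fun a => ⟨⟨f a.1, a.2⟩, ⟨a.1, rfl⟩⟩
      invFun := fun b => ⟨b.2.1, by rw [b.2.2]; exact b.1.2⟩
      left_inv := fun a => rfl
      right_inv := by
        rintro ⟨⟨h, hh⟩, ⟨a, ha⟩⟩
        have ha' : f a = h := ha
        subst ha'
        rfl }
  have : Fintype S := Fintype.ofFinite S
  rw [Nat.card_congr e, Nat.card_sigma, Finset.sum_mul]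
  rw [Finset.sum_congr rfl fun h _ => TR_fiber f hf h.1, Finset.sum_const, Finset.card_univ, smul_eq_mul,
    Nat.card_eq_fintype_card (α := S)]

theorem cpF (K : Type) [Field K] [NumberField K] {q s N : ℕ} (d : Fin s → ℕ)
    (g : Fin N → Fin s → MvPolynomial (Fin q) (𝓞 K)) (hg : ∀ k i, (g k i).IsHomogeneous (d i))
    (hc : ∀ i, LVZ.Cp g d i) : ∃ p1 : ℕ, ∀ (p : ℕ) [Fact p.Prime], p1 ≤ p → ∀ φ : 𝓞 K →+* ZMod p,
      ∃ T : (Fin N → ZMod p) →+ (LVY.Mo (Fin q) d → ZMod p), Function.Surjective T ∧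
        ∀ (c : Fin N → ZMod p) (i : Fin s) (x : Fin q → Kb p), Gv g φ c i x = Fb (T c) i x := by
  classical
  have hmon : ∀ t : LVY.Mo (Fin q) d, (MvPolynomial.monomial (TR_ex t.2) (1 : K)).IsHomogeneous (d t.1) := fun t =>
    MvPolynomial.isHomogeneous_monomial _ (TR_ex_degree t.2)
  choose a ha using fun t : LVY.Mo (Fin q) d => hc t.1 _ (hmon t)
  obtain ⟨M, hM, hMb⟩ := TR_fin (Finset.univ.biUnion fun t : LVY.Mo (Fin q) d => Finset.univ.image fun k => a t k)
  have hb : ∀ (t : LVY.Mo (Fin q) d) (k : Fin N), ∃ b : 𝓞 K, algebraMap (𝓞 K) K b = (M : K) * a t k := fun t k =>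
    hMb M dvd_rfl _ (Finset.mem_biUnion.2 ⟨t, Finset.mem_univ _, Finset.mem_image_of_mem _ (Finset.mem_univ k)⟩)
  choose b hb using hb
  have key : ∀ (t : LVY.Mo (Fin q) d) (i' : Fin s), ∑ k, MvPolynomial.C (b t k) * g k i' =
      if i' = t.1 then MvPolynomial.monomial (TR_ex t.2) (M : 𝓞 K) else 0 := by
    intro t i'
    refine MvPolynomial.map_injective (algebraMap (𝓞 K) K) (FaithfulSMul.algebraMap_injective (𝓞 K) K) ?_
    have h1 : MvPolynomial.map (algebraMap (𝓞 K) K) (∑ k, MvPolynomial.C (b t k) * g k i') =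
        MvPolynomial.C (M : K) * ∑ k, MvPolynomial.C (a t k) * MvPolynomial.map (algebraMap (𝓞 K) K) (g k i') := by
      rw [map_sum, Finset.mul_sum]
      refine Finset.sum_congr rfl fun k _ => ?_
      rw [map_mul, MvPolynomial.map_C, hb, MvPolynomial.C_mul, mul_assoc]
    rw [h1, ha t i']
    by_cases hi : i' = t.1
    · rw [if_pos hi, if_pos hi, MvPolynomial.C_mul_monomial, MvPolynomial.map_monomial, mul_one,
        map_natCast (algebraMap (𝓞 K) K)]
    · rw [if_neg hi, if_neg hi, mul_zero, map_zero]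
  refine ⟨M + 1, fun p _ hp φ => ?_⟩
  have hM0 : (M : ZMod p) ≠ 0 := by
    intro h0
    rw [ZMod.natCast_eq_zero_iff] at h0
    exact absurd (Nat.le_of_dvd (Nat.pos_of_ne_zero hM) h0) (by omega)
  let T : (Fin N → ZMod p) →+ (LVY.Mo (Fin q) d → ZMod p) :=
    { toFun := fun c t => ∑ k, c k * φ (MvPolynomial.coeff (TR_ex t.2) (g k t.1))
      map_zero' := by
        funext t
        simp
      map_add' := fun c c' => by
        funext t
        simp only [Pi.add_apply, add_mul, Finset.sum_add_distrib] }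
  have hT : ∀ c t, T c t = ∑ k, c k * φ (MvPolynomial.coeff (TR_ex t.2) (g k t.1)) := fun c t => rfl
  refine ⟨T, fun h => ?_, fun c i x => ?_⟩
  · refine ⟨fun k => (M : ZMod p)⁻¹ * ∑ t, h t * φ (b t k), ?_⟩
    funext τ
    rw [hT]
    have h1 : ∑ k, ((M : ZMod p)⁻¹ * ∑ t, h t * φ (b t k)) * φ (MvPolynomial.coeff (TR_ex τ.2) (g k τ.1)) =
        (M : ZMod p)⁻¹ * ∑ t, h t * ∑ k, φ (b t k) * φ (MvPolynomial.coeff (TR_ex τ.2) (g k τ.1)) := by
      simp only [Finset.mul_sum, Finset.sum_mul]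
      rw [Finset.sum_comm]
      refine Finset.sum_congr rfl fun t _ => Finset.sum_congr rfl fun k _ => ?_
      ring
    rw [h1]
    have h2 : ∀ t : LVY.Mo (Fin q) d, ∑ k, φ (b t k) * φ (MvPolynomial.coeff (TR_ex τ.2) (g k τ.1)) =
        if t = τ then (M : ZMod p) else 0 := by
      intro t
      have h3 : ∑ k, φ (b t k) * φ (MvPolynomial.coeff (TR_ex τ.2) (g k τ.1)) =
          φ (MvPolynomial.coeff (TR_ex τ.2) (∑ k, MvPolynomial.C (b t k) * g k τ.1)) := by
        rw [MvPolynomial.coeff_sum, map_sum]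
        exact Finset.sum_congr rfl fun k _ => by rw [MvPolynomial.coeff_C_mul, map_mul]
      rw [h3, key t τ.1]
      by_cases hi : τ.1 = t.1
      · rw [if_pos hi, MvPolynomial.coeff_monomial]
        obtain ⟨i, α⟩ := t
        obtain ⟨i', β⟩ := τ
        change i' = i at hi
        subst hi
        by_cases hαβ : α = β
        · rw [if_pos (by rw [hαβ]), if_pos (by rw [hαβ]), map_natCast]
        · rw [if_neg fun h4 => hαβ (TR_ex_inj h4), map_zero, if_neg]
          intro h4
          exact hαβ (eq_of_heq (Sigma.mk.inj h4).2)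
      · rw [if_neg hi, MvPolynomial.coeff_zero, map_zero, if_neg]
        rintro rfl
        exact hi rfl
    have h5 : ∑ t, h t * ∑ k, φ (b t k) * φ (MvPolynomial.coeff (TR_ex τ.2) (g k τ.1)) = h τ * M := by
      rw [Finset.sum_eq_single τ]
      · rw [h2, if_pos rfl]
      · intro t _ ht
        rw [h2, if_neg ht, mul_zero]
      · intro h6
        exact absurd (Finset.mem_univ τ) h6
    rw [h5, mul_comm, mul_assoc, mul_inv_cancel₀ hM0, mul_one]
  · unfold Gv Fb LVY.Fv LVH.fv
    have h1 : ∀ k, MvPolynomial.aeval x (MvPolynomial.map φ (g k i)) = ∑ α : Sym (Fin q) (d i),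
        algebraMap (ZMod p) (Kb p) (φ (MvPolynomial.coeff (TR_ex α) (g k i))) * LVH.mon x α := by
      intro k
      rw [MvPolynomial.aeval_def, MvPolynomial.eval₂_map]
      exact TR_eval ((algebraMap (ZMod p) (Kb p)).comp φ) (hg k i) x
    simp only [h1, hT, Finset.mul_sum, Finset.sum_mul, map_sum, map_mul]
    rw [Finset.sum_comm]
    refine Finset.sum_congr rfl fun α _ => Finset.sum_congr rfl fun k _ => ?_
    ring

theorem tr (K : Type) [Field K] [NumberField K] {q j s N : ℕ} (ρ : ℕ) (G : Finset (MvPolynomial (Fin q) (𝓞 K)))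
    (e : Fin j → ℕ) (f : Fin j → MvPolynomial (Fin q) (𝓞 K)) (d : Fin s → ℕ) (B : Finset (Fin s))
    (g : Fin N → Fin s → MvPolynomial (Fin q) (𝓞 K)) (hg : ∀ k i, (g k i).IsHomogeneous (d i))
    (hc : ∀ i, LVZ.Cp g d i) (h : LDM ρ G e f d B) : LDF ρ G e f d B g := by
  classical
  obtain ⟨c, hc0, hc1, p0, hcore⟩ := h
  obtain ⟨p1, hp1⟩ := cpF K d g hg hc
  refine ⟨c, hc0, hc1, max p0 p1, fun p _ hp φ u hu y hy => ?_⟩
  obtain ⟨T, hsurj, hT⟩ := hp1 p (le_trans (le_max_right _ _) hp) φ
  have hS := TR_pre T hsurj {a : LVY.Mo (Fin q) d → ZMod p | RC ρ (G.image (MvPolynomial.map φ)) e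
    (fun l => MvPolynomial.map φ (f l)) d B u y (Fb a)}
  have hFn : Nat.card {c : Fin N → ZMod p // RC ρ (G.image (MvPolynomial.map φ)) e
      (fun l => MvPolynomial.map φ (f l)) d B u y (Gv g φ c)} = Nat.card {c : Fin N → ZMod p // T c ∈
        {a : LVY.Mo (Fin q) d → ZMod p | RC ρ (G.image (MvPolynomial.map φ)) e
          (fun l => MvPolynomial.map φ (f l)) d B u y (Fb a)}} := by
    refine Nat.card_congr (Equiv.subtypeEquivRight fun c => ?_)
    have h1 : Gv g φ c = Fb (T c) := by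
      funext i x
      exact hT c i x
    rw [h1]
    exact Iff.rfl
  have hq : (Nat.card {a : LVY.Mo (Fin q) d → ZMod p // RC ρ (G.image (MvPolynomial.map φ)) e
      (fun l => MvPolynomial.map φ (f l)) d B u y (Fb a)} : ℝ) ≤ (1 - c) * (p : ℝ) ^ Fintype.card (LVY.Mo (Fin q) d) :=
    hcore p (le_trans (le_max_left _ _) hp) φ u hu y hy
  have hp0 : (0 : ℝ) < p := by
    have := (Fact.out : p.Prime).pos
    exact_mod_cast this
  have hH : Nat.card (LVY.Mo (Fin q) d → ZMod p) = p ^ Fintype.card (LVY.Mo (Fin q) d) := by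
    rw [Nat.card_fun, Nat.card_zmod, Nat.card_eq_fintype_card]
  have hN' : Nat.card (Fin N → ZMod p) = p ^ N := by
    rw [Nat.card_fun, Nat.card_zmod, Nat.card_eq_fintype_card, Fintype.card_fin]
  rw [hH, hN'] at hS
  rw [hFn]
  have hS' : (Nat.card {c : Fin N → ZMod p // T c ∈
      {a : LVY.Mo (Fin q) d → ZMod p | RC ρ (G.image (MvPolynomial.map φ)) e
        (fun l => MvPolynomial.map φ (f l)) d B u y (Fb a)}} : ℝ) * (p : ℝ) ^ Fintype.card (LVY.Mo (Fin q) d) =
      (Nat.card {a : LVY.Mo (Fin q) d → ZMod p // RC ρ (G.image (MvPolynomial.map φ)) e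
        (fun l => MvPolynomial.map φ (f l)) d B u y (Fb a)} : ℝ) * (p : ℝ) ^ N := by
    exact_mod_cast hS
  have hpos : (0 : ℝ) < (p : ℝ) ^ Fintype.card (LVY.Mo (Fin q) d) := pow_pos hp0 _
  refine le_of_mul_le_mul_right ?_ hpos
  rw [hS']
  calc _ ≤ (1 - c) * (p : ℝ) ^ Fintype.card (LVY.Mo (Fin q) d) * (p : ℝ) ^ N :=
        mul_le_mul_of_nonneg_right hq (pow_nonneg hp0.le _)
    _ = (1 - c) * (p : ℝ) ^ N * (p : ℝ) ^ Fintype.card (LVY.Mo (Fin q) d) := by ring

end LVF
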