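import Pool.Agent.Lib.MP_17a322_ntLF.GC
import Pool.Agent.Lib.MP_17a322_ntLF.E5
import Pool.Agent.Lib.MP_17a322_ntLF.Fe2
import Pool.Agent.Lib.MP_17a322_ntLF.TR

/-!
# LEAF GD: the main theorem

PROOF.  `δ`, `η` from `asm K`; `d₀` from `critd` (with its `G`), the other `G` from `nonc`.  In both cases `tr` and `asm`.
-/

namespace LVF

open Finset NumberField

theorem mainF (K : Type) [Field K] [NumberField K] : ∃ δ η : ℝ, 0 < δ ∧ 0 < η ∧ ∀ (ρ q j r : ℕ)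
    (P : Ideal (MvPolynomial (Fin q) K)) (e : Fin j → ℕ) (f : Fin j → MvPolynomial (Fin q) (𝓞 K)), 1 ≤ ρ → LVZ.Hm P →
      (∀ l, 1 ≤ e l) → (∀ l, (f l).IsHomogeneous (e l)) → LVZ.GP P f r → ∃ d₀ : ℕ,
        ∀ (s N n : ℕ) (d : Fin s → ℕ) (B : Finset (Fin s)) (g : Fin N → Fin s → MvPolynomial (Fin q) (𝓞 K)),
          (∀ i, 1 ≤ d i) → (∀ k i, (g k i).IsHomogeneous (d i)) → (∀ i, LVZ.Cp g d i) → r + j = n + Bᶜ.card + 1 →
            (ρ * n + 2 ≤ j + B.card ∧ (∀ i, i ∉ B → ρ ≤ d i + 1) ∨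
              1 ≤ s ∧ 1 ≤ n ∧ j + B.card = ρ * n + 1 ∧ ∀ i, d₀ ≤ d i) →
              ∃ c₀ C : ℝ, 0 < c₀ ∧ ∀ H : ℕ, 1 ≤ H →
                (Nat.card {c : Fin N → ℤ // (∀ k, |c k| ≤ (H : ℤ)) ∧
                  ¬ ∀ (L : Type) [Field L] [NumberField L] [Algebra K L], Module.finrank K L ≤ ρ →
                    ∀ S : Finset (FinitePlace L), (S.card : ℝ) ≤ Real.log H ^ η →
                      ∑ w ∈ S, Real.log (Ideal.absNorm w.maximalIdeal.asIdeal : ℝ) ≤ c₀ * Real.log H →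
                        ∀ x : Fin q → L, (∀ h ∈ P, MvPolynomial.aeval x h = 0) → (∀ i ∉ B, LVZ.Fv g c i x = 0) →
                          LVZ.Dv f g B c x ≠ 0 → LVZ.mS S (LVZ.dg e d B) (LVZ.Dv f g B c x) x <
                            LVZ.dg e d B * (Height.logHeight x / Module.finrank ℚ L) - c₀ * Real.log H} : ℝ) ≤
                              C * (H : ℝ) ^ ((N : ℝ) - δ) := by
  obtain ⟨δ, η, hδ, hη, h⟩ := asm K
  refine ⟨δ, η, hδ, hη, fun ρ q j r P e f hρ hP he hf hGP => ?_⟩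
  obtain ⟨G1, hG1, hG1P, d₀, h1⟩ := critd K P hP e he f hf hGP ρ hρ
  obtain ⟨G2, hG2, hG2P, h2⟩ := nonc K P hP e he f hf hGP ρ
  refine ⟨d₀, fun s N n d B g hd hg hc hn hcase => ?_⟩
  rcases hcase with ⟨h3, h4⟩ | ⟨h3, h4, h5, h6⟩
  · exact h ρ q j s N P G2 hG2 hG2P e he f hf d hd B g hg (by omega) (tr K ρ G2 e f d B g hg hc (h2 s d B n hn h3 h4))
  · exact h ρ q j s N P G1 hG1 hG1P e he f hf d hd B g hg (by omega)
      (tr K ρ G1 e f d B g hg hc (h1 s d B n h3 h4 hn h5 h6))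

end LVF
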