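import Pool.Agent.Lib.MP_17a322_ntLF.TP
import Pool.Agent.Lib.MP_17a322_ntLZ.F7

/-!
# The inequality over all extensions of degree one
-/

namespace LVF

open NumberField

private theorem TQ_aeval {K L : Type} [Field K] [NumberField K] [Field L] [NumberField L] [Algebra K L] {q : ℕ}
    (x : Fin q → K) (h : MvPolynomial (Fin q) (𝓞 K)) :
    MvPolynomial.aeval (fun t => algebraMap K L (x t)) h = algebraMap K L (MvPolynomial.aeval x h) :=
  MvPolynomial.aeval_algebraMap_apply _ _ _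

private theorem TQ_Fv {K L : Type} [Field K] [NumberField K] [Field L] [NumberField L] [Algebra K L] {q s N : ℕ}
    (g : Fin N → Fin s → MvPolynomial (Fin q) (𝓞 K)) (c : Fin N → ℤ) (i : Fin s) (x : Fin q → K) :
    LVZ.Fv g c i (fun t => algebraMap K L (x t)) = algebraMap K L (LVZ.Fv g c i x) := by
  unfold LVZ.Fv
  rw [map_sum]
  refine Finset.sum_congr rfl fun k _ => ?_
  rw [map_mul, map_intCast, TQ_aeval]

private theorem TQ_Dv {K L : Type} [Field K] [NumberField K] [Field L] [NumberField L] [Algebra K L] {q j s N : ℕ}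
    (f : Fin j → MvPolynomial (Fin q) (𝓞 K)) (g : Fin N → Fin s → MvPolynomial (Fin q) (𝓞 K)) (B : Finset (Fin s))
    (c : Fin N → ℤ) (x : Fin q → K) :
    LVZ.Dv f g B c (fun t => algebraMap K L (x t)) = algebraMap K L (LVZ.Dv f g B c x) := by
  unfold LVZ.Dv
  rw [map_mul, map_prod, map_prod]
  congr 1
  · exact Finset.prod_congr rfl fun l _ => TQ_aeval x (f l)
  · exact Finset.prod_congr rfl fun i _ => TQ_Fv g c i x

private theorem TQ_mono {N : ℕ} (H : ℕ) (Q Q' : (Fin N → ℤ) → Prop) (h : ∀ c, Q c → Q' c) :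
    (Nat.card {c : Fin N → ℤ // (∀ k, |c k| ≤ (H : ℤ)) ∧ Q c} : ℝ) ≤
      (Nat.card {c : Fin N → ℤ // (∀ k, |c k| ≤ (H : ℤ)) ∧ Q' c} : ℝ) := by
  classical
  rw [MWS.VM_card, MWS.VM_card]
  exact_mod_cast Finset.card_le_card (Finset.monotone_filter_right _ fun c _ hc => h c hc)

theorem ext1 (K : Type) [Field K] [NumberField K] {q j s N : ℕ} (P : Ideal (MvPolynomial (Fin q) K))
    (e : Fin j → ℕ) (f : Fin j → MvPolynomial (Fin q) (𝓞 K)) (d : Fin s → ℕ) (B : Finset (Fin s))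
    (g : Fin N → Fin s → MvPolynomial (Fin q) (𝓞 K)) (he : ∀ l, 1 ≤ e l) (hf : ∀ l, (f l).IsHomogeneous (e l))
    (hd : ∀ i, 1 ≤ d i) (hg : ∀ k i, (g k i).IsHomogeneous (d i)) (hB : 1 ≤ j + B.card) (η c₀ : ℝ) (H : ℕ) :
    (Nat.card {c : Fin N → ℤ // (∀ k, |c k| ≤ (H : ℤ)) ∧
      ¬ ∀ (L : Type) [Field L] [NumberField L] [Algebra K L], Module.finrank K L ≤ 1 →
        ∀ S : Finset (FinitePlace L), (S.card : ℝ) ≤ Real.log H ^ η →
          ∑ w ∈ S, Real.log (Ideal.absNorm w.maximalIdeal.asIdeal : ℝ) ≤ c₀ * Real.log H →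
            ∀ x : Fin q → L, (∀ h ∈ P, MvPolynomial.aeval x h = 0) → (∀ i ∉ B, LVZ.Fv g c i x = 0) →
              LVZ.Dv f g B c x ≠ 0 → LVZ.mS S (LVZ.dg e d B) (LVZ.Dv f g B c x) x <
                LVZ.dg e d B * (Height.logHeight x / Module.finrank ℚ L) - c₀ * Real.log H} : ℝ) ≤
      (Nat.card {c : Fin N → ℤ // (∀ k, |c k| ≤ (H : ℤ)) ∧ ¬ ∀ S : Finset (FinitePlace K),
        (S.card : ℝ) ≤ Real.log H ^ η →
          ∑ v ∈ S, Real.log (Ideal.absNorm v.maximalIdeal.asIdeal : ℝ) ≤ c₀ * Real.log H →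
            ∀ x : Fin q → K, LVZ.On P x → (∀ i ∉ B, LVZ.Fv g c i x = 0) → LVZ.Dv f g B c x ≠ 0 →
              LVZ.mS S (LVZ.dg e d B) (LVZ.Dv f g B c x) x <
                LVZ.dg e d B * (Height.logHeight x / Module.finrank ℚ K) - c₀ * Real.log H} : ℝ) := by
  classical
  refine TQ_mono H _ _ fun c hc => ?_
  intro hK
  apply hc
  intro L _ _ _ hL S hS1 hS2 x hx hxi hxD
  have hS3 : ((S.image (LVN.bel K)).card : ℝ) ≤ Real.log H ^ η :=
    le_trans (by exact_mod_cast Finset.card_image_le) hS1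
  have hS4 : ∑ v ∈ S.image (LVN.bel K), Real.log (Ideal.absNorm v.maximalIdeal.asIdeal : ℝ) ≤ c₀ * Real.log H := by
    refine le_trans ?_ hS2
    rw [Finset.sum_image fun a _ b _ h => LVN.tp_inj hL h]
    refine Finset.sum_le_sum fun w _ => ?_
    refine Real.log_le_log ?_ ?_
    · have h1 : 0 < Ideal.absNorm (LVN.bel K w).maximalIdeal.asIdeal := by
        rw [Nat.pos_iff_ne_zero, Ne, Ideal.absNorm_eq_zero_iff]
        exact (LVN.bel K w).maximalIdeal.ne_bot
      exact_mod_cast h1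
    · exact_mod_cast LVN.bel_norm w
  obtain ⟨x', rfl⟩ : ∃ x' : Fin q → K, (fun t => algebraMap K L (x' t)) = x := by
    choose x' hx' using fun t => LVN.tp_surj hL (x t)
    exact ⟨x', funext hx'⟩
  have hinj := FaithfulSMul.algebraMap_injective K L
  have hx0 : LVZ.On P x' := by
    intro h hh
    have h1 := hx h hh
    have h2 : MvPolynomial.aeval (fun t => algebraMap K L (x' t)) h = algebraMap K L (MvPolynomial.aeval x' h) :=
      MvPolynomial.aeval_algebraMap_apply _ _ _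
    rw [h2] at h1
    have h3 := (map_eq_zero _).1 h1
    rwa [MvPolynomial.aeval_eq_eval] at h3
  have hxi' : ∀ i ∉ B, LVZ.Fv g c i x' = 0 := by
    intro i hi
    have h1 := hxi i hi
    rw [TQ_Fv] at h1
    exact (map_eq_zero _).1 h1
  have hxD' : LVZ.Dv f g B c x' ≠ 0 := by
    intro h
    apply hxD
    rw [TQ_Dv, h, map_zero]
  have hx'0 : x' ≠ 0 := by
    rintro rfl
    apply hxD'
    have h0 : LVZ.Dv f g B c ((0 : K) • (0 : Fin q → K)) = 0 ^ LVZ.dg e d B * LVZ.Dv f g B c 0 :=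
      LVZ.Dv_smul hf hg B c 0 0
    have hn : LVZ.dg e d B ≠ 0 := by
      unfold LVZ.dg
      rcases Nat.eq_zero_or_pos j with hj | hj
      · obtain ⟨i, hi⟩ : B.Nonempty := by
          rw [← Finset.card_pos]
          omega
        have h2 := Finset.single_le_sum (f := d) (fun _ _ => Nat.zero_le _) hi
        have h3 := hd i
        omega
      · have h2 := Finset.single_le_sum (f := e) (fun _ _ => Nat.zero_le _) (Finset.mem_univ (⟨0, hj⟩ : Fin j))
        have h3 := he ⟨0, hj⟩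
        omega
    rw [smul_zero, zero_pow hn, zero_mul] at h0
    exact h0
  have h1 := hK (S.image (LVN.bel K)) hS3 hS4 x' hx0 hxi' hxD'
  have h2 := LVN.transport hL (LVZ.dg e d B) S hx'0 hxD'
  rw [TQ_Dv]
  linarith

end LVF
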