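import Pool.Agent.Lib.MP_17a322_ntLF.GD
import Pool.Agent.Lib.MP_17a322_ntLF.TQ

/-!
# The main theorem for all extensions of bounded degree, with the sharper conditions for degree one
-/

namespace LVF

open NumberField

/-- complete systems generate -/
theorem GG_of_Cp {K : Type} [Field K] [NumberField K] {q j s N : ℕ} (P : Ideal (MvPolynomial (Fin q) K))
    (f : Fin j → MvPolynomial (Fin q) (𝓞 K)) (d : Fin s → ℕ) (g : Fin N → Fin s → MvPolynomial (Fin q) (𝓞 K))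
    (h : ∀ i, LVZ.Cp g d i) : LVZ.GG P f g := by
  classical
  intro x hx _ _ y
  obtain ⟨t, ht⟩ := Function.ne_iff.1 hx
  have h1 : ∀ i, ∃ a : Fin N → K, ∀ i', ∑ k, MvPolynomial.C (a k) * MvPolynomial.map (algebraMap (𝓞 K) K) (g k i') =
      if i' = i then (MvPolynomial.X t ^ d i : MvPolynomial (Fin q) K) else 0 := fun i =>
    h i (MvPolynomial.X t ^ d i) (by
      have := (MvPolynomial.isHomogeneous_X K t).pow (d i)
      rwa [one_mul] at this)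
  choose a ha using h1
  have hxt : x t ≠ 0 := ht
  refine ⟨fun k => ∑ i, algebraMap K (AlgebraicClosure K) (a i k) * (y i / x t ^ d i), fun i' => ?_⟩
  have h2 : ∀ i, ∑ k, algebraMap K (AlgebraicClosure K) (a i k) *
      MvPolynomial.aeval x (MvPolynomial.map (algebraMap (𝓞 K) K) (g k i')) = if i' = i then x t ^ d i else 0 := by
    intro i
    have h3 := congrArg (MvPolynomial.aeval x) (ha i i')
    rw [map_sum] at h3
    simp only [map_mul, MvPolynomial.aeval_C] at h3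
    rw [h3]
    by_cases hi : i' = i
    · rw [if_pos hi, if_pos hi, map_pow, MvPolynomial.aeval_X]
    · rw [if_neg hi, if_neg hi, map_zero]
  calc ∑ k, (∑ i, algebraMap K (AlgebraicClosure K) (a i k) * (y i / x t ^ d i)) *
        MvPolynomial.aeval x (MvPolynomial.map (algebraMap (𝓞 K) K) (g k i'))
      = ∑ k, ∑ i, (y i / x t ^ d i) * (algebraMap K (AlgebraicClosure K) (a i k) *
          MvPolynomial.aeval x (MvPolynomial.map (algebraMap (𝓞 K) K) (g k i'))) := by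
        refine Finset.sum_congr rfl fun k _ => ?_
        rw [Finset.sum_mul]
        exact Finset.sum_congr rfl fun i _ => by ring
    _ = ∑ i, (y i / x t ^ d i) * ∑ k, algebraMap K (AlgebraicClosure K) (a i k) *
          MvPolynomial.aeval x (MvPolynomial.map (algebraMap (𝓞 K) K) (g k i')) := by
        rw [Finset.sum_comm]
        exact Finset.sum_congr rfl fun i _ => (Finset.mul_sum _ _ _).symm
    _ = ∑ i, (y i / x t ^ d i) * if i' = i then x t ^ d i else 0 :=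
        Finset.sum_congr rfl fun i _ => by rw [h2 i]
    _ = y i' := by
        rw [Finset.sum_eq_single i']
        · rw [if_pos rfl, div_mul_cancel₀ _ (pow_ne_zero _ hxt)]
        · intro i _ hi
          rw [if_neg (Ne.symm hi), mul_zero]
        · intro h
          exact absurd (Finset.mem_univ _) h

private theorem GE_eta (n : ℕ) {t η η' : ℝ} (ht : 0 ≤ t) (h0 : 0 < η) (h : η ≤ η') (hn : (n : ℝ) ≤ t ^ η) :
    (n : ℝ) ≤ t ^ η' := by
  rcases le_or_gt 1 t with h1 | h1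
  · exact hn.trans (Real.rpow_le_rpow_of_exponent_le h1 h)
  · have h2 : t ^ η < 1 := Real.rpow_lt_one ht h1 h0
    have h3 : n = 0 := by
      by_contra h4
      have h5 : 1 ≤ n := Nat.one_le_iff_ne_zero.2 h4
      have h6 : (1 : ℝ) ≤ n := by exact_mod_cast h5
      linarith
    rw [h3, Nat.cast_zero]
    exact Real.rpow_nonneg ht _

private theorem GE_mono {N : ℕ} (H : ℕ) (Q Q' : (Fin N → ℤ) → Prop) (h : ∀ c, Q c → Q' c) :
    (Nat.card {c : Fin N → ℤ // (∀ k, |c k| ≤ (H : ℤ)) ∧ Q c} : ℝ) ≤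
      (Nat.card {c : Fin N → ℤ // (∀ k, |c k| ≤ (H : ℤ)) ∧ Q' c} : ℝ) := by
  classical
  rw [MWS.VM_card, MWS.VM_card]
  exact_mod_cast Finset.card_le_card (Finset.monotone_filter_right _ fun c _ hc => h c hc)

private theorem GE_pow {N : ℕ} {H : ℕ} (hH : 1 ≤ H) {C δ δ' t : ℝ} (h : δ ≤ δ') (ht : t ≤ C * (H : ℝ) ^ ((N : ℝ) - δ')) :
    t ≤ max C 0 * (H : ℝ) ^ ((N : ℝ) - δ) := by
  have hH' : (1 : ℝ) ≤ H := by exact_mod_cast hH
  have h1 : (H : ℝ) ^ ((N : ℝ) - δ') ≤ (H : ℝ) ^ ((N : ℝ) - δ) :=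
    Real.rpow_le_rpow_of_exponent_le hH' (by linarith)
  have h2 : 0 ≤ (H : ℝ) ^ ((N : ℝ) - δ') := Real.rpow_nonneg (by linarith) _
  calc t ≤ C * (H : ℝ) ^ ((N : ℝ) - δ') := ht
    _ ≤ max C 0 * (H : ℝ) ^ ((N : ℝ) - δ') := mul_le_mul_of_nonneg_right (le_max_left _ _) h2
    _ ≤ max C 0 * (H : ℝ) ^ ((N : ℝ) - δ) := mul_le_mul_of_nonneg_left h1 (le_max_right _ _)

/-- the exceptional set -/
private def GE_ex (K : Type) [Field K] [NumberField K] (η c₀ : ℝ) (H ρ : ℕ) {q j s N : ℕ}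
    (P : Ideal (MvPolynomial (Fin q) K)) (e : Fin j → ℕ) (f : Fin j → MvPolynomial (Fin q) (𝓞 K)) (d : Fin s → ℕ)
    (B : Finset (Fin s)) (g : Fin N → Fin s → MvPolynomial (Fin q) (𝓞 K)) (c : Fin N → ℤ) : Prop :=
  ¬ ∀ (L : Type) [Field L] [NumberField L] [Algebra K L], Module.finrank K L ≤ ρ →
    ∀ S : Finset (FinitePlace L), (S.card : ℝ) ≤ Real.log H ^ η →
      ∑ w ∈ S, Real.log (Ideal.absNorm w.maximalIdeal.asIdeal : ℝ) ≤ c₀ * Real.log H →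
        ∀ x : Fin q → L, (∀ h ∈ P, MvPolynomial.aeval x h = 0) → (∀ i ∉ B, LVZ.Fv g c i x = 0) →
          LVZ.Dv f g B c x ≠ 0 → LVZ.mS S (LVZ.dg e d B) (LVZ.Dv f g B c x) x <
            LVZ.dg e d B * (Height.logHeight x / Module.finrank ℚ L) - c₀ * Real.log H

private theorem GE_ex_mono (K : Type) [Field K] [NumberField K] {η η' c₀ : ℝ} (h0 : 0 < η) (h : η ≤ η') (H ρ : ℕ)
    {q j s N : ℕ} (P : Ideal (MvPolynomial (Fin q) K)) (e : Fin j → ℕ) (f : Fin j → MvPolynomial (Fin q) (𝓞 K))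
    (d : Fin s → ℕ) (B : Finset (Fin s)) (g : Fin N → Fin s → MvPolynomial (Fin q) (𝓞 K)) (c : Fin N → ℤ)
    (hc : GE_ex K η c₀ H ρ P e f d B g c) : GE_ex K η' c₀ H ρ P e f d B g c := by
  intro hK
  apply hc
  intro L _ _ _ hL S hS1 hS2 x hx hxi hxD
  exact hK L hL S (GE_eta _ (Real.log_natCast_nonneg _) h0 h hS1) hS2 x hx hxi hxD

theorem mainG (K : Type) [Field K] [NumberField K] : ∃ δ η : ℝ, 0 < δ ∧ 0 < η ∧ ∀ (ρ q j r : ℕ)
    (P : Ideal (MvPolynomial (Fin q) K)) (e : Fin j → ℕ) (f : Fin j → MvPolynomial (Fin q) (𝓞 K)), 1 ≤ ρ → LVZ.Hm P →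
      (∀ l, 1 ≤ e l) → (∀ l, (f l).IsHomogeneous (e l)) → LVZ.GP P f r → ∃ d₀ : ℕ,
        (ρ = 1 → LVZ.Sh P e f r → d₀ ≤ 2) ∧
        ∀ (s N : ℕ) (d : Fin s → ℕ) (B : Finset (Fin s)) (g : Fin N → Fin s → MvPolynomial (Fin q) (𝓞 K)),
          (∀ i, 1 ≤ d i) → (∀ k i, (g k i).IsHomogeneous (d i)) →
            (((∀ i, LVZ.Cp g d i) ∧ ∃ n, r + j = n + Bᶜ.card + 1 ∧
              (ρ * n + 2 ≤ j + B.card ∧ (∀ i ∉ B, ρ ≤ d i + 1) ∨
                1 ≤ n ∧ 1 ≤ s ∧ j + B.card = ρ * n + 1 ∧ ∀ i, d₀ ≤ d i)) ∨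
              (ρ = 1 ∧ LVZ.GG P f g ∧ r ≤ s ∧ 2 ≤ j + B.card ∧
                (r < s ∨ (∃ i, d₀ ≤ d i ∧ LVZ.Cp g d i) ∨
                  ((∀ l, e l = 1) ∧ j ≤ 1 ∧ LVZ.GI P (r + j) ∧ LW.NL P ∧ ∀ i, LVZ.Cp g d i)))) →
              ∃ c₀ C : ℝ, 0 < c₀ ∧ ∀ H : ℕ, 1 ≤ H →
                (Nat.card {c : Fin N → ℤ // (∀ k, |c k| ≤ (H : ℤ)) ∧
                  ¬ ∀ (L : Type) [Field L] [NumberField L] [Algebra K L], Module.finrank K L ≤ ρ →
                    ∀ S : Finset (FinitePlace L), (S.card : ℝ) ≤ Real.log H ^ η →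
                      ∑ w ∈ S, Real.log (Ideal.absNorm w.maximalIdeal.asIdeal : ℝ) ≤ c₀ * Real.log H →
                        ∀ x : Fin q → L, (∀ h ∈ P, MvPolynomial.aeval x h = 0) → (∀ i ∉ B, LVZ.Fv g c i x = 0) →
                          LVZ.Dv f g B c x ≠ 0 → LVZ.mS S (LVZ.dg e d B) (LVZ.Dv f g B c x) x <
                            LVZ.dg e d B * (Height.logHeight x / Module.finrank ℚ L) - c₀ * Real.log H} : ℝ) ≤
                              C * (H : ℝ) ^ ((N : ℝ) - δ) := by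
  obtain ⟨δ1, η1, hδ1, hη1, h1⟩ := mainF K
  obtain ⟨δ2, η2, hδ2, hη2, h2⟩ := LVZ.main K
  have hη0 : 0 < min η1 η2 := lt_min hη1 hη2
  refine ⟨min δ1 δ2, min η1 η2, lt_min hδ1 hδ2, hη0, fun ρ q j r P e f hρ hP he hf hGP => ?_⟩
  obtain ⟨d1, h1⟩ := h1 ρ q j r P e f hρ hP he hf hGP
  obtain ⟨d2, h2s, h2⟩ := h2 q j r P e f hP he hf hGP
  -- the first theorem
  have hA : ∀ (s N n : ℕ) (d : Fin s → ℕ) (B : Finset (Fin s)) (g : Fin N → Fin s → MvPolynomial (Fin q) (𝓞 K)),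
      (∀ i, 1 ≤ d i) → (∀ k i, (g k i).IsHomogeneous (d i)) → (∀ i, LVZ.Cp g d i) → r + j = n + Bᶜ.card + 1 →
        (ρ * n + 2 ≤ j + B.card ∧ (∀ i, i ∉ B → ρ ≤ d i + 1) ∨
          1 ≤ s ∧ 1 ≤ n ∧ j + B.card = ρ * n + 1 ∧ ∀ i, d1 ≤ d i) →
          ∃ c₀ C : ℝ, 0 < c₀ ∧ ∀ H : ℕ, 1 ≤ H →
            (Nat.card {c : Fin N → ℤ // (∀ k, |c k| ≤ (H : ℤ)) ∧ GE_ex K (min η1 η2) c₀ H ρ P e f d B g c} : ℝ) ≤
              C * (H : ℝ) ^ ((N : ℝ) - min δ1 δ2) := by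
    intro s N n d B g hd hg hc hn hcase
    obtain ⟨c₀, C, hc₀, h⟩ := h1 s N n d B g hd hg hc hn hcase
    refine ⟨c₀, max C 0, hc₀, fun H hH => GE_pow hH (min_le_left δ1 δ2) ?_⟩
    refine (GE_mono H _ (GE_ex K η1 c₀ H ρ P e f d B g) fun c hc => ?_).trans (h H hH)
    exact GE_ex_mono K hη0 (min_le_left _ _) H ρ P e f d B g c hc
  -- the second theorem
  have hB : ρ = 1 → ∀ (s N : ℕ) (d : Fin s → ℕ) (B : Finset (Fin s))
      (g : Fin N → Fin s → MvPolynomial (Fin q) (𝓞 K)), (∀ i, 1 ≤ d i) → (∀ k i, (g k i).IsHomogeneous (d i)) →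
        LVZ.GG P f g → r ≤ s → 2 ≤ j + B.card → (r < s ∨ (∃ i, d2 ≤ d i ∧ LVZ.Cp g d i) ∨
          ((∀ l, e l = 1) ∧ j ≤ 1 ∧ LVZ.GI P (r + j) ∧ LW.NL P ∧ ∀ i, LVZ.Cp g d i)) →
          ∃ c₀ C : ℝ, 0 < c₀ ∧ ∀ H : ℕ, 1 ≤ H →
            (Nat.card {c : Fin N → ℤ // (∀ k, |c k| ≤ (H : ℤ)) ∧ GE_ex K (min η1 η2) c₀ H ρ P e f d B g c} : ℝ) ≤
              C * (H : ℝ) ^ ((N : ℝ) - min δ1 δ2) := by
    intro hρ1 s N d B g hd hg hGG hrs h2B hcase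
    obtain ⟨c₀, C, hc₀, h⟩ := h2 s N d B g hd hg hGG hrs h2B hcase
    refine ⟨c₀, max C 0, hc₀, fun H hH => GE_pow hH (min_le_right δ1 δ2) ?_⟩
    refine (GE_mono H _ (GE_ex K η2 c₀ H 1 P e f d B g) fun c hc => ?_).trans
      ((ext1 K P e f d B g he hf hd hg (by omega) η2 c₀ H).trans (h H hH))
    rw [← hρ1]
    exact GE_ex_mono K hη0 (min_le_right _ _) H ρ P e f d B g c hc
  refine ⟨if ρ = 1 then d2 else d1, fun h1' hSh => ?_, ?_⟩
  · rw [if_pos h1']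
    exact h2s hSh
  intro s N d B g hd hg hcase
  have hBc : B.card + Bᶜ.card = s := by
    rw [Finset.card_add_card_compl, Fintype.card_fin]
  show ∃ c₀ C : ℝ, 0 < c₀ ∧ ∀ H : ℕ, 1 ≤ H →
    (Nat.card {c : Fin N → ℤ // (∀ k, |c k| ≤ (H : ℤ)) ∧ GE_ex K (min η1 η2) c₀ H ρ P e f d B g c} : ℝ) ≤
      C * (H : ℝ) ^ ((N : ℝ) - min δ1 δ2)
  rcases hcase with ⟨hCp, n, hn, hcase⟩ | ⟨hρ1, hGG, hrs, h2B, hcase⟩
  · rcases hcase with hnc | ⟨hn1, hs1, hcr, hdd⟩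
    · exact hA s N n d B g hd hg hCp hn (Or.inl hnc)
    · by_cases hρ1 : ρ = 1
      · subst hρ1
        rw [if_pos rfl] at hdd
        exact hB rfl s N d B g hd hg (GG_of_Cp P f d g hCp) (by omega) (by omega)
          (Or.inr (Or.inl ⟨⟨0, hs1⟩, hdd _, hCp _⟩))
      · rw [if_neg hρ1] at hdd
        exact hA s N n d B g hd hg hCp hn (Or.inr ⟨hs1, hn1, hcr, hdd⟩)
  · rw [if_pos hρ1] at hcase
    exact hB hρ1 s N d B g hd hg hGG hrs h2B hcase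

end LVF
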