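import Pool.Agent.Lib.MP_17a322_ntLF.Defs
import Pool.Agent.Lib.MP_17a322_ntLF.N.N4
import Pool.Agent.Lib.MP_17a322_ntLF.N.NC
import Pool.Agent.Lib.MP_17a322_ntLY.F5

/-! Block A (helper98): the norms of the values of the forms at an almost integral point of an extension. -/

namespace LVF

open NumberField

/-- the forms over the ring of integers of the extension -/
noncomputable def up {K : Type} [Field K] [NumberField K] (L : Type) [Field L] [NumberField L] [Algebra K L] {q j : ℕ}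
    (f : Fin j → MvPolynomial (Fin q) (𝓞 K)) (l : Fin j) : MvPolynomial (Fin q) (𝓞 L) :=
  MvPolynomial.map (algebraMap (𝓞 K) (𝓞 L)) (f l)

/-- the place `w` of `L` is above an element of `S` -/
def Ab {K : Type} [Field K] [NumberField K] {L : Type} [Field L] [NumberField L] [Algebra K L]
    (S : Finset (FinitePlace K)) (w : FinitePlace L) : Prop :=
  ∃ v ∈ S, v.maximalIdeal.asIdeal = w.maximalIdeal.asIdeal.comap (algebraMap (𝓞 K) (𝓞 L))

/-- an element of `K` which is integral at all finite places is an algebraic integer -/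
private theorem Glob_int {K : Type} [Field K] [NumberField K] (z : K) (h : ∀ v : FinitePlace K, v z ≤ 1) :
    ∃ a : 𝓞 K, (a : K) = z := by
  have h1 : ∀ v : IsDedekindDomain.HeightOneSpectrum (𝓞 K), v.valuation K z ≤ 1 := by
    intro v
    have h2 := h (FinitePlace.mk v)
    rw [FinitePlace.mk_apply, FinitePlace.norm_embedding] at h2
    have h3 : WithZeroMulInt.toNNReal (NumberField.HeightOneSpectrum.absNorm_ne_zero v) (v.valuation K z) ≤ 1 := by
      exact_mod_cast h2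
    have h4 := (WithZeroMulInt.toNNReal_le_one_iff
      (NumberField.HeightOneSpectrum.one_lt_absNorm_nnreal v)).1 h3
    exact h4
  obtain ⟨a, ha⟩ := IsDedekindDomain.HeightOneSpectrum.mem_integers_of_valuation_le_one (R := 𝓞 K) K z h1
  exact ⟨a, ha⟩

open Classical in
theorem glob {K : Type} [Field K] [NumberField K] (S2 S : Finset (FinitePlace K))
    (hS2 : ∀ (ι : Type) [Fintype ι] (x : ι → K), x ≠ 0 →
      ∃ l : K, l ≠ 0 ∧ ∀ v : FinitePlace K, v ∉ S2 → (⨆ i, v (l * x i)) = 1)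
    {L : Type} [Field L] [NumberField L] [Algebra K L] (T : Finset (FinitePlace L)) (hT : ∀ w ∈ T, Ab S w)
    {q j s : ℕ} (e : Fin j → ℕ) (he : ∀ l, 1 ≤ e l) (f : Fin j → MvPolynomial (Fin q) (𝓞 K))
    (hf : ∀ l, (f l).IsHomogeneous (e l)) (d : Fin s → ℕ) (hd : ∀ i, 1 ≤ d i) (a : LVY.Mo (Fin q) d → K)
    (ha : ∀ (v : FinitePlace K) (t), v (a t) ≤ 1) (x : Fin q → L) (hx : x ≠ 0)
    (hD : LVY.Dv (up L f) (fun t => algebraMap K L (a t)) x ≠ 0) (B : ℝ)
    (hB : (LVY.dg e d : ℝ) * Height.logHeight x ≤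
      (Module.finrank ℚ L : ℝ) * LVY.mS T e (up L f) (fun t => algebraMap K L (a t)) x + B) :
    ∃ α : K, α ≠ 0 ∧ ∀ w : Fin j ⊕ Fin s, ∃ y : K, y ≠ 0 ∧
      Algebra.norm K (LVY.cmp (up L f) (fun t => algebraMap K L (a t)) x w) = α ^ (Sum.elim e d w) * y ∧
      (∀ v : FinitePlace K, v ∉ S ∪ S2 → v y ≤ 1) ∧
      (∑ᶠ v : FinitePlace K, if v ∈ S ∪ S2 then 0 else - Real.log (v y)) ≤ B := by
  obtain ⟨α, hα, hαv⟩ := LVN.alpha S2 hS2 x hx
  obtain ⟨c, hc⟩ : ∃ c : Fin j ⊕ Fin s → L, c = LVY.cmp (up L f) (fun t => algebraMap K L (a t)) x := ⟨_, rfl⟩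
  have hprod : ∏ w, c w = LVY.Dv (up L f) (fun t => algebraMap K L (a t)) x := by
    rw [hc, Fintype.prod_sum_type]
    rfl
  have hc0 : ∀ w, c w ≠ 0 := by
    rw [← hprod, Finset.prod_ne_zero_iff] at hD
    exact fun w => hD w (Finset.mem_univ w)
  have hn : (∑ w, (Sum.elim e d : Fin j ⊕ Fin s → ℕ) w) = LVY.dg e d := by
    rw [Fintype.sum_sum_type]
    rfl
  have hT' : ∀ w ∈ T, LVN.bel K w ∈ S ∪ S2 := by
    intro w hw
    obtain ⟨v, hv, hvw⟩ := hT w hw
    have h1 : LVN.bel K w = v := by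
      apply FinitePlace.maximalIdeal_injective
      apply IsDedekindDomain.HeightOneSpectrum.ext
      rw [LVN.bel_asIdeal, hvw]
    rw [h1]
    exact Finset.mem_union_left _ hv
  have hint : ∀ (v : FinitePlace L) (t : LVY.Mo (Fin q) d), v (algebraMap K L (a t)) ≤ 1 := by
    intro v t
    obtain ⟨b, hb⟩ := Glob_int (a t) fun v => ha v t
    have h1 : algebraMap K L (a t) = ((algebraMap (𝓞 K) (𝓞 L) b : 𝓞 L) : L) := by
      rw [← hb]
      rfl
    rw [h1]
    exact LVH.place_int L v _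
  have hv : ∀ (v : FinitePlace L) (w : Fin j ⊕ Fin s), v (c w) ≤ (⨆ i, v (x i)) ^ (Sum.elim e d : Fin j ⊕ Fin s → ℕ) w := by
    intro v w
    rw [hc]
    rcases w with l | i
    · exact LVY.aeval_le v ((hf l).map _) x
    · exact LVH.fv_le v (fun α => algebraMap K L (a ⟨i, α⟩)) (fun α => hint v ⟨i, α⟩) x
  have hB' : ((∑ w, (Sum.elim e d : Fin j ⊕ Fin s → ℕ) w : ℕ) : ℝ) * Height.logHeight x ≤
      (∑ v : InfinitePlace L, (v.mult : ℝ) * LVN.lm v.1 (∑ w, (Sum.elim e d : Fin j ⊕ Fin s → ℕ) w) (∏ w, c w) x +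
        ∑ v ∈ T, LVN.lm v.1 (∑ w, (Sum.elim e d : Fin j ⊕ Fin s → ℕ) w) (∏ w, c w) x) + B := by
    rw [hn, hprod]
    have hL : (Module.finrank ℚ L : ℝ) ≠ 0 := Nat.cast_ne_zero.2 Module.finrank_pos.ne'
    have hm : (Module.finrank ℚ L : ℝ) * LVY.mS T e (up L f) (fun t => algebraMap K L (a t)) x =
        ∑ v : InfinitePlace L, (v.mult : ℝ) * LVY.lam v.1 e (up L f) (fun t => algebraMap K L (a t)) x +
          ∑ v ∈ T, LVY.lam v.1 e (up L f) (fun t => algebraMap K L (a t)) x := by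
      rw [LVY.mS]
      exact mul_div_cancel₀ _ hL
    rw [hm] at hB
    exact hB
  refine ⟨α, hα, fun w => ?_⟩
  obtain ⟨h1, h2⟩ := LVN.comps (K := K) (S := T) (S0 := S ∪ S2) hT' hx (Sum.elim e d) c hc0 hv hα
    (fun v hv => hαv v fun h => hv (Finset.mem_union_right _ h)) hB' w
  refine ⟨Algebra.norm K (c w) / α ^ (Sum.elim e d : Fin j ⊕ Fin s → ℕ) w, ?_, ?_, h1, h2⟩
  · exact div_ne_zero (Algebra.norm_ne_zero_iff.2 (hc0 w)) (pow_ne_zero _ hα)
  · rw [← hc, mul_div_cancel₀ _ (pow_ne_zero _ hα)]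

end LVF
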