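import Pool.Agent.Lib.MP_17a322_ntLF.Defs

/-! Definitions of blocks C and D. -/

namespace LVF

open Finset

/-- the norm `b ^ (1 + p + ... + p ^ (f - 1))` -/
def nf {F : Type} [Field F] (p f : ℕ) (b : F) : F := b ^ ∑ i ∈ range f, p ^ i

/-- the vectors over the field with `p ^ f` elements -/
def Fx {p : ℕ} [Fact p.Prime] {q : ℕ} (f : ℕ) (x : Fin q → Kb p) : Prop := ∀ t, x t ^ p ^ f = x t

/-- the first `f` elements of the orbit of `x` under Frobenius -/
noncomputable def orb {p : ℕ} [Fact p.Prime] {q : ℕ} (f : ℕ) (x : Fin q → Kb p) : Multiset (Fin q → Kb p) :=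
  (Multiset.range f).map fun i => (fr p)^[i] x

end LVF
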