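import Pool.Agent.Lib.MP_17a322_ntLF.P1
import Pool.Agent.Lib.MP_17a322_ntLY.P1

/-!
# LEAF P2: the Bonferroni inequality

PROOF.  For each `a` let `n` be the number of the `i ∈ I` with `E i a`; the number of the `U ∈ I.powersetCard k` with `∀ i ∈ U, E i a` is `choose n k` (they are the elements of `(I.filter (E · a)).powersetCard k`).  By `LVY.bon`, `∑ k < 2 m, (-1) ^ k * choose n k ≤ 1` if `n = 0` and `≤ 0` otherwise.  Sum over `a` and divide by `#Ω`: the left side is the sum over `k` and `U` of `(-1) ^ k * Pr`, the right side the proportion of the `a` with `¬ ∃ i ∈ I, E i a`, i.e. `1 - Pr (∃ i ∈ I, E i a)`.  (As in `LVY.bonfG`, `MP_17a322_ntLY/P3.lean`, and `LVH.bonf`, `MP_17a322_ntLH/E4B.lean`.)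
-/

namespace LVF

open Finset

private theorem P2_pr {Ω : Type} [Fintype Ω] (X : Ω → Prop) [DecidablePred X] :
    Pr X = (∑ a, if X a then (1 : ℝ) else 0) / Fintype.card Ω := by
  unfold Pr
  rw [Nat.card_eq_fintype_card, Nat.card_eq_fintype_card, Fintype.card_subtype, Finset.sum_boole]

open Classical in
private theorem P2_cnt {Ω τ : Type} (I : Finset τ) (E : τ → Ω → Prop) (k : ℕ) (a : Ω) :
    ∑ U ∈ I.powersetCard k, (if ∀ i ∈ U, E i a then (1 : ℝ) else 0) = ((I.filter fun i => E i a).card.choose k : ℝ) := by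
  rw [Finset.sum_boole]
  have h : (I.powersetCard k).filter (fun U => ∀ i ∈ U, E i a) = (I.filter fun i => E i a).powersetCard k := by
    ext U
    simp only [mem_filter, mem_powersetCard]
    constructor
    · rintro ⟨⟨h1, h2⟩, h3⟩
      exact ⟨fun i hi => mem_filter.2 ⟨h1 hi, h3 i hi⟩, h2⟩
    · rintro ⟨h1, h2⟩
      exact ⟨⟨fun i hi => (mem_filter.1 (h1 hi)).1, h2⟩, fun i hi => (mem_filter.1 (h1 hi)).2⟩
  rw [h, card_powersetCard]

theorem bonI {Ω τ : Type} [Finite Ω] [Nonempty Ω] [DecidableEq τ] (I : Finset τ) (E : τ → Ω → Prop) (m : ℕ) (hm : 1 ≤ m) :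
    Pr (fun a => ∃ i ∈ I, E i a) ≤
      1 - ∑ k ∈ range (2 * m), (-1 : ℝ) ^ k * ∑ U ∈ I.powersetCard k, Pr (fun a => ∀ i ∈ U, E i a) := by
  classical
  have : Fintype Ω := Fintype.ofFinite Ω
  have hN : (0 : ℝ) < Fintype.card Ω := by exact_mod_cast Fintype.card_pos
  have h1 : ∑ k ∈ range (2 * m), (-1 : ℝ) ^ k * ∑ U ∈ I.powersetCard k, Pr (fun a => ∀ i ∈ U, E i a) =
      (∑ a, ∑ k ∈ range (2 * m), (-1 : ℝ) ^ k * ((I.filter fun i => E i a).card.choose k : ℝ)) / Fintype.card Ω := by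
    rw [Finset.sum_comm, Finset.sum_div]
    refine sum_congr rfl fun k _ => ?_
    simp only [P2_pr, ← P2_cnt]
    rw [← Finset.sum_div, Finset.sum_comm, ← Finset.mul_sum, mul_div_assoc]
  have h2 : ∑ a, ∑ k ∈ range (2 * m), (-1 : ℝ) ^ k * ((I.filter fun i => E i a).card.choose k : ℝ) ≤
      ∑ a, (1 - if ∃ i ∈ I, E i a then (1 : ℝ) else 0) := by
    refine sum_le_sum fun a _ => ?_
    have h3 := LVY.bon (I.filter fun i => E i a).card m hm
    have h4 : ∑ k ∈ range (2 * m), (-1 : ℝ) ^ k * ((I.filter fun i => E i a).card.choose k : ℝ) ≤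
        ((if (I.filter fun i => E i a).card = 0 then 1 else 0 : ℤ) : ℝ) := by
      exact_mod_cast h3
    refine h4.trans ?_
    by_cases hex : ∃ i ∈ I, E i a
    · have h5 : (I.filter fun i => E i a).card ≠ 0 := by
        obtain ⟨i, hi, hE⟩ := hex
        exact (card_pos.2 ⟨i, mem_filter.2 ⟨hi, hE⟩⟩).ne'
      rw [if_pos hex, if_neg h5]
      simp
    · rw [if_neg hex]
      split_ifs <;> simp
  rw [Finset.sum_sub_distrib, sum_const, card_univ, nsmul_eq_mul, mul_one] at h2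
  rw [h1, P2_pr, le_sub_iff_add_le, ← add_div, div_le_one hN]
  linarith

end LVF
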