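import Pool.Agent.Lib.MP_17a322_ntLF.P1

/-!
# LEAF P3: extension of a family

PROOF.  Induction on `t`.  Every `U' ∈ I.powersetCard (t + 1)` is `insert i U''` with `U'' ∈ I.powersetCard t`, `i ∈ I` (choose `i ∈ U'`, `U'' = U'.erase i`), and `∀ i' ∈ U0 ∪ U', E i' a` is the same as `(∀ i' ∈ U0 ∪ U'', E i' a) ∧ E i a`; so the sum over the `U'` is at most `∑ U'' ∈ I.powersetCard t, ∑ i ∈ I, Pr ((∀ i' ∈ U0 ∪ U'', E i' a) ∧ E i a)` (`Finset.sum_le_sum_of_injOn`-like: the map `U' ↦ (U'', i)` is injective, all terms are nonnegative), at most `∑ U'' B * Pr (∀ i' ∈ U0 ∪ U'', E i' a)` by `h3`, as `U0 ∪ U'' ⊆ I` has at most `U0.card + t < M` elements.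
-/

namespace LVF

open Finset

theorem extU {Ω τ : Type} [Finite Ω] [DecidableEq τ] (I : Finset τ) (E : τ → Ω → Prop) (M : ℕ) (B : ℝ) (hB : 0 ≤ B)
    (h3 : ∀ U ⊆ I, U.card < M → ∑ i ∈ I, Pr (fun a => (∀ i' ∈ U, E i' a) ∧ E i a) ≤ B * Pr (fun a => ∀ i' ∈ U, E i' a))
    (U0 : Finset τ) (h0 : U0 ⊆ I) (t : ℕ) (ht : U0.card + t ≤ M) :
    ∑ U ∈ I.powersetCard t, Pr (fun a => ∀ i ∈ U0 ∪ U, E i a) ≤ B ^ t * Pr (fun a => ∀ i ∈ U0, E i a) := by
  induction t with
  | zero =>
    rw [powersetCard_zero, sum_singleton, union_empty, pow_zero, one_mul]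
  | succ t ih =>
    classical
    obtain hτ | hτ := isEmpty_or_nonempty τ
    · rw [Finset.eq_empty_of_isEmpty I, powersetCard_eq_empty.2 (by rw [card_empty]; omega), sum_empty]
      exact mul_nonneg (pow_nonneg hB _) (pr_nonneg _)
    have hne : ∀ U ∈ I.powersetCard (t + 1), ∃ i, i ∈ U := fun U hU => by
      have := (mem_powersetCard.1 hU).2
      exact card_pos.1 (by omega)
    choose! c hc using hne
    have hinj : Set.InjOn (fun U => (U.erase (c U), c U)) (I.powersetCard (t + 1) : Set (Finset τ)) := by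
      intro U hU V hV h
      rw [Prod.mk.injEq] at h
      have h1 := insert_erase (hc U (mem_coe.1 hU))
      have h2 := insert_erase (hc V (mem_coe.1 hV))
      rw [← h1, h.1, h.2, h2]
    calc ∑ U ∈ I.powersetCard (t + 1), Pr (fun a => ∀ i ∈ U0 ∪ U, E i a)
        ≤ ∑ U ∈ I.powersetCard (t + 1),
            (fun x : Finset τ × τ => Pr (fun a => (∀ i' ∈ U0 ∪ x.1, E i' a) ∧ E x.2 a)) (U.erase (c U), c U) := by
          refine sum_le_sum fun U hU => pr_mono fun a ha => ⟨fun i' hi' => ha i' ?_, ha _ ?_⟩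
          · rcases mem_union.1 hi' with h | h
            · exact mem_union_left _ h
            · exact mem_union_right _ (mem_of_mem_erase h)
          · exact mem_union_right _ (hc U hU)
      _ = ∑ x ∈ (I.powersetCard (t + 1)).image (fun U => (U.erase (c U), c U)),
            (fun x : Finset τ × τ => Pr (fun a => (∀ i' ∈ U0 ∪ x.1, E i' a) ∧ E x.2 a)) x := by
          rw [sum_image hinj]
      _ ≤ ∑ x ∈ (I.powersetCard t) ×ˢ I,
            (fun x : Finset τ × τ => Pr (fun a => (∀ i' ∈ U0 ∪ x.1, E i' a) ∧ E x.2 a)) x := by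
          refine sum_le_sum_of_subset_of_nonneg ?_ (fun _ _ _ => pr_nonneg _)
          intro x hx
          obtain ⟨U, hU, rfl⟩ := mem_image.1 hx
          obtain ⟨h1, h2⟩ := mem_powersetCard.1 hU
          refine mem_product.2 ⟨mem_powersetCard.2 ⟨(erase_subset _ _).trans h1, ?_⟩, h1 (hc U hU)⟩
          rw [card_erase_of_mem (hc U hU), h2, Nat.add_sub_cancel]
      _ = ∑ U ∈ I.powersetCard t, ∑ i ∈ I, Pr (fun a => (∀ i' ∈ U0 ∪ U, E i' a) ∧ E i a) := by
          rw [sum_product]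
      _ ≤ ∑ U ∈ I.powersetCard t, B * Pr (fun a => ∀ i' ∈ U0 ∪ U, E i' a) := by
          refine sum_le_sum fun U hU => ?_
          obtain ⟨h1, h2⟩ := mem_powersetCard.1 hU
          refine h3 (U0 ∪ U) (union_subset h0 h1) ?_
          have := card_union_le U0 U
          omega
      _ = B * ∑ U ∈ I.powersetCard t, Pr (fun a => ∀ i' ∈ U0 ∪ U, E i' a) := by
          rw [mul_sum]
      _ ≤ B * (B ^ t * Pr (fun a => ∀ i ∈ U0, E i a)) := mul_le_mul_of_nonneg_left (ih (by omega)) hB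
      _ = B ^ (t + 1) * Pr (fun a => ∀ i ∈ U0, E i a) := by ring

end LVF
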