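import Pool.Agent.Lib.MP_17a322_ntLF.N.N13
import Pool.Agent.Lib.MP_17a322_ntLF.N.N14

/-! Block B (helper98): the reduction of a point of degree `m` modulo a place of degree one.  From `redS` (a Frobenius
stable family) by scaling one member and the Chow form. -/

namespace LVF

open NumberField
open LVH (Pl Rd)

private theorem redS_hom {K : Type} [Field K] [NumberField K] {p : ℕ} [Fact p.Prime] {π : Pl K p} {q n : ℕ}
    {h : MvPolynomial (Fin q) K} {h' : MvPolynomial (Fin q) (ZMod p)} (hr : ∀ e, Rd π (h.coeff e) (h'.coeff e))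
    (hh : h.IsHomogeneous n) : h'.IsHomogeneous n := by
  intro e he
  refine hh fun h0 => he ?_
  have h1 := hr e
  rw [h0] at h1
  exact h1.unique Rd.zero

private theorem redS_smul {K : Type} [Field K] [NumberField K] {p : ℕ} [Fact p.Prime] {π : Pl K p} {q n : ℕ}
    {h : MvPolynomial (Fin q) K} {h' : MvPolynomial (Fin q) (ZMod p)} (hr : ∀ e, Rd π (h.coeff e) (h'.coeff e))
    (hh : h.IsHomogeneous n) {z : Fin q → Kb p} (hz : MvPolynomial.aeval z h' = 0) (c : Kb p) :
    MvPolynomial.aeval (c • z) h' = 0 := by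
  rw [scal_aeval c z h' (redS_hom hr hh), hz, mul_zero]

theorem red {K L : Type} [Field K] [NumberField K] [Field L] [NumberField L] [Algebra K L] {p : ℕ} [Fact p.Prime]
    (π : Pl K p) {q : ℕ} (x : Fin q → L) (hx : x ≠ 0) {W : Type} (d : W → ℕ) (hd : ∀ w, 1 ≤ d w)
    (h : W → MvPolynomial (Fin q) K) (h' : W → MvPolynomial (Fin q) (ZMod p)) (hh : ∀ w, (h w).IsHomogeneous (d w))
    (hr : ∀ w e, Rd π ((h w).coeff e) ((h' w).coeff e)) (y : W → K) (y' : W → ZMod p) (hy : ∀ w, Rd π (y w) (y' w))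
    (hy' : ∀ w, y' w ≠ 0) (α : K) (hα : α ≠ 0)
    (hN : ∀ w, Algebra.norm K (MvPolynomial.aeval x (h w)) = α ^ d w * y w) {V : Type}
    (g : V → MvPolynomial (Fin q) K) (g' : V → MvPolynomial (Fin q) (ZMod p)) (hg : ∀ v, ∃ n, (g v).IsHomogeneous n)
    (hgr : ∀ v e, Rd π ((g v).coeff e) ((g' v).coeff e)) (hg0 : ∀ v, MvPolynomial.aeval x (g v) = 0) :
    ∃ z : Fin (Module.finrank K L) → Fin q → Kb p, (∀ k, z k ≠ 0) ∧
      (∃ Φ : MvPolynomial (Fin q) (ZMod p), MvPolynomial.map (algebraMap (ZMod p) (Kb p)) Φ = ∏ k, lf (z k)) ∧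
      (∀ k v, MvPolynomial.aeval (z k) (g' v) = 0) ∧
      ((∀ w, ∏ k, MvPolynomial.aeval (z k) (h' w) = algebraMap (ZMod p) (Kb p) (y' w)) ∨
        ∀ w, ∏ k, MvPolynomial.aeval (z k) (h' w) = 0) := by
  classical
  obtain ⟨z, s, hz, hs, hg', hc⟩ := redS π x hx d hd h h' hh hr y y' hy hy' α hα hN g g' hg hgr hg0
  obtain ⟨Φ, hΦ⟩ := chow z s hs
  rcases hc with ⟨μ, hμ, hw⟩ | hw
  · have hm : 0 < Module.finrank K L := Module.finrank_pos
    obtain ⟨k0, hk0⟩ : ∃ k0 : Fin (Module.finrank K L), k0 = ⟨0, hm⟩ := ⟨_, rfl⟩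
    obtain ⟨c, hcc⟩ : ∃ c : Kb p, c = algebraMap (ZMod p) (Kb p) μ⁻¹ := ⟨_, rfl⟩
    have hc0 : c ≠ 0 := by
      rw [hcc]
      exact (map_ne_zero _).2 (inv_ne_zero hμ)
    have hcμ : c * algebraMap (ZMod p) (Kb p) μ = 1 := by
      rw [hcc, ← map_mul, inv_mul_cancel₀ hμ, map_one]
    refine ⟨Function.update z k0 (c • z k0), fun k => ?_, ⟨MvPolynomial.C μ⁻¹ * Φ, ?_⟩, fun k v => ?_, Or.inl fun w => ?_⟩
    · rcases eq_or_ne k k0 with rfl | hk
      · rw [Function.update_self]
        exact smul_ne_zero hc0 (hz _)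
      · rw [Function.update_of_ne hk]
        exact hz _
    · rw [map_mul, MvPolynomial.map_C, hΦ, ← hcc,
        ← Finset.mul_prod_erase Finset.univ (fun k => lf (z k)) (Finset.mem_univ k0),
        ← Finset.mul_prod_erase Finset.univ (fun k => lf (Function.update z k0 (c • z k0) k)) (Finset.mem_univ k0),
        Function.update_self, scal_lf, mul_assoc]
      congr 2
      refine Finset.prod_congr rfl fun k hk => ?_
      rw [Function.update_of_ne (Finset.ne_of_mem_erase hk)]
    · rcases eq_or_ne k k0 with rfl | hk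
      · obtain ⟨n, hn⟩ := hg v
        rw [Function.update_self]
        exact redS_smul (hgr v) hn (hg' _ v) c
      · rw [Function.update_of_ne hk]
        exact hg' _ _
    · have h1 : MvPolynomial.aeval (c • z k0) (h' w) = c ^ d w * MvPolynomial.aeval (z k0) (h' w) :=
        scal_aeval c (z k0) (h' w) (redS_hom (hr w) (hh w))
      rw [← Finset.mul_prod_erase Finset.univ
          (fun k => MvPolynomial.aeval (Function.update z k0 (c • z k0) k) (h' w)) (Finset.mem_univ k0),
        Function.update_self, h1]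
      have h2 : ∏ k ∈ Finset.univ.erase k0, MvPolynomial.aeval (Function.update z k0 (c • z k0) k) (h' w) =
          ∏ k ∈ Finset.univ.erase k0, MvPolynomial.aeval (z k) (h' w) := by
        refine Finset.prod_congr rfl fun k hk => ?_
        rw [Function.update_of_ne (Finset.ne_of_mem_erase hk)]
      rw [h2, mul_assoc, Finset.mul_prod_erase Finset.univ (fun k => MvPolynomial.aeval (z k) (h' w))
        (Finset.mem_univ k0), hw w, map_mul, map_pow, ← mul_assoc, ← mul_pow, hcμ, one_pow, one_mul]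
  · exact ⟨z, hz, ⟨Φ, hΦ⟩, hg', Or.inr hw⟩

end LVF
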