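import Pool.Agent.Lib.MP_17a322_ntLF.N.N3
import Pool.Agent.Lib.MP_17a322_ntLF.N.NH
import Pool.Agent.Lib.MP_17a322_ntLZ.Defs

/-!
# Extensions of degree one: transport of the inequality to the base field

For `[L : K] = 1` the places below give a bijection of the finite places of `L` and of `K`, and the difference
`n h(x) - m_S(x)` is the sum of the local heights outside `S`, divided by the degree.
-/

namespace LVN

open NumberField

variable {K L : Type} [Field K] [NumberField K] [Field L] [NumberField L] [Algebra K L]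

theorem tp_surj (h1 : Module.finrank K L ≤ 1) : Function.Surjective (algebraMap K L) := by
  have h2 : Module.finrank K L = 1 := le_antisymm h1 Module.finrank_pos
  intro y
  have h3 := (finrank_eq_one_iff_of_nonzero' (1 : L) one_ne_zero).1 h2 y
  obtain ⟨c, hc⟩ := h3
  refine ⟨c, ?_⟩
  rw [← hc, Algebra.smul_def, mul_one]

theorem tp_surjO (h1 : Module.finrank K L ≤ 1) : Function.Surjective (algebraMap (𝓞 K) (𝓞 L)) := by
  intro y
  obtain ⟨x, hx⟩ := tp_surj h1 (y : L)
  have h2 : IsIntegral ℤ x := by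
    have h3 : IsIntegral ℤ (algebraMap K L x) := by
      rw [hx]
      exact y.isIntegral_coe
    exact (isIntegral_algebraMap_iff (FaithfulSMul.algebraMap_injective K L)).1 h3
  refine ⟨⟨x, h2⟩, ?_⟩
  apply RingOfIntegers.ext
  rw [← hx]
  rfl

theorem tp_inj (h1 : Module.finrank K L ≤ 1) : Function.Injective (bel K : FinitePlace L → FinitePlace K) := by
  intro w w' h
  apply FinitePlace.maximalIdeal_injective
  apply IsDedekindDomain.HeightOneSpectrum.ext
  have h2 : w.maximalIdeal.asIdeal.under (𝓞 K) = w'.maximalIdeal.asIdeal.under (𝓞 K) := by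
    rw [← bel_asIdeal, ← bel_asIdeal, h]
  exact Ideal.comap_injective_of_surjective _ (tp_surjO h1) h2

theorem tp_apply (h1 : Module.finrank K L ≤ 1) (w : FinitePlace L) (a : K) : w (algebraMap K L a) = bel K w a := by
  rcases eq_or_ne a 0 with rfl | ha
  · rw [map_zero, map_zero, map_zero]
  have h2 : Module.finrank K L = 1 := le_antisymm h1 Module.finrank_pos
  have h3 := norm_place (bel K w) (algebraMap K L a) ((map_ne_zero _).2 ha)
  rw [Algebra.norm_algebraMap, h2, pow_one] at h3
  have h4 : fib L (bel K w) = {w} := by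
    ext w'
    rw [mem_fib, Finset.mem_singleton]
    exact ⟨fun h => tp_inj h1 h, fun h => by rw [h]⟩
  rw [h3, h4, Finset.prod_singleton]

theorem tp_surj' (h1 : Module.finrank K L ≤ 1) : Function.Surjective (bel K : FinitePlace L → FinitePlace K) := by
  intro v
  by_contra hcon
  push Not at hcon
  have h4 : fib L v = ∅ := by
    ext w'
    rw [mem_fib]
    exact ⟨fun h => absurd h (hcon w'), fun h => absurd h (Finset.notMem_empty _)⟩
  obtain ⟨a, ha, ha0⟩ : ∃ a : 𝓞 K, a ∈ v.maximalIdeal.asIdeal ∧ a ≠ 0 :=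
    Submodule.exists_mem_ne_zero_of_ne_bot v.maximalIdeal.ne_bot
  have haK : (a : K) ≠ 0 := by
    rwa [Ne, RingOfIntegers.coe_eq_zero_iff]
  have h3 := norm_place (L := L) v (algebraMap K L a) ((map_ne_zero _).2 haK)
  have h2 : Module.finrank K L = 1 := le_antisymm h1 Module.finrank_pos
  rw [Algebra.norm_algebraMap, h2, pow_one, h4, Finset.prod_empty] at h3
  have h5 := (FinitePlace.norm_lt_one_iff_mem K v.maximalIdeal a).2 ha
  rw [FinitePlace.norm_embedding_eq] at h5
  have h6 : v (a : K) < 1 := h5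
  rw [h3] at h6
  exact lt_irrefl _ h6

theorem tp_finrank (h1 : Module.finrank K L ≤ 1) : Module.finrank ℚ L = Module.finrank ℚ K := by
  have h2 : Module.finrank K L = 1 := le_antisymm h1 Module.finrank_pos
  rw [← Module.finrank_mul_finrank ℚ K L, h2, mul_one]

theorem tp_lm (h1 : Module.finrank K L ≤ 1) {σ : Type} (w : FinitePlace L) (n : ℕ) (y : K) (x : σ → K) :
    lm w.1 n (algebraMap K L y) (fun i => algebraMap K L (x i)) = lm (bel K w).1 n y x := by
  have h2 : ∀ a : K, w.1 (algebraMap K L a) = (bel K w).1 a := fun a => tp_apply h1 w a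
  unfold lm
  simp only [h2]

open Classical in
theorem transport (h1 : Module.finrank K L ≤ 1) {σ : Type} [Fintype σ] (n : ℕ) (S : Finset (FinitePlace L))
    {x : σ → K} (hx : x ≠ 0) {y : K} (hy : y ≠ 0) :
    n * (Height.logHeight (fun i => algebraMap K L (x i)) / Module.finrank ℚ L) -
        LVZ.mS S n (algebraMap K L y) (fun i => algebraMap K L (x i)) =
      n * (Height.logHeight x / Module.finrank ℚ K) - LVZ.mS (S.image (bel K)) n y x := by
  have hinj := FaithfulSMul.algebraMap_injective K L
  have hxL : (fun i => algebraMap K L (x i)) ≠ 0 := by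
    obtain ⟨i, hi⟩ := Function.ne_iff.1 hx
    refine Function.ne_iff.2 ⟨i, ?_⟩
    exact (map_ne_zero _).2 hi
  have hyL : algebraMap K L y ≠ 0 := (map_ne_zero _).2 hy
  obtain ⟨-, hL⟩ := height_lm n hxL hyL
  obtain ⟨-, hK⟩ := height_lm n hx hy
  have e1 : ∑ᶠ v : FinitePlace L, lm v.1 n (algebraMap K L y) (fun i => algebraMap K L (x i)) =
      ∑ᶠ v : FinitePlace K, lm v.1 n y x := by
    let E : FinitePlace L ≃ FinitePlace K := Equiv.ofBijective _ ⟨tp_inj h1, tp_surj' h1⟩
    rw [← finsum_comp_equiv E]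
    refine finsum_congr fun w => ?_
    exact tp_lm h1 w n y x
  have e2 : ∑ v ∈ S, lm v.1 n (algebraMap K L y) (fun i => algebraMap K L (x i)) =
      ∑ v ∈ S.image (bel K), lm v.1 n y x := by
    rw [Finset.sum_image fun a _ b _ h => tp_inj h1 h]
    exact Finset.sum_congr rfl fun w _ => tp_lm h1 w n y x
  have f1 : LVZ.mS S n (algebraMap K L y) (fun i => algebraMap K L (x i)) =
      (∑ v : InfinitePlace L, (v.mult : ℝ) * lm v.1 n (algebraMap K L y) (fun i => algebraMap K L (x i)) +
        ∑ v ∈ S, lm v.1 n (algebraMap K L y) (fun i => algebraMap K L (x i))) / Module.finrank ℚ L := rfl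
  have f2 : LVZ.mS (S.image (bel K)) n y x =
      (∑ v : InfinitePlace K, (v.mult : ℝ) * lm v.1 n y x + ∑ v ∈ S.image (bel K), lm v.1 n y x) /
        Module.finrank ℚ K := rfl
  rw [f1, f2, ← mul_div_assoc, ← mul_div_assoc, hL, hK, e1, e2, tp_finrank h1]
  ring

end LVN
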